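import Pool.Agent.Lib.MP_17a322_nt.EQ.Defs
import Pool.Agent.Lib.MP_17a322_nt.RAT.Defs

/-!
The Bombieri-Lang statement for pairs: definitions.

Heights are not divided by the degree of the number field, see the file `EQ/Defs.lean`, which has the
definitions of `IsPt`, `Tan`, `hPl`, `Smooth` and `Snc`.
-/

universe u

namespace Pool.Agent.Lib.MP_17a322_nt.BI

open MvPolynomial Height NumberField
open Pool.Agent.Lib.MP_17a322_nt.EQ
open Pool.Agent.Lib.MP_17a322_nt.RAT (IsRat)

section

variable {K L : Type u} [Field K] [Field L] [NumberField L] [Algebra K L] {ι κ : Type} [Fintype ι]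

/-- The height over `L` with respect to the canonical class of the point `p` over `L` of the smooth
projective variety over `K` with the ideal `J`: the height of the tangent space of the cone minus its
dimension times the height of `p`. For `L = K` this is `hCan`. -/
noncomputable def hK (J : Ideal (MvPolynomial ι K)) (p : ι → L) : ℝ :=
  hPl (Tan J p) - Module.finrank L (Tan J p) * logHeight p

/-- The height over `L` of the point `p` with respect to the closed subscheme with the equations `g j = 0`,
which are forms of degree `e`: `e` times the height of `p` minus the height of the vector of the numbers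
`g j (p)`. It is the sum over all places of the local heights `e log |p|_v - log max_j |g j (p)|_v`, which are
bounded below, and they are zero at almost all places. -/
noncomputable def hB (e : ℕ) (g : κ → MvPolynomial ι K) (p : ι → L) : ℝ :=
  e * logHeight p - logHeight fun j => aeval p (g j)

end

/-- `K_Y + c D` is big, for the projective variety `Y` over `K` with the ideal `J` and the closed subscheme `D` with
the equations `g j = 0`, in terms of heights: there are `M` and `C` such that `h ≤ M (h_{K_Y} + c h_D) + C [L : ℚ]`
holds for the points of `Y` over all number fields `L` which contain `K`, outside a proper closed subset of `Y`.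

If `M (K_Y + c D) - H` is linearly equivalent to an effective divisor, `H` a hyperplane section, this holds. If it
holds then `M (K_Y + c D) - H` has nonnegative degree on every curve which is not contained in the closed subset, so
by the theorem of Boucksom, Demailly, Paun and Peternell it is pseudo-effective, and `M (K_Y + c D)` is big. So for
a smooth variety `Y` and an effective divisor `D` the inequality holds (for some `M`, `C`) if and only if the class
`K_Y + c D` is big. -/
def Big {K : Type u} [Field K] {ι κ : Type} [Fintype ι] (J : Ideal (MvPolynomial ι K)) (e : ℕ)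
    (g : κ → MvPolynomial ι K) (c : ℝ) : Prop :=
  ∃ (M : ℕ) (C : ℝ) (G : MvPolynomial ι K), G ∉ J ∧ (∃ d, G.IsHomogeneous d) ∧
    ∀ (L : Type u) [Field L] [NumberField L] [Algebra K L] (p : ι → L), IsPt J p → aeval p G ≠ 0 →
      logHeight p ≤ M * (hK J p + c * hB e g p) + C * Module.finrank ℚ L

/-- Vojta's conjecture with `D = 0` for one projective variety `X` over `K` with the ideal `J`, one number `ε` and the
points over one number field `L` which contains `K`: the inequality `h_{K_X} ≤ ε h + O(1)` holds for the points of `X`
over `L` outside a proper closed subset `G = 0` (of `X`, over `K`). -/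
def Ineq {K : Type u} [Field K] {ι : Type} [Fintype ι] (J : Ideal (MvPolynomial ι K)) (L : Type u) [Field L]
    [NumberField L] [Algebra K L] (ε : ℝ) : Prop :=
  ∃ (G : MvPolynomial ι K) (C : ℝ), G ∉ J ∧ (∃ d, G.IsHomogeneous d) ∧
    ∀ p : ι → L, IsPt J p → aeval p G ≠ 0 → hK J p ≤ ε * logHeight p + C

/-- The points `p` over the number field `L`, which contains `K`, of the projective variety `Y` over `K` with
`h_D(p) ≤ C` are not Zariski dense in `Y`: they lie in a proper closed subset `G = 0` (of `Y`, over `K`). -/
def NotDense {K : Type u} [Field K] {ι κ : Type} [Fintype ι] (J : Ideal (MvPolynomial ι K)) (L : Type u) [Field L]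
    [NumberField L] [Algebra K L] (e : ℕ) (g : κ → MvPolynomial ι K) (C : ℝ) : Prop :=
  ∃ G : MvPolynomial ι K, G ∉ J ∧ (∃ d, G.IsHomogeneous d) ∧ ∀ p : ι → L, IsPt J p → hB e g p ≤ C → aeval p G = 0

/-- There is a proper closed subset `G = 0` of the projective variety `Y` over `K` with the ideal `J` such that for
every `C` the points `p` of `Y` over `L` outside it with `h_D(p) ≤ C` have bounded height, so there are finitely
many. -/
def Few {K : Type u} [Field K] {ι κ : Type} [Fintype ι] (J : Ideal (MvPolynomial ι K)) (L : Type u) [Field L]
    [NumberField L] [Algebra K L] (e : ℕ) (g : κ → MvPolynomial ι K) : Prop :=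
  ∃ G : MvPolynomial ι K, G ∉ J ∧ (∃ d, G.IsHomogeneous d) ∧ ∀ C : ℝ, ∃ R : ℝ, ∀ p : ι → L,
    IsPt J p → aeval p G ≠ 0 → hB e g p ≤ C → logHeight p ≤ R

/-- For every `C` the points `p` of the projective variety `Y` over `K` with `h_D(p) ≤ C` have bounded height outside
a proper closed subset `G = 0`, which may depend on `C`. By Northcott's theorem this says, if the dimension of `Y` is
positive, that for every `C` these points are not Zariski dense in `Y`. -/
def NonDense {K : Type u} [Field K] [NumberField K] {ι κ : Type} [Fintype ι] [Fintype κ]
    (J : Ideal (MvPolynomial ι K)) (e : ℕ) (g : κ → MvPolynomial ι K) : Prop :=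
  ∀ C : ℝ, ∃ (G : MvPolynomial ι K) (R : ℝ), G ∉ J ∧ (∃ d, G.IsHomogeneous d) ∧ ∀ p : ι → K,
    IsPt J p → eval p G ≠ 0 → hB e g p ≤ C → logHeight p ≤ R

/-- The Bombieri-Lang conjecture over `K` for pairs of dimension `n` and the number `c`: let `Y` be a smooth projective
variety over `K` of dimension `n` and `D` a smooth divisor on `Y` such that `K_Y + c D` is big. For every `C` the
points of `Y` over `K` with `h_D(p) ≤ C`, that is, the ones which are integral with respect to `D` at all places up to
`C`, the infinite ones included, are not Zariski dense in `Y`. For `D = 0` this is the Bombieri-Lang conjecture. -/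
def BomLang (K : Type u) [Field K] [NumberField K] (n : ℕ) (c : ℝ) : Prop :=
  ∀ (ι κ : Type) [Fintype ι] [Fintype κ] (J : Ideal (MvPolynomial ι K)) (e : ℕ) (g : κ → MvPolynomial ι K),
    Smooth J n → Snc J e (fun _ : Unit => g) → Big J e g c → NonDense J e g

/-- The Bombieri-Lang statement over `K` for pairs `(Y, D)` of a rational projective variety `Y` over `K`, which may be
singular, and a closed subscheme `D`, such that `K_Y + c D` is big: for every `C` the points of `Y` over `K` with
`h_D(p) ≤ C` are not Zariski dense. For a singular variety `hK`, the height of the tangent space of the cone minus its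
dimension times the height of the point, takes the place of the height with respect to the canonical class. -/
def BomLangR (K : Type u) [Field K] [NumberField K] (c : ℝ) : Prop :=
  ∀ (ι κ : Type) [Fintype ι] [Fintype κ] (J : Ideal (MvPolynomial ι K)) (e : ℕ) (g : κ → MvPolynomial ι K),
    J.IsPrime → (∀ F ∈ J, ∀ i, homogeneousComponent i F ∈ J) → IsRat J → (∀ j, (g j).IsHomogeneous e) →
    Big J e g c → NonDense J e g

end Pool.Agent.Lib.MP_17a322_nt.BI
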