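import Pool.Agent.Lib.MP_17a322_nt.BI.Q3
import Pool.Agent.Lib.MP_17a322_nt.EQ.D1b
import Pool.Agent.Lib.MP_17a322_nt.EQ.D2
import Pool.Agent.Lib.MP_17a322_nt.EQ.H1

/-!
The Gauss map of a projective variety, which may be singular.
-/

universe u

namespace Pool.Agent.Lib.MP_17a322_nt.BI

open MvPolynomial Height NumberField
open Pool.Agent.Lib.MP_17a322_nt.EQ

/-- Linearly independent rows have a nonzero maximal minor. -/
private theorem G0_minor {L ι : Type*} [Field L] [Fintype ι] {m : ℕ} (A : Fin m → ι → L)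
    (hA : LinearIndependent L A) : ∃ s : Fin m → ι, (Matrix.of fun k l => A k (s l)).det ≠ 0 := by
  classical
  have h1 : (Matrix.of A).rank = m := by
    have h2 : LinearIndependent L (Matrix.of A).row := hA
    rw [h2.rank_matrix, Fintype.card_fin]
  obtain ⟨κ, a, ha, hspan, hli⟩ := exists_linearIndependent' L (Matrix.of A).col
  have : Finite κ := Finite.of_injective a ha
  have : Fintype κ := Fintype.ofFinite κ
  have h3 : Fintype.card κ = m := by
    rw [← h1, Matrix.rank_eq_finrank_span_cols, ← hspan, finrank_span_eq_card hli]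
  let e : Fin m ≃ κ := (Fintype.equivFinOfCardEq h3).symm
  refine ⟨fun l => a (e l), ?_⟩
  have h4 : LinearIndependent L (((Matrix.of A).col ∘ a) ∘ e) := hli.comp e e.injective
  have h5 : LinearIndependent L (Matrix.of fun k l => A k (a (e l))).col := h4
  rw [Matrix.linearIndependent_cols_iff_isUnit, Matrix.isUnit_iff_isUnit_det] at h5
  exact h5.ne_zero

/-- Rows with a nonzero maximal minor are linearly independent. -/
private theorem G0_indep {L ι : Type*} [Field L] {m : ℕ} (A : Fin m → ι → L) (s : Fin m → ι)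
    (h : (Matrix.of fun k l => A k (s l)).det ≠ 0) : LinearIndependent L A := by
  classical
  have h1 : LinearIndependent L (Matrix.of fun k l => A k (s l)).row := by
    rw [Matrix.linearIndependent_rows_iff_isUnit, Matrix.isUnit_iff_isUnit_det]
    exact h.isUnit
  have h2 : LinearIndependent L (LinearMap.funLeft L L s ∘ A) := h1
  exact LinearIndependent.of_comp _ h2

/-- The dimension of the common kernel of linearly independent functionals. -/
private theorem G0_ker {L ι : Type*} [Field L] [Fintype ι] {r : ℕ} (A : Fin r → ι → L)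
    (hA : LinearIndependent L A) :
    r + Module.finrank L (LinearMap.ker (Matrix.of A).mulVecLin) = Fintype.card ι := by
  classical
  have h1 : (Matrix.of A).rank = r := by
    have h2 : LinearIndependent L (Matrix.of A).row := hA
    rw [h2.rank_matrix, Fintype.card_fin]
  have h2 := (Matrix.of A).mulVecLin.finrank_range_add_finrank_ker
  rw [Module.finrank_fintype_fun_eq_card] at h2
  have h3 : Module.finrank L (LinearMap.range (Matrix.of A).mulVecLin) = r := h1
  rw [← h2, h3]

private theorem G0_mem_ker {L ι : Type*} [Field L] [Fintype ι] {r : ℕ} (A : Fin r → ι → L)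
    (y : ι → L) : y ∈ LinearMap.ker (Matrix.of A).mulVecLin ↔ ∀ s, ∑ i, A s i * y i = 0 := by
  rw [LinearMap.mem_ker, Matrix.mulVecLin_apply, funext_iff]
  rfl

/-- The determinant of a matrix of forms. -/
private theorem G0_det_hom {K ι : Type*} [CommRing K] {r : ℕ}
    (A : Matrix (Fin r) (Fin r) (MvPolynomial ι K)) (δ : Fin r → ℕ)
    (h : ∀ s t, (A s t).IsHomogeneous (δ s)) : A.det.IsHomogeneous (∑ s, δ s) := by
  classical
  rw [Matrix.det_apply]
  refine IsHomogeneous.sum _ _ _ fun σ _ => ?_
  have h1 : (∏ i, A (σ i) i).IsHomogeneous (∑ s, δ s) := by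
    have h2 := IsHomogeneous.prod Finset.univ (fun i => A (σ i) i) (fun i => δ (σ i))
      fun i _ => h (σ i) i
    rwa [Equiv.sum_comp σ δ] at h2
  rcases Int.units_eq_one_or (Equiv.Perm.sign σ) with h3 | h3
  · rw [h3, one_smul]
    exact h1
  · rw [h3, Units.neg_smul, one_smul]
    exact h1.neg

section

variable {K : Type u} [Field K] {ι : Type} [Fintype ι] {J : Ideal (MvPolynomial ι K)}

omit [Fintype ι] in
private theorem G0_det {L : Type u} [Field L] [Algebra K L] (p : ι → L) {m : ℕ}
    (M : Fin m → Fin m → MvPolynomial ι K) :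
    aeval p (Matrix.of M).det = (Matrix.of fun k l => aeval p (M k l)).det := by
  rw [AlgHom.map_det]
  rfl

private theorem G0_mem_Tan {L : Type u} [Field L] [Algebra K L] {p y : ι → L} :
    y ∈ Tan J p ↔ ∀ F ∈ J, dif p F y = 0 := by
  simp only [Tan, Submodule.mem_iInf, LinearMap.mem_ker]

private theorem G0_dif {L : Type u} [Field L] [Algebra K L] (p : ι → L) (F : MvPolynomial ι K) (y : ι → L) :
    dif p F y = ∑ i, aeval p (pderiv i F) * y i := by
  simp only [dif, LinearMap.sum_apply, LinearMap.smul_apply, LinearMap.proj_apply, smul_eq_mul]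

private theorem G0_mem_Tan_hom (hJ : ∀ F ∈ J, ∀ i, homogeneousComponent i F ∈ J) {L : Type u} [Field L]
    [Algebra K L] {p y : ι → L} (h : ∀ F ∈ J, ∀ d, F.IsHomogeneous d → dif p F y = 0) : y ∈ Tan J p := by
  rw [G0_mem_Tan]
  intro F hF
  have h1 : dif p F y = ∑ d ∈ Finset.range (F.totalDegree + 1), dif p (homogeneousComponent d F) y := by
    conv_lhs => rw [← sum_homogeneousComponent F]
    simp only [G0_dif, map_sum, Finset.sum_mul]
    exact Finset.sum_comm
  rw [h1]
  exact Finset.sum_eq_zero fun d _ => h _ (hJ F hF d) d (homogeneousComponent_isHomogeneous d F)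

/-- Finitely many forms in `J` whose gradients at `p` define the tangent space. -/
private theorem G0_forms (hJ : ∀ F ∈ J, ∀ i, homogeneousComponent i F ∈ J) {L : Type u} [Field L]
    [Algebra K L] (p : ι → L) : ∃ (r : ℕ) (F : Fin r → MvPolynomial ι K),
      (∀ s, F s ∈ J ∧ ∃ d, (F s).IsHomogeneous d) ∧
      LinearIndependent L (fun s i => aeval p (pderiv i (F s))) ∧
      ∀ y : ι → L, (∀ s, ∑ i, aeval p (pderiv i (F s)) * y i = 0) → y ∈ Tan J p := by
  classical
  let v : {F : MvPolynomial ι K // F ∈ J ∧ ∃ d, F.IsHomogeneous d} → ι → L :=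
    fun F i => aeval p (pderiv i F.1)
  obtain ⟨κ, a, ha, hspan, hli⟩ := exists_linearIndependent' L v
  have : Finite κ := hli.finite
  have : Fintype κ := Fintype.ofFinite κ
  let e : Fin (Fintype.card κ) ≃ κ := (Fintype.equivFin κ).symm
  refine ⟨Fintype.card κ, fun s => (a (e s)).1, fun s => (a (e s)).2,
    hli.comp e e.injective, fun y hy => ?_⟩
  refine G0_mem_Tan_hom hJ fun F hF d hd => ?_
  let φ : (ι → L) →ₗ[L] L := ∑ i, y i • LinearMap.proj i
  have hφ : ∀ w, φ w = ∑ i, w i * y i := by
    intro w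
    simp only [φ, LinearMap.sum_apply, LinearMap.smul_apply, LinearMap.proj_apply, smul_eq_mul]
    exact Finset.sum_congr rfl fun i _ => mul_comm _ _
  have h1 : v ⟨F, hF, d, hd⟩ ∈ Submodule.span L (Set.range (v ∘ a)) := by
    rw [hspan]
    exact Submodule.subset_span ⟨_, rfl⟩
  have h2 : Submodule.span L (Set.range (v ∘ a)) ≤ LinearMap.ker φ := by
    rw [Submodule.span_le]
    rintro _ ⟨k, rfl⟩
    have h3 : ∑ i, aeval p (pderiv i (a (e (e.symm k))).1) * y i = 0 := hy (e.symm k)
    rw [Equiv.apply_symm_apply] at h3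
    change φ _ = 0
    rw [hφ]
    exact h3
  have h3 : φ (v ⟨F, hF, d, hd⟩) = 0 := h2 h1
  rw [hφ] at h3
  rw [G0_dif]
  exact h3

/-- A polynomial frame of the tangent spaces at the points where a form does not vanish. The point `p` is
generic. -/
theorem gframe {n : ℕ} (hJh : ∀ F ∈ J, ∀ i, homogeneousComponent i F ∈ J) {L : Type u} [Field L] [Algebra K L]
    {p : ι → L} (hp : ∀ F : MvPolynomial ι K, aeval p F = 0 ↔ F ∈ J) (hn : Module.finrank L (Tan J p) = n + 1) :
    ∃ (d : ℕ) (o : Fin (n + 1) → ι) (y : Fin (n + 1) → ι → MvPolynomial ι K)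
      (D : MvPolynomial ι K), D.IsHomogeneous d ∧ (∀ k i, (y k i).IsHomogeneous d) ∧
      (∀ k l, y k (o l) = if k = l then D else 0) ∧ D ∉ J ∧
      ∀ (L' : Type u) [Field L'] [Algebra K L'] (p' : ι → L'), IsPt J p' → aeval p' D ≠ 0 →
        Module.finrank L' (Tan J p') = n + 1 ∧ ∀ k, (fun i => aeval p' (y k i)) ∈ Tan J p' := by
  classical
  obtain ⟨r, F, hF, hli, htan⟩ := G0_forms hJh p
  have hT : Tan J p = LinearMap.ker (Matrix.of fun s i => aeval p (pderiv i (F s))).mulVecLin := by
    ext y
    constructor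
    · intro hy
      refine (G0_mem_ker _ y).2 fun s => ?_
      rw [← G0_dif]
      exact G0_mem_Tan.1 hy _ (hF s).1
    · intro hy
      exact htan y ((G0_mem_ker _ y).1 hy)
  have hcard : r + (n + 1) = Fintype.card ι := by
    rw [← hn, hT]
    exact G0_ker _ hli
  obtain ⟨c, hc⟩ := G0_minor _ hli
  have hcinj : Function.Injective c := by
    intro t t' htt
    by_contra hne
    exact hc (Matrix.det_zero_of_column_eq hne fun s => by
      simp only [Matrix.of_apply, htt])
  have hcompl : Fintype.card {i // i ∉ Set.range c} = n + 1 := by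
    have h1 : Fintype.card {i // i ∈ Set.range c} = r := by
      rw [← Fintype.card_congr (Equiv.ofInjective c hcinj), Fintype.card_fin]
    have h2 := Fintype.card_subtype_compl (fun i => i ∈ Set.range c)
    rw [h1] at h2
    omega
  let eo : Fin (n + 1) ≃ {i // i ∉ Set.range c} := (Fintype.equivFinOfCardEq hcompl).symm
  let o : Fin (n + 1) → ι := fun k => (eo k).1
  have hco : Function.Bijective (Sum.elim c o) := by
    constructor
    · rintro (t | k) (t' | k') h
      · exact congrArg Sum.inl (hcinj h)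
      · exact absurd ⟨t, h⟩ (eo k').2
      · exact absurd ⟨t', h.symm⟩ (eo k).2
      · exact congrArg Sum.inr (eo.injective (Subtype.ext h))
    · intro i
      by_cases hi : i ∈ Set.range c
      · obtain ⟨t, ht⟩ := hi
        exact ⟨Sum.inl t, ht⟩
      · refine ⟨Sum.inr (eo.symm ⟨i, hi⟩), ?_⟩
        change (eo (eo.symm ⟨i, hi⟩)).1 = i
        rw [Equiv.apply_symm_apply]
  obtain ⟨y, hy1, hy2, hy3⟩ := cramer_ker (fun s i => pderiv i (F s)) c o hco
  have hdeg : ∀ s, ∃ d, (F s).IsHomogeneous d := fun s => (hF s).2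
  choose δ hδ using hdeg
  have hrow : ∀ s i, (pderiv i (F s)).IsHomogeneous (δ s - 1) := fun s i => (hδ s).pderiv
  have hM : (Matrix.of fun s t => pderiv (c t) (F s)).det.IsHomogeneous (∑ s, (δ s - 1)) :=
    G0_det_hom _ _ fun s t => hrow s (c t)
  refine ⟨∑ s, (δ s - 1), o, y, (Matrix.of fun s t => pderiv (c t) (F s)).det, hM, ?_, ?_, ?_, ?_⟩
  · intro k i
    obtain ⟨z, rfl⟩ := hco.2 i
    rcases z with t | k'
    · rw [Sum.elim_inl, hy3 k t, Matrix.cramer_apply]
      refine (G0_det_hom _ _ fun s t' => ?_).neg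
      rw [Matrix.updateCol_apply]
      split_ifs
      · exact hrow s (o k)
      · exact hrow s (c t')
    · rw [Sum.elim_inr, hy2 k k']
      split_ifs
      · exact hM
      · exact isHomogeneous_zero _ _ _
  · intro k l
    rw [hy2 k l]
    by_cases h : l = k
    · rw [if_pos h, if_pos h.symm]
    · rw [if_neg h, if_neg (Ne.symm h)]
  · rw [← hp, G0_det]
    exact hc
  · intro L' _ _ p' hp' hD
    rw [G0_det] at hD
    have hli' := G0_indep (fun s i => aeval p' (pderiv i (F s))) c hD
    have hle : Tan J p' ≤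
        LinearMap.ker (Matrix.of fun s i => aeval p' (pderiv i (F s))).mulVecLin := by
      intro z hz
      refine (G0_mem_ker _ z).2 fun s => ?_
      rw [← G0_dif]
      exact G0_mem_Tan.1 hz _ (hF s).1
    have h0 : n + 1 ≤ Module.finrank L' (Tan J p') := by
      rw [← hn]
      exact tan_lower (fun F hF => (hp F).1 hF) hp'.2
    have h1 := G0_ker _ hli'
    have h2 := Submodule.finrank_mono hle
    have heq := Submodule.eq_of_le_of_finrank_eq hle (by omega)
    refine ⟨by omega, fun k => ?_⟩
    rw [heq]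
    refine (G0_mem_ker _ _).2 fun s => ?_
    have h1 := congrArg (aeval p') (hy1 s k)
    rw [map_sum, map_zero] at h1
    rw [← h1]
    exact Finset.sum_congr rfl fun i _ => (map_mul _ _ _).symm

end

section

variable {K : Type u} [Field K] {ι : Type} [Fintype ι] {J : Ideal (MvPolynomial ι K)}

/-- The determinant of a matrix of forms of the same degree. -/
private theorem G0_hom {r d : ℕ} (A : Matrix (Fin r) (Fin r) (MvPolynomial ι K))
    (h : ∀ s t, (A s t).IsHomogeneous d) : A.det.IsHomogeneous (r * d) := by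
  have h1 := G0_det_hom A (fun _ => d) h
  simpa using h1

/-- The Gauss map of a projective variety. -/
theorem gaussS (hJ : J.IsPrime) (hJh : ∀ F ∈ J, ∀ i, homogeneousComponent i F ∈ J) {i₀ : ι}
    (hi : (X i₀ : MvPolynomial ι K) ∉ J) :
    ∃ (n e d : ℕ) (q : (Fin (n + 1) → ι) → MvPolynomial ι K) (D : MvPolynomial ι K),
      (∀ s, (q s).IsHomogeneous e) ∧ (∃ s, q s ∉ J) ∧ D ∉ J ∧ D.IsHomogeneous d ∧
      (∀ (L : Type u) [Field L] [Algebra K L] (p : ι → L), IsPt J p → aeval p D ≠ 0 →
        Module.finrank L (Tan J p) = n + 1 ∧ ∃ s, aeval p (q s) ≠ 0) ∧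
      ∀ (L : Type u) [Field L] [NumberField L] [Algebra K L] (p : ι → L), IsPt J p → aeval p D ≠ 0 →
        hK J p = logHeight (fun s => aeval p (q s)) - (n + 1) * logHeight p := by
  classical
  have hxi : IsPt J (xi J) := by
    refine ⟨fun h => ?_, fun F hF => (aeval_xi F).2 hF⟩
    apply hi
    rw [← aeval_xi, aeval_X, h]
    rfl
  obtain ⟨n, hn⟩ : ∃ n, Module.finrank (FractionRing (MvPolynomial ι K ⧸ J)) (Tan J (xi J)) = n + 1 := by
    refine Nat.exists_eq_succ_of_ne_zero fun h => ?_
    have h1 := Submodule.finrank_eq_zero.1 h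
    have h2 := self_mem_Tan hJh hxi
    rw [h1, Submodule.mem_bot] at h2
    exact hxi.1 h2
  obtain ⟨d, o, y, D, hD, hy, hyo, hDJ, hT⟩ := gframe (n := n) hJh (p := xi J) (fun F => aeval_xi F) hn
  have hq0 : (Matrix.of fun k l => y k (o l)).det = D ^ (n + 1) := by
    have h1 : (Matrix.of fun k l => y k (o l)) = Matrix.diagonal fun _ : Fin (n + 1) => D := by
      ext k l
      rw [Matrix.of_apply, hyo, Matrix.diagonal_apply]
    rw [h1, Matrix.det_diagonal, Finset.prod_const, Finset.card_univ, Fintype.card_fin]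
  refine ⟨n, (n + 1) * d, d, fun s => (Matrix.of fun k l => y k (s l)).det, D, fun s => G0_hom _ fun k l => hy k (s l),
    ⟨o, ?_⟩, hDJ, hD, ?_, ?_⟩
  · change (Matrix.of fun k l => y k (o l)).det ∉ J
    rw [hq0]
    exact fun h => hDJ (hJ.mem_of_pow_mem _ h)
  · intro L _ _ p hp hpD
    refine ⟨(hT L p hp hpD).1, o, ?_⟩
    change aeval p (Matrix.of fun k l => y k (o l)).det ≠ 0
    rw [hq0, map_pow]
    exact pow_ne_zero _ hpD
  · intro L _ _ _ p hp hpD
    obtain ⟨hdim, hmem⟩ := hT L p hp hpD
    have hli : LinearIndependent L fun k i => aeval p (y k i) := by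
      refine G0_indep (fun k i => aeval p (y k i)) o ?_
      have h1 := congrArg (aeval p) hq0
      rw [G0_det] at h1
      change (Matrix.of fun k l => aeval p (y k (o l))).det ≠ 0
      rw [h1, map_pow]
      exact pow_ne_zero _ hpD
    rw [hK, hPl_eq (Tan J p) hdim (fun k i => aeval p (y k i)) hmem hli, hdim]
    congr 1
    · congr 1
      funext s
      exact (G0_det p fun k l => y k (s l)).symm
    · push_cast
      ring

end

end Pool.Agent.Lib.MP_17a322_nt.BI
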