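import Pool.Agent.Lib.MP_17a322_nt.BI.P1
import Pool.Agent.Lib.MP_17a322_nt.EQ.G4a

/-!
Bundles of projective lines: the points over extension fields.
-/

universe u

namespace Pool.Agent.Lib.MP_17a322_nt.BI

open MvPolynomial
open Pool.Agent.Lib.MP_17a322_nt.EQ

section

variable {K : Type u} [Field K] {ι Λ Μ : Type} [Fintype ι] [Fintype Λ] [Fintype Μ]
  {J : Ideal (MvPolynomial ι K)} {φ : Λ → MvPolynomial ι K} {ψ : Μ → MvPolynomial ι K}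

private theorem P8_sub (i : ι) (l : Λ ⊕ Μ) :
    (sub (X i) l : MvPolynomial (ι × (Λ ⊕ Μ)) K) = X (i, l) := by
  rw [sub, aeval_X]

private theorem P8_bw {L : Type u} [CommRing L] [Algebra K L] (p : ι → L) (a b : L) (l : Λ) :
    bw φ ψ p a b (Sum.inl l) = a * aeval p (φ l) := rfl

private theorem P8_bw' {L : Type u} [CommRing L] [Algebra K L] (p : ι → L) (a b : L) (l : Μ) :
    bw φ ψ p a b (Sum.inr l) = b * aeval p (ψ l) := rfl

/-- The points of the bundle outside a closed subset are the points `p ⊗ (a φ(p), b ψ(p))`, with `p` outside a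
given closed subset. -/
theorem pts {d₁ d₂ : ℕ} (hJ : J.IsPrime) (hJh : ∀ F ∈ J, ∀ i, homogeneousComponent i F ∈ J)
    (hφ : ∀ l, (φ l).IsHomogeneous d₁) (hψ : ∀ l, (ψ l).IsHomogeneous d₂) (h₁ : ∃ l, φ l ∉ J)
    (h₂ : ∃ l, ψ l ∉ J) {G : MvPolynomial ι K} {d : ℕ} (hG : G.IsHomogeneous d) (hGJ : G ∉ J)
    (hi : ∃ i : ι, (X i : MvPolynomial ι K) ∉ J) :
    ∃ G' : MvPolynomial (ι × (Λ ⊕ Μ)) K, G' ∉ bI J φ ψ ∧ (∃ d', G'.IsHomogeneous d') ∧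
      ∀ (L : Type u) [Field L] [Algebra K L] (y : ι × (Λ ⊕ Μ) → L), IsPt (bI J φ ψ) y → aeval y G' ≠ 0 →
        ∃ (p : ι → L) (a b : L), IsPt J p ∧ aeval p G ≠ 0 ∧ a ≠ 0 ∧ b ≠ 0 ∧ (∃ l, aeval p (φ l) ≠ 0) ∧
          (∃ l, aeval p (ψ l) ≠ 0) ∧ y = sg p (bw φ ψ p a b) := by
  obtain ⟨l₁, hl₁⟩ := h₁
  obtain ⟨l₂, hl₂⟩ := h₂
  obtain ⟨i₁, hi₁⟩ := hi
  have hP := bI_prime hJ φ ψ
  have e₁ : (Sum.elim φ ψ (Sum.inl l₁) : MvPolynomial ι K) ∉ J := hl₁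
  have e₂ : (Sum.elim φ ψ (Sum.inr l₂) : MvPolynomial ι K) ∉ J := hl₂
  have n₁ := sub_notMem (φ := φ) (ψ := ψ) hJ hG hGJ e₁
  have n₂ := sub_notMem (φ := φ) (ψ := ψ) hJ (hφ l₁) hl₁ e₁
  have n₃ := sub_notMem (φ := φ) (ψ := ψ) hJ (hψ l₂) hl₂ e₁
  have n₄ := sub_notMem (φ := φ) (ψ := ψ) hJ (isHomogeneous_X K i₁) hi₁ e₁
  have n₅ := sub_notMem (φ := φ) (ψ := ψ) hJ (isHomogeneous_X K i₁) hi₁ e₂
  rw [P8_sub] at n₄ n₅
  have c₁ := sub_hom (Λ := Λ ⊕ Μ) hG (Sum.inl l₁)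
  have c₂ := sub_hom (Λ := Λ ⊕ Μ) (hφ l₁) (Sum.inl l₁)
  have c₃ := sub_hom (Λ := Λ ⊕ Μ) (hψ l₂) (Sum.inl l₁)
  have c₄ : (X (i₁, Sum.inl l₁) : MvPolynomial (ι × (Λ ⊕ Μ)) K).IsHomogeneous 1 := isHomogeneous_X _ _
  have c₅ : (X (i₁, Sum.inr l₂) : MvPolynomial (ι × (Λ ⊕ Μ)) K).IsHomogeneous 1 := isHomogeneous_X _ _
  refine ⟨sub G (Sum.inl l₁) * sub (φ l₁) (Sum.inl l₁) * sub (ψ l₂) (Sum.inl l₁) * X (i₁, Sum.inl l₁) *
    X (i₁, Sum.inr l₂), ?_, ⟨_, (((c₁.mul c₂).mul c₃).mul c₄).mul c₅⟩, ?_⟩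
  · intro h
    rcases hP.mem_or_mem h with h | h
    · rcases hP.mem_or_mem h with h | h
      · rcases hP.mem_or_mem h with h | h
        · rcases hP.mem_or_mem h with h | h
          · exact n₁ h
          · exact n₂ h
        · exact n₃ h
      · exact n₄ h
    · exact n₅ h
  · intro L _ _ y hy hne
    have hx := pgen_zero (J := J)
    rw [map_mul, map_mul, map_mul, map_mul, aeval_sub', aeval_sub', aeval_sub', aeval_X, aeval_X] at hne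
    have hb₂ := right_ne_zero_of_mul hne
    have hne := left_ne_zero_of_mul hne
    have hb₁ := right_ne_zero_of_mul hne
    have hne := left_ne_zero_of_mul hne
    have hψ₂ := right_ne_zero_of_mul hne
    have hne := left_ne_zero_of_mul hne
    have hφ₁ := right_ne_zero_of_mul hne
    have hG₁ := left_ne_zero_of_mul hne
    obtain ⟨hpt, W, hW₁, hW⟩ := gJ_pt hJh hx hy ⟨i₁, hb₁⟩
    have hW₂ : W (Sum.inr l₂) ≠ 0 := by
      intro h
      apply hb₂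
      rw [hW, h, mul_zero]
    have r₁ : ∀ l : Λ, aeval (fun i => y (i, Sum.inl l₁)) (φ l₁) * W (Sum.inl l) =
        aeval (fun i => y (i, Sum.inl l₁)) (φ l) := by
      intro l
      have h := (rel_eval hy hb₁ hW (rel_mem (x := fun i => (C (gen J i) : MvPolynomial Bool (MvPolynomial ι K ⧸ J)))
        (w := bw φ ψ (fun i => C (gen J i)) (X false) (X true)) (hφ l₁) (hφ l)
        (l := Sum.inl l) (l' := Sum.inl l₁) (by rw [P8_bw, P8_bw]; ring) (Sum.inl l₁) i₁)).1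
      rwa [hW₁, mul_one] at h
    have r₂ : ∀ l : Μ, aeval (fun i => y (i, Sum.inl l₁)) (ψ l₂) * W (Sum.inr l) =
        aeval (fun i => y (i, Sum.inl l₁)) (ψ l) * W (Sum.inr l₂) := by
      intro l
      exact (rel_eval hy hb₁ hW (rel_mem (x := fun i => (C (gen J i) : MvPolynomial Bool (MvPolynomial ι K ⧸ J)))
        (w := bw φ ψ (fun i => C (gen J i)) (X false) (X true)) (hψ l₂) (hψ l)
        (l := Sum.inr l) (l' := Sum.inr l₂) (by rw [P8_bw', P8_bw']; ring) (Sum.inl l₁) i₁)).1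
    refine ⟨fun i => y (i, Sum.inl l₁), (aeval (fun i => y (i, Sum.inl l₁)) (φ l₁))⁻¹,
      W (Sum.inr l₂) / aeval (fun i => y (i, Sum.inl l₁)) (ψ l₂), hpt, hG₁, inv_ne_zero hφ₁,
      div_ne_zero hW₂ hψ₂, ⟨l₁, hφ₁⟩, ⟨l₂, hψ₂⟩, ?_⟩
    funext z
    obtain ⟨i, l⟩ := z
    change y (i, l) = y (i, Sum.inl l₁) * _
    rw [hW i l]
    congr 1
    rcases l with l | l
    · rw [P8_bw, ← r₁ l, inv_mul_cancel_left₀ hφ₁]
    · rw [P8_bw', div_mul_eq_mul_div, eq_div_iff hψ₂]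
      linear_combination r₂ l

end

end Pool.Agent.Lib.MP_17a322_nt.BI
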