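import Pool.Agent.Lib.MP_17a322_nt.BI.P1
import Mathlib.Combinatorics.Nullstellensatz

/-!
Bundles of projective lines: points outside a closed subset.
-/

universe u

namespace Pool.Agent.Lib.MP_17a322_nt.BI

open MvPolynomial
open Pool.Agent.Lib.MP_17a322_nt.EQ

section

variable {K : Type u} [Field K] {ι Λ Μ : Type}

/-- the coefficients of `P` are forms of the degrees `D + d₁ i + d₂ j` -/
private def P2hom (d₁ d₂ : ℕ) (P : MvPolynomial Bool (MvPolynomial ι K)) (D : ℕ) : Prop :=
  ∀ m : Bool →₀ ℕ, (P.coeff m).IsHomogeneous (D + d₁ * m false + d₂ * m true)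

private theorem P2hom_zero (d₁ d₂ D : ℕ) : P2hom (K := K) (ι := ι) d₁ d₂ 0 D := fun m => by
  rw [coeff_zero]
  exact isHomogeneous_zero _ _ _

private theorem P2hom_add {d₁ d₂ D : ℕ} {P Q : MvPolynomial Bool (MvPolynomial ι K)} (hP : P2hom d₁ d₂ P D)
    (hQ : P2hom d₁ d₂ Q D) : P2hom d₁ d₂ (P + Q) D := fun m => by
  rw [coeff_add]
  exact (hP m).add (hQ m)

private theorem P2hom_mul {d₁ d₂ D E : ℕ} {P Q : MvPolynomial Bool (MvPolynomial ι K)} (hP : P2hom d₁ d₂ P D)
    (hQ : P2hom d₁ d₂ Q E) : P2hom d₁ d₂ (P * Q) (D + E) := fun m => by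
  classical
  rw [coeff_mul]
  refine IsHomogeneous.sum _ _ _ fun x hx => ?_
  have h1 := Finset.HasAntidiagonal.mem_antidiagonal.1 hx
  have h2 := (hP x.1).mul (hQ x.2)
  have e : D + d₁ * x.1 false + d₂ * x.1 true + (E + d₁ * x.2 false + d₂ * x.2 true) =
      D + E + d₁ * m false + d₂ * m true := by
    rw [← h1, Finsupp.add_apply, Finsupp.add_apply]
    ring
  rwa [e] at h2

private theorem P2hom_C {d₁ d₂ D : ℕ} {g : MvPolynomial ι K} (hg : g.IsHomogeneous D) :
    P2hom d₁ d₂ (C g) D := fun m => by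
  classical
  rw [coeff_C]
  split_ifs with h
  · subst h
    simpa using hg
  · exact isHomogeneous_zero _ _ _

private theorem P2hom_X {d₁ d₂ D : ℕ} {g : MvPolynomial ι K} (b : Bool)
    (hg : g.IsHomogeneous (D + if b then d₂ else d₁)) : P2hom d₁ d₂ (X b * C g) D := fun m => by
  classical
  rw [mul_comm, coeff_C_mul, coeff_X]
  split_ifs with h
  · subst h
    rw [mul_one]
    cases b
    · simpa using hg
    · simpa using hg
  · rw [mul_zero]
    exact isHomogeneous_zero _ _ _

private theorem P2hom_pow {d₁ d₂ D : ℕ} {P : MvPolynomial Bool (MvPolynomial ι K)} (hP : P2hom d₁ d₂ P D)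
    (k : ℕ) : P2hom d₁ d₂ (P ^ k) (k * D) := by
  induction k with
  | zero =>
    rw [pow_zero, zero_mul, ← C_1]
    exact P2hom_C (isHomogeneous_one _ _)
  | succ k ih =>
    rw [pow_succ, Nat.succ_mul]
    exact P2hom_mul ih hP

private theorem P2hom_prod {d₁ d₂ : ℕ} {A : Type} (s : Finset A) (P : A → MvPolynomial Bool (MvPolynomial ι K))
    (D : A → ℕ) (h : ∀ a ∈ s, P2hom d₁ d₂ (P a) (D a)) : P2hom d₁ d₂ (∏ a ∈ s, P a) (∑ a ∈ s, D a) := by
  classical
  induction s using Finset.induction_on with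
  | empty =>
    rw [Finset.prod_empty, Finset.sum_empty, ← C_1]
    exact P2hom_C (isHomogeneous_one _ _)
  | insert a s ha ih =>
    rw [Finset.prod_insert ha, Finset.sum_insert ha]
    exact P2hom_mul (h a (Finset.mem_insert_self _ _)) (ih fun b hb => h b (Finset.mem_insert_of_mem hb))

/-- the values of the variables -/
private noncomputable def P2v (φ : Λ → MvPolynomial ι K) (ψ : Μ → MvPolynomial ι K) (z : ι × (Λ ⊕ Μ)) :
    MvPolynomial Bool (MvPolynomial ι K) :=
  Sum.elim (fun l => X false * C (X z.1 * φ l)) (fun l => X true * C (X z.1 * ψ l)) z.2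

private noncomputable def P2f (φ : Λ → MvPolynomial ι K) (ψ : Μ → MvPolynomial ι K) :
    MvPolynomial (ι × (Λ ⊕ Μ)) K →ₐ[K] MvPolynomial Bool (MvPolynomial ι K) := aeval (P2v φ ψ)

private theorem P2_homog {d₁ d₂ : ℕ} {φ : Λ → MvPolynomial ι K} {ψ : Μ → MvPolynomial ι K}
    (hφ : ∀ l, (φ l).IsHomogeneous d₁) (hψ : ∀ l, (ψ l).IsHomogeneous d₂)
    {F : MvPolynomial (ι × (Λ ⊕ Μ)) K} {d : ℕ} (hF : F.IsHomogeneous d) : P2hom d₁ d₂ (P2f φ ψ F) d := by
  classical
  have hv : ∀ z, P2hom d₁ d₂ (P2v φ ψ z) 1 := by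
    rintro ⟨i, l | l⟩
    · exact P2hom_X false ((isHomogeneous_X _ i).mul (hφ l))
    · exact P2hom_X true ((isHomogeneous_X _ i).mul (hψ l))
  rw [F.as_sum, map_sum]
  refine Finset.sum_induction _ (fun P => P2hom d₁ d₂ P d) (fun _ _ => P2hom_add) (P2hom_zero _ _ _) fun m hm => ?_
  have hd := hF (mem_support_iff.1 hm)
  unfold P2f
  rw [aeval_monomial]
  have h1 : algebraMap K (MvPolynomial Bool (MvPolynomial ι K)) (F.coeff m) = C (C (F.coeff m)) := rfl
  rw [h1, ← zero_add d]
  refine P2hom_mul (P2hom_C (isHomogeneous_C _ _)) ?_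
  rw [← hd, Finsupp.weight_apply]
  refine P2hom_prod _ _ (fun z => m z • (1 : ι × (Λ ⊕ Μ) → ℕ) z) fun z _ => ?_
  have h2 := P2hom_pow (hv z) (m z)
  simpa using h2

variable [Fintype ι] [Fintype Λ] [Fintype Μ]
  {J : Ideal (MvPolynomial ι K)} {φ : Λ → MvPolynomial ι K} {ψ : Μ → MvPolynomial ι K}

omit [Fintype ι] [Fintype Λ] [Fintype Μ] in
private theorem P2_gen (F : MvPolynomial (ι × (Λ ⊕ Μ)) K) (h : F ∉ bI J φ ψ) :
    MvPolynomial.map (Ideal.Quotient.mk J) (P2f φ ψ F) ≠ 0 := by
  intro h0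
  apply h
  have h1 : ∀ g : MvPolynomial ι K,
      aeval (fun i => (C (gen J i) : MvPolynomial Bool (MvPolynomial ι K ⧸ J))) g = C (Ideal.Quotient.mk J g) := by
    intro g
    induction g using MvPolynomial.induction_on with
    | C a =>
      rw [algHom_C]
      rfl
    | add p q hp hq => rw [map_add, hp, hq, map_add, map_add]
    | mul_X p i hp =>
      rw [map_mul, hp, aeval_X, map_mul, map_mul]
      rfl
  show aeval (fun z : ι × (Λ ⊕ Μ) => (C (gen J z.1) : MvPolynomial Bool (MvPolynomial ι K ⧸ J)) *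
    bw φ ψ (fun i => C (gen J i)) (X false) (X true) z.2) F = 0
  rw [← h0]
  have h2 : ∀ F : MvPolynomial (ι × (Λ ⊕ Μ)) K, aeval (fun z : ι × (Λ ⊕ Μ) =>
      (C (gen J z.1) : MvPolynomial Bool (MvPolynomial ι K ⧸ J)) *
      bw φ ψ (fun i => C (gen J i)) (X false) (X true) z.2) F = MvPolynomial.map (Ideal.Quotient.mk J) (P2f φ ψ F) := by
    intro F
    induction F using MvPolynomial.induction_on with
    | C a =>
      rw [algHom_C, algHom_C]
      have e : algebraMap K (MvPolynomial Bool (MvPolynomial ι K)) a = C (C a) := rfl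
      rw [e, map_C]
      rfl
    | add p q hp hq => rw [map_add, hp, hq, map_add, map_add]
    | mul_X p z hp =>
      rw [map_mul, hp, aeval_X, map_mul, map_mul]
      congr 1
      unfold P2f
      rw [aeval_X]
      obtain ⟨i, l | l⟩ := z
      · show C (gen J i) * (X false * aeval (fun i => C (gen J i)) (φ l)) =
          MvPolynomial.map (Ideal.Quotient.mk J) (X false * C (X i * φ l))
        rw [h1, map_mul, map_X, map_C, map_mul, map_mul]
        unfold gen
        ring
      · show C (gen J i) * (X true * aeval (fun i => C (gen J i)) (ψ l)) =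
          MvPolynomial.map (Ideal.Quotient.mk J) (X true * C (X i * ψ l))
        rw [h1, map_mul, map_X, map_C, map_mul, map_mul]
        unfold gen
        ring
  exact h2 F

omit [Fintype ι] [Fintype Λ] [Fintype Μ] in
private theorem P2_eval {L : Type u} [Field L] [Algebra K L] (p : ι → L) (x : Bool → L)
    (F : MvPolynomial (ι × (Λ ⊕ Μ)) K) :
    eval x (MvPolynomial.map (aeval p : MvPolynomial ι K →ₐ[K] L).toRingHom (P2f φ ψ F)) =
      aeval (sg p (bw φ ψ p (x false) (x true))) F := by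
  set f : MvPolynomial ι K →+* L := (aeval p : MvPolynomial ι K →ₐ[K] L).toRingHom with hf
  have h1 : ∀ g : MvPolynomial ι K, f g = aeval p g := fun g => rfl
  induction F using MvPolynomial.induction_on with
  | C a =>
    rw [algHom_C, aeval_C]
    have e : algebraMap K (MvPolynomial Bool (MvPolynomial ι K)) a = C (C a) := rfl
    rw [e, map_C, eval_C, h1, aeval_C]
  | add p q hp hq => rw [map_add, map_add, map_add, hp, hq, map_add]
  | mul_X P z hp =>
    rw [map_mul, map_mul, map_mul, hp, map_mul, aeval_X]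
    congr 1
    unfold P2f
    rw [aeval_X]
    obtain ⟨i, l | l⟩ := z
    · show eval x (MvPolynomial.map f (X false * C (X i * φ l))) = p i * (x false * aeval p (φ l))
      rw [map_mul, map_X, map_C, map_mul, eval_X, eval_C, h1, map_mul, aeval_X]
      ring
    · show eval x (MvPolynomial.map f (X true * C (X i * ψ l))) = p i * (x true * aeval p (ψ l))
      rw [map_mul, map_X, map_C, map_mul, eval_X, eval_C, h1, map_mul, aeval_X]
      ring

/-- For `p` outside a closed subset there are points over `p` outside a given closed subset of the bundle,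
with parameters in given large finite sets. -/
theorem grid {d₁ d₂ : ℕ} (hφ : ∀ l, (φ l).IsHomogeneous d₁) (hψ : ∀ l, (ψ l).IsHomogeneous d₂)
    {F : MvPolynomial (ι × (Λ ⊕ Μ)) K} {d : ℕ} (hF : F.IsHomogeneous d) (hFJ : F ∉ bI J φ ψ) :
    ∃ (G : MvPolynomial ι K) (R : ℕ), G ∉ J ∧ (∃ d', G.IsHomogeneous d') ∧
      ∀ (L : Type u) [Field L] [Algebra K L] (p : ι → L), aeval p G ≠ 0 →
      ∀ S T : Finset L, R < S.card → R < T.card → ∃ a ∈ S, ∃ b ∈ T,
        aeval (sg p (bw φ ψ p a b)) F ≠ 0 := by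
  obtain ⟨P, hP⟩ : ∃ P, P = P2f φ ψ F := ⟨_, rfl⟩
  have h0 := P2_gen F hFJ
  have hhom := P2_homog hφ hψ hF
  have hev : ∀ (L : Type u) [Field L] [Algebra K L] (p : ι → L) (x : Bool → L),
      eval x (MvPolynomial.map (aeval p : MvPolynomial ι K →ₐ[K] L).toRingHom (P2f φ ψ F)) =
      aeval (sg p (bw φ ψ p (x false) (x true))) F := fun L _ _ p x => P2_eval (φ := φ) (ψ := ψ) p x F
  rw [← hP] at h0 hhom
  simp only [← hP] at hev
  obtain ⟨m, hm⟩ := (ne_zero_iff).1 h0
  rw [coeff_map] at hm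
  refine ⟨P.coeff m, P.totalDegree, fun h => hm (Ideal.Quotient.eq_zero_iff_mem.2 h),
    ⟨_, hhom m⟩, fun L _ _ p hp S T hS hT => ?_⟩
  obtain ⟨Q, hQ⟩ : ∃ Q, Q = MvPolynomial.map (aeval p : MvPolynomial ι K →ₐ[K] L).toRingHom P := ⟨_, rfl⟩
  have h1 : Q ≠ 0 := by
    rw [ne_zero_iff]
    refine ⟨m, ?_⟩
    rw [hQ, coeff_map]
    exact hp
  have h2 : Q.totalDegree ≤ P.totalDegree := by
    have h4 : Q.support ⊆ P.support := by
      rw [hQ]
      exact support_map_subset _ _
    unfold totalDegree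
    exact Finset.sup_mono h4
  have h3 : ∀ x : Bool → L, eval x (MvPolynomial.map (aeval p : MvPolynomial ι K →ₐ[K] L).toRingHom P) =
      aeval (sg p (bw φ ψ p (x false) (x true))) F := fun x => hev L p x
  simp only [← hQ] at h3
  by_contra hcon
  push Not at hcon
  apply h1
  refine eq_zero_of_eval_zero_at_prod_finset Q (fun b => if b = true then T else S) ?_ ?_
  · intro b
    refine lt_of_le_of_lt ((degreeOf_le_totalDegree Q b).trans h2) ?_
    cases b
    · simpa using hS
    · simpa using hT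
  · intro x hx
    rw [h3]
    exact hcon _ (by simpa using hx false) _ (by simpa using hx true)

end

end Pool.Agent.Lib.MP_17a322_nt.BI
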