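import Pool.Agent.Lib.MP_17a322_nt.BI.V0
import Pool.Agent.Lib.MP_17a322_nt.BI.P2

/-!
Points of `Y` outside a closed subset.
-/

set_option linter.unusedSectionVars false

universe u

namespace Pool.Agent.Lib.MP_17a322_nt.BI

open MvPolynomial
open Pool.Agent.Lib.MP_17a322_nt.EQ

section

variable {K : Type u} [Field K] {ι κ : Type}

theorem φv_hom {q : κ → MvPolynomial ι K} {e : ℕ} (hq : ∀ s, (q s).IsHomogeneous e) (r : ℕ) (s : κ) :
    (φv q r s).IsHomogeneous (e * r) := sub_hom ((hq s).pow r) _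

theorem ψv_hom (i₀ : ι) (k j : ℕ) (z : ι × U2) : (ψv i₀ k j z : MvPolynomial (I1 ι) K).IsHomogeneous (k + j) := by
  have h1 := (isHomogeneous_X K z.1).pow k
  have h2 := (isHomogeneous_X K ((i₀, z.2) : I1 ι)).pow j
  rw [one_mul] at h1 h2
  exact (sub_hom h1 _).mul h2

/-- The second factor with the scalars `A₁`, `A₂`. -/
def we {L : Type u} [CommRing L] {ι κ : Type} (k j : ℕ) (p : ι → L) (Q : κ → L) (x y A₁ A₂ : L) : κ ⊕ ι × U2 → L :=
  Sum.elim (fun s => A₁ * Q s) fun z => A₂ * (p z.1 ^ k * uu x y z.2 ^ j)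

/-- The coordinates of the universal point. -/
private noncomputable def v4U (q : κ → MvPolynomial ι K) (r k j : ℕ) :
    IV ι κ → MvPolynomial Bool (MvPolynomial (ι ⊕ Bool) K) := fun z =>
  (C (X (Sum.inl z.1.1)) * uu (X false) (X false * X true + 1) z.1.2) *
    Sum.elim (fun s => C (X (Sum.inr false)) * C (rename Sum.inl (q s) ^ r))
      (fun t => C (X (Sum.inr true)) * (C (X (Sum.inl t.1)) ^ k * uu (X false) (X false * X true + 1) t.2 ^ j)) z.2

private theorem v4_uu {L : Type u} [Field L] [Algebra K L] (x : Bool → L) (v : ι ⊕ Bool → L) (l : U2) :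
    eval x (MvPolynomial.map (aeval v : MvPolynomial (ι ⊕ Bool) K →ₐ[K] L).toRingHom
      (uu (X false) (X false * X true + 1) l : MvPolynomial Bool (MvPolynomial (ι ⊕ Bool) K))) =
      uu (x false) (x false * x true + 1) l := by
  rcases l with l | l
  · change eval x (MvPolynomial.map _ (X false)) = x false
    rw [map_X, eval_X]
  · change eval x (MvPolynomial.map _ (X false * X true + 1)) = x false * x true + 1
    rw [map_add, map_mul, map_X, map_X, map_one, map_add, map_mul, eval_X, eval_X, map_one]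

private theorem v4_eval {L : Type u} [Field L] [Algebra K L] (q : κ → MvPolynomial ι K) (r k j : ℕ) (p : ι → L)
    (A₁ A₂ : L) (x : Bool → L) (F : MvPolynomial (IV ι κ) K) :
    eval x (MvPolynomial.map (aeval (Sum.elim p fun b => if b = true then A₂ else A₁) :
        MvPolynomial (ι ⊕ Bool) K →ₐ[K] L).toRingHom (aeval (v4U q r k j) F)) =
      aeval (sg (y1 p (x false) (x false * x true + 1))
        (we k j p (fun s => aeval p (q s) ^ r) (x false) (x false * x true + 1) A₁ A₂)) F := by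
  set v : ι ⊕ Bool → L := Sum.elim p fun b => if b = true then A₂ else A₁ with hv
  set f : MvPolynomial (ι ⊕ Bool) K →+* L := (aeval v : MvPolynomial (ι ⊕ Bool) K →ₐ[K] L).toRingHom with hf
  have hfX : ∀ z, f (X z) = v z := fun z => aeval_X v z
  have hq : ∀ s, f (rename Sum.inl (q s)) = aeval p (q s) := fun s => by
    change aeval v (rename Sum.inl (q s)) = aeval p (q s)
    rw [aeval_rename]
    rfl
  have hu : ∀ l, eval x (MvPolynomial.map f (uu (X false) (X false * X true + 1) l :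
      MvPolynomial Bool (MvPolynomial (ι ⊕ Bool) K))) = uu (x false) (x false * x true + 1) l := v4_uu x v
  induction F using MvPolynomial.induction_on with
  | C a =>
    rw [algHom_C, aeval_C]
    have e : algebraMap K (MvPolynomial Bool (MvPolynomial (ι ⊕ Bool) K)) a = C (C a) := rfl
    rw [e, map_C, eval_C]
    exact aeval_C v a
  | add F G hF hG => rw [map_add, map_add, map_add, hF, hG, map_add]
  | mul_X F z hF =>
    rw [map_mul, map_mul, map_mul, hF, map_mul, aeval_X, aeval_X]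
    congr 1
    obtain ⟨⟨i, l⟩, t | t⟩ := z
    · change eval x (MvPolynomial.map f ((C (X (Sum.inl i)) * uu (X false) (X false * X true + 1) l) *
        (C (X (Sum.inr false)) * C (rename Sum.inl (q t) ^ r)))) =
        (p i * uu (x false) (x false * x true + 1) l) * (A₁ * aeval p (q t) ^ r)
      simp only [map_mul, map_pow, map_C, eval_C, hfX, hu, hq]
      rfl
    · change eval x (MvPolynomial.map f ((C (X (Sum.inl i)) * uu (X false) (X false * X true + 1) l) *
        (C (X (Sum.inr true)) * (C (X (Sum.inl t.1)) ^ k * uu (X false) (X false * X true + 1) t.2 ^ j)))) =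
        (p i * uu (x false) (x false * x true + 1) l) * (A₂ * (p t.1 ^ k * uu (x false) (x false * x true + 1) t.2 ^ j))
      simp only [map_mul, map_pow, map_C, eval_C, hfX, hu]
      rfl

private theorem v4_card {K : Type u} [Field K] [CharZero K] (f : ℕ → ℕ) (hf : Function.Injective f) {c : K}
    (hc : c ≠ 0) (R : ℕ) :
    ∃ S : Finset K, R < S.card ∧ ∀ a ∈ S, ∃ n : ℕ, n ≤ R ∧ a = (f n : K) * c := by
  classical
  refine ⟨(Finset.range (R + 1)).image fun n => (f n : K) * c, ?_, fun a ha => ?_⟩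
  · rw [Finset.card_image_of_injective, Finset.card_range]
    · omega
    · intro m n h
      exact hf (Nat.cast_injective (mul_right_cancel₀ hc h))
  · obtain ⟨n, hn, rfl⟩ := Finset.mem_image.1 ha
    rw [Finset.mem_range] at hn
    exact ⟨n, by omega, rfl⟩

variable [Fintype ι] [Fintype κ] {J : Ideal (MvPolynomial ι K)}

/-- For `p` outside a closed subset there are points of `Y` over `p` outside a given closed subset, which belong to
points `(x, x y + 1)` with `x`, `y` in given intervals and to given numbers `A₁`, `A₂`. -/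
theorem avoid2 {i₀ : ι} {q : κ → MvPolynomial ι K} {e : ℕ} (hq : ∀ s, (q s).IsHomogeneous e) (r k : ℕ)
    {j : ℕ} (hj : 1 ≤ j) {F : MvPolynomial (IV ι κ) K} {d : ℕ} (hF : F.IsHomogeneous d)
    (hFJ : F ∉ JV J i₀ q r k j) :
    ∃ (G : MvPolynomial ι K) (R : ℕ), G ∉ J ∧ (∃ d', G.IsHomogeneous d') ∧
      ∀ (L : Type u) [Field L] [CharZero L] [Algebra K L] (p : ι → L), aeval p G ≠ 0 → p i₀ ≠ 0 →
      ∀ (V V' : ℕ) (A₁ A₂ : L), A₁ ≠ 0 → A₂ ≠ 0 → ∃ i i' : ℕ, i ≤ R ∧ i' ≤ R ∧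
        aeval (sg (y1 p ((V + i : ℕ) : L) (((V + i) * (V' + i') + 1 : ℕ) : L))
          (we k j p (fun s => aeval p (q s) ^ r) ((V + i : ℕ) : L) (((V + i) * (V' + i') + 1 : ℕ) : L) A₁ A₂)) F ≠
            0 := by
  classical
  obtain ⟨G₁, R₁, hG₁, ⟨d₁, hd₁⟩, h₁⟩ := grid (φv_hom hq r) (ψv_hom i₀ k j) hF hFJ
  obtain ⟨G₀, R₀, hG₀, hd₀, h₀⟩ := grid (fun l => o1_hom l) (fun l => o1_hom l) hd₁ hG₁
  obtain ⟨P, hP⟩ : ∃ P, P = aeval (v4U q r k j) F := ⟨_, rfl⟩
  refine ⟨G₀, P.totalDegree, hG₀, hd₀, fun L _ _ _ p hp hpi V V' A₁ A₂ hA₁ hA₂ => ?_⟩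
  obtain ⟨Q, hQ⟩ : ∃ Q, Q = MvPolynomial.map (aeval (Sum.elim p fun b => if b = true then A₂ else A₁) :
    MvPolynomial (ι ⊕ Bool) K →ₐ[K] L).toRingHom P := ⟨_, rfl⟩
  have hev : ∀ x : Bool → L, eval x Q = aeval (sg (y1 p (x false) (x false * x true + 1))
      (we k j p (fun s => aeval p (q s) ^ r) (x false) (x false * x true + 1) A₁ A₂)) F := fun x => by
    rw [hQ, hP]
    exact v4_eval q r k j p A₁ A₂ x F
  have hdeg : Q.totalDegree ≤ P.totalDegree := by
    have h4 : Q.support ⊆ P.support := by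
      rw [hQ]
      exact support_map_subset _ _
    unfold totalDegree
    exact Finset.sup_mono h4
  -- a point over `p`
  have hQ0 : Q ≠ 0 := by
    obtain ⟨S₀, hS₀, hS₀'⟩ := v4_card (K := L) (fun n => n + 1) (fun m n h => by simpa using h) one_ne_zero R₀
    obtain ⟨a, haS, b, -, hab⟩ := h₀ L p hp S₀ S₀ hS₀ hS₀
    obtain ⟨n, -, ha⟩ := hS₀' a haS
    have ha0 : a ≠ 0 := by
      rw [ha, mul_one]
      exact Nat.cast_ne_zero.2 (Nat.succ_ne_zero n)
    rw [bw_o1] at hab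
    change aeval (y1 p a b) G₁ ≠ 0 at hab
    have hinj : Function.Injective fun n : ℕ => (n + 1) ^ j := fun m n h => by
      have h1 := Nat.pow_left_injective (n := j) (by omega) h
      omega
    have hc₁ : A₁ / (a ^ e) ^ r ≠ 0 := div_ne_zero hA₁ (pow_ne_zero _ (pow_ne_zero _ ha0))
    have hc₂ : A₂ / (a ^ k * p i₀ ^ j) ≠ 0 :=
      div_ne_zero hA₂ (mul_ne_zero (pow_ne_zero _ ha0) (pow_ne_zero _ hpi))
    obtain ⟨S₁, hS₁, hS₁'⟩ := v4_card (K := L) (fun n => (n + 1) ^ j) hinj hc₁ R₁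
    obtain ⟨T₁, hT₁, hT₁'⟩ := v4_card (K := L) (fun n => (n + 1) ^ j) hinj hc₂ R₁
    obtain ⟨a₁, ha₁S, b₁, hb₁T, hab₁⟩ := h₁ L (y1 p a b) hab S₁ T₁ hS₁ hT₁
    obtain ⟨m, -, ha₁⟩ := hS₁' a₁ ha₁S
    obtain ⟨l, -, hb₁⟩ := hT₁' b₁ hb₁T
    set σ : L := ((m + 1 : ℕ) : L) with hσ
    set ρ : L := ((l + 1 : ℕ) : L) with hρ
    have hσ0 : σ ≠ 0 := Nat.cast_ne_zero.2 (Nat.succ_ne_zero m)
    have hρ0 : ρ ≠ 0 := Nat.cast_ne_zero.2 (Nat.succ_ne_zero l)
    rw [Nat.cast_pow] at ha₁ hb₁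
    rw [← hσ] at ha₁
    rw [← hρ] at hb₁
    have hτ0 : ρ / σ ≠ 0 := div_ne_zero hρ0 hσ0
    intro hQ1
    obtain ⟨x₀, hx₁, hx₂⟩ : ∃ x₀ : Bool → L, x₀ false = ρ / σ * a ∧ x₀ true = (ρ / σ * b - 1) / (ρ / σ * a) :=
      ⟨fun t => if t = true then (ρ / σ * b - 1) / (ρ / σ * a) else ρ / σ * a, by simp, by simp⟩
    have h2 := hev x₀
    rw [hQ1, map_zero] at h2
    have e2 : x₀ false * x₀ true + 1 = ρ / σ * b := by
      rw [hx₁, hx₂, mul_div_cancel₀ _ (mul_ne_zero hτ0 ha0)]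
      ring
    rw [e2, hx₁] at h2
    have e3 : sg (y1 p (ρ / σ * a) (ρ / σ * b))
        (we k j p (fun s => aeval p (q s) ^ r) (ρ / σ * a) (ρ / σ * b) A₁ A₂) =
        fun z => (ρ / σ * (σ ^ j)⁻¹) * sg (y1 p a b) (bw (φv q r) (ψv i₀ k j) (y1 p a b) a₁ b₁) z := by
      have e4 : ∀ l : U2, uu (ρ / σ * a) (ρ / σ * b) l = ρ / σ * uu a b l := fun l => by
        rcases l with l | l <;> rfl
      funext z
      obtain ⟨⟨i, l⟩, t | t⟩ := z
      · change (p i * uu (ρ / σ * a) (ρ / σ * b) l) * (A₁ * aeval p (q t) ^ r) =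
          (ρ / σ * (σ ^ j)⁻¹) * ((p i * uu a b l) * (a₁ * aeval (y1 p a b) (φv q r t)))
        rw [e4, eval_φv hq, ha₁]
        field_simp
      · change (p i * uu (ρ / σ * a) (ρ / σ * b) l) * (A₂ * (p t.1 ^ k * uu (ρ / σ * a) (ρ / σ * b) t.2 ^ j)) =
          (ρ / σ * (σ ^ j)⁻¹) * ((p i * uu a b l) * (b₁ * aeval (y1 p a b) (ψv (K := K) i₀ k j t)))
        rw [e4, e4, eval_ψv, hb₁, mul_pow, div_pow]
        field_simp
    have e5 := aeval_mul hF (ρ / σ * (σ ^ j)⁻¹) (sg (y1 p a b) (bw (φv q r) (ψv i₀ k j) (y1 p a b) a₁ b₁))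
    rw [e3, e5] at h2
    exact mul_ne_zero (pow_ne_zero _ (mul_ne_zero hτ0 (inv_ne_zero (pow_ne_zero _ hσ0)))) hab₁ h2.symm
  by_contra hcon
  push Not at hcon
  apply hQ0
  obtain ⟨S, hS, hS'⟩ := v4_card (K := L) (fun n => V + n) (fun m n h => by simpa using h) one_ne_zero
    P.totalDegree
  obtain ⟨T, hT, hT'⟩ := v4_card (K := L) (fun n => V' + n) (fun m n h => by simpa using h) one_ne_zero
    P.totalDegree
  refine eq_zero_of_eval_zero_at_prod_finset Q (fun t => if t = true then T else S) ?_ ?_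
  · intro b
    refine lt_of_le_of_lt ((degreeOf_le_totalDegree Q b).trans hdeg) ?_
    rcases b with _ | _
    · simpa using hS
    · simpa using hT
  · intro x hx
    have hx1 := hx false
    have hx2 := hx true
    simp only [Bool.false_eq_true, if_false, if_true] at hx1 hx2
    obtain ⟨i, hi, hxi⟩ := hS' _ hx1
    obtain ⟨i', hi', hxi'⟩ := hT' _ hx2
    rw [mul_one] at hxi hxi'
    have h3 := hcon i i' hi hi'
    have e1 : (((V + i) * (V' + i') + 1 : ℕ) : L) = x false * x true + 1 := by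
      rw [hxi, hxi']
      push_cast
      ring
    rw [e1, ← hxi] at h3
    rw [hev]
    exact h3

/-- For `p` outside a closed subset there are points of `Y` over `p` outside a given closed subset, which belong to
points `(x, x y + 1)` with `x`, `y` in a given interval and to given numbers `A₁`, `A₂`. -/
theorem avoid {i₀ : ι} {q : κ → MvPolynomial ι K} {e : ℕ} (hq : ∀ s, (q s).IsHomogeneous e) (r k : ℕ)
    {j : ℕ} (hj : 1 ≤ j) {F : MvPolynomial (IV ι κ) K} {d : ℕ} (hF : F.IsHomogeneous d)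
    (hFJ : F ∉ JV J i₀ q r k j) :
    ∃ (G : MvPolynomial ι K) (R : ℕ), G ∉ J ∧ (∃ d', G.IsHomogeneous d') ∧
      ∀ (L : Type u) [Field L] [CharZero L] [Algebra K L] (p : ι → L), aeval p G ≠ 0 → p i₀ ≠ 0 →
      ∀ (V : ℕ) (A₁ A₂ : L), A₁ ≠ 0 → A₂ ≠ 0 → ∃ i i' : ℕ, i ≤ R ∧ i' ≤ R ∧
        aeval (sg (y1 p ((V + i : ℕ) : L) (((V + i) * (V + i') + 1 : ℕ) : L))
          (we k j p (fun s => aeval p (q s) ^ r) ((V + i : ℕ) : L) (((V + i) * (V + i') + 1 : ℕ) : L) A₁ A₂)) F ≠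
            0 := by
  obtain ⟨G, R, hG, hd', h⟩ := avoid2 hq r k hj hF hFJ
  exact ⟨G, R, hG, hd', fun L _ _ _ p hp hpi V => h L p hp hpi V V⟩

end

end Pool.Agent.Lib.MP_17a322_nt.BI
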