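import Pool.Agent.Lib.MP_17a322_nt.BI.V3
import Pool.Agent.Lib.MP_17a322_nt.BI.V4

/-!
The special points of `Y`.
-/

set_option linter.unusedSectionVars false

universe u

namespace Pool.Agent.Lib.MP_17a322_nt.BI

open MvPolynomial Height NumberField
open Pool.Agent.Lib.MP_17a322_nt.EQ

section

variable {K : Type u} [Field K] {ι κ : Type} [Fintype ι] [Fintype κ] {J : Ideal (MvPolynomial ι K)}

/-- The points of `Y`. -/
theorem yv_pt {i₀ : ι} {q : κ → MvPolynomial ι K} {e : ℕ} (hq : ∀ s, (q s).IsHomogeneous e) (r k j : ℕ)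
    {L : Type u} [Field L] [NumberField L] [Algebra K L] {p : ι → L} (hp : IsPt J p) (hqp : ∃ s, aeval p (q s) ≠ 0)
    {a : L} (ha : a ≠ 0) (b : L) {a₁ : L} (ha₁ : a₁ ≠ 0) (b₁ : L) :
    IsPt (JV J i₀ q r k j) (yv q i₀ r k j p a b a₁ b₁) := by
  have hy1 : IsPt (J1 J) (y1 p a b) := by
    refine ⟨y1_ne hp.1 ha b, ?_⟩
    have h := bI_pt (φ := o1) (ψ := o1) hp.2 a b
    rw [bw_o1] at h
    exact h
  refine ⟨?_, ?_⟩
  · exact sg_ne hy1.1 (wv_ne hq r k j ha b ha₁ b₁ hqp)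
  · exact bI_pt (φ := φv q r) (ψ := ψv i₀ k j) hy1.2 a₁ b₁

/-- The special points of `Y`; the constant `C` does not depend on the closed subset `F = 0`. -/
theorem special {L : Type u} [Field L] [NumberField L] [Algebra K L] {i₀ : ι} {q : κ → MvPolynomial ι K} {e : ℕ}
    (hq : ∀ s, (q s).IsHomogeneous e) (r k : ℕ) {j : ℕ} (hj : 1 ≤ j) :
    ∃ C : ℝ, ∀ (F : MvPolynomial (IV ι κ) K) (d : ℕ), F.IsHomogeneous d → F ∉ JV J i₀ q r k j →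
      ∃ (G : MvPolynomial ι K) (B : ℝ), G ∉ J ∧ (∃ d', G.IsHomogeneous d') ∧ ∀ p : ι → L, IsPt J p →
        aeval p G ≠ 0 → p i₀ ≠ 0 → (∃ s, aeval p (q s) ≠ 0) →
        B ≤ r * logHeight (fun s => aeval p (q s)) - k * logHeight p →
        ∃ y : IV ι κ → L, IsPt (JV J i₀ q r k j) y ∧ aeval y F ≠ 0 ∧ hB 2 (gv (K := K)) y ≤ C ∧
          logHeight p ≤ logHeight y := by
  obtain ⟨C, hC⟩ := nums L r k j hj
  refine ⟨2 * C, fun F d hF hFJ => ?_⟩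
  obtain ⟨G, R, hG, hd', h⟩ := avoid (J := J) hq r k hj hF hFJ
  obtain ⟨B, hB⟩ := hC R
  refine ⟨G, B, hG, hd', fun p hp hGp hpi hqp hBp => ?_⟩
  have hQ : (fun s => aeval p (q s)) ≠ 0 := by
    obtain ⟨s, hs⟩ := hqp
    exact Function.ne_iff.2 ⟨s, hs⟩
  obtain ⟨V, A₁, A₂, hV, hA₁, hA₂, hn⟩ := hB ι κ p (fun s => aeval p (q s)) hp.1 hQ hBp
  obtain ⟨i, i', hi, hi', hF'⟩ := h L p hGp hpi V A₁ A₂ hA₁ hA₂
  obtain ⟨n1, n2⟩ := hn i i' hi hi'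
  set a : L := ((V + i : ℕ) : L) with ha
  set b : L := (((V + i) * (V + i') + 1 : ℕ) : L) with hb
  have ha0 : a ≠ 0 := Nat.cast_ne_zero.2 (by omega)
  have hc₁ : (a ^ e) ^ r ≠ 0 := pow_ne_zero _ (pow_ne_zero _ ha0)
  have hc₂ : a ^ k * p i₀ ^ j ≠ 0 := mul_ne_zero (pow_ne_zero _ ha0) (pow_ne_zero _ hpi)
  have ha₁ : A₁ / (a ^ e) ^ r ≠ 0 := div_ne_zero hA₁ hc₁
  have hb₁ : A₂ / (a ^ k * p i₀ ^ j) ≠ 0 := div_ne_zero hA₂ hc₂
  have hw : wv q i₀ r k j p a b (A₁ / (a ^ e) ^ r) (A₂ / (a ^ k * p i₀ ^ j)) =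
      we k j p (fun s => aeval p (q s) ^ r) a b A₁ A₂ := by
    funext t
    rcases t with t | t
    · change A₁ / (a ^ e) ^ r * aeval (y1 p a b) (φv q r t) = A₁ * aeval p (q t) ^ r
      rw [eval_φv hq, ← mul_assoc, div_mul_cancel₀ _ hc₁]
    · change A₂ / (a ^ k * p i₀ ^ j) * aeval (y1 p a b) (ψv (K := K) i₀ k j t) = A₂ * (p t.1 ^ k * uu a b t.2 ^ j)
      rw [eval_ψv, ← mul_assoc, div_mul_cancel₀ _ hc₂]
  have hw' : we k j p (fun s => aeval p (q s) ^ r) a b A₁ A₂ =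
      Sum.elim (fun s => A₁ * (fun s => aeval p (q s)) s ^ r) fun z : ι × U2 => A₂ * (p z.1 ^ k * uu a b z.2 ^ j) :=
    rfl
  rw [← hw', ← hw] at n1 n2
  refine ⟨yv q i₀ r k j p a b (A₁ / (a ^ e) ^ r) (A₂ / (a ^ k * p i₀ ^ j)),
    yv_pt hq r k j hp hqp ha0 b ha₁ _, ?_, ?_, ?_⟩
  · rw [yv, hw]
    exact hF'
  · rw [hB_yv hq hpi r k j ha0 b ha₁ hb₁ hqp]
    linarith
  · rw [lh_yv hq hpi r k j ha0 b ha₁ _ hqp]
    have g1 : 0 ≤ logHeight (uu a b) := logHeight_nonneg _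
    have g2 : 0 ≤ logHeight (wv q i₀ r k j p a b (A₁ / (a ^ e) ^ r) (A₂ / (a ^ k * p i₀ ^ j))) :=
      logHeight_nonneg _
    linarith

end

end Pool.Agent.Lib.MP_17a322_nt.BI
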