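import Pool.Agent.Lib.MP_17a322_nt.BI.V1
import Pool.Agent.Lib.MP_17a322_nt.BI.V5
import Pool.Agent.Lib.MP_17a322_nt.BI.P8
import Pool.Agent.Lib.MP_17a322_nt.EQ.D2

/-!
One pair and one variety: the two directions.
-/

set_option linter.unusedSectionVars false

universe u

namespace Pool.Agent.Lib.MP_17a322_nt.BI

open MvPolynomial Height NumberField
open Pool.Agent.Lib.MP_17a322_nt.EQ

section

variable {K : Type u} [Field K] {ι κ : Type} [Fintype ι] [Fintype κ] {J : Ideal (MvPolynomial ι K)}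
  {L : Type u} [Field L] [NumberField L] [Algebra K L]

/-- A bound for the height of the values of forms. -/
private theorem I1_le {q : κ → MvPolynomial ι K} {e : ℕ} (hq : ∀ s, (q s).IsHomogeneous e) :
    ∃ C, ∀ p : ι → L, logHeight (fun s => aeval p (q s)) ≤ C + e * logHeight p := by
  obtain ⟨C, hC⟩ := logHeight_eval_le' (K := L) (p := fun s => MvPolynomial.map (algebraMap K L) (q s))
    fun s => (hq s).map _
  refine ⟨C, fun p => ?_⟩
  have h := hC p
  have h1 : (fun s => aeval p (q s)) = fun s => eval p (MvPolynomial.map (algebraMap K L) (q s)) := by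
    funext s
    rw [eval_map, aeval_def]
  rwa [h1]

/-- From the pair `(Y, D)` to Vojta's inequality for `X`; only the points with `h_D ≤ C₀` are needed. -/
theorem ineq_of_pair (hprime : J.IsPrime) {n e d₀ : ℕ} {i₀ : ι} (hi : (X i₀ : MvPolynomial ι K) ∉ J)
    {q : κ → MvPolynomial ι K} (hq : ∀ s, (q s).IsHomogeneous e) {D : MvPolynomial ι K} (hD : D.IsHomogeneous d₀)
    (hDJ : D ∉ J) (hqL : ∀ p : ι → L, IsPt J p → aeval p D ≠ 0 → (∃ s, aeval p (q s) ≠ 0) ∧
      hK J p = logHeight (fun s => aeval p (q s)) - (n + 1) * logHeight p) {r j : ℕ} (m : ℕ) (hr : 0 < r)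
    (hj : 1 ≤ j) :
    ∃ C₀ : ℝ, ∀ C, C₀ ≤ C → (∃ (F : MvPolynomial (IV ι κ) K) (R : ℝ), F ∉ JV J i₀ q r (r * (n + 1) + m) j ∧
      (∃ d, F.IsHomogeneous d) ∧ ∀ y : IV ι κ → L, IsPt (JV J i₀ q r (r * (n + 1) + m) j) y → aeval y F ≠ 0 →
        hB 2 (gv (K := K)) y ≤ C → logHeight y ≤ R) → Ineq J L (m / r) := by
  obtain ⟨C₀, hC₀⟩ := special (J := J) (L := L) (i₀ := i₀) hq r (r * (n + 1) + m) hj
  refine ⟨C₀, fun C hC hR => ?_⟩
  obtain ⟨F, R, hFJ, ⟨d, hF⟩, hFR⟩ := hR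
  obtain ⟨G, B, hG, ⟨d', hd'⟩, hsp⟩ := hC₀ F d hF hFJ
  obtain ⟨C', hC'⟩ := I1_le (L := L) hq
  have hr0 : (0 : ℝ) < r := by exact_mod_cast hr
  refine ⟨G * (X i₀ * D), max (B / r) (C' + e * R), fun h1 => ?_, ⟨d' + (1 + d₀), hd'.mul
    ((isHomogeneous_X K i₀).mul hD)⟩, fun p hp hGp => ?_⟩
  · rcases hprime.mem_or_mem h1 with h1 | h1
    · exact hG h1
    · exact (hprime.mem_or_mem h1).elim hi hDJ
  rw [map_mul, map_mul, aeval_X] at hGp
  have hGp1 := left_ne_zero_of_mul hGp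
  have hpi := left_ne_zero_of_mul (right_ne_zero_of_mul hGp)
  obtain ⟨hqp, hcan⟩ := hqL p hp (right_ne_zero_of_mul (right_ne_zero_of_mul hGp))
  have h0 : 0 ≤ logHeight p := logHeight_nonneg _
  rw [hcan]
  by_cases hB : B ≤ r * logHeight (fun s => aeval p (q s)) - ((r * (n + 1) + m : ℕ) : ℝ) * logHeight p
  · obtain ⟨y, hy, hFy, hDy, hpy⟩ := hsp p hp hGp1 hpi hqp hB
    have h1 : logHeight p ≤ R := hpy.trans (hFR y hy hFy (hDy.trans hC))
    have h3 := hC' p
    have h4 : (e : ℝ) * logHeight p ≤ e * R := mul_le_mul_of_nonneg_left h1 (Nat.cast_nonneg _)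
    have h5 : 0 ≤ (m : ℝ) / r * logHeight p := mul_nonneg (by positivity) h0
    have h6 : 0 ≤ ((n : ℝ) + 1) * logHeight p := mul_nonneg (by positivity) h0
    have h7 := le_max_right (B / r) (C' + e * R)
    linarith
  · push Not at hB
    push_cast at hB
    have h1 : logHeight (fun s => aeval p (q s)) - (n + 1) * logHeight p - m / r * logHeight p ≤ B / r := by
      rw [le_div_iff₀ hr0]
      have e1 : (logHeight (fun s => aeval p (q s)) - (n + 1) * logHeight p - m / r * logHeight p) * r =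
          r * logHeight (fun s => aeval p (q s)) - (r * (n + 1) + m) * logHeight p := by
        field_simp
        ring
      rw [e1]
      exact hB.le
    have h7 := le_max_left (B / r) (C' + e * R)
    linarith

/-- The homogenisation of the polynomial `P` in the coordinates of the line, on the product with the line. -/
noncomputable def I1_F (i₀ : ι) (P : Polynomial K) : MvPolynomial (I1 ι) K :=
  ∑ l ∈ Finset.range (P.natDegree + 1), MvPolynomial.C (P.coeff l) *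
    (X (i₀, Sum.inr ()) ^ l * X (i₀, Sum.inl ()) ^ (P.natDegree - l))

theorem I1_hom (i₀ : ι) (P : Polynomial K) : (I1_F i₀ P).IsHomogeneous P.natDegree := by
  refine IsHomogeneous.sum _ _ _ fun l hl => ?_
  have h1 : l ≤ P.natDegree := by
    have := Finset.mem_range.1 hl
    omega
  have h2 := (isHomogeneous_C (I1 ι) (P.coeff l)).mul (((isHomogeneous_X K ((i₀, Sum.inr ()) : I1 ι)).pow l).mul
    ((isHomogeneous_X K ((i₀, Sum.inl ()) : I1 ι)).pow (P.natDegree - l)))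
  have e : 0 + (1 * l + 1 * (P.natDegree - l)) = P.natDegree := by omega
  rwa [e] at h2

theorem I1_val {F : Type u} [Field F] [Algebra K F] (i₀ : ι) (P : Polynomial K) (p : ι → F) {a : F} (b : F)
    (hp : p i₀ ≠ 0) (ha : a ≠ 0) :
    aeval (y1 p a b) (I1_F i₀ P) = (p i₀ * a) ^ P.natDegree * Polynomial.aeval (b / a) P := by
  rw [I1_F, map_sum, Polynomial.aeval_eq_sum_range, Finset.mul_sum]
  refine Finset.sum_congr rfl fun l hl => ?_
  have h1 : l ≤ P.natDegree := by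
    have := Finset.mem_range.1 hl
    omega
  rw [map_mul, map_mul, map_pow, map_pow, aeval_X, aeval_X, aeval_C, Algebra.smul_def]
  change algebraMap K F (P.coeff l) * ((p i₀ * b) ^ l * (p i₀ * a) ^ (P.natDegree - l)) = _
  obtain ⟨k, hk⟩ := Nat.exists_eq_add_of_le h1
  rw [hk, Nat.add_sub_cancel_left, pow_add]
  have h2 : p i₀ * a ≠ 0 := mul_ne_zero hp ha
  have h3 : b / a = p i₀ * b / (p i₀ * a) := (mul_div_mul_left b a hp).symm
  rw [h3, div_pow]
  field_simp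

theorem I1_notMem [CharZero K] (hprime : J.IsPrime) {i₀ : ι} (hi : (X i₀ : MvPolynomial ι K) ∉ J)
    {P : Polynomial K} (hP : P ≠ 0) : I1_F i₀ P ∉ J1 J := by
  intro h
  obtain ⟨b, hb⟩ : ∃ b : K, P.eval b ≠ 0 := by
    by_contra hcon
    push Not at hcon
    exact hP (Polynomial.funext fun r => by rw [hcon r, Polynomial.eval_zero])
  have hξ : xi J i₀ ≠ 0 := fun h0 => hi (by rw [← aeval_xi, aeval_X, h0])
  have h1 := bI_pt (φ := o1) (ψ := o1) (J := J) (p := xi J) (fun F hF => (aeval_xi F).2 hF) 1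
    (algebraMap K _ b) _ h
  rw [bw_o1] at h1
  have h2 := I1_val i₀ P (xi J) (algebraMap K (FractionRing (MvPolynomial ι K ⧸ J)) b) hξ one_ne_zero
  rw [y1, h1, div_one, Polynomial.aeval_algebraMap_apply] at h2
  refine mul_ne_zero (pow_ne_zero _ (mul_ne_zero hξ one_ne_zero)) ?_ h2.symm
  rw [Polynomial.coe_aeval_eq_eval]
  exact fun h3 => hb ((map_eq_zero _).1 h3)

/-- The height of a quotient. -/
theorem lh_quot (a b : L) : logHeight₁ (b / a) ≤ logHeight (uu a b) := by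
  rw [logHeight₁_div_eq_logHeight]
  have h : (![b, a] : Fin 2 → L) = fun x => uu a b (if x = 0 then Sum.inr () else Sum.inl ()) := by
    funext x
    fin_cases x <;> rfl
  rw [h]
  exact logHeight_comp_le (fun x : Fin 2 => (if x = 0 then Sum.inr () else Sum.inl () : U2)) (uu a b)

/-- A finite set of elements of `L` consists of zeros of a polynomial over `K`. -/
theorem I1_poly [CharZero K] {T : Set L} (hT : T.Finite) :
    ∃ P : Polynomial K, P ≠ 0 ∧ ∀ t ∈ T, Polynomial.aeval t P = 0 := by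
  have hint : ∀ t : L, IsIntegral K t := fun t => by
    have h1 : IsIntegral ℚ t := Algebra.IsIntegral.isIntegral t
    exact h1.tower_top
  refine ⟨∏ t ∈ hT.toFinset, minpoly K t, Finset.prod_ne_zero_iff.2 fun t _ => minpoly.ne_zero (hint t),
    fun t ht => ?_⟩
  rw [map_prod]
  exact Finset.prod_eq_zero (hT.mem_toFinset.2 ht) (minpoly.aeval K t)

/-- From Vojta's inequality for `X` to the pair `(Y, D)`. -/
theorem pair_of_ineq [CharZero K] (hprime : J.IsPrime) (hJh : ∀ F ∈ J, ∀ i, homogeneousComponent i F ∈ J)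
    {n e d₀ : ℕ} {i₀ : ι} (hi : (X i₀ : MvPolynomial ι K) ∉ J) {q : κ → MvPolynomial ι K}
    (hq : ∀ s, (q s).IsHomogeneous e) (hs : ∃ s, q s ∉ J) {D : MvPolynomial ι K} (hD : D.IsHomogeneous d₀)
    (hDJ : D ∉ J) (hqL : ∀ p : ι → L, IsPt J p → aeval p D ≠ 0 → (∃ s, aeval p (q s) ≠ 0) ∧
      hK J p = logHeight (fun s => aeval p (q s)) - (n + 1) * logHeight p) {r m j : ℕ} (hr : 0 < r)
    (hj : 1 ≤ j) (h : Ineq J L (m / r)) (C : ℝ) :
    NotDense (JV J i₀ q r (r * (n + 1) + m) j) L 2 (gv (ι := ι) (κ := κ)) C := by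
  obtain ⟨GX, CX, hGX, ⟨dX, hdX⟩, hv⟩ := h
  obtain ⟨s, hs'⟩ := hs
  have hr0 : (0 : ℝ) < r := by exact_mod_cast hr
  have hj0 : (0 : ℝ) < j := by exact_mod_cast hj
  have hfin : {t : L | logHeight₁ t ≤ (r * CX + C) / j}.Finite := Northcott.finite_le (h := logHeight₁ (K := L)) _
  obtain ⟨P, hP, hPT⟩ := I1_poly (K := K) hfin
  have hG0h : (GX * (X i₀ * D)).IsHomogeneous (dX + (1 + d₀)) := hdX.mul ((isHomogeneous_X K i₀).mul hD)
  have hG0 : GX * (X i₀ * D) ∉ J := fun h =>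
    (hprime.mem_or_mem h).elim hGX fun h => (hprime.mem_or_mem h).elim hi hDJ
  obtain ⟨G₁, hG₁, ⟨d₁, hd₁⟩, h₁⟩ := pts hprime hJh o1_hom o1_hom ⟨(), one_notMem hprime⟩
    ⟨(), one_notMem hprime⟩ hG0h hG0 ⟨i₀, hi⟩
  have hp1 : (J1 J).IsPrime := bI_prime hprime o1 o1
  obtain ⟨G₂, hG₂, hd₂, h₂⟩ := pts hp1 (bI_homog J o1 o1) (φv_hom hq r)
    (ψv_hom i₀ (r * (n + 1) + m) j) ⟨s, φv_notMem hprime hq r hs'⟩ ⟨(i₀, Sum.inl ()), ψv_notMem hprime hi _ j⟩
    (hd₁.mul (I1_hom i₀ P)) (fun h => (hp1.mem_or_mem h).elim hG₁ (I1_notMem hprime hi hP))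
    ⟨(i₀, Sum.inl ()), J1_X hprime hi _⟩
  refine ⟨G₂, hG₂, hd₂, fun y hy hyC => ?_⟩
  by_contra hy'
  obtain ⟨y', a₁, b₁, hy₁, hG₁', ha₁, hb₁, -, -, e₂⟩ := h₂ L y hy hy'
  rw [map_mul] at hG₁'
  obtain ⟨p, a, b, hp, hG0', ha, hb, -, -, e₁⟩ := h₁ L y' hy₁ (left_ne_zero_of_mul hG₁')
  rw [bw_o1] at e₁
  rw [map_mul, map_mul, aeval_X] at hG0'
  have hpi : p i₀ ≠ 0 := left_ne_zero_of_mul (right_ne_zero_of_mul hG0')
  have hpD := right_ne_zero_of_mul (right_ne_zero_of_mul hG0')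
  obtain ⟨hqp, hcan⟩ := hqL p hp hpD
  have hyy : y = yv q i₀ r (r * (n + 1) + m) j p a b a₁ b₁ := by
    rw [e₂, e₁]
    rfl
  have hv' := hv p hp (left_ne_zero_of_mul hG0')
  rw [hcan] at hv'
  have g1 := wv_ge₁ (i₀ := i₀) hq r (r * (n + 1) + m) j ha b ha₁ b₁ (p := p)
  have g2 := wv_ge₂ (q := q) hpi r (r * (n + 1) + m) j ha b a₁ hb₁
  rw [hyy, hB_yv hq hpi r _ j ha b ha₁ hb₁ hqp] at hyC
  have hW : logHeight (uu a b) ≤ (r * CX + C) / j := by
    rw [le_div_iff₀ hj0]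
    have h3 := mul_le_mul_of_nonneg_left hv' hr0.le
    have e3 : (r : ℝ) * (m / r * logHeight p + CX) = m * logHeight p + r * CX := by
      field_simp
    rw [e3] at h3
    push_cast at g2 hyC
    linarith
  apply right_ne_zero_of_mul hG₁'
  rw [e₁]
  change aeval (y1 p a b) (I1_F i₀ P) = 0
  rw [I1_val i₀ P p b hpi ha, hPT (b / a) ((lh_quot a b).trans hW), mul_zero]

end

end Pool.Agent.Lib.MP_17a322_nt.BI
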