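import Pool.Agent.Lib.MP_17a322_nt.BI.P0
import Pool.Agent.Lib.MP_17a322_nt.EQ.D1c
import Pool.Agent.Lib.MP_17a322_nt.EQ.D2
import Pool.Agent.Lib.MP_17a322_nt.EQ.H1

/-!
The Gauss map as a locally principal family of forms.
-/

universe u

namespace Pool.Agent.Lib.MP_17a322_nt.BI

open MvPolynomial Height NumberField
open Pool.Agent.Lib.MP_17a322_nt.EQ

/-- The determinant of a matrix of forms of the same degree. -/
private theorem P9_hom {K ι : Type*} [CommRing K] {r d : ℕ}
    (A : Matrix (Fin r) (Fin r) (MvPolynomial ι K)) (h : ∀ s t, (A s t).IsHomogeneous d) :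
    A.det.IsHomogeneous (r * d) := by
  classical
  rw [Matrix.det_apply]
  refine IsHomogeneous.sum _ _ _ fun σ _ => ?_
  have h1 : (∏ i, A (σ i) i).IsHomogeneous (r * d) := by
    have h2 := IsHomogeneous.prod Finset.univ (fun i => A (σ i) i) (fun _ => d) fun i _ => h (σ i) i
    simpa using h2
  rcases Int.units_eq_one_or (Equiv.Perm.sign σ) with h3 | h3
  · rw [h3, one_smul]
    exact h1
  · rw [h3, Units.neg_smul, one_smul]
    exact h1.neg

/-- The minors of two frames of the same space are proportional. -/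
private theorem P9_prop {L ι : Type*} [Field L] {m : ℕ} (y z : Fin m → ι → L)
    (h : ∀ k, y k ∈ Submodule.span L (Set.range z)) :
    ∃ c : L, ∀ s : Fin m → ι, (Matrix.of fun k l => y k (s l)).det = c * (Matrix.of fun k l => z k (s l)).det := by
  classical
  choose P hP using fun k => (Submodule.mem_span_range_iff_exists_fun L).1 (h k)
  refine ⟨(Matrix.of P).det, fun s => ?_⟩
  rw [← Matrix.det_mul]
  congr 1
  ext k l
  rw [Matrix.mul_apply, Matrix.of_apply, ← hP k]
  simp [Finset.sum_apply]

/-- The value of a minor. -/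
private theorem P9_det {K : Type u} [Field K] {ι : Type} {L : Type u} [Field L] [Algebra K L] (p : ι → L)
    {m : ℕ} (y : Fin m → ι → MvPolynomial ι K) (s : Fin m → ι) :
    aeval p (Matrix.of fun k l => y k (s l)).det = (Matrix.of fun k l => aeval p (y k (s l))).det := by
  rw [AlgHom.map_det]
  rfl

/-- The Gauss map of a smooth variety, given by a locally principal family of forms. -/
theorem gauss {K : Type u} [Field K] {ι : Type} [Fintype ι] {J : Ideal (MvPolynomial ι K)}
    {n : ℕ} (hJ : Smooth J n) (hi : ∃ i : ι, (X i : MvPolynomial ι K) ∉ J) :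
    ∃ (e : ℕ) (q : (Fin (n + 1) → ι) → MvPolynomial ι K), (∀ s, (q s).IsHomogeneous e) ∧ Car J q ∧
      (∃ s, q s ∉ J) ∧ ∀ (L : Type u) [Field L] [NumberField L] [Algebra K L] (p : ι → L), IsPt J p →
        (∃ s, aeval p (q s) ≠ 0) → hK J p = logHeight (fun s => aeval p (q s)) - (n + 1) * logHeight p := by
  classical
  have hprime := hJ.prime
  obtain ⟨m, d, y, hy1, hy2, hy3⟩ := frames hJ
  have hxi : IsPt J (xi J) := by
    constructor
    · obtain ⟨i, hi⟩ := hi
      intro h
      apply hi
      rw [← aeval_xi, aeval_X, h]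
      rfl
    · intro F hF
      exact (aeval_xi F).2 hF
  obtain ⟨r, hr⟩ := hy3 _ (xi J) hxi
  let q : Fin m → (Fin (n + 1) → ι) → MvPolynomial ι K := fun r s => (Matrix.of fun k l => y r k (s l)).det
  have hspan : Submodule.span (FractionRing (MvPolynomial ι K ⧸ J))
      (Set.range fun k i => aeval (xi J) (y r k i)) = Tan J (xi J) := by
    apply Submodule.eq_of_le_of_finrank_eq
    · rw [Submodule.span_le]
      rintro _ ⟨k, rfl⟩
      exact hy2 _ _ hxi r k
    · rw [finrank_span_eq_card hr, Fintype.card_fin, hJ.dim _ _ hxi]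
  have hprop : ∀ (r' : Fin m) (s t : Fin (n + 1) → ι), q r' s * q r t - q r' t * q r s ∈ J := by
    intro r' s t
    obtain ⟨c, hc⟩ := P9_prop (fun k i => aeval (xi J) (y r' k i)) (fun k i => aeval (xi J) (y r k i)) (by
      intro k
      rw [hspan]
      exact hy2 _ _ hxi r' k)
    rw [← aeval_xi, map_sub, map_mul, map_mul]
    simp only [q, P9_det]
    rw [hc s, hc t]
    ring
  refine ⟨(n + 1) * d r, q r, ?_, ?_, ?_, ?_⟩
  · intro s
    exact P9_hom _ fun k l => hy1 r k (s l)
  · intro L _ _ p hp
    obtain ⟨r', hr'⟩ := hy3 L p hp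
    obtain ⟨s, hs⟩ := H1_minor hr'
    refine ⟨s, q r' s, ?_, ?_⟩
    · simp only [q, P9_det]
      exact hs
    · intro t
      have h1 : q r' s * q r t = (q r' s * q r t - q r' t * q r s) + q r' t * q r s := by ring
      rw [h1]
      exact Ideal.add_mem _ (Ideal.mem_sup_left (hprop r' s t))
        (Ideal.mem_sup_right (Ideal.mul_mem_left _ _ (Ideal.mem_span_singleton_self _)))
  · obtain ⟨s, hs⟩ := H1_minor hr
    refine ⟨s, fun h => ?_⟩
    rw [← aeval_xi] at h
    simp only [q, P9_det] at h
    exact hs h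
  · rintro L _ _ _ p hp ⟨s, hs⟩
    have hev : ∀ s, aeval p (q r s) = (Matrix.of fun k l => aeval p (y r k (s l))).det := fun s =>
      P9_det p (y r) s
    have hli : LinearIndependent L fun k i => aeval p (y r k i) := by
      rw [hev s] at hs
      have h1 : LinearIndependent L (Matrix.of fun k l => aeval p (y r k (s l))).row := by
        rw [Matrix.linearIndependent_rows_iff_isUnit, Matrix.isUnit_iff_isUnit_det]
        exact hs.isUnit
      have h2 : LinearIndependent L (LinearMap.funLeft L L s ∘ fun k i => aeval p (y r k i)) := h1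
      exact LinearIndependent.of_comp _ h2
    have hdim := hJ.dim L p hp
    rw [hK, hPl_eq (Tan J p) hdim (fun k i => aeval p (y r k i)) (fun k => hy2 L p hp r k) hli, hdim]
    congr 1
    · congr 1
      funext s
      exact (hev s).symm
    · push_cast
      ring

end Pool.Agent.Lib.MP_17a322_nt.BI
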