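import Pool.Agent.Lib.MP_17a322_nt.BI.P3
import Pool.Agent.Lib.MP_17a322_nt.EQ.H1

/-!
Bundles of projective lines: the canonical height.
-/

universe u

namespace Pool.Agent.Lib.MP_17a322_nt.BI

open MvPolynomial Height NumberField
open Pool.Agent.Lib.MP_17a322_nt.EQ

section

variable {K : Type u} [Field K] [NumberField K] {I : Type} [Fintype I]

omit [Field K] [NumberField K] [Fintype I] in
private theorem p6_nn (v : K → ℝ) (hv : ∀ x, 0 ≤ v x) (x : I → K) : 0 ≤ ⨆ i, v (x i) :=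
  Real.iSup_nonneg fun i => hv (x i)

private theorem p6_fs {x : I → K} (hx : x ≠ 0) :
    (fun v : FinitePlace K => ⨆ i, v (x i)).HasFiniteMulSupport := by
  obtain ⟨i₀, hi₀⟩ := Function.ne_iff.1 hx
  have hne : Nonempty I := ⟨i₀⟩
  refine (Set.finite_iUnion (f := fun i : {i // x i ≠ 0} =>
    Function.mulSupport fun w : FinitePlace K => w (x i.1))
    fun i => FinitePlace.hasFiniteMulSupport i.2).subset fun w hw => ?_
  by_contra hc
  simp only [Set.mem_iUnion, Function.mem_mulSupport, not_exists, not_not] at hc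
  refine hw ?_
  refine le_antisymm (ciSup_le fun i => ?_) ?_
  · by_cases h : x i = 0
    · rw [h, map_zero]
      exact zero_le_one
    · exact (hc ⟨i, h⟩).le
  · rw [← hc ⟨i₀, hi₀⟩]
    exact Finite.le_ciSup (fun i => w (x i)) i₀

/-- Monotonicity of the multiplicative height. -/
private theorem p6_mono {I' : Type} [Fintype I'] {f : I → K} {g : I' → K} (hf : f ≠ 0) (hg : g ≠ 0)
    (h₁ : ∀ v : InfinitePlace K, ⨆ j, v (g j) ≤ ⨆ i, v (f i))
    (h₂ : ∀ v : FinitePlace K, ⨆ j, v (g j) ≤ ⨆ i, v (f i)) : mulHeight g ≤ mulHeight f := by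
  rw [NumberField.mulHeight_eq hf, NumberField.mulHeight_eq hg]
  refine mul_le_mul ?_ ?_ ?_ ?_
  · exact Finset.prod_le_prod (fun v _ => pow_nonneg (p6_nn _ (fun x => apply_nonneg v x) g) _)
      fun v _ => pow_le_pow_left₀ (p6_nn _ (fun x => apply_nonneg v x) g) (h₁ v) _
  · exact finprod_le_finprod (p6_fs hg) (fun v => p6_nn _ (fun x => apply_nonneg v x) g) (p6_fs hf) h₂
  · exact finprod_nonneg fun v => p6_nn _ (fun x => apply_nonneg v x) g
  · exact Finset.prod_nonneg fun v _ => pow_nonneg (p6_nn _ (fun x => apply_nonneg v x) f) _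

/-- A family which dominates another one for all absolute values has the larger height. -/
private theorem p6_dom {I' : Type} [Fintype I'] (f : I → K) (g : I' → K) (c : K) (hc : c ≠ 0) (hf : f ≠ 0)
    (hg : g ≠ 0) (h : ∀ (v : AbsoluteValue K ℝ) j, ∃ i, v (c * g j) ≤ v (f i)) : logHeight g ≤ logHeight f := by
  obtain ⟨j₀, hj₀⟩ := Function.ne_iff.1 hg
  have hne : Nonempty I' := ⟨j₀⟩
  have hcg : c • g ≠ 0 := fun h => by
    have := congrFun h j₀
    simp only [Pi.smul_apply, smul_eq_mul, Pi.zero_apply, mul_eq_zero, hc, false_or] at this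
    exact hj₀ this
  rw [← logHeight_smul_eq_logHeight g hc, logHeight_eq_log_mulHeight, logHeight_eq_log_mulHeight]
  refine Real.log_le_log (mulHeight_pos _) (p6_mono hf hcg (fun v => ciSup_le fun j => ?_) fun v => ciSup_le fun j => ?_)
  · obtain ⟨i, hi⟩ := h v.1 j
    exact hi.trans (Finite.le_ciSup (fun i => v (f i)) i)
  · obtain ⟨i, hi⟩ := h v.1 j
    exact hi.trans (Finite.le_ciSup (fun i => v (f i)) i)

end

section

variable {K : Type u} [Field K]

/-- The determinant. -/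
private theorem p6_det {n : ℕ} (M : Matrix (Fin (n + 2)) (Fin (n + 2)) K) (x y : K) (α : Fin n → K)
    (N : Matrix (Fin (n + 1)) (Fin (n + 1)) K) (h00 : M 0 0 = x) (h0 : ∀ j : Fin (n + 1), M 0 j.succ = 0)
    (h1 : ∀ j : Fin (n + 1), M 1 j.succ = y * N 0 j)
    (h2 : ∀ (k : Fin n) (j : Fin (n + 1)), M k.succ.succ j.succ = y * N k.succ j + α k * N 0 j) :
    M.det = x * (y ^ (n + 1) * N.det) := by
  set T : Matrix (Fin (n + 1)) (Fin (n + 1)) K :=
    Matrix.of fun a b => if a = b then y else if b = 0 then (Fin.cons (α := fun _ => K) 0 α a : K) else 0 with hT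
  have hdet : T.det = y ^ (n + 1) := by
    rw [Matrix.det_of_isLowerTriangular T ?_]
    · simp [hT]
    · intro a b hab
      have hab' : a < b := hab
      simp only [hT, Matrix.of_apply]
      rw [if_neg hab'.ne, if_neg]
      intro h
      rw [h] at hab'
      exact absurd hab' (Fin.not_lt_zero a)
  have hsub : M.submatrix Fin.succ Fin.succ = T * N := by
    ext a j
    rw [Matrix.submatrix_apply, Matrix.mul_apply]
    refine Fin.cases ?_ (fun k => ?_) a
    · rw [Finset.sum_eq_single 0]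
      · simp only [hT, Matrix.of_apply, if_true]
        exact h1 j
      · intro b _ hb
        simp only [hT, Matrix.of_apply]
        rw [if_neg hb.symm, if_neg hb, zero_mul]
      · intro h
        exact absurd (Finset.mem_univ _) h
    · rw [h2 k j, Fin.sum_univ_succ, Finset.sum_eq_single k]
      · simp only [hT, Matrix.of_apply, if_true, Fin.cons_succ]
        rw [if_neg (Fin.succ_ne_zero k)]
        ring
      · intro b _ hb
        simp only [hT, Matrix.of_apply]
        rw [if_neg (fun h => hb (Fin.succ_injective _ h).symm), if_neg (Fin.succ_ne_zero b), zero_mul]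
      · intro h
        exact absurd (Finset.mem_univ _) h
  rw [Matrix.det_succ_row_zero, Fin.sum_univ_succ, Finset.sum_eq_zero]
  · simp only [Fin.val_zero, pow_zero, one_mul, h00, Fin.succAbove_zero, add_zero]
    rw [hsub, Matrix.det_mul, hdet]
  · intro j _
    rw [h0 j, mul_zero, zero_mul]

/-- The determinant, with the first two rows exchanged. -/
private theorem p6_det' {n : ℕ} (M : Matrix (Fin (n + 2)) (Fin (n + 2)) K) (x y : K) (α : Fin n → K)
    (N : Matrix (Fin (n + 1)) (Fin (n + 1)) K) (h00 : M 1 0 = x) (h0 : ∀ j : Fin (n + 1), M 1 j.succ = 0)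
    (h1 : ∀ j : Fin (n + 1), M 0 j.succ = y * N 0 j)
    (h2 : ∀ (k : Fin n) (j : Fin (n + 1)), M k.succ.succ j.succ = y * N k.succ j + α k * N 0 j) :
    M.det = -(x * (y ^ (n + 1) * N.det)) := by
  have h := p6_det (M.submatrix (Equiv.swap 0 1) id) x y α N (by simpa using h00) (by simpa using h0)
    (by simpa using h1) (fun k j => by
      rw [Matrix.submatrix_apply, Equiv.swap_apply_of_ne_of_ne (Fin.succ_ne_zero _)]
      · exact h2 k j
      · intro h
        exact absurd (Fin.succ_injective _ h) (Fin.succ_ne_zero k))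
  rw [Matrix.det_permute, Equiv.Perm.sign_swap (by simp)] at h
  rw [← h]
  simp

/-- A basis of a subspace. -/
private theorem p6_b {W : Type u} [AddCommGroup W] [Module K W] [FiniteDimensional K W] (U : Submodule K W) {n : ℕ}
    (h : Module.finrank K U = n) : ∃ v : Fin n → W, (∀ k, v k ∈ U) ∧ LinearIndependent K v := by
  have b := Module.finBasisOfFinrankEq K U h
  exact ⟨fun k => b k, fun k => (b k).2, b.linearIndependent.map' U.subtype U.ker_subtype⟩

/-- A basis of a space with a given first vector. -/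
private theorem p6_basis {ι : Type} [Fintype ι] (V : Submodule K (ι → K)) {n : ℕ}
    (hV : Module.finrank K V = n + 1) {p : ι → K} (hpV : p ∈ V) (hp : p ≠ 0) :
    ∃ v : Fin n → ι → K, (∀ k, v k ∈ V) ∧ LinearIndependent K (Fin.cons p v : Fin (n + 1) → ι → K) := by
  obtain ⟨i₀, hi₀⟩ := Function.ne_iff.1 hp
  have hi₁ : p i₀ ≠ 0 := hi₀
  let φ0 : V →ₗ[K] K := (LinearMap.proj i₀).domRestrict V
  have hφ0 : LinearMap.range φ0 = ⊤ := by
    rw [LinearMap.range_eq_top]
    intro c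
    refine ⟨(c / p i₀) • ⟨p, hpV⟩, ?_⟩
    have h1 : φ0 ((c / p i₀) • ⟨p, hpV⟩) = c / p i₀ * p i₀ := rfl
    rw [h1]
    exact div_mul_cancel₀ c hi₁
  have hker : Module.finrank K (LinearMap.ker φ0) = n := by
    have h := LinearMap.finrank_range_add_finrank_ker φ0
    rw [hφ0, finrank_top, Module.finrank_self, hV] at h
    omega
  obtain ⟨b, hb1, hb2⟩ := p6_b (LinearMap.ker φ0) hker
  refine ⟨fun k => (b k : ι → K), fun k => (b k).2, ?_⟩
  rw [linearIndependent_finCons]
  refine ⟨hb2.map' V.subtype V.ker_subtype, fun h => hi₁ ?_⟩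
  have h2 : Submodule.span K (Set.range fun k => (b k : ι → K)) ≤
      LinearMap.ker (LinearMap.proj i₀ : (ι → K) →ₗ[K] K) := by
    rw [Submodule.span_le]
    rintro _ ⟨k, rfl⟩
    exact hb1 k
  exact h2 h

end

section

variable {K L : Type u} [Field K] [Field L] [NumberField L] [Algebra K L] {ι Λ Μ : Type} [Fintype ι]
  [Fintype Λ] [Fintype Μ]
  {J : Ideal (MvPolynomial ι K)} {φ : Λ → MvPolynomial ι K} {ψ : Μ → MvPolynomial ι K}

/-- A lower bound for the canonical height on the bundle, at one point over `L` (no smoothness: only the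
dimensions of the two tangent spaces are needed). -/
theorem hK_ge' {n : ℕ} (hJh : ∀ F ∈ J, ∀ i, homogeneousComponent i F ∈ J) {p : ι → L} (hp : IsPt J p) {a b : L}
    (hfr : Module.finrank L (Tan J p) = n + 1)
    (hfr' : Module.finrank L (Tan (bI J φ ψ) (sg p (bw φ ψ p a b))) = n + 2)
    (ha : a ≠ 0) (hb : b ≠ 0) (h₁ : ∃ l, aeval p (φ l) ≠ 0) (h₂ : ∃ l, aeval p (ψ l) ≠ 0) :
    hK J p + logHeight (fun l => aeval p (φ l)) + logHeight (fun l => aeval p (ψ l)) -
      2 * logHeight (bw φ ψ p a b) ≤ hK (bI J φ ψ) (sg p (bw φ ψ p a b)) := by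
  set A : Λ → L := fun l => aeval p (φ l) with hA
  set B : Μ → L := fun l => aeval p (ψ l) with hB
  set w : Λ ⊕ Μ → L := bw φ ψ p a b with hw
  have hwl : ∀ l, w (Sum.inl l) = a * A l := fun l => by
    simp only [hw, bw, Sum.elim_inl, hA]
  have hwr : ∀ l, w (Sum.inr l) = b * B l := fun l => by
    simp only [hw, bw, Sum.elim_inr, hB]
  obtain ⟨l₁, hl₁⟩ := h₁
  obtain ⟨l₂, hl₂⟩ := h₂
  have hA0 : A ≠ 0 := Function.ne_iff.2 ⟨l₁, hl₁⟩
  have hB0 : B ≠ 0 := Function.ne_iff.2 ⟨l₂, hl₂⟩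
  have hw0 : w ≠ 0 := Function.ne_iff.2 ⟨Sum.inl l₁, by
    rw [hwl]
    exact mul_ne_zero ha hl₁⟩
  obtain ⟨i₀, hi₀⟩ := Function.ne_iff.1 hp.1
  -- the basis of the tangent space of `J`
  obtain ⟨v, hv1, hv2⟩ := p6_basis (Tan J p) hfr (self_mem_Tan hJh hp) hp.1
  set z : Fin (n + 1) → ι → L := Fin.cons p v with hz
  have hz0 : ∀ k, z k ∈ Tan J p := by
    intro k
    refine Fin.cases ?_ (fun k => ?_) k
    · exact self_mem_Tan hJh hp
    · exact hv1 k
  set P : (Fin (n + 1) → ι) → L := fun s => (Matrix.of fun a b => z a (s b)).det with hP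
  have hP0 : P ≠ 0 := minors_ne hv2
  have hPl : hPl (Tan J p) = logHeight P := hPl_eq (Tan J p) hfr z hz0 hv2
  -- the point of the bundle
  have hq : IsPt (bI J φ ψ) (sg p w) := by
    refine ⟨Function.ne_iff.2 ⟨(i₀, Sum.inl l₁), ?_⟩, bI_pt hp.2 a b⟩
    simp only [sg, hwl, Pi.zero_apply]
    exact mul_ne_zero hi₀ (mul_ne_zero ha hl₁)
  -- the basis of its tangent space
  set E₁ : ι × (Λ ⊕ Μ) → L := fun x => p x.1 * Sum.elim (fun l => a * A l) (fun _ => 0) x.2 with hE₁
  set E₂ : ι × (Λ ⊕ Μ) → L := fun x => p x.1 * Sum.elim (fun _ => 0) (fun l => b * B l) x.2 with hE₂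
  set R : Fin n → ι × (Λ ⊕ Μ) → L := fun k x => v k x.1 * w x.2 +
    p x.1 * Sum.elim (fun l => a * dif p (φ l) (v k)) (fun l => b * dif p (ψ l) (v k)) x.2 with hR
  set y : Fin (n + 2) → ι × (Λ ⊕ Μ) → L := Fin.cons E₁ (Fin.cons E₂ R) with hy
  have hyT : ∀ k, y k ∈ Tan (bI J φ ψ) (sg p w) := by
    intro k
    refine Fin.cases ?_ (fun k => Fin.cases ?_ (fun k => ?_) k) k
    · have h := bI_tan (φ := φ) (ψ := ψ) hp.2 (Submodule.zero_mem (Tan J p)) a b a 0
      have h' : (fun z : ι × (Λ ⊕ Μ) => (0 : ι → L) z.1 * bw φ ψ p a b z.2 +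
          p z.1 * Sum.elim (fun l => a * aeval p (φ l) + a * dif p (φ l) 0)
            (fun l => 0 * aeval p (ψ l) + b * dif p (ψ l) 0) z.2) = E₁ := by
        funext x
        obtain ⟨i, l | l⟩ := x
        · simp [hE₁, hA]
        · simp [hE₁]
      rw [h'] at h
      exact h
    · have h := bI_tan (φ := φ) (ψ := ψ) hp.2 (Submodule.zero_mem (Tan J p)) a b 0 b
      have h' : (fun z : ι × (Λ ⊕ Μ) => (0 : ι → L) z.1 * bw φ ψ p a b z.2 +
          p z.1 * Sum.elim (fun l => 0 * aeval p (φ l) + a * dif p (φ l) 0)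
            (fun l => b * aeval p (ψ l) + b * dif p (ψ l) 0) z.2) = E₂ := by
        funext x
        obtain ⟨i, l | l⟩ := x
        · simp [hE₂]
        · simp [hE₂, hB]
      rw [h'] at h
      exact h
    · have h := bI_tan (φ := φ) (ψ := ψ) hp.2 (hv1 k) a b 0 0
      have h' : (fun z : ι × (Λ ⊕ Μ) => v k z.1 * bw φ ψ p a b z.2 +
          p z.1 * Sum.elim (fun l => 0 * aeval p (φ l) + a * dif p (φ l) (v k))
            (fun l => 0 * aeval p (ψ l) + b * dif p (ψ l) (v k)) z.2) = R k := by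
        funext x
        obtain ⟨i, l | l⟩ := x
        · simp [hR, hw]
        · simp [hR, hw]
      rw [h'] at h
      exact h
  -- the two kinds of minors
  have hm₂ : ∀ (i : ι) (s : Fin (n + 1) → ι) (l : Λ) (l' : Μ),
      (Matrix.of fun a b => y a ((Fin.cons (i, Sum.inl l) fun j => (s j, Sum.inr l')
        : Fin (n + 2) → ι × (Λ ⊕ Μ)) b)).det = p i * (a * A l) * ((b * B l') ^ (n + 1) * P s) := by
    intro i s l l'
    refine p6_det _ _ (b * B l') (fun k => b * dif p (ψ l') (v k)) _ ?_ ?_ ?_ ?_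
    · simp [hy, hE₁]
    · intro j
      simp [hy, hE₁]
    · intro j
      have : (1 : Fin (n + 2)) = Fin.succ 0 := rfl
      rw [this]
      simp only [Matrix.of_apply, hy, Fin.cons_succ, Fin.cons_zero, hE₂, hz, Sum.elim_inr]
      ring
    · intro k j
      simp only [Matrix.of_apply, hy, Fin.cons_succ, Fin.cons_zero, hR, hz, Sum.elim_inr, hwr]
      ring
  have hm₁ : ∀ (i : ι) (s : Fin (n + 1) → ι) (l : Λ) (l' : Μ),
      (Matrix.of fun a b => y a ((Fin.cons (i, Sum.inr l') fun j => (s j, Sum.inl l)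
        : Fin (n + 2) → ι × (Λ ⊕ Μ)) b)).det = -(p i * (b * B l') * ((a * A l) ^ (n + 1) * P s)) := by
    intro i s l l'
    refine p6_det' _ _ (a * A l) (fun k => a * dif p (φ l) (v k)) _ ?_ ?_ ?_ ?_
    · have : (1 : Fin (n + 2)) = Fin.succ 0 := rfl
      rw [this]
      simp only [Matrix.of_apply, hy, Fin.cons_succ, Fin.cons_zero, hE₂, Sum.elim_inr]
    · intro j
      have : (1 : Fin (n + 2)) = Fin.succ 0 := rfl
      rw [this]
      simp only [Matrix.of_apply, hy, Fin.cons_succ, Fin.cons_zero, hE₂, Sum.elim_inl, mul_zero]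
    · intro j
      simp only [Matrix.of_apply, hy, Fin.cons_succ, Fin.cons_zero, hE₁, hz, Sum.elim_inl]
      ring
    · intro k j
      simp only [Matrix.of_apply, hy, Fin.cons_succ, Fin.cons_zero, hR, hz, Sum.elim_inl, hwl]
      ring
  obtain ⟨s₀, hs₀⟩ := Function.ne_iff.1 hP0
  have hyi : LinearIndependent L y := by
    refine G1_indep (s := (Fin.cons (i₀, Sum.inl l₁) fun j => (s₀ j, Sum.inr l₂) : Fin (n + 2) → ι × (Λ ⊕ Μ))) ?_
    rw [hm₂]
    exact mul_ne_zero (mul_ne_zero hi₀ (mul_ne_zero ha hl₁))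
      (mul_ne_zero (pow_ne_zero _ (mul_ne_zero hb hl₂)) hs₀)
  have hPl' := hPl_eq (Tan (bI J φ ψ) (sg p w)) hfr' y hyT hyi
  -- the height of the minors
  have hAB : (fun x : Λ × Μ => A x.1 * B x.2) ≠ 0 := Function.ne_iff.2 ⟨(l₁, l₂), mul_ne_zero hl₁ hl₂⟩
  have hpP : (fun x : ι × (Fin (n + 1) → ι) => p x.1 * P x.2) ≠ 0 :=
    Function.ne_iff.2 ⟨(i₀, s₀), mul_ne_zero hi₀ hs₀⟩
  have hwn : w ^ n ≠ 0 := Function.ne_iff.2 ⟨Sum.inl l₁, by
    rw [Pi.pow_apply, hwl]
    exact pow_ne_zero _ (mul_ne_zero ha hl₁)⟩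
  have hABw : (fun x : (Λ × Μ) × (Λ ⊕ Μ) => (A x.1.1 * B x.1.2) * (w ^ n) x.2) ≠ 0 :=
    Function.ne_iff.2 ⟨((l₁, l₂), Sum.inl l₁), mul_ne_zero (mul_ne_zero hl₁ hl₂) (by
      rw [Pi.pow_apply, hwl]
      exact pow_ne_zero _ (mul_ne_zero ha hl₁))⟩
  have hg : logHeight (fun x : (ι × (Fin (n + 1) → ι)) × ((Λ × Μ) × (Λ ⊕ Μ)) =>
      (p x.1.1 * P x.1.2) * ((A x.2.1.1 * B x.2.1.2) * (w ^ n) x.2.2)) =
      (logHeight p + logHeight P) + ((logHeight A + logHeight B) + n * logHeight w) := by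
    rw [logHeight_fun_mul_eq hpP hABw, logHeight_fun_mul_eq hp.1 hP0, logHeight_fun_mul_eq hAB hwn,
      logHeight_fun_mul_eq hA0 hB0, logHeight_pow]
  have hle : (logHeight p + logHeight P) + ((logHeight A + logHeight B) + n * logHeight w) ≤
      EQ.hPl (Tan (bI J φ ψ) (sg p w)) := by
    rw [← hg, hPl']
    refine p6_dom _ _ (a * b) (mul_ne_zero ha hb) (minors_ne hyi)
      (Function.ne_iff.2 ⟨((i₀, s₀), ((l₁, l₂), Sum.inl l₁)), mul_ne_zero (mul_ne_zero hi₀ hs₀)
        (mul_ne_zero (mul_ne_zero hl₁ hl₂) (by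
          rw [Pi.pow_apply, hwl]
          exact pow_ne_zero _ (mul_ne_zero ha hl₁)))⟩) ?_
    rintro u ⟨⟨i, s⟩, ⟨⟨l, l'⟩, m | m⟩⟩
    · rcases le_total (u (a * A l)) (u (a * A m)) with h | h
      · refine ⟨(Fin.cons (i, Sum.inr l') fun j => (s j, Sum.inl m) : Fin (n + 2) → ι × (Λ ⊕ Μ)), ?_⟩
        rw [hm₁, map_neg_eq_map]
        simp only [Pi.pow_apply, hwl]
        have e1 : a * b * (p i * P s * (A l * B l' * (a * A m) ^ n)) =
          (p i * P s * (b * B l')) * (a * A m) ^ n * (a * A l) := by ring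
        have e2 : p i * (b * B l') * ((a * A m) ^ (n + 1) * P s) =
          (p i * P s * (b * B l')) * (a * A m) ^ n * (a * A m) := by ring
        rw [e1, e2, map_mul, map_mul _ _ (a * A m)]
        exact mul_le_mul_of_nonneg_left h (apply_nonneg u _)
      · refine ⟨(Fin.cons (i, Sum.inr l') fun j => (s j, Sum.inl l) : Fin (n + 2) → ι × (Λ ⊕ Μ)), ?_⟩
        rw [hm₁, map_neg_eq_map]
        simp only [Pi.pow_apply, hwl]
        have e1 : a * b * (p i * P s * (A l * B l' * (a * A m) ^ n)) =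
          (p i * P s * (b * B l') * (a * A l)) * (a * A m) ^ n := by ring
        have e2 : p i * (b * B l') * ((a * A l) ^ (n + 1) * P s) =
          (p i * P s * (b * B l') * (a * A l)) * (a * A l) ^ n := by ring
        rw [e1, e2, map_mul, map_mul _ _ ((a * A l) ^ n), map_pow, map_pow]
        exact mul_le_mul_of_nonneg_left (pow_le_pow_left₀ (apply_nonneg u _) h n) (apply_nonneg u _)
    · rcases le_total (u (b * B l')) (u (b * B m)) with h | h
      · refine ⟨(Fin.cons (i, Sum.inl l) fun j => (s j, Sum.inr m) : Fin (n + 2) → ι × (Λ ⊕ Μ)), ?_⟩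
        rw [hm₂]
        simp only [Pi.pow_apply, hwr]
        have e1 : a * b * (p i * P s * (A l * B l' * (b * B m) ^ n)) =
          (p i * P s * (a * A l)) * (b * B m) ^ n * (b * B l') := by ring
        have e2 : p i * (a * A l) * ((b * B m) ^ (n + 1) * P s) =
          (p i * P s * (a * A l)) * (b * B m) ^ n * (b * B m) := by ring
        rw [e1, e2, map_mul, map_mul _ _ (b * B m)]
        exact mul_le_mul_of_nonneg_left h (apply_nonneg u _)
      · refine ⟨(Fin.cons (i, Sum.inl l) fun j => (s j, Sum.inr l') : Fin (n + 2) → ι × (Λ ⊕ Μ)), ?_⟩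
        rw [hm₂]
        simp only [Pi.pow_apply, hwr]
        have e1 : a * b * (p i * P s * (A l * B l' * (b * B m) ^ n)) =
          (p i * P s * (a * A l) * (b * B l')) * (b * B m) ^ n := by ring
        have e2 : p i * (a * A l) * ((b * B l') ^ (n + 1) * P s) =
          (p i * P s * (a * A l) * (b * B l')) * (b * B l') ^ n := by ring
        rw [e1, e2, map_mul, map_mul _ _ ((b * B l') ^ n), map_pow, map_pow]
        exact mul_le_mul_of_nonneg_left (pow_le_pow_left₀ (apply_nonneg u _) h n) (apply_nonneg u _)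
  -- the end
  have hsg : logHeight (sg p w) = logHeight p + logHeight w := logHeight_fun_mul_eq hp.1 hw0
  simp only [hK, hfr, hfr', hsg]
  rw [hPl]
  push_cast
  nlinarith [hle]

/-- A lower bound for the canonical height on the bundle. -/
theorem hK_ge {n d₁ d₂ : ℕ} (hJ : Smooth J n) (hJ' : Smooth (bI J φ ψ) (n + 1))
    (_hφ : ∀ l, (φ l).IsHomogeneous d₁) (_hψ : ∀ l, (ψ l).IsHomogeneous d₂)
    {p : ι → L} (hp : IsPt J p) {a b : L} (ha : a ≠ 0) (hb : b ≠ 0) (h₁ : ∃ l, aeval p (φ l) ≠ 0)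
    (h₂ : ∃ l, aeval p (ψ l) ≠ 0) :
    hK J p + logHeight (fun l => aeval p (φ l)) + logHeight (fun l => aeval p (ψ l)) -
      2 * logHeight (bw φ ψ p a b) ≤ hK (bI J φ ψ) (sg p (bw φ ψ p a b)) := by
  refine hK_ge' hJ.homog hp (hJ.dim L p hp) (hJ'.dim L _ ?_) ha hb h₁ h₂
  obtain ⟨i₀, hi₀⟩ := Function.ne_iff.1 hp.1
  obtain ⟨l₁, hl₁⟩ := h₁
  refine ⟨Function.ne_iff.2 ⟨(i₀, Sum.inl l₁), ?_⟩, bI_pt hp.2 a b⟩
  simp only [sg, bw, Sum.elim_inl, Pi.zero_apply]
  exact mul_ne_zero hi₀ (mul_ne_zero ha hl₁)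

end

end Pool.Agent.Lib.MP_17a322_nt.BI
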