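import Pool.Agent.Lib.MP_17a322_nt.BI.P4

/-!
Bundles of projective lines: the tangent spaces at the general points.
-/

universe u

namespace Pool.Agent.Lib.MP_17a322_nt.BI

open MvPolynomial
open Pool.Agent.Lib.MP_17a322_nt.EQ

section

variable {K : Type u} [Field K] {ι Λ Μ : Type} [Fintype ι] [Fintype Λ] [Fintype Μ]
  {J : Ideal (MvPolynomial ι K)} {φ : Λ → MvPolynomial ι K} {ψ : Μ → MvPolynomial ι K}

/-- A family is locally principal at the points at which it does not vanish. -/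
theorem lg_of_ne {κ : Type} {g : κ → MvPolynomial ι K} {L : Type u} [Field L] [Algebra K L] {p : ι → L} {s : κ}
    (hs : aeval p (g s) ≠ 0) : LG J g p s :=
  ⟨g s, hs, fun j => Ideal.mem_sup_right (Ideal.mul_mem_right _ _ (Ideal.mem_span_singleton_self _))⟩

/-- The dimension of the tangent space of the bundle at the points with `a`, `b`, `φ(p)` and `ψ(p)` different
from zero. -/
theorem bI_dim [CharZero K] {L : Type u} [Field L] [Algebra K L] {d₁ d₂ : ℕ}
    (hJ : ∀ F ∈ J, ∀ i, homogeneousComponent i F ∈ J)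
    (hφ : ∀ l, (φ l).IsHomogeneous d₁) (hψ : ∀ l, (ψ l).IsHomogeneous d₂) {p : ι → L} (hp : IsPt J p) {a b : L}
    (ha : a ≠ 0) (h₁ : ∃ l, aeval p (φ l) ≠ 0) (h₂ : ∃ l, aeval p (ψ l) ≠ 0) :
    Module.finrank L (Tan (bI J φ ψ) (sg p (bw φ ψ p a b))) = Module.finrank L (Tan J p) + 1 := by
  refine le_antisymm ?_ (bI_tan_ge' hφ hp ha h₁ h₂)
  obtain ⟨l, hl⟩ := h₁
  obtain ⟨m, hm⟩ := h₂
  obtain ⟨i, hi⟩ := Function.ne_iff.1 hp.1
  have hw : bw φ ψ p a b (Sum.inl l) ≠ 0 := mul_ne_zero ha hl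
  set c := bw φ ψ p a b (Sum.inl l) with hc
  have hz : sg p (bw φ ψ p a b) (i, Sum.inl l) ≠ 0 := mul_ne_zero hi hw
  have hy : IsPt (bI J φ ψ) (sg p (bw φ ψ p a b)) := by
    refine ⟨fun h => hz (congrFun h _), bI_pt hp.2 a b⟩
  have hq : (fun j => sg p (bw φ ψ p a b) (j, Sum.inl l)) = fun j => c * p j := by
    funext j
    exact mul_comm _ _
  have h1 : LG J φ (fun j => sg p (bw φ ψ p a b) (j, Sum.inl l)) l := by
    refine lg_of_ne ?_
    rw [hq, aeval_mul (hφ l)]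
    exact mul_ne_zero (pow_ne_zero _ hw) hl
  have h2 : LG J ψ (fun j => sg p (bw φ ψ p a b) (j, Sum.inl l)) m := by
    refine lg_of_ne ?_
    rw [hq, aeval_mul (hψ m)]
    exact mul_ne_zero (pow_ne_zero _ hw) hm
  have h3 := bI_upper' hJ hφ hψ hy hz h1 h2
  rwa [hq, Tan_mul hJ hw p] at h3

end

end Pool.Agent.Lib.MP_17a322_nt.BI
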