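import Pool.Agent.Lib.MP_17a322_nt.BI.V1
import Pool.Agent.Lib.MP_17a322_nt.BI.Q3
import Pool.Agent.Lib.MP_17a322_nt.BI.P6
import Pool.Agent.Lib.MP_17a322_nt.BI.P8

/-!
The pair `(Y, D)`: `K_Y + c D` is big.
-/

set_option linter.unusedSectionVars false

universe u

namespace Pool.Agent.Lib.MP_17a322_nt.BI

open MvPolynomial Height NumberField
open Pool.Agent.Lib.MP_17a322_nt.EQ

section

variable {K : Type u} [Field K] [NumberField K] {ι κ : Type} [Fintype ι] [Fintype κ] {J : Ideal (MvPolynomial ι K)}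

/-- The numerical part. -/
theorem big_num {n r k j : ℕ} (hk : r * (n + 1) < k) (hj : 2 * r < j) {c : ℝ} (hc : 1 ≤ r * (c - 1))
    {P W T H x : ℝ} (hP : 0 ≤ P) (hW : 0 ≤ W) (h₁ : r * H ≤ T) (h₂ : k * P + j * W ≤ T)
    (hx : H - (n + 1) * P - 2 * W + r * H + (k * P + j * W) - 2 * T ≤ x) :
    P + W + T ≤ ((k + j + 1) * r) * (x + c * ((T - r * H) + (T - (k * P + j * W)))) := by
  have hk' : (r : ℝ) * (n + 1) + 1 ≤ k := by exact_mod_cast hk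
  have hj' : 2 * (r : ℝ) + 1 ≤ j := by exact_mod_cast hj
  have hr0 : (0 : ℝ) ≤ r := Nat.cast_nonneg _
  have hk0 : (0 : ℝ) ≤ k := Nat.cast_nonneg _
  have hj0 : (0 : ℝ) ≤ j := Nat.cast_nonneg _
  have a1 := mul_le_mul_of_nonneg_left hx hr0
  have a2 : 1 * ((T - r * H) + (T - (k * P + j * W))) ≤ r * (c - 1) * ((T - r * H) + (T - (k * P + j * W))) :=
    mul_le_mul_of_nonneg_right hc (by linarith)
  have a3 := mul_le_mul_of_nonneg_right hk' hP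
  have a4 := mul_le_mul_of_nonneg_right hj' hW
  have a5 : P + W + 2 * (T - (k * P + j * W)) ≤ r * (x + c * ((T - r * H) + (T - (k * P + j * W)))) := by
    linarith
  have a6 : (k + j + 1) * (P + W + 2 * (T - (k * P + j * W))) ≤
      (k + j + 1) * (r * (x + c * ((T - r * H) + (T - (k * P + j * W))))) :=
    mul_le_mul_of_nonneg_left a5 (by positivity)
  have a7 : 0 ≤ (k + j : ℝ) * (T - (k * P + j * W)) := mul_nonneg (by positivity) (by linarith)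
  have a8 : 0 ≤ j * P := mul_nonneg hj0 hP
  have a9 : 0 ≤ k * W := mul_nonneg hk0 hW
  have a10 : (k + j + 1) * (r * (x + c * ((T - r * H) + (T - (k * P + j * W))))) =
      ((k + j + 1) * r) * (x + c * ((T - r * H) + (T - (k * P + j * W)))) := by ring
  rw [← a10]
  refine le_trans ?_ a6
  linarith

/-- A lower bound for the canonical height of the point of `Y`. -/
theorem hK_yv {n : ℕ} (hJh : ∀ F ∈ J, ∀ i, homogeneousComponent i F ∈ J) {i₀ : ι} (r k j : ℕ)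
    {q : κ → MvPolynomial ι K} {e : ℕ} (hq : ∀ s, (q s).IsHomogeneous e)
    {L : Type u} [Field L] [NumberField L] [Algebra K L] {p : ι → L} (hp : IsPt J p) (hpi : p i₀ ≠ 0)
    (hqp : ∃ s, aeval p (q s) ≠ 0) (hfr : Module.finrank L (Tan J p) = n + 1)
    (hqL : hK J p = logHeight (fun s => aeval p (q s)) - (n + 1) * logHeight p)
    {a b a₁ b₁ : L} (ha : a ≠ 0) (hb : b ≠ 0) (ha₁ : a₁ ≠ 0) (hb₁ : b₁ ≠ 0) :
    logHeight (fun s => aeval p (q s)) - (n + 1) * logHeight p - 2 * logHeight (uu a b) +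
      r * logHeight (fun s => aeval p (q s)) + (k * logHeight p + j * logHeight (uu a b)) -
      2 * logHeight (wv q i₀ r k j p a b a₁ b₁) ≤
      hK (JV J i₀ q r k j) (yv q i₀ r k j p a b a₁ b₁) := by
  have hy1 : IsPt (J1 J) (y1 p a b) := by
    refine ⟨y1_ne (fun h => hpi (congrFun h i₀)) ha b, ?_⟩
    have h := bI_pt (φ := o1) (ψ := o1) hp.2 a b
    rw [bw_o1] at h
    exact h
  have g1 : ∃ l : Unit, aeval p (o1 l : MvPolynomial ι K) ≠ 0 := ⟨(), by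
    change aeval p (1 : MvPolynomial ι K) ≠ 0
    rw [map_one]
    exact one_ne_zero⟩
  have d1 : Module.finrank L (Tan (bI J o1 o1) (sg p (bw (K := K) o1 o1 p a b))) = n + 2 := by
    rw [bI_dim hJh o1_hom o1_hom hp ha g1 g1, hfr]
  have hJ1h : ∀ F ∈ J1 J, ∀ i, homogeneousComponent i F ∈ J1 J := bI_homog J o1 o1
  have d1' : Module.finrank L (Tan (J1 J) (y1 p a b)) = (n + 1) + 1 := by
    have h := d1
    rw [bw_o1] at h
    exact h
  have d2 : Module.finrank L (Tan (bI (J1 J) (φv q r) (ψv i₀ k j))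
      (sg (y1 p a b) (bw (φv q r) (ψv i₀ k j) (y1 p a b) a₁ b₁))) = (n + 1) + 2 := by
    rw [bI_dim hJ1h (φv_hom hq r) (ψv_hom i₀ k j) hy1 ha₁ (φv_ne hq r ha b hqp) (ψv_ne hpi k j ha b), d1']
  have h1 := hK_ge' hJh hp hfr d1 ha hb g1 g1
  have h2 := hK_ge' hJ1h hy1 d1' d2 ha₁ hb₁ (φv_ne hq r ha b hqp) (ψv_ne hpi k j ha b)
  rw [logHeight_eq_zero_of_subsingleton, bw_o1] at h1
  rw [lh_φv hq r ha, lh_ψv hpi k j ha] at h2
  change _ ≤ hK (J1 J) (y1 p a b) at h1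
  change _ - 2 * logHeight (wv q i₀ r k j p a b a₁ b₁) ≤
    hK (JV J i₀ q r k j) (yv q i₀ r k j p a b a₁ b₁) at h2
  change hK (J1 J) (y1 p a b) + _ + _ - _ ≤ _ at h2
  rw [hqL] at h1
  linarith

/-- `K_Y + c D` is big for `c ≥ 1 + 1 / r`. -/
theorem big_v {n : ℕ} (hprime : J.IsPrime) (hJh : ∀ F ∈ J, ∀ i, homogeneousComponent i F ∈ J) {i₀ : ι}
    (hi : (X i₀ : MvPolynomial ι K) ∉ J) {q : κ → MvPolynomial ι K} {e : ℕ} (hq : ∀ s, (q s).IsHomogeneous e)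
    (hs : ∃ s, q s ∉ J) {D : MvPolynomial ι K} {d : ℕ} (hD : D.IsHomogeneous d) (hDJ : D ∉ J)
    (hT : ∀ (L : Type u) [Field L] [Algebra K L] (p : ι → L), IsPt J p → aeval p D ≠ 0 →
        Module.finrank L (Tan J p) = n + 1 ∧ ∃ s, aeval p (q s) ≠ 0)
    (hqL : ∀ (L : Type u) [Field L] [NumberField L] [Algebra K L] (p : ι → L), IsPt J p → aeval p D ≠ 0 →
        hK J p = logHeight (fun s => aeval p (q s)) - (n + 1) * logHeight p)
    {r k j : ℕ} (hk : r * (n + 1) < k) (hj : 2 * r < j) {c : ℝ} (hc : 1 ≤ r * (c - 1)) :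
    Big (JV J i₀ q r k j) 2 (gv (ι := ι) (κ := κ)) c := by
  obtain ⟨s, hs'⟩ := hs
  have hG0h : (X i₀ * D).IsHomogeneous (1 + d) := (isHomogeneous_X K i₀).mul hD
  have hG0 : X i₀ * D ∉ J := fun h => (hprime.mem_or_mem h).elim hi hDJ
  obtain ⟨G₁, hG₁, ⟨d₁, hd₁⟩, h₁⟩ := pts hprime hJh o1_hom o1_hom ⟨(), one_notMem hprime⟩
    ⟨(), one_notMem hprime⟩ hG0h hG0 ⟨i₀, hi⟩
  obtain ⟨G₂, hG₂, hd₂, h₂⟩ := pts (bI_prime hprime o1 o1) (bI_homog J o1 o1) (φv_hom hq r) (ψv_hom i₀ k j)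
    ⟨s, φv_notMem hprime hq r hs'⟩ ⟨(i₀, Sum.inl ()), ψv_notMem hprime hi k j⟩ hd₁ hG₁
    ⟨(i₀, Sum.inl ()), J1_X hprime hi _⟩
  refine ⟨(k + j + 1) * r, 0, G₂, hG₂, hd₂, fun L _ _ _ y hy hy' => ?_⟩
  obtain ⟨y', a₁, b₁, hy₁, hG₁', ha₁, hb₁, -, -, e₂⟩ := h₂ L y hy hy'
  obtain ⟨p, a, b, hp, hG0', ha, hb, -, -, e₁⟩ := h₁ L y' hy₁ hG₁'
  rw [map_mul, aeval_X] at hG0'
  have hpi : p i₀ ≠ 0 := left_ne_zero_of_mul hG0'
  have hpD := right_ne_zero_of_mul hG0'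
  obtain ⟨hfr, hqp⟩ := hT L p hp hpD
  have hyy : y = yv q i₀ r k j p a b a₁ b₁ := by
    rw [e₂, e₁, bw_o1]
    rfl
  have hk' := hK_yv hJh r k j hq hp hpi hqp hfr (hqL L p hp hpD) ha hb ha₁ hb₁
  rw [hyy, hB_yv hq hpi r k j ha b ha₁ hb₁ hqp, lh_yv hq hpi r k j ha b ha₁ b₁ hqp, zero_mul, add_zero]
  push_cast
  exact big_num hk hj hc (logHeight_nonneg _) (logHeight_nonneg _) (wv_ge₁ hq r k j ha b ha₁ b₁)
    (wv_ge₂ hpi r k j ha b a₁ hb₁) hk'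

end

end Pool.Agent.Lib.MP_17a322_nt.BI
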