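import Pool.Agent.Lib.MP_17a322_nt.BI.Y4
import Pool.Agent.Lib.MP_17a322_nt.BI.V2

/-!
The canonical height of the points of `Y`: an upper bound.
-/

set_option linter.unusedSectionVars false

universe u

namespace Pool.Agent.Lib.MP_17a322_nt.BI

open MvPolynomial Height NumberField
open Pool.Agent.Lib.MP_17a322_nt.EQ

section

variable {K : Type u} [Field K] [NumberField K] {ι κ : Type} [Fintype ι] [Fintype κ] {J : Ideal (MvPolynomial ι K)}

/-- An upper bound for the canonical height of the points of `Y`. -/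
theorem hK_yv_le {n : ℕ} (hJ : Smooth J n) {i₀ : ι} (r k j : ℕ)
    {q : κ → MvPolynomial ι K} {e : ℕ} (hq : ∀ s, (q s).IsHomogeneous e) (hqc : Car J q) :
    ∃ C : ℝ, ∀ (L : Type u) [Field L] [NumberField L] [Algebra K L] (p : ι → L) (a b a₁ b₁ : L), IsPt J p →
      p i₀ ≠ 0 → (∃ s, aeval p (q s) ≠ 0) → a ≠ 0 → b ≠ 0 → a₁ ≠ 0 → b₁ ≠ 0 →
      hK (JV J i₀ q r k j) (yv q i₀ r k j p a b a₁ b₁) ≤
        hK J p - 2 * logHeight (uu a b) + C * Module.finrank ℚ L := by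
  have hJh := hJ.homog
  have hJ1h : ∀ F ∈ J1 J, ∀ i, homogeneousComponent i F ∈ J1 J := bI_homog J o1 o1
  obtain ⟨C₁, hC₁⟩ := hK_le (n := n) hJh o1_hom o1_hom (car_one J 1) (car_one J 1)
  obtain ⟨C₂, hC₂⟩ := hK_le (n := n + 1) hJ1h (φv_hom hq r) (ψv_hom i₀ k j) (φv_car hJh hq hqc r)
    (ψv_car hJh i₀ k j)
  refine ⟨C₁ + C₂, fun L _ _ _ p a b a₁ b₁ hp hpi hqp ha hb ha₁ hb₁ => ?_⟩
  have hy1 : IsPt (J1 J) (y1 p a b) := by
    refine ⟨y1_ne (fun h => hpi (congrFun h i₀)) ha b, ?_⟩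
    have h := bI_pt (φ := o1) (ψ := o1) hp.2 a b
    rw [bw_o1] at h
    exact h
  have g1 : ∃ l : Unit, aeval p (o1 l : MvPolynomial ι K) ≠ 0 := ⟨(), by
    change aeval p (1 : MvPolynomial ι K) ≠ 0
    rw [map_one]
    exact one_ne_zero⟩
  have hfr := hJ.dim L p hp
  have d1 : Module.finrank L (Tan (bI J o1 o1) (sg p (bw (K := K) o1 o1 p a b))) = n + 2 := by
    rw [bI_dim hJh o1_hom o1_hom hp ha g1 g1, hfr]
  have d1' : Module.finrank L (Tan (J1 J) (y1 p a b)) = (n + 1) + 1 := by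
    have h := d1
    rw [bw_o1] at h
    exact h
  have d2 : Module.finrank L (Tan (bI (J1 J) (φv q r) (ψv i₀ k j))
      (sg (y1 p a b) (bw (φv q r) (ψv i₀ k j) (y1 p a b) a₁ b₁))) = (n + 1) + 2 := by
    rw [bI_dim hJ1h (φv_hom hq r) (ψv_hom i₀ k j) hy1 ha₁ (φv_ne hq r ha b hqp) (ψv_ne hpi k j ha b), d1']
  have h1 := hC₁ L p a b hp hfr d1 ha hb g1 g1
  have h2 := hC₂ L (y1 p a b) a₁ b₁ hy1 d1' d2 ha₁ hb₁ (φv_ne hq r ha b hqp) (ψv_ne hpi k j ha b)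
  rw [lh_φv hq r ha, lh_ψv hpi k j ha] at h2
  change hK (JV J i₀ q r k j) (yv q i₀ r k j p a b a₁ b₁) ≤
    _ - 2 * logHeight (wv q i₀ r k j p a b a₁ b₁) + C₂ * Module.finrank ℚ L at h2
  have h3 : logHeight (fun l : Unit => aeval p ((fun _ : Unit => (1 : MvPolynomial ι K)) l)) = 0 :=
    logHeight_eq_zero_of_subsingleton _
  have h4 : hK (J1 J) (y1 p a b) ≤ hK J p - 2 * logHeight (uu a b) + C₁ * Module.finrank ℚ L := by
    have h5 := h1
    change hK (bI J o1 o1) (sg p (bw (K := K) o1 o1 p a b)) ≤ hK J p +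
      logHeight (fun l : Unit => aeval p ((fun _ : Unit => (1 : MvPolynomial ι K)) l)) +
      logHeight (fun l : Unit => aeval p ((fun _ : Unit => (1 : MvPolynomial ι K)) l)) -
      2 * logHeight (bw (K := K) o1 o1 p a b) + C₁ * Module.finrank ℚ L at h5
    rw [h3, bw_o1] at h5
    change hK (J1 J) (y1 p a b) ≤ _ at h5
    linarith
  have h5 := wv_ge₁ (i₀ := i₀) (p := p) hq r k j ha b ha₁ b₁
  have h6 := wv_ge₂ (q := q) (p := p) hpi r k j ha b a₁ hb₁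
  linarith

end

end Pool.Agent.Lib.MP_17a322_nt.BI
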