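import Pool.Agent.Lib.MP_17a322_nt.BI.V5

/-!
Many special points of `Y`.
-/

set_option linter.unusedSectionVars false

universe u

namespace Pool.Agent.Lib.MP_17a322_nt.BI

open MvPolynomial Height NumberField
open Pool.Agent.Lib.MP_17a322_nt.EQ

theorem y6_nat {x y x' y' : ℕ} (hx : 1 ≤ x) (hx' : 1 ≤ x') (h : x' * (x * y + 1) = x * (x' * y' + 1)) :
    x = x' ∧ y = y' := by
  have h1 : x ∣ x' := by
    refine (Nat.Coprime.dvd_mul_right (n := x * y + 1) ?_).1 (h ▸ Dvd.intro _ rfl)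
    simp
  have h2 : x' ∣ x := by
    refine (Nat.Coprime.dvd_mul_right (n := x' * y' + 1) ?_).1 (h ▸ Dvd.intro _ rfl)
    simp
  obtain rfl := Nat.dvd_antisymm h1 h2
  refine ⟨rfl, ?_⟩
  have h3 := Nat.eq_of_mul_eq_mul_left hx h
  exact Nat.eq_of_mul_eq_mul_left hx (Nat.succ_injective h3)

theorem y6_block {V R s s' i i' : ℕ} (hi : i ≤ R) (hi' : i' ≤ R)
    (h : V + s * (R + 1) + i = V + s' * (R + 1) + i') : s = s' := by
  have h1 : s * (R + 1) + i = s' * (R + 1) + i' := by omega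
  have h2 : (s * (R + 1) + i) / (R + 1) = s := by
    rw [mul_comm, Nat.mul_add_div (Nat.succ_pos R), Nat.div_eq_of_lt (by omega), add_zero]
  have h3 : (s' * (R + 1) + i') / (R + 1) = s' := by
    rw [mul_comm, Nat.mul_add_div (Nat.succ_pos R), Nat.div_eq_of_lt (by omega), add_zero]
  rw [← h2, ← h3, h1]

section

variable {K : Type u} [Field K] {ι κ : Type} [Fintype ι] [Fintype κ] {J : Ideal (MvPolynomial ι K)}

/-- The special points with different numbers are different. -/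
theorem y6_inj {K : Type u} [Field K] [CharZero K] {i₀ : ι} {k j : ℕ} {p : ι → K} (hp : p i₀ ≠ 0)
    {Q : κ → K} {s : κ} (hs : Q s ≠ 0) {A₁ A₂ : K} (hA₁ : A₁ ≠ 0) {x y x' y' : ℕ} (hx : 1 ≤ x) (hx' : 1 ≤ x') {c : K}
    (h : sg (y1 p ((x' : ℕ) : K) ((x' * y' + 1 : ℕ) : K)) (we k j p Q ((x' : ℕ) : K) ((x' * y' + 1 : ℕ) : K) A₁ A₂) =
      c • sg (y1 p ((x : ℕ) : K) ((x * y + 1 : ℕ) : K)) (we k j p Q ((x : ℕ) : K) ((x * y + 1 : ℕ) : K) A₁ A₂)) :
    x = x' ∧ y = y' := by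
  have h1 : (p i₀ * (x' : K)) * (A₁ * Q s) = c * ((p i₀ * (x : K)) * (A₁ * Q s)) :=
    congrFun h ((i₀, Sum.inl ()), Sum.inl s)
  have h2 : (p i₀ * ((x' * y' + 1 : ℕ) : K)) * (A₁ * Q s) = c * ((p i₀ * ((x * y + 1 : ℕ) : K)) * (A₁ * Q s)) :=
    congrFun h ((i₀, Sum.inr ()), Sum.inl s)
  have h3 : (x' : K) = c * x := by
    have h4 : (x' : K) * (p i₀ * (A₁ * Q s)) = c * x * (p i₀ * (A₁ * Q s)) := by linear_combination h1
    exact mul_right_cancel₀ (mul_ne_zero hp (mul_ne_zero hA₁ hs)) h4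
  have h5 : ((x' * y' + 1 : ℕ) : K) = c * ((x * y + 1 : ℕ) : K) := by
    have h4 : ((x' * y' + 1 : ℕ) : K) * (p i₀ * (A₁ * Q s)) =
      c * ((x * y + 1 : ℕ) : K) * (p i₀ * (A₁ * Q s)) := by linear_combination h2
    exact mul_right_cancel₀ (mul_ne_zero hp (mul_ne_zero hA₁ hs)) h4
  refine y6_nat hx hx' ?_
  have h6 : (((x' * (x * y + 1) : ℕ)) : K) = ((x * (x' * y' + 1) : ℕ) : K) := by
    rw [Nat.cast_mul, Nat.cast_mul, h3, h5]
    ring
  exact Nat.cast_injective h6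

/-- Many special points of `Y`; the constant `C` does not depend on the closed subset `F = 0`. -/
theorem specials {L : Type u} [Field L] [NumberField L] [Algebra K L] {i₀ : ι} {q : κ → MvPolynomial ι K} {e : ℕ}
    (hq : ∀ s, (q s).IsHomogeneous e) (r k : ℕ) {j : ℕ} (hj : 1 ≤ j) :
    ∃ C : ℝ, ∀ (F : MvPolynomial (IV ι κ) K) (d : ℕ), F.IsHomogeneous d → F ∉ JV J i₀ q r k j →
      ∃ (G : MvPolynomial ι K) (B δ : ℝ), G ∉ J ∧ (∃ d', G.IsHomogeneous d') ∧ 0 < δ ∧ ∀ p : ι → L, IsPt J p →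
        aeval p G ≠ 0 → p i₀ ≠ 0 → (∃ s, aeval p (q s) ≠ 0) →
        B ≤ r * logHeight (fun s => aeval p (q s)) - k * logHeight p →
        ∃ S : Finset (IV ι κ → L),
          (∀ y ∈ S, IsPt (JV J i₀ q r k j) y ∧ aeval y F ≠ 0 ∧ hB 2 (gv (K := K)) y ≤ C ∧
            ∃ a b a₁ b₁ : L, a ≠ 0 ∧ b ≠ 0 ∧ a₁ ≠ 0 ∧ b₁ ≠ 0 ∧ y = yv q i₀ r k j p a b a₁ b₁ ∧
              r * logHeight (fun s => aeval p (q s)) - k * logHeight p ≤ j * logHeight (uu a b)) ∧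
          (∀ y ∈ S, ∀ z ∈ S, (∃ c : L, z = c • y) → y = z) ∧
          δ * Real.exp ((r * logHeight (fun s => aeval p (q s)) - k * logHeight p) / (j * Module.finrank ℚ L)) ≤
            S.card := by
  classical
  obtain ⟨C, hC⟩ := nums2 L r k j hj
  refine ⟨2 * C, fun F d hF hFJ => ?_⟩
  obtain ⟨G, R, hG, hd', h⟩ := avoid2 (J := J) hq r k hj hF hFJ
  have hm : (0 : ℝ) < Module.finrank ℚ L := Nat.cast_pos.2 Module.finrank_pos
  have hj0 : (0 : ℝ) < j := Nat.cast_pos.2 hj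
  have hR0 : (0 : ℝ) < R + 1 := by positivity
  refine ⟨G, max 0 (2 * (j * Module.finrank ℚ L) * Real.log (2 * (R + 1))), 1 / (4 * (R + 1) ^ 2), hG, hd',
    by positivity, fun p hp hGp hpi hqp hBp => ?_⟩
  obtain ⟨s₁, hs₁⟩ := hqp
  have hQ : (fun s => aeval p (q s)) ≠ 0 := Function.ne_iff.2 ⟨s₁, hs₁⟩
  set T : ℝ := r * logHeight (fun s => aeval p (q s)) - k * logHeight p with hT
  obtain ⟨V, A₁, A₂, hV, hV1, hA₁, hA₂, hn⟩ := hC ι κ p (fun s => aeval p (q s)) hp.1 hQ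
    ((le_max_left _ _).trans hBp)
  have hav := fun s t : ℕ => h L p hGp hpi (V + s * (R + 1)) (V + t * (R + 1)) A₁ A₂ hA₁ hA₂
  choose f f' hf hf' hF' using hav
  -- the numbers
  obtain ⟨X, hX⟩ : ∃ X : ℕ × ℕ → ℕ, X = fun z => V + z.1 * (R + 1) + f z.1 z.2 := ⟨_, rfl⟩
  obtain ⟨Y, hY⟩ : ∃ Y : ℕ × ℕ → ℕ, Y = fun z => V + z.2 * (R + 1) + f' z.1 z.2 := ⟨_, rfl⟩
  obtain ⟨P, hP⟩ : ∃ P : ℕ × ℕ → IV ι κ → L, P = fun z => sg (y1 p ((X z : ℕ) : L) ((X z * Y z + 1 : ℕ) : L))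
    (we k j p (fun s => aeval p (q s) ^ r) ((X z : ℕ) : L) ((X z * Y z + 1 : ℕ) : L) A₁ A₂) := ⟨_, rfl⟩
  have hX1 : ∀ z, 1 ≤ X z := fun z => by
    rw [hX]
    change 1 ≤ V + z.1 * (R + 1) + f z.1 z.2
    omega
  have hinj : ∀ (z z' : ℕ × ℕ) (c : L), P z' = c • P z → z = z' := fun z z' c hc => by
    rw [hP] at hc
    obtain ⟨h1, h2⟩ := y6_inj (k := k) (j := j) (Q := fun s => aeval p (q s) ^ r) (A₂ := A₂) hpi
      (pow_ne_zero r hs₁) hA₁ (hX1 z) (hX1 z') hc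
    rw [hX] at h1
    rw [hY] at h2
    exact Prod.ext (y6_block (hf _ _) (hf _ _) h1) (y6_block (hf' _ _) (hf' _ _) h2)
  set M : ℕ := V / (R + 1) with hM
  have hMV : M * (R + 1) ≤ V := Nat.div_mul_le_self V (R + 1)
  refine ⟨(Finset.range M ×ˢ Finset.range M).image P, fun y hy => ?_, fun y hy z hz hyz => ?_, ?_⟩
  · obtain ⟨z, hz, rfl⟩ := Finset.mem_image.1 hy
    rw [Finset.mem_product, Finset.mem_range, Finset.mem_range] at hz
    have hb1 : z.1 * (R + 1) + f z.1 z.2 ≤ V := by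
      have h1 : (z.1 + 1) * (R + 1) ≤ M * (R + 1) := Nat.mul_le_mul_right _ hz.1
      have h2 := hf z.1 z.2
      nlinarith
    have hb2 : z.2 * (R + 1) + f' z.1 z.2 ≤ V := by
      have h1 : (z.2 + 1) * (R + 1) ≤ M * (R + 1) := Nat.mul_le_mul_right _ hz.2
      have h2 := hf' z.1 z.2
      nlinarith
    obtain ⟨n1, n2⟩ := hn _ _ hb1 hb2
    have hXz : V + (z.1 * (R + 1) + f z.1 z.2) = X z := by
      rw [hX]
      exact (add_assoc _ _ _).symm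
    have hYz : V + (z.2 * (R + 1) + f' z.1 z.2) = Y z := by
      rw [hY]
      exact (add_assoc _ _ _).symm
    rw [hXz, hYz] at n1 n2
    have hFz := hF' z.1 z.2
    have hXz' : V + z.1 * (R + 1) + f z.1 z.2 = X z := by rw [hX]
    have hYz' : V + z.2 * (R + 1) + f' z.1 z.2 = Y z := by rw [hY]
    rw [hXz', hYz'] at hFz
    set a : L := ((X z : ℕ) : L) with ha
    set b : L := ((X z * Y z + 1 : ℕ) : L) with hb
    have ha0 : a ≠ 0 := Nat.cast_ne_zero.2 (Nat.one_le_iff_ne_zero.1 (hX1 z))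
    have hb0 : b ≠ 0 := Nat.cast_ne_zero.2 (Nat.succ_ne_zero _)
    have hc₁ : (a ^ e) ^ r ≠ 0 := pow_ne_zero _ (pow_ne_zero _ ha0)
    have hc₂ : a ^ k * p i₀ ^ j ≠ 0 := mul_ne_zero (pow_ne_zero _ ha0) (pow_ne_zero _ hpi)
    have ha₁ : A₁ / (a ^ e) ^ r ≠ 0 := div_ne_zero hA₁ hc₁
    have hb₁ : A₂ / (a ^ k * p i₀ ^ j) ≠ 0 := div_ne_zero hA₂ hc₂
    have hw : wv q i₀ r k j p a b (A₁ / (a ^ e) ^ r) (A₂ / (a ^ k * p i₀ ^ j)) =
        we k j p (fun s => aeval p (q s) ^ r) a b A₁ A₂ := by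
      funext t
      rcases t with t | t
      · change A₁ / (a ^ e) ^ r * aeval (y1 p a b) (φv q r t) = A₁ * aeval p (q t) ^ r
        rw [eval_φv hq, ← mul_assoc, div_mul_cancel₀ _ hc₁]
      · change A₂ / (a ^ k * p i₀ ^ j) * aeval (y1 p a b) (ψv (K := K) i₀ k j t) =
          A₂ * (p t.1 ^ k * uu a b t.2 ^ j)
        rw [eval_ψv, ← mul_assoc, div_mul_cancel₀ _ hc₂]
    have hw' : we k j p (fun s => aeval p (q s) ^ r) a b A₁ A₂ =
        Sum.elim (fun s => A₁ * (fun s => aeval p (q s)) s ^ r) fun z : ι × U2 =>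
          A₂ * (p z.1 ^ k * uu a b z.2 ^ j) := rfl
    have hPz : P z = yv q i₀ r k j p a b (A₁ / (a ^ e) ^ r) (A₂ / (a ^ k * p i₀ ^ j)) := by
      rw [hP, yv, hw]
    rw [← hw', ← hw] at n1
    refine ⟨?_, ?_, ?_, a, b, _, _, ha0, hb0, ha₁, hb₁, hPz, n2⟩
    · rw [hPz]
      exact yv_pt hq r k j hp ⟨s₁, hs₁⟩ ha0 b ha₁ _
    · rw [hP]
      exact hFz
    · rw [hPz, hB_yv hq hpi r k j ha0 b ha₁ hb₁ ⟨s₁, hs₁⟩]
      linarith
  · obtain ⟨z₁, -, rfl⟩ := Finset.mem_image.1 hy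
    obtain ⟨z₂, -, rfl⟩ := Finset.mem_image.1 hz
    obtain ⟨c, hc⟩ := hyz
    rw [hinj z₁ z₂ c hc]
  · rw [Finset.card_image_of_injective _ fun z z' hzz => hinj z z' 1 (by rw [one_smul, hzz]), Finset.card_product,
      Finset.card_range]
    set E : ℝ := Real.exp (T / (2 * (j * Module.finrank ℚ L))) with hE
    have h1 : Real.exp (T / (j * Module.finrank ℚ L)) = E ^ 2 := by
      rw [hE, ← Real.exp_nat_mul]
      congr 1
      push_cast
      field_simp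
    have h2 : 2 * ((R : ℝ) + 1) ≤ V := by
      refine le_trans ?_ hV
      rw [← Real.log_le_iff_le_exp (by positivity), le_div_iff₀ (by positivity), mul_comm]
      exact (le_max_right _ _).trans hBp
    have h3 : (V : ℝ) < (M + 1) * (R + 1) := by
      have h4 : V < (M + 1) * (R + 1) := by
        rw [mul_comm]
        exact Nat.lt_mul_div_succ V (Nat.succ_pos R)
      exact_mod_cast h4
    have h4 : (V : ℝ) ≤ 2 * (R + 1) * M := by nlinarith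
    have h5 : E ≤ 2 * (R + 1) * M := hV.trans h4
    have h6 : 0 < E := Real.exp_pos _
    rw [h1, div_mul_eq_mul_div, one_mul, div_le_iff₀ (by positivity)]
    push_cast
    nlinarith [mul_le_mul h5 h5 h6.le (h6.le.trans h5)]

end

end Pool.Agent.Lib.MP_17a322_nt.BI
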