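import Pool.Agent.Lib.MP_17a322_nt.BI.GDefs
import Pool.Agent.Lib.MP_17a322_nt.BI.Y5
import Pool.Agent.Lib.MP_17a322_nt.BI.Y6

/-!
From the growth of the number of the integral points of a pair to Vojta's inequality.
-/

set_option linter.unusedSectionVars false

universe u

namespace Pool.Agent.Lib.MP_17a322_nt.BI

open MvPolynomial Height NumberField
open Pool.Agent.Lib.MP_17a322_nt.EQ

/-- The inequality in the proof. -/
private theorem y7_num {d θ r m hk h E A δ C₁ j B : ℝ} (hd : 1 ≤ d) (hθ : 0 ≤ θ) (hδ : 0 < δ) (hj : j = 2 * r + 1)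
    (hr : d * θ < r) (hm : 0 ≤ m) (hE : E = r * hk - m * h) (h0 : 0 ≤ h)
    (hc : B ≤ E → δ * Real.exp (E / (j * d)) ≤ A * Real.exp (θ * (hk - 2 * (E / j) + C₁))) :
    (r - d * θ) * hk ≤ m * (1 + 2 * d * θ) * h + max (max B 0) (j * d * (Real.log A - Real.log δ + θ * C₁)) := by
  have hdθ : 0 ≤ d * θ := mul_nonneg (by linarith) hθ
  have hj0 : 0 < j := by linarith
  by_cases hB : B ≤ E
  · have h1 := hc hB
    have hA : 0 < A := by
      have h2 : 0 < A * Real.exp (θ * (hk - 2 * (E / j) + C₁)) := (mul_pos hδ (Real.exp_pos _)).trans_le h1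
      exact pos_of_mul_pos_left h2 (Real.exp_pos _).le
    have h2 := Real.log_le_log (mul_pos hδ (Real.exp_pos _)) h1
    rw [Real.log_mul hδ.ne' (Real.exp_ne_zero _), Real.log_mul hA.ne' (Real.exp_ne_zero _), Real.log_exp,
      Real.log_exp] at h2
    have hjd : 0 < j * d := mul_pos hj0 (by linarith)
    have h3 := mul_le_mul_of_nonneg_left h2 hjd.le
    have h4 : j * d * (Real.log δ + E / (j * d)) = j * d * Real.log δ + E := by
      rw [mul_add, mul_div_cancel₀ _ hjd.ne']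
    have h5 : j * d * (Real.log A + θ * (hk - 2 * (E / j) + C₁)) =
        j * d * Real.log A + d * θ * (j * hk - 2 * E + j * C₁) := by
      have h6 : j * (E / j) = E := mul_div_cancel₀ _ hj0.ne'
      calc _ = j * d * Real.log A + d * θ * (j * hk - 2 * (j * (E / j)) + j * C₁) := by ring
        _ = _ := by rw [h6]
    rw [h4, h5] at h3
    have h7 := le_max_right (max B 0) (j * d * (Real.log A - Real.log δ + θ * C₁))
    have h8 : (r - d * θ) * hk - m * (1 + 2 * d * θ) * h = E + d * θ * (2 * E - j * hk) := by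
      rw [hE, hj]
      ring
    nlinarith
  · push Not at hB
    have h7 := le_max_left (max B 0) (j * d * (Real.log A - Real.log δ + θ * C₁))
    have h8 := le_max_left B 0
    have h9 := le_max_right B 0
    have h10 : 0 ≤ m * (d * θ * h) := mul_nonneg hm (mul_nonneg hdθ h0)
    have h12 : 0 ≤ m * h := mul_nonneg hm h0
    by_cases hk0 : 0 ≤ hk
    · have h11 : 0 ≤ d * θ * hk := mul_nonneg hdθ hk0
      nlinarith
    · push Not at hk0
      have h11 : (r - d * θ) * hk ≤ 0 := mul_nonpos_of_nonneg_of_nonpos (by linarith) hk0.le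
      nlinarith

section

variable {K : Type u} [Field K] [NumberField K] {ι κ : Type} [Fintype ι] [Fintype κ] {J : Ideal (MvPolynomial ι K)}

/-- The growth form for one of the pairs `(Y, D)` over `X` implies Vojta's inequality for `X` with `D = 0` and
`ε = m (1 + 2 [L : ℚ] θ) / (r - [L : ℚ] θ)`. -/
theorem core_growth {L : Type u} [Field L] [NumberField L] [Algebra K L] {n e d₀ : ℕ} (hJ : Smooth J n) {i₀ : ι}
    (hi : (X i₀ : MvPolynomial ι K) ∉ J) {q : κ → MvPolynomial ι K} (hq : ∀ s, (q s).IsHomogeneous e) (hqc : Car J q)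
    {D : MvPolynomial ι K} (hD : D.IsHomogeneous d₀) (hDJ : D ∉ J) (hqL : ∀ p : ι → L, IsPt J p → aeval p D ≠ 0 →
      (∃ s, aeval p (q s) ≠ 0) ∧ hK J p = logHeight (fun s => aeval p (q s)) - (n + 1) * logHeight p)
    {r : ℕ} (m : ℕ) {θ : ℝ} (hθ : 0 ≤ θ) (hr : Module.finrank ℚ L * θ < r)
    (hg : Growth (JV J i₀ q r (r * (n + 1) + m) (2 * r + 1)) L 2 (gv (K := K)) θ) :
    Ineq J L (m * (1 + 2 * Module.finrank ℚ L * θ) / (r - Module.finrank ℚ L * θ)) := by
  have hprime := hJ.prime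
  obtain ⟨C, hC⟩ := specials (J := J) (L := L) (i₀ := i₀) hq r (r * (n + 1) + m) (Nat.le_add_left 1 (2 * r))
  obtain ⟨F, A, hFJ, ⟨d, hF⟩, hFS⟩ := hg C
  obtain ⟨G, B, δ, hG, ⟨d', hd'⟩, hδ, hsp⟩ := hC F d hF hFJ
  obtain ⟨C₁, hC₁⟩ := hK_yv_le hJ r (r * (n + 1) + m) (2 * r + 1) (i₀ := i₀) hq hqc
  have hm : (1 : ℝ) ≤ Module.finrank ℚ L := Nat.one_le_cast.2 Module.finrank_pos
  have hpos : 0 < (r : ℝ) - Module.finrank ℚ L * θ := sub_pos.2 hr
  set M : ℝ := max (max B 0) ((2 * r + 1) * Module.finrank ℚ L * (Real.log A - Real.log δ + θ *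
    (C₁ * Module.finrank ℚ L))) with hM
  refine ⟨G * (X i₀ * D), M / (r - Module.finrank ℚ L * θ), fun h1 => ?_, ⟨d' + (1 + d₀), hd'.mul
    ((isHomogeneous_X K i₀).mul hD)⟩, fun p hp hGp => ?_⟩
  · rcases hprime.mem_or_mem h1 with h1 | h1
    · exact hG h1
    · exact (hprime.mem_or_mem h1).elim hi hDJ
  rw [map_mul, map_mul, aeval_X] at hGp
  have hGp1 := left_ne_zero_of_mul hGp
  have hpi := left_ne_zero_of_mul (right_ne_zero_of_mul hGp)
  obtain ⟨hqp, hcan⟩ := hqL p hp (right_ne_zero_of_mul (right_ne_zero_of_mul hGp))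
  have h0 : 0 ≤ logHeight p := logHeight_nonneg _
  have hE : r * logHeight (fun s => aeval p (q s)) - (r * (n + 1) + m : ℕ) * logHeight p =
      r * hK J p - m * logHeight p := by
    rw [hcan]
    push_cast
    ring
  have key := y7_num (r := r) (m := m) (hk := hK J p) (h := logHeight p) (C₁ := C₁ * Module.finrank ℚ L) (A := A)
    (B := B) (E := r * logHeight (fun s => aeval p (q s)) - (r * (n + 1) + m : ℕ) * logHeight p) (j := 2 * r + 1) hm
    hθ hδ rfl hr (Nat.cast_nonneg m) hE h0 (fun hB => ?_)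
  · rw [div_mul_eq_mul_div, ← add_div, le_div_iff₀ hpos, mul_comm (hK J p)]
    exact key
  · obtain ⟨S, hS, hinj, hcard⟩ := hsp p hp hGp1 hpi hqp hB
    have hj0 : (0 : ℝ) < 2 * r + 1 := by positivity
    have h1 := hFS (hK J p - 2 * ((r * logHeight (fun s => aeval p (q s)) -
      (r * (n + 1) + m : ℕ) * logHeight p) / (2 * r + 1)) + C₁ * Module.finrank ℚ L) S (fun y hy => ?_) hinj
    · refine le_trans ?_ h1
      push_cast at hcard ⊢
      exact hcard
    · obtain ⟨hy1, hy2, hy3, a, b, a₁, b₁, ha, hb, ha₁, hb₁, rfl, hu⟩ := hS y hy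
      refine ⟨hy1, hy2, hy3, ?_⟩
      have h2 := hC₁ L p a b a₁ b₁ hp hpi hqp ha hb ha₁ hb₁
      have h4 : (r * logHeight (fun s => aeval p (q s)) - (r * (n + 1) + m : ℕ) * logHeight p) / (2 * r + 1) ≤
          logHeight (uu a b) := by
        rw [div_le_iff₀ hj0, mul_comm (logHeight (uu a b))]
        push_cast at hu ⊢
        exact hu
      linarith

end

/-- The choice of `r`. -/
theorem exists_r' {c ε t : ℝ} (hc : 1 < c) (hε : 0 < ε) (ht : 0 ≤ t) : ∃ r : ℕ, 1 ≤ r * (c - 1) ∧ t < r ∧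
    (1 + 2 * t) / (r - t) ≤ ε := by
  obtain ⟨r, hr⟩ := exists_nat_gt (max (t + (1 + 2 * t) / ε) (1 / (c - 1)))
  have h1 := (le_max_left _ _).trans_lt hr
  have h2 := (le_max_right _ _).trans_lt hr
  rw [div_lt_iff₀ (by linarith)] at h2
  have h3 : 0 < (1 + 2 * t) / ε := by positivity
  refine ⟨r, h2.le, by linarith, ?_⟩
  rw [div_le_iff₀ (by linarith), ← div_le_iff₀' hε]
  linarith

end Pool.Agent.Lib.MP_17a322_nt.BI
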