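import Pool.Agent.Lib.MP_17a322_nt.BI.GDefs

/-!
By Northcott's theorem the growth form follows from the strong form.
-/

set_option linter.unusedSectionVars false

universe u

namespace Pool.Agent.Lib.MP_17a322_nt.BI

open MvPolynomial Height NumberField
open Pool.Agent.Lib.MP_17a322_nt.EQ

section

variable {K : Type u} [Field K] {ι κ : Type} [Fintype ι] {J : Ideal (MvPolynomial ι K)} {e : ℕ}
  {g : κ → MvPolynomial ι K}

/-- Northcott's theorem for the points of projective space. -/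
theorem northcott (K : Type u) [Field K] [NumberField K] (ι : Type) [Fintype ι] (R : ℝ) :
    ∃ N : ℕ, ∀ S : Finset (ι → K), (∀ p ∈ S, p ≠ 0 ∧ logHeight p ≤ R) →
      (∀ p ∈ S, ∀ q ∈ S, (∃ a : K, q = a • p) → p = q) → S.card ≤ N := by
  classical
  have hT : {c : K | logHeight₁ c ≤ R}.Finite := Northcott.finite_le (h := logHeight₁ (K := K)) R
  set T : Finset (ι → K) := Fintype.piFinset fun _ => hT.toFinset with hTd
  refine ⟨T.card, fun S hS hinj => ?_⟩
  have hne : ∀ p ∈ S, ∃ i, p i ≠ 0 := fun p hp => Function.ne_iff.1 (hS p hp).1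
  rcases S.eq_empty_or_nonempty with rfl | ⟨p₀, hp₀⟩
  · exact Nat.zero_le _
  have hι : Nonempty ι := (hne p₀ hp₀).nonempty
  choose! m hm using hne
  refine Finset.card_le_card_of_injOn (fun p => (p (m p))⁻¹ • p) (fun p hp => ?_) (fun p hp q hq h => ?_)
  · rw [hTd, Finset.mem_coe, Fintype.mem_piFinset]
    intro j
    rw [Set.Finite.mem_toFinset]
    change logHeight₁ ((p (m p))⁻¹ * p j) ≤ R
    rw [mul_comm, ← div_eq_mul_inv, logHeight₁_div_eq_logHeight]
    have h1 : ![p j, p (m p)] = p ∘ ![j, m p] := by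
      funext x
      fin_cases x <;> rfl
    rw [h1]
    exact (logHeight_comp_le _ _).trans (hS p hp).2
  · refine hinj p hp q hq ⟨q (m q) * (p (m p))⁻¹, ?_⟩
    have h1 : (p (m p))⁻¹ • p = (q (m q))⁻¹ • q := h
    rw [mul_smul, h1, smul_inv_smul₀ (hm q hq)]

/-- If for every `C` the points with `h_D(p) ≤ C` have bounded height outside a closed subset, then the growth is at
most of any exponent. -/
theorem growth_of {L : Type u} [Field L] [NumberField L] [Algebra K L] (h : ∀ C : ℝ, ∃ (G : MvPolynomial ι K) (R : ℝ),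
    G ∉ J ∧ (∃ d, G.IsHomogeneous d) ∧ ∀ p : ι → L, IsPt J p → aeval p G ≠ 0 → hB e g p ≤ C → logHeight p ≤ R)
    {θ : ℝ} (hθ : 0 ≤ θ) : Growth J L e g θ := by
  intro C
  obtain ⟨G, R, hG, hd, hR⟩ := h C
  obtain ⟨N, hN⟩ := northcott L ι R
  refine ⟨G, N * Real.exp (θ * (Fintype.card ι * max R 0)), hG, hd, fun T S hS hinj => ?_⟩
  rcases S.eq_empty_or_nonempty with rfl | ⟨p, hp⟩
  · rw [Finset.card_empty, Nat.cast_zero]
    positivity
  have h1 : (S.card : ℝ) ≤ N := Nat.cast_le.2 (hN S (fun p hp => ⟨(hS p hp).1.1,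
    hR p (hS p hp).1 (hS p hp).2.1 (hS p hp).2.2.1⟩) hinj)
  have h2 : -(Fintype.card ι * max R 0) ≤ T := by
    obtain ⟨hpJ, hG, hB, hT⟩ := hS p hp
    refine le_trans ?_ hT
    have h3 := hR p hpJ hG hB
    have h4 : 0 ≤ hPl (Tan J p) := logHeight_nonneg _
    have h5 : (Module.finrank L (Tan J p) : ℝ) ≤ Fintype.card ι := by
      refine Nat.cast_le.2 ((Submodule.finrank_le _).trans ?_)
      rw [Module.finrank_fintype_fun_eq_card]
    have h6 : 0 ≤ logHeight p := logHeight_nonneg _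
    have h7 : (Module.finrank L (Tan J p) : ℝ) * logHeight p ≤ Fintype.card ι * max R 0 :=
      mul_le_mul h5 (h3.trans (le_max_left _ _)) h6 (Nat.cast_nonneg _)
    rw [hK]
    linarith
  have h3 : 1 ≤ Real.exp (θ * (Fintype.card ι * max R 0)) * Real.exp (θ * T) := by
    rw [← Real.exp_add, ← mul_add]
    exact Real.one_le_exp (mul_nonneg hθ (by linarith))
  calc (S.card : ℝ) ≤ N * 1 := by rw [mul_one]; exact h1
    _ ≤ N * (Real.exp (θ * (Fintype.card ι * max R 0)) * Real.exp (θ * T)) :=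
      mul_le_mul_of_nonneg_left h3 (Nat.cast_nonneg _)
    _ = _ := by ring

theorem NonDense.growth [NumberField K] [Fintype κ] (h : NonDense J e g) {θ : ℝ} (hθ : 0 ≤ θ) :
    Growth J K e g θ := by
  refine growth_of (fun C => ?_) hθ
  obtain ⟨G, R, hG, hd, hR⟩ := h C
  exact ⟨G, R, hG, hd, fun p hp hGp => hR p hp (by rwa [← MvPolynomial.aeval_eq_eval])⟩

end

end Pool.Agent.Lib.MP_17a322_nt.BI
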