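import Pool.Agent.Lib.MP_17a322_nt.BI.V2
import Pool.Agent.Lib.MP_17a322_nt.BI.I1
import Pool.Agent.Lib.MP_17a322_nt.BI.Y7
import Pool.Agent.Lib.MP_17a322_nt.BI.Y8
import Pool.Agent.Lib.MP_17a322_nt.BI.G0
import Pool.Agent.Lib.MP_17a322_nt.BI.P9
import Pool.Agent.Lib.MP_17a322_nt.FL.Fin

/-!
The Bombieri-Lang statement for pairs and Vojta's conjecture: the theorem.
-/

set_option linter.unusedSectionVars false

universe u v

namespace Pool.Agent.Lib.MP_17a322_nt.BI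

open MvPolynomial Height NumberField
open Pool.Agent.Lib.MP_17a322_nt.EQ
open Pool.Agent.Lib.MP_17a322_nt.JAC (VojtaGauss rat_iff_gauss)
open Pool.Agent.Lib.MP_17a322_nt.RAT (IsRat VojtaGaussRat)
open Pool.Agent.Lib.MP_17a322_nt.FL (forms_iff_rat all_of_rat)

/-- For the points over `K` itself. -/
theorem ineq_iff {K : Type u} [Field K] [NumberField K] {ι : Type} [Fintype ι] (J : Ideal (MvPolynomial ι K))
    (ε : ℝ) : Ineq J K ε ↔ ∃ (G : MvPolynomial ι K) (C : ℝ), G ∉ J ∧ (∃ d, G.IsHomogeneous d) ∧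
      ∀ p : ι → K, IsPt J p → eval p G ≠ 0 → hCan J p ≤ ε * logHeight p + C := by
  have h : ∀ (p : ι → K) (G : MvPolynomial ι K), aeval p G = eval p G := fun p G => by
    rw [MvPolynomial.aeval_eq_eval]
  constructor
  · rintro ⟨G, C, hG, hd, h1⟩
    exact ⟨G, C, hG, hd, fun p hp hGp => h1 p hp (by rwa [h])⟩
  · rintro ⟨G, C, hG, hd, h1⟩
    exact ⟨G, C, hG, hd, fun p hp hGp => h1 p hp (by rwa [← h])⟩

theorem Ineq.mono {K : Type u} [Field K] {ι : Type} [Fintype ι] {J : Ideal (MvPolynomial ι K)} {L : Type u}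
    [Field L] [NumberField L] [Algebra K L] {ε ε' : ℝ} (h : Ineq J L ε) (hε : ε ≤ ε') : Ineq J L ε' := by
  obtain ⟨G, C, hG, hd, h1⟩ := h
  refine ⟨G, C, hG, hd, fun p hp hGp => (h1 p hp hGp).trans ?_⟩
  have h2 := mul_le_mul_of_nonneg_right hε (logHeight_nonneg p)
  linarith

/-- The Gauss map of a projective variety; it is a locally principal family if the variety is smooth. -/
theorem gaussB {K : Type u} [Field K] {ι : Type} [Fintype ι] {J : Ideal (MvPolynomial ι K)}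
    (hprime : J.IsPrime) (hJh : ∀ F ∈ J, ∀ i, homogeneousComponent i F ∈ J) {i₀ : ι}
    (hi : (X i₀ : MvPolynomial ι K) ∉ J) :
    ∃ (n e d : ℕ) (q : (Fin (n + 1) → ι) → MvPolynomial ι K) (D : MvPolynomial ι K),
      (∀ s, (q s).IsHomogeneous e) ∧ (∃ s, q s ∉ J) ∧ D ∉ J ∧ D.IsHomogeneous d ∧
      (∀ (L : Type u) [Field L] [Algebra K L] (p : ι → L), IsPt J p → aeval p D ≠ 0 →
        Module.finrank L (Tan J p) = n + 1 ∧ ∃ s, aeval p (q s) ≠ 0) ∧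
      (∀ (L : Type u) [Field L] [NumberField L] [Algebra K L] (p : ι → L), IsPt J p → aeval p D ≠ 0 →
        hK J p = logHeight (fun s => aeval p (q s)) - (n + 1) * logHeight p) ∧
      ∀ m, Smooth J m → m = n ∧ Car J q := by
  by_cases hsm : ∃ m, Smooth J m
  · obtain ⟨n, hJ⟩ := hsm
    obtain ⟨e, q, hq, hqc, ⟨s, hs⟩, hqL⟩ := gauss hJ ⟨i₀, hi⟩
    refine ⟨n, e, e, q, q s, hq, ⟨s, hs⟩, hs, hq s, fun L _ _ p hp hD => ⟨hJ.dim L p hp, s, hD⟩,
      fun L _ _ _ p hp hD => hqL L p hp ⟨s, hD⟩, fun m hm => ⟨?_, hqc⟩⟩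
    have hxi : IsPt J (xi J) := by
      refine ⟨fun h => ?_, fun F hF => (aeval_xi F).2 hF⟩
      apply hi
      rw [← aeval_xi, aeval_X, h]
      rfl
    have h1 := hm.dim _ _ hxi
    rw [hJ.dim _ _ hxi] at h1
    omega
  · obtain ⟨n, e, d, q, D, hq, hs, hDJ, hD, hT, hqL⟩ := gaussS hprime hJh hi
    exact ⟨n, e, d, q, D, hq, hs, hDJ, hD, hT, hqL, fun m hm => absurd ⟨m, hm⟩ hsm⟩

/-- The choice of the numbers. -/
theorem exists_rm {c : ℝ} (hc : 1 < c) {ε : ℚ} (hε : 0 < ε) :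
    ∃ r m : ℕ, 0 < r ∧ 0 < m ∧ (ε : ℝ) = m / r ∧ 1 + 1 / (r : ℝ) ≤ c := by
  obtain ⟨N, hN⟩ := exists_nat_gt (1 / (c - 1))
  rw [div_lt_iff₀ (by linarith)] at hN
  have hN0 : 0 < N := by
    rcases Nat.eq_zero_or_pos N with h | h
    · rw [h, Nat.cast_zero, zero_mul] at hN
      linarith
    · exact h
  have hnum : 0 < ε.num := Rat.num_pos.2 hε
  refine ⟨N * ε.den, N * ε.num.toNat, Nat.mul_pos hN0 ε.den_pos, Nat.mul_pos hN0 (by omega), ?_, ?_⟩
  · have h1 : (ε : ℝ) = ε.num / ε.den := by exact_mod_cast (Rat.num_div_den ε).symm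
    have h2 : ((ε.num.toNat : ℕ) : ℝ) = (ε.num : ℝ) := by
      have h3 : ((ε.num.toNat : ℕ) : ℤ) = ε.num := Int.toNat_of_nonneg hnum.le
      exact_mod_cast h3
    have h4 : (N : ℝ) ≠ 0 := Nat.cast_ne_zero.2 hN0.ne'
    rw [h1, Nat.cast_mul, Nat.cast_mul, h2, mul_div_mul_left _ _ h4]
  · have h1 : (1 : ℝ) ≤ ε.den := by exact_mod_cast ε.den_pos
    have h2 : (N : ℝ) ≤ (N * ε.den : ℕ) := by
      rw [Nat.cast_mul]
      exact le_mul_of_one_le_right (Nat.cast_nonneg _) h1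
    have h3 : (N : ℝ) * (c - 1) ≤ (N * ε.den : ℕ) * (c - 1) := mul_le_mul_of_nonneg_right h2 (by linarith)
    have h4 : (0 : ℝ) < (N * ε.den : ℕ) := (Nat.cast_pos.2 hN0).trans_le h2
    have h5 : 1 / ((N * ε.den : ℕ) : ℝ) ≤ c - 1 := by
      rw [div_le_iff₀ h4]
      linarith
    linarith

/-- The pair `(Y, D)` which belongs to `X` and `m`, `N`. -/
theorem pair' {K : Type u} [Field K] [NumberField K] {ι : Type} [Fintype ι] {J : Ideal (MvPolynomial ι K)}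
    (hprime : J.IsPrime) (hJh : ∀ F ∈ J, ∀ i, homogeneousComponent i F ∈ J) {m N : ℕ} (hm : 0 < m) (hN : 0 < N) :
    ∃ (ι' κ' : Type) (_ : Fintype ι') (_ : Fintype κ') (J' : Ideal (MvPolynomial ι' K))
      (g : κ' → MvPolynomial ι' K), J'.IsPrime ∧ (∀ F ∈ J', ∀ i, homogeneousComponent i F ∈ J') ∧
      (∀ j, (g j).IsHomogeneous 2) ∧ (∀ c : ℝ, 1 + 1 / (N : ℝ) ≤ c → Big J' 2 g c) ∧ (IsRat J → IsRat J') ∧
      (∀ n, Smooth J n → Smooth J' (n + 2) ∧ Snc J' 2 (fun _ : Unit => g)) ∧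
      ∀ (L : Type u) [Field L] [NumberField L] [Algebra K L], (∃ C₀ : ℝ, ∀ C, C₀ ≤ C →
        (Ineq J L (m / N) → NotDense J' L 2 g C) ∧
        ((∃ (F : MvPolynomial ι' K) (R : ℝ), F ∉ J' ∧ (∃ d, F.IsHomogeneous d) ∧ ∀ y : ι' → L, IsPt J' y →
          aeval y F ≠ 0 → hB 2 g y ≤ C → logHeight y ≤ R) → Ineq J L (m / N))) ∧
        ∀ n, Smooth J n → ∀ θ : ℝ, 0 ≤ θ → Module.finrank ℚ L * θ < N → Growth J' L 2 g θ →
          Ineq J L (m * (1 + 2 * Module.finrank ℚ L * θ) / (N - Module.finrank ℚ L * θ)) := by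
  by_cases hX : ∀ i : ι, (X i : MvPolynomial ι K) ∈ J
  · have hno : ∀ {L : Type u} [Field L] [Algebra K L] (p : ι → L), ¬ IsPt J p := fun p hp => by
      apply hp.1
      funext i
      have h1 := hp.2 _ (hX i)
      rwa [aeval_X] at h1
    have h1 : (1 : MvPolynomial ι K) ∉ J := one_notMem hprime
    refine ⟨ι, Unit, inferInstance, inferInstance, J, fun _ => 0, hprime, hJh, fun _ => isHomogeneous_zero _ _ _,
      fun _ _ => ⟨0, 0, 1, h1, ⟨0, isHomogeneous_one ι K⟩, fun L _ _ _ p hp => absurd hp (hno p)⟩, fun h => h,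
      fun n hJ => ?_, fun L _ _ _ => ⟨⟨0, fun C _ => ⟨fun _ => ⟨1, h1, ⟨0, isHomogeneous_one ι K⟩,
        fun p hp => absurd hp (hno p)⟩, fun _ => ⟨1, 0, h1, ⟨0, isHomogeneous_one ι K⟩,
        fun p hp => absurd hp (hno p)⟩⟩⟩, fun _ _ _ _ _ _ => ⟨1, 0, h1, ⟨0, isHomogeneous_one ι K⟩,
        fun p hp => absurd hp (hno p)⟩⟩⟩
    exact ⟨⟨hJ.prime, hJ.homog, fun L _ _ p hp => absurd hp (hno p)⟩,
      ⟨two_pos, fun _ _ => isHomogeneous_zero _ _ _, fun L _ _ p hp => absurd hp (hno p)⟩⟩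
  push Not at hX
  obtain ⟨i₀, hi⟩ := hX
  obtain ⟨n, e, d, q, D, hq, hs, hDJ, hD, hT, hqL, hsm⟩ := gaussB hprime hJh hi
  have hk' : N * (n + 1) < N * (n + 1) + m := Nat.lt_add_of_pos_right hm
  have hj' : 2 * N < 2 * N + 1 := Nat.lt_succ_self _
  refine ⟨_, _, inferInstance, inferInstance, JV J i₀ q N (N * (n + 1) + m) (2 * N + 1), gv,
    JV_prime hprime i₀ q N _ _, JV_homog J i₀ q N _ _, gv_hom,
    fun c hc => big_v hprime hJh hi hq hs hD hDJ hT hqL hk' hj' ?_, fun h => JV_rat hprime h hi hq hs N _ _,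
    fun n' hJ => ?_, fun L _ _ _ => ⟨?_, fun n' hJ θ hθ hθN hg => ?_⟩⟩
  · have h1 : (0 : ℝ) < N := Nat.cast_pos.2 hN
    have h2 : 1 / (N : ℝ) ≤ c - 1 := by linarith
    rw [div_le_iff₀ h1] at h2
    linarith
  · obtain ⟨rfl, hcar⟩ := hsm n' hJ
    exact JV_snc hJ hi hq hcar hs N _ _
  · have hqK : ∀ p : ι → L, IsPt J p → aeval p D ≠ 0 → (∃ s, aeval p (q s) ≠ 0) ∧
        hK J p = logHeight (fun s => aeval p (q s)) - (n + 1) * logHeight p := fun p hp hDp =>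
      ⟨(hT L p hp hDp).2, hqL L p hp hDp⟩
    obtain ⟨C₀, hC₀⟩ := ineq_of_pair hprime hi hq hD hDJ hqK m hN (Nat.le_add_left 1 (2 * N))
    exact ⟨C₀, fun C hC => ⟨fun h => pair_of_ineq hprime hJh hi hq hs hD hDJ hqK hN (Nat.le_add_left 1 (2 * N)) h C,
      fun h => hC₀ C hC h⟩⟩
  · obtain ⟨rfl, hcar⟩ := hsm n' hJ
    exact core_growth hJ hi hq hcar hD hDJ (fun p hp hDp => ⟨(hT L p hp hDp).2, hqL L p hp hDp⟩) m hθ hθN hg

/-- Every instance of Vojta's conjecture with `D = 0` is equivalent to an instance of the Bombieri-Lang statement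
for pairs. -/
theorem inst {K : Type u} [Field K] [NumberField K] {ι : Type} [Fintype ι] {J : Ideal (MvPolynomial ι K)}
    (hprime : J.IsPrime) (hJh : ∀ F ∈ J, ∀ i, homogeneousComponent i F ∈ J) {m N : ℕ} (hm : 0 < m) (hN : 0 < N) :
    ∃ (ι' κ' : Type) (_ : Fintype ι') (_ : Fintype κ') (J' : Ideal (MvPolynomial ι' K))
      (g : κ' → MvPolynomial ι' K), J'.IsPrime ∧ (∀ F ∈ J', ∀ i, homogeneousComponent i F ∈ J') ∧
      (∀ j, (g j).IsHomogeneous 2) ∧ (∀ c : ℝ, 1 + 1 / (N : ℝ) ≤ c → Big J' 2 g c) ∧ (IsRat J → IsRat J') ∧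
      (∀ n, Smooth J n → Smooth J' (n + 2) ∧ Snc J' 2 (fun _ : Unit => g)) ∧
      ∀ (L : Type u) [Field L] [NumberField L] [Algebra K L], (∃ C₀ : ℝ, ∀ C, C₀ ≤ C →
        (Ineq J L (m / N) ↔ NotDense J' L 2 g C)) ∧
        ∀ n, Smooth J n → ∀ θ : ℝ, 0 ≤ θ → Module.finrank ℚ L * θ < N → Growth J' L 2 g θ →
          Ineq J L (m * (1 + 2 * Module.finrank ℚ L * θ) / (N - Module.finrank ℚ L * θ)) := by
  obtain ⟨ι', κ', _, _, J', g, h1, h2, h3, h4, h5, h6, h7⟩ := pair' hprime hJh hm hN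
  refine ⟨ι', κ', inferInstance, inferInstance, J', g, h1, h2, h3, h4, h5, h6, fun L _ _ _ => ⟨?_, (h7 L).2⟩⟩
  obtain ⟨C₀, hC₀⟩ := (h7 L).1
  refine ⟨C₀, fun C hC => ⟨(hC₀ C hC).1, fun h => (hC₀ C hC).2 ?_⟩⟩
  obtain ⟨G, hG, hd, h⟩ := h
  exact ⟨G, 0, hG, hd, fun y hy hyG hyC => absurd (h y hy hyC) hyG⟩

/-- From the Bombieri-Lang statement to Vojta's inequality, over `K`. -/
theorem ineq_of_nonDense {K : Type u} [Field K] [NumberField K] {ι : Type} [Fintype ι]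
    {J : Ideal (MvPolynomial ι K)} (hprime : J.IsPrime) (hJh : ∀ F ∈ J, ∀ i, homogeneousComponent i F ∈ J)
    {c : ℝ} (hc : 1 < c) (h : ∀ (ι' κ' : Type) [Fintype ι'] [Fintype κ'] (J' : Ideal (MvPolynomial ι' K))
      (g : κ' → MvPolynomial ι' K), J'.IsPrime → (∀ F ∈ J', ∀ i, homogeneousComponent i F ∈ J') →
      (∀ j, (g j).IsHomogeneous 2) → Big J' 2 g c → (IsRat J → IsRat J') → NonDense J' 2 g) {ε : ℝ}
    (hε : 0 < ε) : ∃ (G : MvPolynomial ι K) (C : ℝ), G ∉ J ∧ (∃ d, G.IsHomogeneous d) ∧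
      ∀ p : ι → K, IsPt J p → eval p G ≠ 0 → hCan J p ≤ ε * logHeight p + C := by
  obtain ⟨ε', hε', hlt⟩ := exists_rat_btwn hε
  obtain ⟨r, m, hr, hm, hεr, hrc⟩ := exists_rm hc (by exact_mod_cast hε' : 0 < ε')
  obtain ⟨ι', κ', _, _, J', g, h1, h2, h3, h4, h5, h6, h7⟩ := pair' hprime hJh hm hr
  obtain ⟨C₀, hC₀⟩ := (h7 K).1
  obtain ⟨F, R, hF, hd, hR⟩ := h ι' κ' J' g h1 h2 h3 (h4 c hrc) h5 C₀
  rw [hεr] at hlt
  refine (ineq_iff J ε).1 (((hC₀ C₀ le_rfl).2 ⟨F, R, hF, hd, fun y hy hyF => hR y hy ?_⟩).mono hlt.le)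
  rwa [← MvPolynomial.aeval_eq_eval]

/-- Every instance of the Bombieri-Lang statement for pairs follows from an instance of Vojta's conjecture with
`D = 0`. -/
theorem few_of_ineq {K : Type u} [Field K] {ι κ : Type} [Fintype ι] {J : Ideal (MvPolynomial ι K)} {e : ℕ}
    {g : κ → MvPolynomial ι K} {c : ℝ} (hJ : J.IsPrime) (hc : 0 ≤ c) (hbig : Big J e g c) :
    ∃ ε : ℚ, 0 < ε ∧ ∀ (L : Type u) [Field L] [NumberField L] [Algebra K L], Ineq J L ε → Few J L e g := by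
  obtain ⟨M, C₀, G₁, hG₁, ⟨d₁, hd₁⟩, hb⟩ := hbig
  refine ⟨1 / (2 * (M + 1)), by positivity, fun L _ _ _ ⟨G₂, C₂, hG₂, ⟨d₂, hd₂⟩, hv⟩ => ?_⟩
  refine ⟨G₁ * G₂, fun h1 => (hJ.mem_or_mem h1).elim hG₁ hG₂, ⟨d₁ + d₂, hd₁.mul hd₂⟩, fun C =>
    ⟨2 * (M * C₂ + M * (c * C) + C₀ * Module.finrank ℚ L), fun p hp hGp hpB => ?_⟩⟩
  rw [map_mul] at hGp
  have h1 := hb L p hp (left_ne_zero_of_mul hGp)
  have h2 := hv p hp (right_ne_zero_of_mul hGp)
  push_cast at h2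
  have h0 : 0 ≤ logHeight p := logHeight_nonneg _
  have hM : (0 : ℝ) ≤ M := Nat.cast_nonneg _
  have h3 : (M : ℝ) * hK J p ≤ M * (1 / (2 * (M + 1)) * logHeight p + C₂) := mul_le_mul_of_nonneg_left h2 hM
  have h4 : (M : ℝ) * (c * hB e g p) ≤ M * (c * C) :=
    mul_le_mul_of_nonneg_left (mul_le_mul_of_nonneg_left hpB hc) hM
  have h5 : (M : ℝ) * (1 / (2 * (M + 1))) ≤ 1 / 2 := by
    rw [mul_one_div, div_le_div_iff₀ (by positivity) (by norm_num)]
    linarith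
  have h6 : (M : ℝ) * (1 / (2 * (M + 1))) * logHeight p ≤ 1 / 2 * logHeight p := mul_le_mul_of_nonneg_right h5 h0
  linarith

/-- From Vojta's conjecture with `D = 0` to the Bombieri-Lang statement, over `K`. -/
theorem nonDense_of_ineq {K : Type u} [Field K] [NumberField K] {ι κ : Type} [Fintype ι] [Fintype κ]
    {J : Ideal (MvPolynomial ι K)} {e : ℕ} {g : κ → MvPolynomial ι K} {c : ℝ} (hJ : J.IsPrime)
    (h : ∀ ε : ℝ, 0 < ε → ∃ (G : MvPolynomial ι K) (C : ℝ), G ∉ J ∧ (∃ d, G.IsHomogeneous d) ∧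
      ∀ p : ι → K, IsPt J p → eval p G ≠ 0 → hCan J p ≤ ε * logHeight p + C) (hc : 0 ≤ c) (hbig : Big J e g c) :
    NonDense J e g := by
  obtain ⟨ε, hε, hL⟩ := few_of_ineq hJ hc hbig
  obtain ⟨G, hG, hd, hR⟩ := hL K ((ineq_iff J ε).2 (h ε (by exact_mod_cast hε)))
  intro C
  obtain ⟨R, hR⟩ := hR C
  exact ⟨G, R, hG, hd, fun p hp hGp => hR p hp (by rwa [MvPolynomial.aeval_eq_eval])⟩

/-- The growth form of the Bombieri-Lang conjecture for pairs of dimension `n + 2`, `K_Y + c D` big with `c > 1` and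
any exponent `θ`, implies the case `D = 0` of Vojta's conjecture for smooth varieties of dimension `n`. -/
theorem zero_of_growth {K : Type u} [Field K] [NumberField K] {n : ℕ} {c θ : ℝ} (hc : 1 < c) (hθ : 0 ≤ θ)
    (h : BomGrowth K (n + 2) c θ) : VojtaZero K n := by
  intro ι _ J hJ ε hε
  obtain ⟨r, hr, ht, hrε⟩ := exists_r' hc hε (mul_nonneg (Nat.cast_nonneg (Module.finrank ℚ K)) hθ)
  have hr0 : (0 : ℝ) < r := (mul_nonneg (Nat.cast_nonneg (Module.finrank ℚ K)) hθ).trans_lt ht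
  obtain ⟨ι', κ', _, _, J', g, h1, h2, h3, h4, h5, h6, h7⟩ :=
    pair' hJ.prime hJ.homog (N := r) one_pos (Nat.cast_pos.1 hr0)
  have hbig := h4 c (by
    have h8 : 1 / (r : ℝ) ≤ c - 1 := by
      rw [div_le_iff₀ hr0]
      linarith
    linarith)
  refine (ineq_iff J ε).1 (((h7 K).2 n hJ θ hθ ht (h _ _ _ _ _ (h6 n hJ).1 (h6 n hJ).2 hbig)).mono ?_)
  rw [Nat.cast_one, one_mul, mul_assoc]
  exact hrε

theorem bl_of_zero {K : Type u} [Field K] [NumberField K] {n : ℕ} (h : VojtaZero K n) {c : ℝ} (hc : 0 ≤ c) :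
    BomLang K n c := fun ι _ _ _ J _ _ hJ _ hbig => nonDense_of_ineq hJ.prime (h ι J hJ) hc hbig

theorem growth_of_bl {K : Type u} [Field K] [NumberField K] {n : ℕ} {c θ : ℝ} (hθ : 0 ≤ θ) (h : BomLang K n c) :
    BomGrowth K n c θ := fun ι κ _ _ J e g hJ hg hbig => (h ι κ J e g hJ hg hbig).growth hθ

/-- The Bombieri-Lang statement for pairs of rational varieties implies the case `D = 0` of Vojta's conjecture for
rational projective varieties. -/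
theorem rat_of_blr {K : Type u} [Field K] [NumberField K] {c : ℝ} (hc : 1 < c) (h : BomLangR K c) :
    VojtaGaussRat K := fun _ _ _ hJ hJh hrat _ hε =>
  ineq_of_nonDense hJ hJh hc (fun _ _ _ _ _ _ hJ' hJh' hg hbig hr => h _ _ _ _ _ hJ' hJh' (hr hrat) hg hbig) hε

theorem blr_of_gauss {K : Type u} [Field K] [NumberField K] (h : VojtaGauss K) {c : ℝ} (hc : 0 ≤ c) :
    BomLangR K c := fun ι _ _ _ J _ _ hJ hJh _ _ hbig => nonDense_of_ineq hJ (h ι J hJ hJh) hc hbig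

/-- The Bombieri-Lang statement for the pairs `(Y, D)` with `Y` rational over one number field is equivalent to the
case `D = 0` of Vojta's conjecture for all projective varieties over any other one. -/
theorem blr_iff_gauss (K : Type u) (L : Type v) [Field K] [NumberField K] [Field L] [NumberField L] {c : ℝ}
    (hc : 1 < c) : BomLangR K c ↔ VojtaGauss L :=
  ⟨fun h => (rat_iff_gauss L).1 ((forms_iff_rat K L).1 ((forms_iff_rat K K).2 (rat_of_blr hc h))),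
    fun h => blr_of_gauss ((rat_iff_gauss K).1 ((forms_iff_rat K K).1 ((forms_iff_rat K L).2
      ((rat_iff_gauss L).2 h)))) (by linarith)⟩

/-- The case `D = 0` of Vojta's conjecture for all projective varieties implies all of Vojta's conjecture. -/
theorem all_of_gauss {L : Type u} [Field L] [NumberField L] (h : VojtaGauss L) (n : ℕ) : Vojta L n ∧ VojtaTrunc L n :=
  ⟨(all_of_rat ((rat_iff_gauss L).2 h) n).2.1, (all_of_rat ((rat_iff_gauss L).2 h) n).1⟩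

end Pool.Agent.Lib.MP_17a322_nt.BI
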