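import Pool.Agent.Lib.MP_17a322_nt.BI.Defs

/-!
The growth of the number of the integral points of pairs: definitions.
-/

universe u

namespace Pool.Agent.Lib.MP_17a322_nt.BI

open MvPolynomial Height NumberField
open Pool.Agent.Lib.MP_17a322_nt.EQ

/-- For every `C` there are a proper closed subset `G = 0` of the projective variety `Y` over `K` with the ideal `J`,
which may depend on `C`, and a number `A` such that for every `T` at most `A exp (θ T)` points `p` of `Y` over `L`
outside it satisfy `h_D(p) ≤ C` and `h_{K_Y}(p) ≤ T`. (`S` is a finite set of such points, given by vectors no two of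
which are proportional.) -/
def Growth {K : Type u} [Field K] {ι κ : Type} [Fintype ι] (J : Ideal (MvPolynomial ι K)) (L : Type u) [Field L]
    [NumberField L] [Algebra K L] (e : ℕ) (g : κ → MvPolynomial ι K) (θ : ℝ) : Prop :=
  ∀ C : ℝ, ∃ (G : MvPolynomial ι K) (A : ℝ), G ∉ J ∧ (∃ d, G.IsHomogeneous d) ∧ ∀ (T : ℝ) (S : Finset (ι → L)),
    (∀ p ∈ S, IsPt J p ∧ aeval p G ≠ 0 ∧ hB e g p ≤ C ∧ hK J p ≤ T) →
    (∀ p ∈ S, ∀ q ∈ S, (∃ a : L, q = a • p) → p = q) → (S.card : ℝ) ≤ A * Real.exp (θ * T)

/-- The growth form of the Bombieri-Lang conjecture over `K` for pairs of dimension `n` and the number `c`, with the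
exponent `θ`: let `Y` be a smooth projective variety over `K` of dimension `n` and `D` a smooth divisor on `Y` such
that `K_Y + c D` is big. Then `Growth` holds for the points over `K`, with the exponent `θ`. -/
def BomGrowth (K : Type u) [Field K] [NumberField K] (n : ℕ) (c θ : ℝ) : Prop :=
  ∀ (ι κ : Type) [Fintype ι] [Fintype κ] (J : Ideal (MvPolynomial ι K)) (e : ℕ) (g : κ → MvPolynomial ι K),
    Smooth J n → Snc J e (fun _ : Unit => g) → Big J e g c → Growth J K e g θ

end Pool.Agent.Lib.MP_17a322_nt.BI
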