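import Pool.Agent.Lib.MP_17a322_nt.BI.Defs

/-!
The cases of Q1 and the points at which the two sides of its inequality differ by a bounded number: definitions.
-/

universe u

namespace Pool.Agent.Lib.MP_17a322_nt.BI

open MvPolynomial Height NumberField
open Pool.Agent.Lib.MP_17a322_nt.EQ

section

variable {K : Type u} [Field K] {ι κ β : Type} [Fintype ι] [Fintype β]

/-- The left side `m_{S,D}(p) + h_{K_X}(p)` of the inequality of Q1 for the point `p` over the number field `L`, which
contains `K`, of the projective variety `X` over `K` with the ideal `J` and for `D = ∑ D_b`, where `D_b` has the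
equations `f b j = 0`, forms of degree `e` over `K`. The set of places consists of all infinite places of `L` and of the
finite places of `L` in `S`. -/
noncomputable def lhs (J : Ideal (MvPolynomial ι K)) (e : ℕ) (f : β → κ → MvPolynomial ι K) {L : Type u} [Field L]
    [NumberField L] [Algebra K L] (S : Finset (FinitePlace L)) (p : ι → L) : ℝ :=
  ∑ b, prox S e (fun j => MvPolynomial.map (algebraMap K L) (f b j)) p + hK J p

/-- One case of Q1: the number field `L`, the variety `X`, the divisor `D = ∑ D_b`, the set `S` of places and the number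
`ε`. There is a proper closed subset `G = 0` of `X` (over `K`), which contains all points of `D` over `L`, outside which
`m_{S,D} + h_{K_X} ≤ ε h + O(1)` holds for the points of `X` over `L`. -/
def Case (J : Ideal (MvPolynomial ι K)) (e : ℕ) (f : β → κ → MvPolynomial ι K) (L : Type u) [Field L]
    [NumberField L] [Algebra K L] (S : Finset (FinitePlace L)) (ε : ℝ) : Prop :=
  ∃ (G : MvPolynomial ι K) (C : ℝ), G ∉ J ∧ (∃ d, G.IsHomogeneous d) ∧
    ∀ p : ι → L, IsPt J p → aeval p G ≠ 0 → (∀ b, ∃ j, aeval p (f b j) ≠ 0) ∧
      lhs J e f S p ≤ ε * logHeight p + C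

/-- The points `p` over `L` of `X` outside `D` with `|m_{S,D}(p) + h_{K_X}(p) - ε h(p)| ≤ C` are not Zariski dense in
`X`: they lie in a proper closed subset `G = 0` (of `X`, over `K`). -/
def Level (J : Ideal (MvPolynomial ι K)) (e : ℕ) (f : β → κ → MvPolynomial ι K) (L : Type u) [Field L]
    [NumberField L] [Algebra K L] (S : Finset (FinitePlace L)) (ε C : ℝ) : Prop :=
  ∃ G : MvPolynomial ι K, G ∉ J ∧ (∃ d, G.IsHomogeneous d) ∧
    ∀ p : ι → L, IsPt J p → (∀ b, ∃ j, aeval p (f b j) ≠ 0) → |lhs J e f S p - ε * logHeight p| ≤ C → aeval p G = 0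

end

end Pool.Agent.Lib.MP_17a322_nt.BI
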