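import Pool.Agent.Lib.MP_17a322_nt.BI.T1
import Pool.Agent.Lib.MP_17a322_nt.EQ.G7
import Pool.Agent.Lib.MP_17a322_nt.EQ.Q3

/-!
The inverse images of divisors in the product with the line.
-/

set_option linter.unusedSectionVars false

universe u

namespace Pool.Agent.Lib.MP_17a322_nt.BI

open MvPolynomial Height NumberField
open Pool.Agent.Lib.MP_17a322_nt.EQ

section ren

variable {K : Type u} [Field K] {τ τ' κ β : Type} [Fintype τ] [Fintype τ'] (σ : τ ≃ τ')
  {I : Ideal (MvPolynomial τ K)} {I' : Ideal (MvPolynomial τ' K)}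

theorem ren_aeval {L : Type u} [Field L] [Algebra K L] (p : τ → L) (F : MvPolynomial τ K) :
    aeval (p ∘ σ.symm) (rename σ F) = aeval p F := by
  rw [aeval_rename]
  have h : (p ∘ σ.symm) ∘ σ = p := by
    funext i
    simp
  rw [h]

theorem ren_aeval' {L : Type u} [Field L] [Algebra K L] (p : τ → L) (F : MvPolynomial τ' K) :
    aeval p (rename σ.symm F) = aeval (p ∘ σ.symm) F := by
  rw [aeval_rename]

theorem ren_ren (F : MvPolynomial τ' K) : rename σ (rename σ.symm F) = F := by
  rw [rename_rename]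
  have h : σ ∘ σ.symm = id := by
    funext i
    simp
  rw [h, rename_id_apply]

theorem ren_pt (hI : ∀ F, F ∈ I ↔ rename σ F ∈ I') {L : Type u} [Field L] [Algebra K L] {p : τ → L}
    (hp : IsPt I p) : IsPt I' (p ∘ σ.symm) := by
  refine ⟨fun h => hp.1 ?_, fun F hF => ?_⟩
  · funext i
    have h1 := congrFun h (σ i)
    simpa using h1
  · rw [← ren_ren σ F, ren_aeval]
    exact hp.2 _ ((hI _).2 (by rwa [ren_ren]))

theorem ren_dif {L : Type u} [Field L] [Algebra K L] (p v : τ → L) (F : MvPolynomial τ K) :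
    dif (p ∘ σ.symm) (rename σ F) (v ∘ σ.symm) = dif p F v := by
  simp only [dif, LinearMap.sum_apply, LinearMap.smul_apply, LinearMap.proj_apply, smul_eq_mul, Function.comp]
  rw [← Equiv.sum_comp σ]
  refine Finset.sum_congr rfl fun i _ => ?_
  rw [pderiv_rename σ.injective, Equiv.symm_apply_apply]
  congr 1
  exact ren_aeval σ p _

theorem ren_tan (hI : ∀ F, F ∈ I ↔ rename σ F ∈ I') {L : Type u} [Field L] [Algebra K L] (p v : τ → L) :
    v ∈ Tan I p ↔ v ∘ σ.symm ∈ Tan I' (p ∘ σ.symm) := by
  simp only [Tan, Submodule.mem_iInf, LinearMap.mem_ker]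
  constructor
  · intro h F hF
    rw [← ren_ren σ F, ren_dif]
    exact h _ ((hI _).2 (by rwa [ren_ren]))
  · intro h F hF
    rw [← ren_dif σ]
    exact h _ ((hI F).1 hF)

theorem ren_snc {e : ℕ} {f : β → κ → MvPolynomial τ' K} (hI : ∀ F, F ∈ I ↔ rename σ F ∈ I') (hf : Snc I' e f) :
    Snc I e (fun b j => rename σ.symm (f b j)) where
  pos := hf.pos
  homog := fun b j => (hf.homog b j).rename_isHomogeneous
  trans := fun L _ _ p hp => by
    obtain ⟨s, h1, h2⟩ := hf.trans L (p ∘ σ.symm) (ren_pt σ hI hp)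
    refine ⟨s, fun b hb => ?_, ?_⟩
    · obtain ⟨u, hu, h3⟩ := h1 b fun j => by
        rw [← ren_aeval' σ]
        exact hb j
      refine ⟨rename σ.symm u, by rwa [ren_aeval'], fun j => ?_⟩
      obtain ⟨x, hx, y, hy, hxy⟩ := Submodule.mem_sup.1 (h3 j)
      obtain ⟨z, hz⟩ := Ideal.mem_span_singleton'.1 hy
      rw [← map_mul, ← hxy, map_add]
      refine Ideal.add_mem _ (Ideal.mem_sup_left ((hI _).2 (by rwa [ren_ren]))) (Ideal.mem_sup_right ?_)
      rw [← hz, map_mul]
      exact Ideal.mul_mem_left _ _ (Ideal.subset_span rfl)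
    · -- the equivalence of the tangent spaces
      have hθ : ∀ v : Tan I' (p ∘ σ.symm), (v : τ' → L) ∘ σ ∈ Tan I p := fun v => by
        rw [ren_tan σ hI]
        have h : ((v : τ' → L) ∘ σ) ∘ σ.symm = v := by
          funext i
          simp
        rw [h]
        exact v.2
      have e1 : ∀ b, (∀ j, aeval p (rename σ.symm (f b j)) = 0) ↔ ∀ j, aeval (p ∘ σ.symm) (f b j) = 0 := fun b =>
        forall_congr' fun j => by rw [ren_aeval']
      have h3 : LinearIndependent L fun b : {b // ∀ j, aeval p (rename σ.symm (f b j)) = 0} =>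
          (dif (p ∘ σ.symm) (f b (s b))).domRestrict (Tan I' (p ∘ σ.symm)) :=
        h2.comp (fun b : {b // ∀ j, aeval p (rename σ.symm (f b j)) = 0} => ⟨b.1, (e1 b.1).1 b.2⟩)
          (fun a b h => Subtype.ext (Subtype.mk.inj h))
      rw [linearIndependent_iff'] at h3 ⊢
      intro t g hg b hb
      refine h3 t g ?_ b hb
      ext v
      have h4 := LinearMap.congr_fun hg ⟨(v : τ' → L) ∘ σ, hθ v⟩
      simp only [LinearMap.sum_apply, LinearMap.smul_apply, LinearMap.domRestrict_apply, LinearMap.zero_apply] at h4 ⊢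
      refine Eq.trans (Finset.sum_congr rfl fun b' _ => ?_) h4
      congr 1
      rw [← ren_dif σ, ren_ren]
      congr 1
      funext i
      simp

end ren

/-- The labels of the coordinates of the line. -/
def bu : Bool ≃ U2 where
  toFun := fun l => if l then Sum.inr () else Sum.inl ()
  invFun := fun l => l.isRight
  left_inv := fun l => by cases l <;> rfl
  right_inv := fun l => by rcases l with l | l <;> rfl

/-- The labels of the coordinates of the product with the line. -/
def ubu (ι : Type) : I1 ι ≃ ι × Bool := (Equiv.refl ι).prodCongr bu.symm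

/-- The equations of the inverse image of a closed subscheme in the product with the line. -/
noncomputable def inv1 {K : Type u} [Field K] {ι κ : Type} (g : κ → MvPolynomial ι K) :
    Ix ι κ Bool → MvPolynomial (I1 ι) K :=
  fun j => rename (ubu ι).symm (eqp g j)

section

variable {K : Type u} [Field K] {ι κ β : Type} [Fintype ι] {J : Ideal (MvPolynomial ι K)}

theorem J1_iff (F : MvPolynomial (I1 ι) K) : F ∈ J1 J ↔ rename (ubu ι) F ∈ pJ J := by
  rw [J1, bI, gJ, pJ, gJ, RingHom.mem_ker, RingHom.mem_ker, aeval_rename]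
  have h : (fun z : I1 ι => (C (gen J z.1) : MvPolynomial Bool (MvPolynomial ι K ⧸ J)) *
      bw (K := K) o1 o1 (fun i => C (gen J i)) (X false) (X true) z.2) =
      (fun z : ι × Bool => (C (gen J z.1) : MvPolynomial Bool (MvPolynomial ι K ⧸ J)) * X z.2) ∘ ubu ι := by
    funext z
    obtain ⟨i, l | l⟩ := z
    · change C (gen J i) * (X false * aeval _ (1 : MvPolynomial ι K)) = C (gen J i) * X false
      rw [map_one, mul_one]
    · change C (gen J i) * (X true * aeval _ (1 : MvPolynomial ι K)) = C (gen J i) * X true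
      rw [map_one, mul_one]
  rw [h]

theorem J1_snc [Fintype β] {n e : ℕ} {f : β → κ → MvPolynomial ι K} (hJ : Smooth J n) (hf : Snc J e f) :
    Snc (J1 J) e (fun b => inv1 (f b)) := by
  have h := (prod_snc hJ hf Empty).2
  have h1 := hz_snc_comp h (Sum.inl : β → β ⊕ Bool ⊕ Empty) Sum.inl_injective
  exact ren_snc (ubu ι) (fun F => J1_iff F) h1

end

end Pool.Agent.Lib.MP_17a322_nt.BI
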