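import Pool.Agent.Lib.MP_17a322_nt.BI.T0

/-!
Heights of the points of bundles.
-/

set_option linter.unusedSectionVars false

universe u

namespace Pool.Agent.Lib.MP_17a322_nt.BI

open MvPolynomial Height NumberField
open Pool.Agent.Lib.MP_17a322_nt.EQ

section

variable {K L : Type u} [Field K] [Field L] [NumberField L] [Algebra K L] {ι κ Λ Μ : Type} [Fintype ι] [Fintype κ]
  [Fintype Λ] [Fintype Μ]

theorem lh_smul (x : ι → L) {c : L} (hc : c ≠ 0) : logHeight (fun i => c * x i) = logHeight x :=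
  logHeight_smul_eq_logHeight x hc

theorem lh_sg {p : ι → L} {w : Λ → L} (hp : p ≠ 0) (hw : w ≠ 0) : logHeight (sg p w) = logHeight p + logHeight w :=
  logHeight_fun_mul_eq hp hw

theorem sg_ne {p : ι → L} {w : Λ → L} (hp : p ≠ 0) (hw : w ≠ 0) : sg p w ≠ 0 := by
  obtain ⟨i, hi⟩ := Function.ne_iff.1 hp
  obtain ⟨l, hl⟩ := Function.ne_iff.1 hw
  exact Function.ne_iff.2 ⟨(i, l), mul_ne_zero hi hl⟩

theorem uu_ne {a : L} (ha : a ≠ 0) (b : L) : uu a b ≠ 0 := Function.ne_iff.2 ⟨Sum.inl (), ha⟩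

theorem y1_ne {p : ι → L} (hp : p ≠ 0) {a : L} (ha : a ≠ 0) (b : L) : y1 p a b ≠ 0 := sg_ne hp (uu_ne ha b)

theorem lh_y1 {p : ι → L} (hp : p ≠ 0) {a : L} (ha : a ≠ 0) (b : L) :
    logHeight (y1 p a b) = logHeight p + logHeight (uu a b) := lh_sg hp (uu_ne ha b)

/-- The part of the second factor which belongs to `φ`. -/
theorem lh_bw_inl (φ : Λ → MvPolynomial ι K) (ψ : Μ → MvPolynomial ι K) (p : ι → L) {a b : L} (ha : a ≠ 0) :
    logHeight (fun l => bw φ ψ p a b (Sum.inl l)) = logHeight fun l => aeval p (φ l) := by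
  have h : (fun l => bw φ ψ p a b (Sum.inl l)) = fun l => a * aeval p (φ l) := by
    funext l
    rfl
  rw [h, lh_smul _ ha]

theorem lh_bw_inr (φ : Λ → MvPolynomial ι K) (ψ : Μ → MvPolynomial ι K) (p : ι → L) {a b : L} (hb : b ≠ 0) :
    logHeight (fun l => bw φ ψ p a b (Sum.inr l)) = logHeight fun l => aeval p (ψ l) := by
  have h : (fun l => bw φ ψ p a b (Sum.inr l)) = fun l => b * aeval p (ψ l) := by
    funext l
    rfl
  rw [h, lh_smul _ hb]

theorem lh_bw_ge₁ (φ : Λ → MvPolynomial ι K) (ψ : Μ → MvPolynomial ι K) (p : ι → L) {a b : L} (ha : a ≠ 0) :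
    logHeight (fun l => aeval p (φ l)) ≤ logHeight (bw φ ψ p a b) := by
  rw [← lh_bw_inl φ ψ p (b := b) ha]
  exact logHeight_comp_le Sum.inl _

theorem lh_bw_ge₂ (φ : Λ → MvPolynomial ι K) (ψ : Μ → MvPolynomial ι K) (p : ι → L) {a b : L} (hb : b ≠ 0) :
    logHeight (fun l => aeval p (ψ l)) ≤ logHeight (bw φ ψ p a b) := by
  rw [← lh_bw_inr φ ψ p (a := a) hb]
  exact logHeight_comp_le Sum.inr _

theorem bw_ne (φ : Λ → MvPolynomial ι K) (ψ : Μ → MvPolynomial ι K) (p : ι → L) {a b : L} (ha : a ≠ 0)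
    (h : ∃ l, aeval p (φ l) ≠ 0) : bw φ ψ p a b ≠ 0 := by
  obtain ⟨l, hl⟩ := h
  exact Function.ne_iff.2 ⟨Sum.inl l, mul_ne_zero ha hl⟩

end

end Pool.Agent.Lib.MP_17a322_nt.BI
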