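import Pool.Agent.Lib.MP_17a322_nt.BI.LDefs
import Pool.Agent.Lib.MP_17a322_nt.BI.N1
import Pool.Agent.Lib.MP_17a322_nt.BI.T2
import Pool.Agent.Lib.MP_17a322_nt.EQ.G8b

/-!
The proximity functions of the inverse images of closed subschemes in the product with the line.
-/

set_option linter.unusedSectionVars false

universe u

namespace Pool.Agent.Lib.MP_17a322_nt.BI

open MvPolynomial Height NumberField
open Pool.Agent.Lib.MP_17a322_nt.EQ

section

variable {K : Type u} [Field K] {ι κ β : Type} [Fintype ι] [Fintype κ] [Fintype β]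
  {L : Type u} [Field L] [NumberField L] [Algebra K L]

theorem eval_bc (p : ι → L) (F : MvPolynomial ι K) : eval p (MvPolynomial.map (algebraMap K L) F) = aeval p F := by
  rw [eval_map, aeval_def]

theorem map_sub' {Λ : Type} (F : MvPolynomial ι K) (l : Λ) :
    MvPolynomial.map (algebraMap K L) (sub F l) = sub (MvPolynomial.map (algebraMap K L) F) l := by
  induction F using MvPolynomial.induction_on with
  | C a => simp [sub]
  | add F G hF hG =>
    simp only [sub, map_add] at hF hG ⊢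
    rw [hF, hG]
  | mul_X F z hF =>
    simp only [sub, map_mul, aeval_X, map_X] at hF ⊢
    rw [hF]

theorem map_eqp {Λ : Type} (g : κ → MvPolynomial ι K) (j : Ix ι κ Λ) :
    MvPolynomial.map (algebraMap K L) (eqp g j) = eqp (fun k => MvPolynomial.map (algebraMap K L) (g k)) j := by
  rcases j with z | z
  · exact map_sub' (g z.1) z.2
  · exact map_zero _

/-- The second factor in the other notation. -/
theorem y1_comp (p : ι → L) (a b : L) : y1 p a b ∘ (ubu ι).symm = sg p (uu a b ∘ bu) := rfl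

theorem uub_ne {a : L} (ha : a ≠ 0) (b : L) : (uu a b ∘ bu : Bool → L) ≠ 0 := fun h => ha (congrFun h false)

/-- The local height with respect to an inverse image. -/
theorem lam_inv1 (v : AbsoluteValue L ℝ) {e : ℕ} {g : κ → MvPolynomial ι K} (hg : ∀ j, (g j).IsHomogeneous e)
    {p : ι → L} (hp : p ≠ 0) (hgp : ∃ j, aeval p (g j) ≠ 0) {a : L} (ha : a ≠ 0) (b : L) :
    lam v e (fun j => MvPolynomial.map (algebraMap K L) (inv1 g j)) (y1 p a b) =
      lam v e (fun j => MvPolynomial.map (algebraMap K L) (g j)) p := by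
  have hu := uub_ne ha b
  have h1 : ∀ j, eval (y1 p a b) (MvPolynomial.map (algebraMap K L) (inv1 g j)) =
      eval (sg p (uu a b ∘ bu)) (eqp (fun k => MvPolynomial.map (algebraMap K L) (g k)) j) := fun j => by
    rw [eval_bc, inv1, ren_aeval', y1_comp, ← eval_bc, map_eqp]
  have hgq : (fun k => eval p (MvPolynomial.map (algebraMap K L) (g k))) ≠ 0 := by
    obtain ⟨j, hj⟩ := hgp
    refine Function.ne_iff.2 ⟨j, ?_⟩
    rw [eval_bc]
    exact hj
  have h2 : (⨆ j, v (eval (y1 p a b) (MvPolynomial.map (algebraMap K L) (inv1 g j)))) =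
      (⨆ l, v ((uu a b ∘ bu) l)) ^ e * ⨆ k, v (eval p (MvPolynomial.map (algebraMap K L) (g k))) := by
    simp_rw [h1]
    exact G8b_eqp v (fun k => (hg k).map _) hgq hu
  have h3 : (⨆ i, v (y1 p a b i)) = (⨆ i, v (p i)) * ⨆ l, v ((uu a b ∘ bu) l) := by
    rw [← G8b_sg v hp hu, ← y1_comp]
    exact ((ubu ι).symm.iSup_comp (g := fun i => v (y1 p a b i))).symm
  have hA := G8b_pos v hp
  have hB := G8b_pos v hu
  have hM := G8b_pos v hgq
  rw [lam, lam, h2, h3, Real.log_mul hA.ne' hB.ne', Real.log_mul (pow_pos hB e).ne' hM.ne', Real.log_pow]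
  ring

/-- The proximity function of an inverse image. -/
theorem prox_inv1 (S : Finset (FinitePlace L)) {e : ℕ} {g : κ → MvPolynomial ι K} (hg : ∀ j, (g j).IsHomogeneous e)
    {p : ι → L} (hp : p ≠ 0) (hgp : ∃ j, aeval p (g j) ≠ 0) {a : L} (ha : a ≠ 0) (b : L) :
    prox S e (fun j => MvPolynomial.map (algebraMap K L) (inv1 g j)) (y1 p a b) =
      prox S e (fun j => MvPolynomial.map (algebraMap K L) (g j)) p := by
  rw [prox, prox]
  congr 1
  · exact Finset.sum_congr rfl fun v _ => by rw [lam_inv1 v.val hg hp hgp ha b]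
  · exact Finset.sum_congr rfl fun v _ => lam_inv1 v.val hg hp hgp ha b

/-- The points of an inverse image. -/
theorem off_inv1 {e : ℕ} {g : κ → MvPolynomial ι K} (hg : ∀ j, (g j).IsHomogeneous e) {p : ι → L} {a : L} (ha : a ≠ 0)
    (b : L) : (∃ j, aeval (y1 p a b) (inv1 g j) ≠ 0) ↔ ∃ j, aeval p (g j) ≠ 0 := by
  have h1 : ∀ k l, aeval (y1 p a b) (inv1 g (Sum.inl (k, l))) = (uu a b ∘ bu) l ^ e * aeval p (g k) := fun k l => by
    rw [inv1, ren_aeval', y1_comp]
    change aeval (sg p (uu a b ∘ bu)) (sub (g k) l) = _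
    rw [aeval_sub']
    have h2 : (fun i => sg p (uu a b ∘ bu) (i, l)) = fun i => (uu a b ∘ bu) l * p i := by
      funext i
      rw [sg, mul_comm]
    rw [h2, aeval_mul (hg k)]
  constructor
  · rintro ⟨j, hj⟩
    rcases j with ⟨k, l⟩ | z
    · rw [h1] at hj
      exact ⟨k, right_ne_zero_of_mul hj⟩
    · exfalso
      apply hj
      rw [inv1, ren_aeval']
      exact map_zero _
  · rintro ⟨k, hk⟩
    refine ⟨Sum.inl (k, false), ?_⟩
    rw [h1]
    exact mul_ne_zero (pow_ne_zero _ ha) hk

theorem inv1_hom {e : ℕ} {g : κ → MvPolynomial ι K} (hg : ∀ j, (g j).IsHomogeneous e) (j : Ix ι κ Bool) :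
    (inv1 g j).IsHomogeneous e := (eqp_hom hg j).rename_isHomogeneous

theorem ren_sub (F : MvPolynomial ι K) (l : Bool) : rename (ubu ι).symm (sub F l) = sub F (bu l) := by
  induction F using MvPolynomial.induction_on with
  | C a => simp [sub]
  | add F G hF hG =>
    simp only [sub, map_add] at hF hG ⊢
    rw [hF, hG]
  | mul_X F z hF =>
    simp only [sub, map_mul, aeval_X, rename_X] at hF ⊢
    rw [hF]
    rfl

theorem inv1_notMem {J : Ideal (MvPolynomial ι K)} (hprime : J.IsPrime) {e : ℕ} {g : κ → MvPolynomial ι K}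
    (hg : ∀ j, (g j).IsHomogeneous e) {k : κ} (hk : g k ∉ J) : ∃ j, inv1 g j ∉ J1 J := by
  refine ⟨Sum.inl (k, false), ?_⟩
  have h1 : inv1 g (Sum.inl (k, false)) = sub (g k) (Sum.inl ()) := ren_sub (g k) false
  rw [h1]
  exact sub_notMem hprime (hg k) hk (one_notMem hprime)

end

end Pool.Agent.Lib.MP_17a322_nt.BI
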