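import Pool.Agent.Lib.MP_17a322_nt.BI.Defs
import Pool.Agent.Lib.MP_17a322_nt.EQ.G5d
import Pool.Agent.Lib.MP_17a322_nt.EQ.G4b

/-!
Bundles of projective lines: definitions.
-/

universe u

namespace Pool.Agent.Lib.MP_17a322_nt.BI

open MvPolynomial
open Pool.Agent.Lib.MP_17a322_nt.EQ

section

variable {K : Type u} [Field K] {ι Λ Μ : Type}

/-- The second factor of a point of the bundle of projective lines. -/
noncomputable def bw {L : Type u} [CommRing L] [Algebra K L] (φ : Λ → MvPolynomial ι K)
    (ψ : Μ → MvPolynomial ι K) (p : ι → L) (a b : L) : Λ ⊕ Μ → L :=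
  Sum.elim (fun l => a * aeval p (φ l)) fun l => b * aeval p (ψ l)

/-- The ideal of the bundle of projective lines over the variety with the ideal `J`, the closure of the
set of the points `p ⊗ (a φ(p), b ψ(p))`. -/
noncomputable def bI (J : Ideal (MvPolynomial ι K)) (φ : Λ → MvPolynomial ι K)
    (ψ : Μ → MvPolynomial ι K) : Ideal (MvPolynomial (ι × (Λ ⊕ Μ)) K) :=
  gJ (R := MvPolynomial Bool (MvPolynomial ι K ⧸ J)) (fun i => C (gen J i))
    (bw φ ψ (fun i => C (gen J i)) (X false) (X true))

/-- The family of forms is locally principal on the variety with the ideal `J`. -/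
def Car [Fintype ι] {κ : Type} (J : Ideal (MvPolynomial ι K)) (g : κ → MvPolynomial ι K) : Prop :=
  ∀ (L : Type u) [Field L] [Algebra K L] (p : ι → L), IsPt J p → ∃ s, LG J g p s

end

end Pool.Agent.Lib.MP_17a322_nt.BI
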