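import Pool.Agent.Lib.MP_17a322_nt.BI.P0

/-!
Bundles of projective lines: the ideal.
-/

set_option linter.unusedSectionVars false

universe u

namespace Pool.Agent.Lib.MP_17a322_nt.BI

open MvPolynomial
open Pool.Agent.Lib.MP_17a322_nt.EQ

section

variable {K : Type u} [Field K] {ι Λ Μ : Type} [Fintype ι] [Fintype Λ] [Fintype Μ]
  {J : Ideal (MvPolynomial ι K)} {φ : Λ → MvPolynomial ι K} {ψ : Μ → MvPolynomial ι K}

theorem bI_prime (hJ : J.IsPrime) (φ : Λ → MvPolynomial ι K) (ψ : Μ → MvPolynomial ι K) :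
    (bI J φ ψ).IsPrime := by
  have := Ideal.Quotient.isDomain J
  exact gJ_prime _ _

/-- The value of a polynomial at the generic point of the cone. -/
private theorem P1_gen (H : MvPolynomial ι K) :
    aeval (fun i => (C (gen J i) : MvPolynomial Bool (MvPolynomial ι K ⧸ J))) H =
      C (Ideal.Quotient.mk J H) := by
  induction H using MvPolynomial.induction_on with
  | C a => rw [aeval_C]; rfl
  | add F G h1 h2 => rw [map_add, map_add, C_add, h1, h2]
  | mul_X F i h1 => rw [map_mul, map_mul, C_mul, h1, aeval_X]; rfl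

/-- The coordinates of the generic point of the bundle are forms of degree one. -/
private theorem P1_bw_hom (l : Λ ⊕ Μ) :
    (bw φ ψ (fun i => (C (gen J i) : MvPolynomial Bool (MvPolynomial ι K ⧸ J))) (X false) (X true)
      l).IsHomogeneous 1 := by
  cases l with
  | inl l =>
    change (X false * aeval _ (φ l) : MvPolynomial Bool (MvPolynomial ι K ⧸ J)).IsHomogeneous 1
    rw [P1_gen]
    have h1 := (isHomogeneous_X (MvPolynomial ι K ⧸ J) false).mul
      (isHomogeneous_C Bool (Ideal.Quotient.mk J (φ l)))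
    rwa [add_zero] at h1
  | inr l =>
    change (X true * aeval _ (ψ l) : MvPolynomial Bool (MvPolynomial ι K ⧸ J)).IsHomogeneous 1
    rw [P1_gen]
    have h1 := (isHomogeneous_X (MvPolynomial ι K ⧸ J) true).mul
      (isHomogeneous_C Bool (Ideal.Quotient.mk J (ψ l)))
    rwa [add_zero] at h1

/-- The ideal is homogeneous. -/
theorem bI_homog (J : Ideal (MvPolynomial ι K)) (φ : Λ → MvPolynomial ι K) (ψ : Μ → MvPolynomial ι K) :
    ∀ F ∈ bI J φ ψ, ∀ i, homogeneousComponent i F ∈ bI J φ ψ := by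
  intro F hF i
  rw [bI, mem_gJ] at hF ⊢
  set χ : ι × (Λ ⊕ Μ) → MvPolynomial Bool (MvPolynomial ι K ⧸ J) :=
    fun z => C (gen J z.1) * bw φ ψ (fun i => C (gen J i)) (X false) (X true) z.2 with hχ
  have hχ1 : ∀ z, (χ z).IsHomogeneous 1 := fun z => by
    have h1 := (isHomogeneous_C Bool (gen J z.1)).mul (P1_bw_hom (J := J) (φ := φ) (ψ := ψ) z.2)
    rwa [zero_add] at h1
  have hk : ∀ k, (aeval χ (homogeneousComponent k F)).IsHomogeneous k := fun k => by
    have h1 := (homogeneousComponent_isHomogeneous k F).aeval χ hχ1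
    rwa [one_mul] at h1
  have h2 : homogeneousComponent i (aeval χ F) = aeval χ (homogeneousComponent i F) := by
    conv_lhs => rw [← sum_homogeneousComponent F]
    rw [map_sum, map_sum]
    rw [Finset.sum_congr rfl fun k _ => homogeneousComponent_of_mem (m := i) (hk k)]
    rw [Finset.sum_ite_eq]
    by_cases hi : i ∈ Finset.range (F.totalDegree + 1)
    · rw [if_pos hi]
    · rw [if_neg hi]
      rw [Finset.mem_range, not_lt] at hi
      rw [homogeneousComponent_eq_zero i F (by omega), map_zero]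
  rw [← h2, hF, map_zero]

/-- Points of the bundle. -/
theorem bI_pt {L : Type u} [CommRing L] [Algebra K L] {p : ι → L} (hp : ∀ F ∈ J, aeval p F = 0) (a b : L) :
    ∀ F ∈ bI J φ ψ, aeval (sg p (bw φ ψ p a b)) F = 0 := by
  intro F hF
  rw [bI, mem_gJ] at hF
  let f : MvPolynomial ι K ⧸ J →+* L :=
    Ideal.Quotient.lift J (aeval p : MvPolynomial ι K →ₐ[K] L).toRingHom hp
  let t : Bool → L := fun j => if j then b else a
  let g : MvPolynomial Bool (MvPolynomial ι K ⧸ J) →+* L := eval₂Hom f t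
  have hfm : ∀ H, f (Ideal.Quotient.mk J H) = aeval p H := fun H => rfl
  have hgC : ∀ c, g (C c) = f c := fun c => eval₂_C f t c
  have hgX : ∀ j, g (X j) = t j := fun j => eval₂_X f t j
  have hgw : ∀ l, g (bw φ ψ (fun i => C (gen J i)) (X false) (X true) l) = bw φ ψ p a b l := by
    intro l
    cases l with
    | inl l =>
      change g (X false * aeval _ (φ l)) = a * aeval p (φ l)
      rw [P1_gen, map_mul, hgX, hgC, hfm]
      rfl
    | inr l =>
      change g (X true * aeval _ (ψ l)) = b * aeval p (ψ l)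
      rw [P1_gen, map_mul, hgX, hgC, hfm]
      rfl
  have key : ∀ H : MvPolynomial (ι × (Λ ⊕ Μ)) K,
      g (aeval (fun z : ι × (Λ ⊕ Μ) => C (gen J z.1) *
        bw φ ψ (fun i => C (gen J i)) (X false) (X true) z.2) H) =
      aeval (sg p (bw φ ψ p a b)) H := by
    intro H
    induction H using MvPolynomial.induction_on with
    | C c =>
      rw [aeval_C, aeval_C]
      have h1 : (algebraMap K (MvPolynomial Bool (MvPolynomial ι K ⧸ J))) c =
          C (Ideal.Quotient.mk J (C c)) := rfl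
      rw [h1, hgC, hfm, aeval_C]
    | add F G h1 h2 => rw [map_add, map_add, map_add, h1, h2]
    | mul_X F z h1 =>
      rw [map_mul, map_mul, map_mul, h1, aeval_X, aeval_X, map_mul, hgw, hgC]
      congr 2
      change f (Ideal.Quotient.mk J (X z.1)) = _
      rw [hfm, aeval_X]
  rw [← key F, hF, map_zero]

/-- The value of a polynomial at a vector of dual numbers. -/
private theorem P1_dual {L : Type u} [Field L] [Algebra K L] {σ : Type} [Fintype σ] (v : σ → DualNumber L)
    (F : MvPolynomial σ K) : (aeval v F).fst = aeval (fun i => (v i).fst) F ∧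
      (aeval v F).snd = dif (fun i => (v i).fst) F fun i => (v i).snd := by
  induction F using MvPolynomial.induction_on with
  | C a =>
    rw [aeval_C, aeval_C, dif_C, TrivSqZeroExt.algebraMap_eq_inl']
    exact ⟨rfl, rfl⟩
  | add F G hF hG =>
    rw [map_add, map_add, dif_add, TrivSqZeroExt.fst_add, TrivSqZeroExt.snd_add, hF.1, hG.1, hF.2,
      hG.2]
    exact ⟨rfl, rfl⟩
  | mul_X F i hF =>
    rw [map_mul, map_mul, dif_mul, TrivSqZeroExt.fst_mul, TrivSqZeroExt.snd_mul, hF.1, hF.2,
      aeval_X, aeval_X, dif_X]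
    refine ⟨rfl, ?_⟩
    rw [smul_eq_mul, op_smul_eq_mul]
    ring

/-- Tangent vectors of the bundle. -/
theorem bI_tan {L : Type u} [Field L] [Algebra K L] {p v : ι → L} (hp : ∀ F ∈ J, aeval p F = 0)
    (hv : v ∈ Tan J p) (a b a' b' : L) :
    (fun z : ι × (Λ ⊕ Μ) => v z.1 * bw φ ψ p a b z.2 +
      p z.1 * Sum.elim (fun l => a' * aeval p (φ l) + a * dif p (φ l) v)
        (fun l => b' * aeval p (ψ l) + b * dif p (ψ l) v) z.2) ∈ Tan (bI J φ ψ) (sg p (bw φ ψ p a b)) := by
  rw [mem_Tan] at hv ⊢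
  intro F hF
  let p' : ι → DualNumber L := fun i => (p i, v i)
  have hp' : ∀ G ∈ J, aeval p' G = 0 := by
    intro G hG
    obtain ⟨h1, h2⟩ := P1_dual p' G
    refine TrivSqZeroExt.ext ?_ ?_
    · rw [h1]
      exact hp G hG
    · rw [h2]
      exact hv G hG
  let A : DualNumber L := (a, a')
  let B : DualNumber L := (b, b')
  have h3 := bI_pt (φ := φ) (ψ := ψ) hp' A B F hF
  have h4 := (P1_dual (sg p' (bw φ ψ p' A B)) F).2
  rw [h3] at h4
  have hw1 : ∀ l, (bw φ ψ p' A B l).fst =
      bw φ ψ p a b l := by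
    intro l
    cases l with
    | inl l =>
      change (A * aeval p' (φ l)).fst = a * aeval p (φ l)
      rw [TrivSqZeroExt.fst_mul, (P1_dual p' (φ l)).1]
      rfl
    | inr l =>
      change (B * aeval p' (ψ l)).fst = b * aeval p (ψ l)
      rw [TrivSqZeroExt.fst_mul, (P1_dual p' (ψ l)).1]
      rfl
  have hw2 : ∀ l, (bw φ ψ p' A B l).snd =
      Sum.elim (fun l => a' * aeval p (φ l) + a * dif p (φ l) v)
        (fun l => b' * aeval p (ψ l) + b * dif p (ψ l) v) l := by
    intro l
    cases l with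
    | inl l =>
      change (A * aeval p' (φ l)).snd = a' * aeval p (φ l) + a * dif p (φ l) v
      rw [TrivSqZeroExt.snd_mul, (P1_dual p' (φ l)).1, (P1_dual p' (φ l)).2, smul_eq_mul,
        op_smul_eq_mul]
      change a * dif p (φ l) v + a' * aeval p (φ l) = _
      ring
    | inr l =>
      change (B * aeval p' (ψ l)).snd = b' * aeval p (ψ l) + b * dif p (ψ l) v
      rw [TrivSqZeroExt.snd_mul, (P1_dual p' (ψ l)).1, (P1_dual p' (ψ l)).2, smul_eq_mul,
        op_smul_eq_mul]
      change b * dif p (ψ l) v + b' * aeval p (ψ l) = _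
      ring
  have h5 : (fun z : ι × (Λ ⊕ Μ) =>
      (sg p' (bw φ ψ p' A B) z).fst) =
        sg p (bw φ ψ p a b) := by
    funext z
    change (p' z.1 * bw φ ψ p' _ _ z.2).fst = p z.1 * bw φ ψ p a b z.2
    rw [TrivSqZeroExt.fst_mul, hw1]
    rfl
  have h6 : (fun z : ι × (Λ ⊕ Μ) =>
      (sg p' (bw φ ψ p' A B) z).snd) =
      fun z : ι × (Λ ⊕ Μ) => v z.1 * bw φ ψ p a b z.2 +
        p z.1 * Sum.elim (fun l => a' * aeval p (φ l) + a * dif p (φ l) v)
        (fun l => b' * aeval p (ψ l) + b * dif p (ψ l) v) z.2 := by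
    funext z
    change (p' z.1 * bw φ ψ p' _ _ z.2).snd = _
    rw [TrivSqZeroExt.snd_mul, hw1, hw2, smul_eq_mul, op_smul_eq_mul]
    change p z.1 * _ + v z.1 * _ = _
    ring
  rw [h5, h6] at h4
  exact h4.symm

/-- The form `F(Y_l)` is not in the ideal if `F` and the `l`-th form are not in `J`. -/
theorem sub_notMem (hJ : J.IsPrime) {F : MvPolynomial ι K} {d : ℕ} (hF : F.IsHomogeneous d) (hFJ : F ∉ J)
    {l : Λ ⊕ Μ} (hl : Sum.elim φ ψ l ∉ J) : sub F l ∉ bI J φ ψ := by
  have := Ideal.Quotient.isDomain J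
  rw [bI, mem_gJ]
  have h1 := aeval_sub_gen (x := fun i => (C (gen J i) : MvPolynomial Bool (MvPolynomial ι K ⧸ J)))
    (w := bw φ ψ (fun i => C (gen J i)) (X false) (X true)) F l
  have h2 := aeval_mul hF (bw φ ψ (fun i => (C (gen J i) : MvPolynomial Bool (MvPolynomial ι K ⧸ J)))
    (X false) (X true) l) fun i => C (gen J i)
  rw [h1, h2, P1_gen]
  have h0 : ∀ H : MvPolynomial ι K, H ∉ J →
      (C (Ideal.Quotient.mk J H) : MvPolynomial Bool (MvPolynomial ι K ⧸ J)) ≠ 0 := by
    intro H hH h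
    rw [C_eq_zero, Ideal.Quotient.eq_zero_iff_mem] at h
    exact hH h
  refine mul_ne_zero (pow_ne_zero _ ?_) (h0 F hFJ)
  cases l with
  | inl l =>
    change (X false * aeval _ (φ l) : MvPolynomial Bool (MvPolynomial ι K ⧸ J)) ≠ 0
    rw [P1_gen]
    exact mul_ne_zero (X_ne_zero _) (h0 _ hl)
  | inr l =>
    change (X true * aeval _ (ψ l) : MvPolynomial Bool (MvPolynomial ι K ⧸ J)) ≠ 0
    rw [P1_gen]
    exact mul_ne_zero (X_ne_zero _) (h0 _ hl)

end

end Pool.Agent.Lib.MP_17a322_nt.BI
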