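import Pool.Agent.Lib.MP_17a322_nt.BI.P1

/-!
Bundles of projective lines: the tangent spaces.
-/

universe u

namespace Pool.Agent.Lib.MP_17a322_nt.BI

open MvPolynomial
open Pool.Agent.Lib.MP_17a322_nt.EQ

set_option linter.unusedSectionVars false
set_option linter.unusedVariables false

section

variable {K : Type u} [Field K] {ι Λ Μ : Type} [Fintype ι] [Fintype Λ] [Fintype Μ]
  {J : Ideal (MvPolynomial ι K)} {φ : Λ → MvPolynomial ι K} {ψ : Μ → MvPolynomial ι K}

/-- The differential of `(q, b) ↦ q ⊗ (a φ(q), b ψ(q))` at `p`, `b`. -/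
private noncomputable def P3_map {L : Type u} [Field L] [Algebra K L] (φ : Λ → MvPolynomial ι K)
    (ψ : Μ → MvPolynomial ι K) (p : ι → L) (a b : L) : (ι → L) × L →ₗ[L] (ι × (Λ ⊕ Μ) → L) where
  toFun vc := fun z => vc.1 z.1 * bw φ ψ p a b z.2 +
    p z.1 * Sum.elim (fun l => 0 * aeval p (φ l) + a * dif p (φ l) vc.1)
      (fun l => vc.2 * aeval p (ψ l) + b * dif p (ψ l) vc.1) z.2
  map_add' x y := by
    funext z
    rcases z with ⟨i, l | l⟩
    · simp only [Prod.fst_add, Pi.add_apply, Sum.elim_inl, map_add]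
      ring
    · simp only [Prod.fst_add, Prod.snd_add, Pi.add_apply, Sum.elim_inr, map_add]
      ring
  map_smul' c x := by
    funext z
    rcases z with ⟨i, l | l⟩
    · simp only [Prod.smul_fst, Pi.smul_apply, smul_eq_mul, Sum.elim_inl, map_smul, RingHom.id_apply]
      ring
    · simp only [Prod.smul_fst, Prod.smul_snd, Pi.smul_apply, smul_eq_mul, Sum.elim_inr, map_smul,
        RingHom.id_apply]
      ring

private theorem P3_inj [CharZero K] {L : Type u} [Field L] [Algebra K L] {d₁ : ℕ}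
    (hφ : ∀ l, (φ l).IsHomogeneous d₁) {p : ι → L} (hp : p ≠ 0) {a b : L} (ha : a ≠ 0)
    (h₁ : ∃ l, aeval p (φ l) ≠ 0) (h₂ : ∃ l, aeval p (ψ l) ≠ 0) {v : ι → L} {c : L}
    (h : P3_map φ ψ p a b (v, c) = 0) : v = 0 ∧ c = 0 := by
  have hL : CharZero L := charZero_of_injective_algebraMap (algebraMap K L).injective
  obtain ⟨l, hl⟩ := h₁
  obtain ⟨m, hm⟩ := h₂
  obtain ⟨i, hi⟩ := Function.ne_iff.1 hp
  have h1 : ∀ j, v j * (a * aeval p (φ l)) + p j * (0 * aeval p (φ l) + a * dif p (φ l) v) = 0 :=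
    fun j => congrFun h (j, Sum.inl l)
  have h2 : v = (-(dif p (φ l) v / aeval p (φ l))) • p := by
    funext j
    rw [Pi.smul_apply, smul_eq_mul]
    have h3 := h1 j
    have h4 : a * (v j * aeval p (φ l) + p j * dif p (φ l) v) = 0 := by
      linear_combination h3
    have h5 := (mul_eq_zero.1 h4).resolve_left ha
    field_simp
    linear_combination h5
  have h4 : dif p (φ l) v = (-(dif p (φ l) v / aeval p (φ l))) * (d₁ * aeval p (φ l)) := by
    conv_lhs => rw [h2]
    rw [map_smul, smul_eq_mul, dif_self (hφ l)]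
  have h5 : dif p (φ l) v * (1 + d₁) = 0 := by
    field_simp at h4
    linear_combination h4
  have h6 : (1 + (d₁ : L)) ≠ 0 := by
    have h7 : ((1 + d₁ : ℕ) : L) ≠ 0 := Nat.cast_ne_zero.2 (by omega)
    rwa [Nat.cast_add, Nat.cast_one] at h7
  have h8 : dif p (φ l) v = 0 := (mul_eq_zero.1 h5).resolve_right h6
  rw [h8, zero_div, neg_zero, zero_smul] at h2
  subst h2
  refine ⟨rfl, ?_⟩
  have h9 : (0 : ι → L) i * (b * aeval p (ψ m)) + p i * (c * aeval p (ψ m) + b * dif p (ψ m) 0) = 0 :=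
    congrFun h (i, Sum.inr m)
  rw [Pi.zero_apply, zero_mul, zero_add, map_zero, mul_zero, add_zero] at h9
  exact (mul_eq_zero.1 ((mul_eq_zero.1 h9).resolve_left hi)).resolve_right hm

private theorem P3_gen (J : Ideal (MvPolynomial ι K)) (F : MvPolynomial ι K) :
    aeval (fun i => (C (gen J i) : MvPolynomial Bool (MvPolynomial ι K ⧸ J))) F =
      C (Ideal.Quotient.mk J F) := by
  rw [← aeval_gen]
  induction F using MvPolynomial.induction_on with
  | C a => rw [aeval_C, aeval_C]; rfl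
  | add F G h1 h2 => rw [map_add, map_add, C_add, h1, h2]
  | mul_X F i h1 => rw [map_mul, map_mul, C_mul, h1, aeval_X, aeval_X]

/-- Tangent vectors at a point of the bundle with `a`, `b`, `φ(p)` and `ψ(p)` different from zero: lower bound
of the dimension. (For the point `p` over any field.) -/
theorem bI_tan_ge' [CharZero K] {L : Type u} [Field L] [Algebra K L] {d₁ : ℕ}
    (hφ : ∀ l, (φ l).IsHomogeneous d₁) {p : ι → L} (hp : IsPt J p) {a b : L}
    (ha : a ≠ 0) (h₁ : ∃ l, aeval p (φ l) ≠ 0) (h₂ : ∃ l, aeval p (ψ l) ≠ 0) :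
    Module.finrank L (Tan J p) + 1 ≤ Module.finrank L (Tan (bI J φ ψ) (sg p (bw φ ψ p a b))) := by
  let F : Tan J p × L →ₗ[L] Tan (bI J φ ψ) (sg p (bw φ ψ p a b)) :=
    LinearMap.codRestrict (Tan (bI J φ ψ) (sg p (bw φ ψ p a b)))
      ((P3_map φ ψ p a b).comp (LinearMap.prodMap (Tan J p).subtype LinearMap.id)) (by
        rintro ⟨y, c⟩
        exact bI_tan hp.2 y.2 a b 0 c)
  have hF : Function.Injective F := by
    rw [injective_iff_map_eq_zero]
    rintro ⟨y, c⟩ h
    have h1 : P3_map φ ψ p a b ((y : ι → L), c) = 0 := congrArg Subtype.val h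
    obtain ⟨h2, h3⟩ := P3_inj hφ hp.1 ha h₁ h₂ h1
    rw [h3, Prod.mk_eq_zero]
    exact ⟨Subtype.ext h2, rfl⟩
  have h2 := LinearMap.finrank_le_finrank_of_injective hF
  rwa [Module.finrank_prod, Module.finrank_self] at h2

/-- Tangent vectors at a point of the bundle with `a`, `b`, `φ(p)` and `ψ(p)` different from zero: the space
has at least dimension `n + 2`. (For the point `p` over any field.) -/
theorem bI_tan_ge [CharZero K] {L : Type u} [Field L] [Algebra K L] {n d₁ d₂ : ℕ} (hJ : Smooth J n)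
    (hφ : ∀ l, (φ l).IsHomogeneous d₁) (hψ : ∀ l, (ψ l).IsHomogeneous d₂) {p : ι → L} (hp : IsPt J p) {a b : L}
    (ha : a ≠ 0) (hb : b ≠ 0) (h₁ : ∃ l, aeval p (φ l) ≠ 0) (h₂ : ∃ l, aeval p (ψ l) ≠ 0) :
    n + 2 ≤ Module.finrank L (Tan (bI J φ ψ) (sg p (bw φ ψ p a b))) := by
  have h := bI_tan_ge' (b := b) hφ hp ha h₁ h₂
  rwa [hJ.dim L p hp] at h

/-- The dimension of the tangent spaces of the bundle is at least `n + 2`. -/
theorem bI_lower [CharZero K] {L : Type u} [Field L] [Algebra K L] {n d₁ d₂ : ℕ} (hJ : Smooth J n)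
    (hφ : ∀ l, (φ l).IsHomogeneous d₁) (hψ : ∀ l, (ψ l).IsHomogeneous d₂) (h₁ : ∃ l, φ l ∉ J)
    (h₂ : ∃ l, ψ l ∉ J) {p : ι × (Λ ⊕ Μ) → L} (hp : IsPt (bI J φ ψ) p) :
    n + 2 ≤ Module.finrank L (Tan (bI J φ ψ) p) := by
  have hprime := hJ.prime
  have hdom : IsDomain (MvPolynomial ι K ⧸ J) := Ideal.Quotient.isDomain J
  have hinj : Function.Injective (algebraMap (MvPolynomial Bool (MvPolynomial ι K ⧸ J))
      (FractionRing (MvPolynomial Bool (MvPolynomial ι K ⧸ J)))) :=
    IsFractionRing.injective (MvPolynomial Bool (MvPolynomial ι K ⧸ J))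
      (FractionRing (MvPolynomial Bool (MvPolynomial ι K ⧸ J)))
  set am := algebraMap (MvPolynomial Bool (MvPolynomial ι K ⧸ J))
      (FractionRing (MvPolynomial Bool (MvPolynomial ι K ⧸ J))) with ham
  set q₀ : ι → FractionRing (MvPolynomial Bool (MvPolynomial ι K ⧸ J)) :=
    fun i => am (C (gen J i)) with hq₀
  have hgv : ∀ F : MvPolynomial ι K,
      aeval (fun i => (C (gen J i) : MvPolynomial Bool (MvPolynomial ι K ⧸ J))) F =
        C (Ideal.Quotient.mk J F) := P3_gen J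
  have hval : ∀ F : MvPolynomial ι K, aeval q₀ F = am (C (Ideal.Quotient.mk J F)) := by
    intro F
    have h1 := aeval_algebraMap_apply (FractionRing (MvPolynomial Bool (MvPolynomial ι K ⧸ J)))
      (fun i : ι => (C (gen J i) : MvPolynomial Bool (MvPolynomial ι K ⧸ J))) F
    exact h1.trans (congrArg am (hgv F))
  have hzero : ∀ F : MvPolynomial ι K, aeval q₀ F = 0 ↔ F ∈ J := by
    intro F
    rw [hval, map_eq_zero_iff am hinj, C_eq_zero, Ideal.Quotient.eq_zero_iff_mem]
  have hsg : sg q₀ (bw φ ψ q₀ (am (X false)) (am (X true))) = fun z : ι × (Λ ⊕ Μ) =>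
      am ((fun i => (C (gen J i) : MvPolynomial Bool (MvPolynomial ι K ⧸ J))) z.1 *
        bw φ ψ (fun i => (C (gen J i) : MvPolynomial Bool (MvPolynomial ι K ⧸ J))) (X false) (X true)
          z.2) := by
    funext z
    rcases z with ⟨i, l | l⟩
    · change am (C (gen J i)) * (am (X false) * aeval q₀ (φ l)) = am (C (gen J i) * (X false *
        aeval (fun i => (C (gen J i) : MvPolynomial Bool (MvPolynomial ι K ⧸ J))) (φ l)))
      rw [map_mul, map_mul, hval, hgv]
    · change am (C (gen J i)) * (am (X true) * aeval q₀ (ψ l)) = am (C (gen J i) * (X true *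
        aeval (fun i => (C (gen J i) : MvPolynomial Bool (MvPolynomial ι K ⧸ J))) (ψ l)))
      rw [map_mul, map_mul, hval, hgv]
  have h₀ : ∀ F : MvPolynomial (ι × (Λ ⊕ Μ)) K,
      aeval (sg q₀ (bw φ ψ q₀ (am (X false)) (am (X true)))) F = 0 → F ∈ bI J φ ψ := by
    intro F hF
    rw [bI, mem_gJ]
    have h1 := aeval_algebraMap_apply (FractionRing (MvPolynomial Bool (MvPolynomial ι K ⧸ J)))
      (fun z : ι × (Λ ⊕ Μ) => ((fun i => (C (gen J i) : MvPolynomial Bool (MvPolynomial ι K ⧸ J))) z.1 *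
        bw φ ψ (fun i => (C (gen J i) : MvPolynomial Bool (MvPolynomial ι K ⧸ J))) (X false) (X true)
          z.2)) F
    rw [hsg] at hF
    apply hinj
    rw [map_zero]
    exact h1.symm.trans hF
  have hq0 : q₀ ≠ 0 := by
    intro h
    apply hp.1
    funext z
    have h1 : (X z.1 : MvPolynomial ι K) ∈ J := by
      rw [← hzero, aeval_X]
      exact congrFun h z.1
    have h2 : (X z : MvPolynomial (ι × (Λ ⊕ Μ)) K) ∈ bI J φ ψ := by
      apply h₀
      rw [aeval_X]
      change q₀ z.1 * _ = 0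
      rw [congrFun h z.1, Pi.zero_apply, zero_mul]
    have h3 := hp.2 _ h2
    rw [aeval_X] at h3
    exact h3
  have hX : ∀ j : Bool, am (X j) ≠ 0 := by
    intro j h2
    have h3 : (X j : MvPolynomial Bool (MvPolynomial ι K ⧸ J)) = 0 := by
      apply hinj
      rw [map_zero]
      exact h2
    exact X_ne_zero j h3
  obtain ⟨l, hl⟩ := h₁
  obtain ⟨m, hm⟩ := h₂
  exact le_trans (bI_tan_ge hJ hφ hψ (p := q₀) ⟨hq0, fun F hF => (hzero F).2 hF⟩ (hX false) (hX true)
    ⟨l, fun h => hl ((hzero _).1 h)⟩ ⟨m, fun h => hm ((hzero _).1 h)⟩) (tan_lower h₀ hp.2)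

end

end Pool.Agent.Lib.MP_17a322_nt.BI
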