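import Pool.Agent.Lib.MP_17a322_nt.BI.P0

/-!
Local equations with forms.
-/

universe u

namespace Pool.Agent.Lib.MP_17a322_nt.BI

open MvPolynomial
open Pool.Agent.Lib.MP_17a322_nt.EQ

/-- The homogeneous components of the product with a form. -/
private theorem P5_mul {K : Type u} [Field K] {ι : Type} {g : MvPolynomial ι K} {d : ℕ}
    (hg : g.IsHomogeneous d) (u : MvPolynomial ι K) (k : ℕ) :
    homogeneousComponent (k + d) (u * g) = homogeneousComponent k u * g := by
  conv_lhs => rw [← sum_homogeneousComponent u, Finset.sum_mul]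
  rw [map_sum, Finset.sum_congr rfl fun j _ => homogeneousComponent_of_mem (m := k + d)
    ((homogeneousComponent_isHomogeneous j u).mul hg)]
  simp only [add_left_inj]
  rw [Finset.sum_ite_eq]
  by_cases hi : k ∈ Finset.range (u.totalDegree + 1)
  · rw [if_pos hi]
  · rw [if_neg hi]
    rw [Finset.mem_range, not_lt] at hi
    rw [homogeneousComponent_eq_zero k u (by omega), zero_mul]

/-- The local equation with forms. -/
theorem lg_form {K : Type u} [Field K] {ι : Type} [Fintype ι] {J : Ideal (MvPolynomial ι K)} {L : Type u}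
    [Field L] [Algebra K L] {κ : Type} {g : κ → MvPolynomial ι K} {d : ℕ}
    (hJ : ∀ F ∈ J, ∀ i, homogeneousComponent i F ∈ J) (hg : ∀ l, (g l).IsHomogeneous d) {p : ι → L} {s : κ}
    (hs : LG J g p s) : ∃ (k : ℕ) (u : MvPolynomial ι K) (h : κ → MvPolynomial ι K), u.IsHomogeneous k ∧
      (∀ l, (h l).IsHomogeneous k) ∧ aeval p u ≠ 0 ∧ ∀ l, u * g l - h l * g s ∈ J := by
  obtain ⟨u, hu, hug⟩ := hs
  have h1 : ∃ k, aeval p (homogeneousComponent k u) ≠ 0 := by
    by_contra hno
    push Not at hno
    apply hu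
    rw [← sum_homogeneousComponent u, map_sum]
    exact Finset.sum_eq_zero fun k _ => hno k
  obtain ⟨k, hk⟩ := h1
  have h2 : ∀ l, ∃ c : MvPolynomial ι K, u * g l - c * g s ∈ J := by
    intro l
    obtain ⟨F, hF, G, hG, hFG⟩ := Submodule.mem_sup.1 (hug l)
    obtain ⟨c, hc⟩ := Ideal.mem_span_singleton'.1 hG
    refine ⟨c, ?_⟩
    rw [← hFG, ← hc, add_sub_cancel_right]
    exact hF
  choose c hc using h2
  refine ⟨k, homogeneousComponent k u, fun l => homogeneousComponent k (c l),
    homogeneousComponent_isHomogeneous k u, fun l => homogeneousComponent_isHomogeneous k (c l), hk, fun l => ?_⟩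
  have h3 := hJ _ (hc l) (k + d)
  rwa [map_sub, P5_mul (hg l), P5_mul (hg s)] at h3

end Pool.Agent.Lib.MP_17a322_nt.BI
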