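import Pool.Agent.Lib.MP_17a322_nt.BI.P3
import Pool.Agent.Lib.MP_17a322_nt.BI.P5
import Pool.Agent.Lib.MP_17a322_nt.EQ.G4a

/-!
Bundles of projective lines: smoothness.
-/

universe u

namespace Pool.Agent.Lib.MP_17a322_nt.BI

open MvPolynomial
open Pool.Agent.Lib.MP_17a322_nt.EQ

section

variable {K : Type u} [Field K] {ι Λ Μ : Type} [Fintype ι] [Fintype Λ] [Fintype Μ]
  {J : Ideal (MvPolynomial ι K)} {φ : Λ → MvPolynomial ι K} {ψ : Μ → MvPolynomial ι K}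

private theorem P4_rel₁ {k : ℕ} {A B : MvPolynomial ι K} (hA : A.IsHomogeneous k) (hB : B.IsHomogeneous k)
    {l l' : Λ} (h : A * φ l - B * φ l' ∈ J) (l₁ : Λ ⊕ Μ) (i₁ : ι) :
    (sub A l₁ * X (i₁, Sum.inl l) - sub B l₁ * X (i₁, Sum.inl l') : MvPolynomial (ι × (Λ ⊕ Μ)) K) ∈
      bI J φ ψ := by
  refine rel_mem hA hB ?_ l₁ i₁
  have h1 := pgen_zero (J := J) _ h
  rw [map_sub, map_mul, map_mul] at h1
  simp only [bw, Sum.elim_inl]
  linear_combination (X false) * h1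

private theorem P4_rel₂ {k : ℕ} {A B : MvPolynomial ι K} (hA : A.IsHomogeneous k) (hB : B.IsHomogeneous k)
    {l l' : Μ} (h : A * ψ l - B * ψ l' ∈ J) (l₁ : Λ ⊕ Μ) (i₁ : ι) :
    (sub A l₁ * X (i₁, Sum.inr l) - sub B l₁ * X (i₁, Sum.inr l') : MvPolynomial (ι × (Λ ⊕ Μ)) K) ∈
      bI J φ ψ := by
  refine rel_mem hA hB ?_ l₁ i₁
  have h1 := pgen_zero (J := J) _ h
  rw [map_sub, map_mul, map_mul] at h1
  simp only [bw, Sum.elim_inr]
  linear_combination (X true) * h1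

/-- The dimension of the tangent space of the bundle at a point at which the two families are locally
principal: upper bound. -/
theorem bI_upper' {L : Type u} [Field L] [Algebra K L] {d₁ d₂ : ℕ}
    (hJ : ∀ F ∈ J, ∀ i, homogeneousComponent i F ∈ J)
    (hφ : ∀ l, (φ l).IsHomogeneous d₁) (hψ : ∀ l, (ψ l).IsHomogeneous d₂)
    {p : ι × (Λ ⊕ Μ) → L} (hp : IsPt (bI J φ ψ) p) {i₁ : ι} {l₁ : Λ ⊕ Μ} (hz' : p (i₁, l₁) ≠ 0) {s₁ : Λ} {s₂ : Μ}
    (hs₁ : LG J φ (fun i => p (i, l₁)) s₁) (hs₂ : LG J ψ (fun i => p (i, l₁)) s₂) :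
    Module.finrank L (Tan (bI J φ ψ) p) ≤ Module.finrank L (Tan J fun i => p (i, l₁)) + 1 := by
  have hx := pgen_zero (J := J)
  obtain ⟨hq, W, hW, hpW⟩ := gJ_pt hJ hx hp ⟨i₁, hz'⟩
  obtain ⟨k₁, u₁, h₁, hu₁, hh₁, hq₁, hr₁⟩ := lg_form hJ hφ hs₁
  obtain ⟨k₂, u₂, h₂, hu₂, hh₂, hq₂, hr₂⟩ := lg_form hJ hψ hs₂
  have e₁ := fun l => rel_eval hp hz' hpW (P4_rel₁ (ψ := ψ) hu₁ (hh₁ l) (hr₁ l) l₁ i₁)
  have e₂ := fun l => rel_eval hp hz' hpW (P4_rel₂ (φ := φ) hu₂ (hh₂ l) (hr₂ l) l₁ i₁)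
  let s : Λ ⊕ Μ := Sum.elim (fun _ => Sum.inr s₂) (fun _ => Sum.inl s₁) l₁
  have key : ∀ y ∈ Tan (bI J φ ψ) p, (fun i => y (i, l₁)) = 0 → y (i₁, s) = 0 → y = 0 := by
    intro y hy hy1 hys
    obtain ⟨-, ω, hω, hyω⟩ := gJ_tan hJ hx ⟨i₁, hz'⟩ hW hpW hy
    have hv : ∀ i, y (i, l₁) = 0 := fun i => congrFun hy1 i
    have hy2 : ∀ i l, y (i, l) = p (i, l₁) * ω l := by
      intro i l
      rw [hyω i l, hv i, zero_mul, zero_add]
    have hωs : ω s = 0 := by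
      rw [hy2 i₁ s] at hys
      exact (mul_eq_zero.1 hys).resolve_left hz'
    have f₁ : ∀ l : Λ, aeval (fun i => p (i, l₁)) u₁ * ω (Sum.inl l) =
        aeval (fun i => p (i, l₁)) (h₁ l) * ω (Sum.inl s₁) := by
      intro l
      have h := (e₁ l).2 y ω hy hyω
      rw [hy1, map_zero, map_zero, zero_mul, zero_mul, zero_add, zero_add] at h
      exact h
    have f₂ : ∀ l : Μ, aeval (fun i => p (i, l₁)) u₂ * ω (Sum.inr l) =
        aeval (fun i => p (i, l₁)) (h₂ l) * ω (Sum.inr s₂) := by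
      intro l
      have h := (e₂ l).2 y ω hy hyω
      rw [hy1, map_zero, map_zero, zero_mul, zero_mul, zero_add, zero_add] at h
      exact h
    have g : ω (Sum.inl s₁) = 0 ∧ ω (Sum.inr s₂) = 0 := by
      rcases l₁ with l₁ | l₁
      · refine ⟨?_, hωs⟩
        have h1 := f₁ l₁
        have h2 := (e₁ l₁).1
        rw [hω, mul_zero] at h1
        rw [hW, mul_one] at h2
        refine (mul_eq_zero.1 h1.symm).resolve_left fun h3 => hq₁ ?_
        rw [h2, h3, zero_mul]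
      · refine ⟨hωs, ?_⟩
        have h1 := f₂ l₁
        have h2 := (e₂ l₁).1
        rw [hω, mul_zero] at h1
        rw [hW, mul_one] at h2
        refine (mul_eq_zero.1 h1.symm).resolve_left fun h3 => hq₂ ?_
        rw [h2, h3, zero_mul]
    funext z
    obtain ⟨i, l⟩ := z
    rw [hy2 i l]
    have hl : ω l = 0 := by
      rcases l with l | l
      · have h := f₁ l
        rw [g.1, mul_zero] at h
        exact (mul_eq_zero.1 h).resolve_left hq₁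
      · have h := f₂ l
        rw [g.2, mul_zero] at h
        exact (mul_eq_zero.1 h).resolve_left hq₂
    rw [hl, mul_zero]
    rfl
  let Φ₁ : Tan (bI J φ ψ) p →ₗ[L] Tan J (fun i => p (i, l₁)) :=
    LinearMap.codRestrict (Tan J fun i => p (i, l₁))
      ((LinearMap.funLeft L L fun i : ι => (i, l₁)).comp (Tan (bI J φ ψ) p).subtype)
      fun y => (gJ_tan hJ hx ⟨i₁, hz'⟩ hW hpW y.2).1
  let Φ₂ : Tan (bI J φ ψ) p →ₗ[L] L :=
    (LinearMap.proj (i₁, s)).comp (Tan (bI J φ ψ) p).subtype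
  have hinj : Function.Injective (Φ₁.prod Φ₂) := by
    rw [← LinearMap.ker_eq_bot, LinearMap.ker_eq_bot']
    intro y hy
    have h1 : Φ₁ y = 0 := congrArg Prod.fst hy
    have h2 : Φ₂ y = 0 := congrArg Prod.snd hy
    apply Subtype.ext
    exact key y.1 y.2 (congrArg Subtype.val h1) h2
  have h1 := LinearMap.finrank_le_finrank_of_injective hinj
  rwa [Module.finrank_prod, Module.finrank_self] at h1

/-- The dimension of the tangent spaces of the bundle is at most `n + 2`. -/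
theorem bI_upper {L : Type u} [Field L] [Algebra K L] {n d₁ d₂ : ℕ} (hJ : Smooth J n)
    (hφ : ∀ l, (φ l).IsHomogeneous d₁) (hψ : ∀ l, (ψ l).IsHomogeneous d₂) (hφ' : Car J φ) (hψ' : Car J ψ)
    {p : ι × (Λ ⊕ Μ) → L} (hp : IsPt (bI J φ ψ) p) : Module.finrank L (Tan (bI J φ ψ) p) ≤ n + 2 := by
  have hx := pgen_zero (J := J)
  obtain ⟨⟨i₁, l₁⟩, hz⟩ := Function.ne_iff.1 hp.1
  have hz' : p (i₁, l₁) ≠ 0 := hz
  obtain ⟨hq, W, hW, hpW⟩ := gJ_pt hJ.homog hx hp ⟨i₁, hz'⟩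
  obtain ⟨s₁, hs₁⟩ := hφ' L _ hq
  obtain ⟨s₂, hs₂⟩ := hψ' L _ hq
  have h := bI_upper' hJ.homog hφ hψ hp hz' hs₁ hs₂
  rwa [hJ.dim L _ hq] at h

/-- The bundle is smooth. -/
theorem bI_smooth [CharZero K] {n d₁ d₂ : ℕ} (hJ : Smooth J n)
    (hφ : ∀ l, (φ l).IsHomogeneous d₁) (hψ : ∀ l, (ψ l).IsHomogeneous d₂) (hφ' : Car J φ) (hψ' : Car J ψ)
    (h₁ : ∃ l, φ l ∉ J) (h₂ : ∃ l, ψ l ∉ J) : Smooth (bI J φ ψ) (n + 1) where
  prime := bI_prime hJ.prime φ ψ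
  homog := bI_homog J φ ψ
  dim _ _ _ _ hp := le_antisymm (bI_upper hJ hφ hψ hφ' hψ' hp) (bI_lower hJ hφ hψ h₁ h₂ hp)

end

end Pool.Agent.Lib.MP_17a322_nt.BI
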