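import Pool.Agent.Lib.MP_17a322_nt.BI.P1
import Pool.Agent.Lib.MP_17a322_nt.BI.P5

/-!
Locally principal families of forms.
-/

universe u

namespace Pool.Agent.Lib.MP_17a322_nt.BI

open MvPolynomial
open Pool.Agent.Lib.MP_17a322_nt.EQ

set_option linter.unusedSectionVars false

section

variable {K : Type u} [Field K] {ι Λ Μ κ κ' : Type} [Fintype ι] [Fintype Λ] [Fintype Μ]
  {J : Ideal (MvPolynomial ι K)} {φ : Λ → MvPolynomial ι K} {ψ : Μ → MvPolynomial ι K}

private theorem P7_mem {σ : Type} {I : Ideal (MvPolynomial σ K)} {A B C : MvPolynomial σ K}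
    (h : A - B * C ∈ I) : A ∈ I ⊔ Ideal.span {C} := by
  have h1 : A = (A - B * C) + B * C := by ring
  rw [h1]
  exact Ideal.add_mem _ (Ideal.mem_sup_left h)
    (Ideal.mem_sup_right (Ideal.mul_mem_left _ B (Ideal.mem_span_singleton_self C)))

/-- One form. -/
theorem car_one (J : Ideal (MvPolynomial ι K)) (F : MvPolynomial ι K) : Car J fun _ : Unit => F := by
  intro L _ _ p _
  refine ⟨(), 1, ?_, fun _ => ?_⟩
  · rw [map_one]
    exact one_ne_zero
  · rw [one_mul]
    exact Ideal.mem_sup_right (Ideal.mem_span_singleton_self F)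

/-- The powers of the coordinates. -/
theorem car_coord (J : Ideal (MvPolynomial ι K)) (k : ℕ) : Car J fun i : ι => X i ^ k := by
  intro L _ _ p hp
  obtain ⟨i, hi⟩ := Function.ne_iff.1 hp.1
  refine ⟨i, X i ^ k, ?_, fun j => ?_⟩
  · rw [map_pow, aeval_X]
    exact pow_ne_zero k hi
  · exact Ideal.mem_sup_right (Ideal.mul_mem_right _ _ (Ideal.mem_span_singleton_self (X i ^ k)))

/-- Products. -/
theorem car_mul {g : κ → MvPolynomial ι K} {g' : κ' → MvPolynomial ι K} (hg : Car J g) (hg' : Car J g') :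
    Car J fun z : κ × κ' => g z.1 * g' z.2 := by
  intro L _ _ p hp
  obtain ⟨s, u, hu, h⟩ := hg L p hp
  obtain ⟨s', u', hu', h'⟩ := hg' L p hp
  refine ⟨(s, s'), u * u', ?_, fun z => ?_⟩
  · rw [map_mul]
    exact mul_ne_zero hu hu'
  · obtain ⟨a, ha, b, hb, hab⟩ := Submodule.mem_sup.1 (h z.1)
    obtain ⟨a', ha', b', hb', hab'⟩ := Submodule.mem_sup.1 (h' z.2)
    obtain ⟨c, rfl⟩ := Ideal.mem_span_singleton'.1 hb
    obtain ⟨c', rfl⟩ := Ideal.mem_span_singleton'.1 hb'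
    refine P7_mem (B := c * c') ?_
    have h1 : u * u' * (g z.1 * g' z.2) - c * c' * (g s * g' s') =
        a * (u' * g' z.2) + a' * (c * g s) := by
      have h2 : u * u' * (g z.1 * g' z.2) = (u * g z.1) * (u' * g' z.2) := by ring
      rw [h2, ← hab, ← hab']
      ring
    change u * u' * (g z.1 * g' z.2) - c * c' * (g s * g' s') ∈ J
    rw [h1]
    exact Ideal.add_mem _ (Ideal.mul_mem_right _ _ ha) (Ideal.mul_mem_right _ _ ha')


/-- Relations on the closure of a graph. -/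
private theorem P7_rel {Λ' : Type} [Fintype Λ'] {R : Type u} [CommRing R] [Algebra K R] {x : ι → R}
    {w : Λ' → R} {A B C D : MvPolynomial ι K} {k d : ℕ} (hA : A.IsHomogeneous k)
    (hB : B.IsHomogeneous d) (hC : C.IsHomogeneous k) (hD : D.IsHomogeneous d)
    (h : aeval x (A * B - C * D) = 0) (l₁ l : Λ') :
    (sub A l₁ * sub B l - sub C l₁ * sub D l : MvPolynomial (ι × Λ') K) ∈ gJ x w := by
  rw [map_sub, map_mul, map_mul] at h
  rw [mem_gJ, map_sub, map_mul, map_mul, aeval_sub_gen, aeval_sub_gen, aeval_sub_gen,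
    aeval_sub_gen, aeval_mul hA, aeval_mul hB, aeval_mul hC, aeval_mul hD]
  linear_combination (w l₁ ^ k * w l ^ d) * h

/-- Inverse images on the bundle. -/
theorem car_sub {d : ℕ} {g : κ → MvPolynomial ι K} (hJ : ∀ F ∈ J, ∀ i, homogeneousComponent i F ∈ J)
    (hgd : ∀ j, (g j).IsHomogeneous d) (hg : Car J g) (l : Λ ⊕ Μ) :
    Car (bI J φ ψ) fun j => sub (g j) l := by
  intro L _ _ p hp
  obtain ⟨z, hz⟩ := Function.ne_iff.1 hp.1
  have hx : ∀ F ∈ J, aeval (fun i => (C (gen J i) : MvPolynomial Bool (MvPolynomial ι K ⧸ J))) F = 0 :=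
    pgen_zero
  have h1 : IsPt J (fun i => p (i, z.2)) := by
    refine ⟨fun h => hz (congrFun h z.1), fun F hF => ?_⟩
    have h2 := hp.2 _ (sub_mem_gJ (R := MvPolynomial Bool (MvPolynomial ι K ⧸ J))
      (x := fun i => C (gen J i)) (w := bw φ ψ (fun i => C (gen J i)) (X false) (X true)) hJ hx hF z.2)
    rwa [aeval_sub'] at h2
  obtain ⟨s, hs⟩ := hg L _ h1
  obtain ⟨k, u, h, huk, hhk, hu, huh⟩ := lg_form hJ hgd hs
  refine ⟨s, sub u z.2, ?_, fun j => P7_mem (B := sub (h j) z.2) ?_⟩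
  · rw [aeval_sub']
    exact hu
  · exact P7_rel (R := MvPolynomial Bool (MvPolynomial ι K ⧸ J)) (x := fun i => C (gen J i))
      (w := bw φ ψ (fun i => C (gen J i)) (X false) (X true)) huk (hgd j) (hhk j) (hgd s)
      (hx _ (huh j)) z.2 l

/-- The powers of the coordinates `Y_(i₀, l)` on the bundle. -/
theorem car_col (J : Ideal (MvPolynomial ι K)) (φ : Λ → MvPolynomial ι K) (ψ : Μ → MvPolynomial ι K) (i₀ : ι)
    (k : ℕ) : Car (bI J φ ψ) fun l => X (i₀, l) ^ k := by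
  intro L _ _ p hp
  obtain ⟨z, hz⟩ := Function.ne_iff.1 hp.1
  refine ⟨z.2, X z ^ k, ?_, fun l => P7_mem (B := X (z.1, l) ^ k) ?_⟩
  · rw [map_pow, aeval_X]
    exact pow_ne_zero k hz
  · have h1 : (X (z.1, z.2) * X (i₀, l) - X (z.1, l) * X (i₀, z.2) : MvPolynomial (ι × (Λ ⊕ Μ)) K) ∈
        bI J φ ψ := segre_mem (R := MvPolynomial Bool (MvPolynomial ι K ⧸ J))
      (x := fun i => C (gen J i)) (w := bw φ ψ (fun i => C (gen J i)) (X false) (X true)) z.1 i₀ z.2 l
    rw [← mul_pow, ← mul_pow]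
    exact Ideal.mem_of_dvd _ (sub_dvd_pow_sub_pow _ _ k) h1

end

end Pool.Agent.Lib.MP_17a322_nt.BI
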