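import Pool.Agent.Lib.MP_17a322_nt.BI.P1
import Pool.Agent.Lib.MP_17a322_nt.RAT.Defs

/-!
Bundles of projective lines over rational varieties are rational.
-/

set_option linter.unusedSectionVars false

universe u

namespace Pool.Agent.Lib.MP_17a322_nt.BI

open MvPolynomial
open Pool.Agent.Lib.MP_17a322_nt.EQ
open Pool.Agent.Lib.MP_17a322_nt.RAT (IsRat)

section

variable {K : Type u} [Field K] {ι Λ Μ : Type} [Fintype ι] [Fintype Λ] [Fintype Μ] {J : Ideal (MvPolynomial ι K)}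
  {φ : Λ → MvPolynomial ι K} {ψ : Μ → MvPolynomial ι K}

/-- The generic point of the bundle. -/
private theorem R1_mem {F : MvPolynomial (ι × (Λ ⊕ Μ)) K} {k : ℕ} (hF : F.IsHomogeneous k) {E : Type u} [Field E]
    [Algebra K E] (g : MvPolynomial Bool (MvPolynomial ι K ⧸ J) →ₐ[K] E) (hg : Function.Injective g) {t s c : E}
    (hc : c ≠ 0) (ht : t = c * g (X false)) (hs : s = c * g (X true))
    (h : aeval (sg (fun i => g (C (gen J i))) (bw φ ψ (fun i => g (C (gen J i))) t s)) F = 0) :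
    F ∈ bI J φ ψ := by
  rw [bI, mem_gJ]
  apply hg
  rw [map_zero, comp_aeval_apply]
  have h3 : (fun z : ι × (Λ ⊕ Μ) => c * g (C (gen J z.1) *
      bw φ ψ (fun i => C (gen J i)) (X false) (X true) z.2)) =
      sg (fun i => g (C (gen J i))) (bw φ ψ (fun i => g (C (gen J i))) t s) := by
    funext z
    obtain ⟨i, l⟩ := z
    rw [map_mul]
    cases l with
    | inl l =>
      change c * (g (C (gen J i)) * g (X false * aeval _ (φ l))) = g (C (gen J i)) * (t * aeval _ (φ l))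
      rw [map_mul, comp_aeval_apply, ht]
      ring
    | inr l =>
      change c * (g (C (gen J i)) * g (X true * aeval _ (ψ l))) = g (C (gen J i)) * (s * aeval _ (ψ l))
      rw [map_mul, comp_aeval_apply, hs]
      ring
  rw [← h3, aeval_mul hF] at h
  exact (mul_eq_zero.1 h).resolve_left (pow_ne_zero _ hc)

/-- A field which contains the variables `a` and `b`. -/
private theorem R1_field {A R : Type u} [CommRing A] [Algebra K A] [CommRing R] [IsDomain R] [Algebra K R]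
    (θ : A →ₐ[K] R) (hθ : Function.Injective θ) : ∃ (E : Type u) (_ : Field E) (_ : Algebra K E)
      (g : MvPolynomial Bool A →ₐ[K] E) (r : R →ₐ[K] E), Function.Injective g ∧ Function.Injective r ∧
        ∀ x, g (C x) = r (θ x) := by
  refine ⟨FractionRing (MvPolynomial Bool R), inferInstance, inferInstance,
    (IsScalarTower.toAlgHom K (MvPolynomial Bool R) _).comp (mapAlgHom θ),
    (IsScalarTower.toAlgHom K (MvPolynomial Bool R) _).comp (IsScalarTower.toAlgHom K R (MvPolynomial Bool R)),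
    ?_, ?_, fun x => ?_⟩
  · exact (IsFractionRing.injective (MvPolynomial Bool R) _).comp (map_injective _ hθ)
  · exact (IsFractionRing.injective (MvPolynomial Bool R) _).comp (C_injective Bool R)
  · rw [AlgHom.comp_apply, AlgHom.comp_apply, mapAlgHom_apply, map_C]
    rfl

/-- Homogeneous ideals. -/
private theorem R1_le {σ : Type} {I I' : Ideal (MvPolynomial σ K)}
    (hI : ∀ F ∈ I, ∀ i, homogeneousComponent i F ∈ I)
    (h : ∀ F ∈ I, ∀ k, F.IsHomogeneous k → F ∈ I') : I ≤ I' := by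
  intro F hF
  rw [← sum_homogeneousComponent F]
  exact Ideal.sum_mem _ fun i _ => h _ (hI F hF i) i (homogeneousComponent_isHomogeneous i F)

/-- The kernel of forms of the same degree is homogeneous. -/
private theorem R1_homog {σ τ : Type} {Ψ : σ → MvPolynomial τ K} {d : ℕ} (hd : 0 < d)
    (hΨ : ∀ i, (Ψ i).IsHomogeneous d) : ∀ F ∈ RingHom.ker (aeval (R := K) Ψ), ∀ i,
      homogeneousComponent i F ∈ RingHom.ker (aeval (R := K) Ψ) := by
  intro F hF i
  rw [RingHom.mem_ker] at hF ⊢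
  have hk : ∀ k, (aeval Ψ (homogeneousComponent k F)).IsHomogeneous (d * k) := fun k =>
    (homogeneousComponent_isHomogeneous k F).aeval Ψ hΨ
  have h2 : homogeneousComponent (d * i) (aeval Ψ F) = aeval Ψ (homogeneousComponent i F) := by
    conv_lhs => rw [← sum_homogeneousComponent F]
    rw [map_sum, map_sum]
    rw [Finset.sum_congr rfl fun k _ => homogeneousComponent_of_mem (m := d * i) (hk k)]
    have h3 : ∀ k, (if d * i = d * k then aeval Ψ (homogeneousComponent k F) else 0) =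
        if i = k then aeval Ψ (homogeneousComponent k F) else 0 := fun k => by
      simp only [Nat.mul_right_inj hd.ne']
    rw [Finset.sum_congr rfl fun k _ => h3 k, Finset.sum_ite_eq]
    by_cases hi : i ∈ Finset.range (F.totalDegree + 1)
    · rw [if_pos hi]
    · rw [if_neg hi]
      rw [Finset.mem_range, not_lt] at hi
      rw [homogeneousComponent_eq_zero i F (by omega), map_zero]
  rw [← h2, hF, map_zero]

/-- The bundle over a rational variety is rational. -/
theorem bI_rat {d₁ d₂ : ℕ} (hφ : ∀ l, (φ l).IsHomogeneous d₁) (hψ : ∀ l, (ψ l).IsHomogeneous d₂)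
    (h₁ : ∃ l, φ l ∉ J) (h₂ : ∃ l, ψ l ∉ J) (h : IsRat J) : IsRat (bI J φ ψ) := by
  obtain ⟨τ, _, Ψ, A, B, d, e, hd, hΨ, hA, hB, hAB, hJ⟩ := h
  obtain ⟨l₀, hl₀⟩ := h₁
  obtain ⟨l₁, hl₁⟩ := h₂
  obtain ⟨θ, hθ, hθg⟩ : ∃ θ : (MvPolynomial ι K ⧸ J) →ₐ[K] MvPolynomial τ K, Function.Injective θ ∧
      ∀ i, θ (gen J i) = Ψ i := by
    subst hJ
    refine ⟨Ideal.kerLiftAlg _, Ideal.kerLiftAlg_injective _, fun i => ?_⟩
    rw [gen, Ideal.kerLiftAlg_mk, aeval_X]
  have hJt : J ≠ ⊤ := fun h => hl₀ (h ▸ Submodule.mem_top)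
  have : Nontrivial (MvPolynomial ι K ⧸ J) := Ideal.Quotient.nontrivial_iff.2 hJt
  rcases isEmpty_or_nonempty τ with hτ | ⟨⟨x₀⟩⟩
  · -- the empty variety
    have hΨ0 : ∀ i, Ψ i = 0 := fun i => by
      by_contra h
      have h1 := hΨ i
      rw [eq_C_of_isEmpty (Ψ i)] at h h1
      have h2 := (isHomogeneous_C τ _).inj_right h1 h
      omega
    refine ⟨τ, inferInstance, fun _ => 0, fun j => hτ.elim j, 1, 1, 0, one_pos, fun _ => isHomogeneous_zero _ _ _,
      fun j => hτ.elim j, one_ne_zero, fun j => hτ.elim j, ?_⟩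
    ext F
    rw [bI, mem_gJ, RingHom.mem_ker]
    have h1 : (fun z : ι × (Λ ⊕ Μ) => (C (gen J z.1) *
      bw φ ψ (fun i => C (gen J i)) (X false) (X true) z.2 : MvPolynomial Bool (MvPolynomial ι K ⧸ J))) = 0 := by
      funext z
      have h2 : gen J z.1 = 0 := hθ (by rw [hθg, hΨ0, map_zero])
      rw [h2, C_0, zero_mul]
      rfl
    rw [h1]
    change aeval (0 : ι × (Λ ⊕ Μ) → _) F = 0 ↔ aeval (0 : ι × (Λ ⊕ Μ) → MvPolynomial τ K) F = 0
    rw [aeval_zero, aeval_zero, map_eq_zero_iff _ (algebraMap K _).injective,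
      map_eq_zero_iff _ (algebraMap K (MvPolynomial τ K)).injective]
  -- the general case
  obtain ⟨i₀, hi₀⟩ : ∃ i₀, Ψ i₀ ≠ 0 := by
    by_contra! h
    have h1 := hAB x₀
    have h2 : Ψ = 0 := funext h
    rw [h2, aeval_zero] at h1
    have h3 := congrArg constantCoeff h1
    rw [map_mul, constantCoeff_X, mul_zero, algebraMap_eq, constantCoeff_C] at h3
    rw [h3, map_zero] at h1
    exact mul_ne_zero hB (X_ne_zero x₀) h1.symm
  set r : MvPolynomial τ K →ₐ[K] MvPolynomial (τ ⊕ Unit) K := rename Sum.inl with hr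
  have hrinj : Function.Injective r := rename_injective _ Sum.inl_injective
  set P : ι → MvPolynomial (τ ⊕ Unit) K := fun i => r (Ψ i) with hPdef
  have hP : ∀ i, (P i).IsHomogeneous d := fun i => (hΨ i).rename_isHomogeneous
  have hPG : ∀ G : MvPolynomial ι K, aeval P G = r (aeval Ψ G) := fun G => by rw [comp_aeval_apply]
  set a : MvPolynomial (τ ⊕ Unit) K := X (Sum.inr ()) * P i₀ ^ d₂ with ha
  set b : MvPolynomial (τ ⊕ Unit) K := X (Sum.inl x₀) * P i₀ ^ d₁ with hb
  have hah : a.IsHomogeneous (1 + d * d₂) := (isHomogeneous_X K _).mul ((hP i₀).pow d₂)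
  have hbh : b.IsHomogeneous (1 + d * d₁) := (isHomogeneous_X K _).mul ((hP i₀).pow d₁)
  set w₁ : MvPolynomial (τ ⊕ Unit) K := b * aeval P (ψ l₁) with hw₁
  set Ψ' : ι × (Λ ⊕ Μ) → MvPolynomial (τ ⊕ Unit) K := sg P (bw φ ψ P a b) with hΨ'
  have hΨ'h : ∀ z, (Ψ' z).IsHomogeneous (d + (1 + d * d₂ + d * d₁)) := by
    rintro ⟨i, l | l⟩
    · exact (hP i).mul (hah.mul ((hφ l).aeval P hP))
    · have h := (hP i).mul (hbh.mul ((hψ l).aeval P hP))
      rwa [show d + (1 + d * d₁ + d * d₂) = d + (1 + d * d₂ + d * d₁) by ring] at h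
  have hPne : P i₀ ≠ 0 := fun h => hi₀ (hrinj (by rw [map_zero]; exact h))
  have hne : ∀ G, G ∉ J → aeval P G ≠ 0 := fun G hG h => by
    rw [hPG] at h
    have h1 := hrinj (h.trans (map_zero r).symm)
    rw [hJ] at hG
    exact hG (RingHom.mem_ker.2 h1)
  have hb0 : b ≠ 0 := mul_ne_zero (X_ne_zero _) (pow_ne_zero _ hPne)
  have hw0 : w₁ ≠ 0 := mul_ne_zero hb0 (hne _ hl₁)
  have hsub : ∀ {G : MvPolynomial ι K} {k : ℕ}, G.IsHomogeneous k → aeval Ψ' (sub G (Sum.inr l₁)) =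
      w₁ ^ k * aeval P G := fun {G k} hG => by
    rw [aeval_sub']
    have h : (fun i => Ψ' (i, Sum.inr l₁)) = fun i => w₁ * P i := by
      funext i
      change P i * (b * aeval P (ψ l₁)) = _
      ring
    rw [h, aeval_mul hG]
  refine ⟨τ ⊕ Unit, inferInstance, Ψ', Sum.elim
    (fun j => sub (A j) (Sum.inr l₁) * (X (i₀, Sum.inr l₁) ^ d₂ * sub (φ l₀) (Sum.inr l₁) * X (i₀, Sum.inr l₁)))
    (fun _ => sub (A x₀) (Sum.inr l₁) * (X (i₀, Sum.inr l₁) ^ d₁ * sub (ψ l₁) (Sum.inr l₁) * X (i₀, Sum.inl l₀))),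
    w₁ ^ (e + d₁ + d₂ + 1) * (r B * P i₀ ^ (1 + d₂) * aeval P (φ l₀)), _, e + (d₁ + d₂ + 1), ?_, hΨ'h, ?_, ?_, ?_, ?_⟩
  · omega
  · have hs : ∀ {G : MvPolynomial ι K} {k : ℕ} (l : Λ ⊕ Μ), G.IsHomogeneous k → (sub G l).IsHomogeneous k :=
      fun {G k} l hG => by
        have h := hG.aeval (fun i => (X (i, l) : MvPolynomial (ι × (Λ ⊕ Μ)) K)) (fun i => isHomogeneous_X K (i, l))
        rwa [one_mul] at h
    rintro (j | j)
    · have h := (hs (Sum.inr l₁) (hA j)).mul ((((isHomogeneous_X K (i₀, (Sum.inr l₁ : Λ ⊕ Μ))).pow d₂).mul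
        (hs (Sum.inr l₁) (hφ l₀))).mul (isHomogeneous_X K (i₀, (Sum.inr l₁ : Λ ⊕ Μ))))
      rwa [show e + (1 * d₂ + d₁ + 1) = e + (d₁ + d₂ + 1) by ring] at h
    · have h := (hs (Sum.inr l₁) (hA x₀)).mul ((((isHomogeneous_X K (i₀, (Sum.inr l₁ : Λ ⊕ Μ))).pow d₁).mul
        (hs (Sum.inr l₁) (hψ l₁))).mul (isHomogeneous_X K (i₀, (Sum.inl l₀ : Λ ⊕ Μ))))
      rwa [show e + (1 * d₁ + d₂ + 1) = e + (d₁ + d₂ + 1) by ring] at h
  · exact mul_ne_zero (pow_ne_zero _ hw0) (mul_ne_zero (mul_ne_zero (fun h => hB (hrinj (by rw [map_zero]; exact h)))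
      (pow_ne_zero _ hPne)) (hne _ hl₀))
  · rintro (j | ⟨⟩)
    · change aeval Ψ' (sub (A j) (Sum.inr l₁) * (X (i₀, Sum.inr l₁) ^ d₂ * sub (φ l₀) (Sum.inr l₁) *
        X (i₀, Sum.inr l₁))) = _
      rw [map_mul, map_mul, map_mul, map_pow, hsub (hA j), hsub (hφ l₀), aeval_X, hPG (A j), hAB j, map_mul]
      have h1 : r (X j) = X (Sum.inl j) := rename_X _ _
      have h2 : Ψ' (i₀, Sum.inr l₁) = P i₀ * w₁ := rfl
      rw [h1, h2]
      ring
    · change aeval Ψ' (sub (A x₀) (Sum.inr l₁) * (X (i₀, Sum.inr l₁) ^ d₁ * sub (ψ l₁) (Sum.inr l₁) *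
        X (i₀, Sum.inl l₀))) = _
      rw [map_mul, map_mul, map_mul, map_pow, hsub (hA x₀), hsub (hψ l₁), aeval_X, aeval_X, hPG (A x₀), hAB x₀,
        map_mul]
      have h1 : r (X x₀) = X (Sum.inl x₀) := rename_X _ _
      have h2 : Ψ' (i₀, Sum.inr l₁) = P i₀ * w₁ := rfl
      have h3 : Ψ' (i₀, Sum.inl l₀) = P i₀ * (X (Sum.inr ()) * P i₀ ^ d₂ * aeval P (φ l₀)) := rfl
      rw [h1, h2, h3]
      have h4 : w₁ ^ (e + d₁ + d₂ + 1) = w₁ ^ (e + d₁ + d₂) * (X (Sum.inl x₀) * P i₀ ^ d₁ * aeval P (ψ l₁)) := by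
        rw [pow_succ]
      rw [h4]
      ring
  · refine le_antisymm (fun F hF => ?_) (R1_le (R1_homog (by omega) hΨ'h) fun F hF k hFk => ?_)
    · rw [RingHom.mem_ker]
      refine bI_pt (fun G hG => ?_) a b F hF
      rw [hJ, RingHom.mem_ker] at hG
      rw [hPG]
      exact (congrArg r hG).trans (map_zero r)
    · rw [RingHom.mem_ker] at hF
      obtain ⟨E, _, _, g, r', hg, hr', hgr⟩ := R1_field θ hθ
      have hgΨ : ∀ i, g (C (gen J i)) = r' (Ψ i) := fun i => by rw [hgr, hθg]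
      have hgt : g (X true) ≠ 0 := fun h => X_ne_zero (R := MvPolynomial ι K ⧸ J) true (hg (h.trans (map_zero g).symm))
      have hri : r' (Ψ i₀) ≠ 0 := fun h => hi₀ (hr' (h.trans (map_zero r').symm))
      have hrx : r' (X x₀) ≠ 0 := fun h => X_ne_zero x₀ (hr' (h.trans (map_zero r').symm))
      have hs0 : r' (X x₀) * r' (Ψ i₀) ^ d₁ ≠ 0 := mul_ne_zero hrx (pow_ne_zero _ hri)
      let c : E := r' (X x₀) * r' (Ψ i₀) ^ d₁ / g (X true)
      let y : τ ⊕ Unit → E := Sum.elim (fun j => r' (X j)) fun _ => c * g (X false) / r' (Ψ i₀) ^ d₂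
      have hyr : ∀ H : MvPolynomial τ K, aeval y (r H) = r' H := fun H => by
        rw [hr, aeval_rename]
        have h1 : y ∘ Sum.inl = fun j => r' (X j) := rfl
        rw [h1, ← comp_aeval_apply, aeval_X_left, AlgHom.id_apply]
      have hyP : ∀ i, aeval y (P i) = g (C (gen J i)) := fun i => by rw [hgΨ]; exact hyr _
      have hya : aeval y a = c * g (X false) := by
        rw [ha, map_mul, map_pow, aeval_X, hyP, hgΨ]
        change c * g (X false) / r' (Ψ i₀) ^ d₂ * r' (Ψ i₀) ^ d₂ = _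
        rw [div_mul_cancel₀ _ (pow_ne_zero _ hri)]
      have hyb : aeval y b = c * g (X true) := by
        rw [hb, map_mul, map_pow, aeval_X, hyP, hgΨ]
        change r' (X x₀) * r' (Ψ i₀) ^ d₁ = r' (X x₀) * r' (Ψ i₀) ^ d₁ / g (X true) * g (X true)
        rw [div_mul_cancel₀ _ hgt]
      refine R1_mem hFk g hg (c := c) (div_ne_zero hs0 hgt) hya hyb ?_
      have h1 := congrArg (aeval y) hF
      rw [map_zero, comp_aeval_apply] at h1
      rw [← h1]
      congr 2
      funext z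
      obtain ⟨i, l⟩ := z
      cases l with
      | inl l =>
        change g (C (gen J i)) * (aeval y a * aeval (fun i => g (C (gen J i))) (φ l)) =
          aeval y (P i * (a * aeval P (φ l)))
        rw [map_mul (aeval y) (P i), map_mul (aeval y) a, hyP, comp_aeval_apply P (aeval y)]
        simp only [hyP]
      | inr l =>
        change g (C (gen J i)) * (aeval y b * aeval (fun i => g (C (gen J i))) (ψ l)) =
          aeval y (P i * (b * aeval P (ψ l)))
        rw [map_mul (aeval y) (P i), map_mul (aeval y) b, hyP, comp_aeval_apply P (aeval y)]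
        simp only [hyP]

end

end Pool.Agent.Lib.MP_17a322_nt.BI
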