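import Pool.Agent.Lib.MP_17a322_nt.BI.P4
import Pool.Agent.Lib.MP_17a322_nt.EQ.G7

/-!
Bundles of projective lines: divisors.
-/

set_option linter.unusedSectionVars false

universe u

namespace Pool.Agent.Lib.MP_17a322_nt.BI

open MvPolynomial
open Pool.Agent.Lib.MP_17a322_nt.EQ

section

variable {K : Type u} [Field K] {ι Λ Μ κ β : Type} [Fintype ι] [Fintype Λ] [Fintype Μ] [Fintype β]
  {J : Ideal (MvPolynomial ι K)} {φ : Λ → MvPolynomial ι K} {ψ : Μ → MvPolynomial ι K}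

/-- The divisors on the bundle: the inverse images of the given ones, and the divisors `a = 0` (label `true`)
and `b = 0` (label `false`). -/
noncomputable def bF (Λ Μ : Type) (e : ℕ) (f : β → κ → MvPolynomial ι K) :
    β ⊕ Bool → Ix ι κ (Λ ⊕ Μ) → MvPolynomial (ι × (Λ ⊕ Μ)) K :=
  Sum.elim (fun b => eqp (f b)) fun j => eqs e fun l => l.isLeft = j

private theorem S1_rel₁ {k : ℕ} {A B : MvPolynomial ι K} (hA : A.IsHomogeneous k) (hB : B.IsHomogeneous k)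
    {l l' : Λ} (h : A * φ l - B * φ l' ∈ J) (l₁ : Λ ⊕ Μ) (i₁ : ι) :
    (sub A l₁ * X (i₁, Sum.inl l) - sub B l₁ * X (i₁, Sum.inl l') : MvPolynomial (ι × (Λ ⊕ Μ)) K) ∈
      bI J φ ψ := by
  refine rel_mem hA hB ?_ l₁ i₁
  have h1 := pgen_zero (J := J) _ h
  rw [map_sub, map_mul, map_mul] at h1
  simp only [bw, Sum.elim_inl]
  linear_combination (X false) * h1

private theorem S1_rel₂ {k : ℕ} {A B : MvPolynomial ι K} (hA : A.IsHomogeneous k) (hB : B.IsHomogeneous k)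
    {l l' : Μ} (h : A * ψ l - B * ψ l' ∈ J) (l₁ : Λ ⊕ Μ) (i₁ : ι) :
    (sub A l₁ * X (i₁, Sum.inr l) - sub B l₁ * X (i₁, Sum.inr l') : MvPolynomial (ι × (Λ ⊕ Μ)) K) ∈
      bI J φ ψ := by
  refine rel_mem hA hB ?_ l₁ i₁
  have h1 := pgen_zero (J := J) _ h
  rw [map_sub, map_mul, map_mul] at h1
  simp only [bw, Sum.elim_inr]
  linear_combination (X true) * h1

/-- The local structure of the bundle at a point. -/
private theorem S1_data {L : Type u} [Field L] [Algebra K L] {n e d₁ d₂ : ℕ} (he : 0 < e) (hJ : Smooth J n)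
    (hφ : ∀ l, (φ l).IsHomogeneous d₁) (hψ : ∀ l, (ψ l).IsHomogeneous d₂) (hφ' : Car J φ) (hψ' : Car J ψ)
    {p : ι × (Λ ⊕ Μ) → L} (hp : IsPt (bI J φ ψ) p) {i₁ : ι} {l₁ : Λ ⊕ Μ} (hz : p (i₁, l₁) ≠ 0) :
    IsPt J (fun i => p (i, l₁)) ∧ ∃ (W : Λ ⊕ Μ → L) (r : Bool → Λ ⊕ Μ), W l₁ = 1 ∧
      (∀ i l, p (i, l) = p (i, l₁) * W l) ∧ (∀ j, (r j).isLeft = j) ∧
      (∀ j, LG (bI J φ ψ) (eqs e (fun l => l.isLeft = j) : Ix ι κ (Λ ⊕ Μ) → _) p
        (Sum.inr ((i₁, r j), (i₁, l₁)))) ∧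
      (∀ j, W (r j) = 0 → ∀ l : Λ ⊕ Μ, l.isLeft = j → W l = 0) ∧
      ∀ y ∈ Tan (bI J φ ψ) p, (fun i => y (i, l₁)) = 0 → y (i₁, r !l₁.isLeft) = 0 → y = 0 := by
  have hx := pgen_zero (J := J)
  obtain ⟨hq, W, hW, hpW⟩ := gJ_pt hJ.homog hx hp ⟨i₁, hz⟩
  obtain ⟨s₁, hs₁⟩ := hφ' L _ hq
  obtain ⟨s₂, hs₂⟩ := hψ' L _ hq
  obtain ⟨k₁, u₁, h₁, hu₁, hh₁, hq₁, hr₁⟩ := lg_form hJ.homog hφ hs₁
  obtain ⟨k₂, u₂, h₂, hu₂, hh₂, hq₂, hr₂⟩ := lg_form hJ.homog hψ hs₂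
  have e₁ := fun l => rel_eval hp hz hpW (S1_rel₁ (ψ := ψ) hu₁ (hh₁ l) (hr₁ l) l₁ i₁)
  have e₂ := fun l => rel_eval hp hz hpW (S1_rel₂ (φ := φ) hu₂ (hh₂ l) (hr₂ l) l₁ i₁)
  refine ⟨hq, W, fun j => cond j (Sum.inl s₁) (Sum.inr s₂), hW, hpW, ?_, ?_, ?_, ?_⟩
  · intro j
    cases j <;> rfl
  · intro j
    cases j
    · refine LG_eqs (I := bI J φ ψ) (fun i i' l l' => segre_mem i i' l l') hz he
        (fun l : Λ ⊕ Μ => l.isLeft = false) (r := Sum.inr s₂) rfl u₂ hq₂ ?_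
      rintro (l | l) hl
      · exact absurd hl (by simp)
      · exact ⟨h₂ l, fun i => S1_rel₂ (φ := φ) hu₂ (hh₂ l) (hr₂ l) l₁ i⟩
    · refine LG_eqs (I := bI J φ ψ) (fun i i' l l' => segre_mem i i' l l') hz he
        (fun l : Λ ⊕ Μ => l.isLeft = true) (r := Sum.inl s₁) rfl u₁ hq₁ ?_
      rintro (l | l) hl
      · exact ⟨h₁ l, fun i => S1_rel₁ (ψ := ψ) hu₁ (hh₁ l) (hr₁ l) l₁ i⟩
      · exact absurd hl (by simp)
  · intro j hj
    cases j
    · rintro (l | l) hl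
      · exact absurd hl (by simp)
      · have h := (e₂ l).1
        have hj' : W (Sum.inr s₂) = 0 := hj
        rw [hj', mul_zero] at h
        exact (mul_eq_zero.1 h).resolve_left hq₂
    · rintro (l | l) hl
      · have h := (e₁ l).1
        have hj' : W (Sum.inl s₁) = 0 := hj
        rw [hj', mul_zero] at h
        exact (mul_eq_zero.1 h).resolve_left hq₁
      · exact absurd hl (by simp)
  · intro y hy hy1 hys
    obtain ⟨-, ω, hω, hyω⟩ := gJ_tan hJ.homog hx ⟨i₁, hz⟩ hW hpW hy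
    have hv : ∀ i, y (i, l₁) = 0 := fun i => congrFun hy1 i
    have hy2 : ∀ i l, y (i, l) = p (i, l₁) * ω l := by
      intro i l
      rw [hyω i l, hv i, zero_mul, zero_add]
    have hωs : ω (cond (!l₁.isLeft) (Sum.inl s₁) (Sum.inr s₂)) = 0 := by
      have hys' := hys
      rw [hy2] at hys'
      exact (mul_eq_zero.1 hys').resolve_left hz
    have f₁ : ∀ l : Λ, aeval (fun i => p (i, l₁)) u₁ * ω (Sum.inl l) =
        aeval (fun i => p (i, l₁)) (h₁ l) * ω (Sum.inl s₁) := by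
      intro l
      have h := (e₁ l).2 y ω hy hyω
      rw [hy1, map_zero, map_zero, zero_mul, zero_mul, zero_add, zero_add] at h
      exact h
    have f₂ : ∀ l : Μ, aeval (fun i => p (i, l₁)) u₂ * ω (Sum.inr l) =
        aeval (fun i => p (i, l₁)) (h₂ l) * ω (Sum.inr s₂) := by
      intro l
      have h := (e₂ l).2 y ω hy hyω
      rw [hy1, map_zero, map_zero, zero_mul, zero_mul, zero_add, zero_add] at h
      exact h
    have g : ω (Sum.inl s₁) = 0 ∧ ω (Sum.inr s₂) = 0 := by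
      rcases l₁ with l₁ | l₁
      · refine ⟨?_, hωs⟩
        have h1 := f₁ l₁
        have h2 := (e₁ l₁).1
        rw [hω, mul_zero] at h1
        rw [hW, mul_one] at h2
        refine (mul_eq_zero.1 h1.symm).resolve_left fun h3 => hq₁ ?_
        rw [h2, h3, zero_mul]
      · refine ⟨hωs, ?_⟩
        have h1 := f₂ l₁
        have h2 := (e₂ l₁).1
        rw [hω, mul_zero] at h1
        rw [hW, mul_one] at h2
        refine (mul_eq_zero.1 h1.symm).resolve_left fun h3 => hq₂ ?_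
        rw [h2, h3, zero_mul]
    funext z
    obtain ⟨i, l⟩ := z
    rw [hy2 i l]
    have hl : ω l = 0 := by
      rcases l with l | l
      · have h := f₁ l
        rw [g.1, mul_zero] at h
        exact (mul_eq_zero.1 h).resolve_left hq₁
      · have h := f₂ l
        rw [g.2, mul_zero] at h
        exact (mul_eq_zero.1 h).resolve_left hq₂
    rw [hl, mul_zero]
    rfl

private theorem S1_inl {L : Type u} [Field L] [Algebra K L] {e : ℕ} {f : β → κ → MvPolynomial ι K}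
    (hf : ∀ b j, (f b j).IsHomogeneous e) {p : ι × (Λ ⊕ Μ) → L} {l₁ : Λ ⊕ Μ} {W : Λ ⊕ Μ → L}
    (hW1 : W l₁ = 1) (hW : ∀ i l, p (i, l) = p (i, l₁) * W l) (b : β) :
    Sum.inl b ∈ thr (bF Λ Μ e f) p ↔ b ∈ thr f fun i => p (i, l₁) := by
  rw [mem_thr, mem_thr]
  constructor
  · intro h k
    have h1 := h (Sum.inl (k, l₁))
    have h2 : bF Λ Μ e f (Sum.inl b) (Sum.inl (k, l₁)) = eqp (f b) (Sum.inl (k, l₁)) := rfl
    rw [h2, G7_val (hf b) hW, hW1, one_pow, one_mul] at h1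
    exact h1
  · rintro h (⟨k, l⟩ | z)
    · have h2 : bF Λ Μ e f (Sum.inl b) (Sum.inl (k, l)) = eqp (f b) (Sum.inl (k, l)) := rfl
      rw [h2, G7_val (hf b) hW, h k, mul_zero]
    · have h2 : bF Λ Μ e f (Sum.inl b) (Sum.inr z) = 0 := rfl
      rw [h2, map_zero]

private theorem S1_inr {L : Type u} [Field L] [Algebra K L] {e : ℕ} {f : β → κ → MvPolynomial ι K}
    {p : ι × (Λ ⊕ Μ) → L} {l₁ : Λ ⊕ Μ} {W : Λ ⊕ Μ → L} {i₁ : ι} (hi : p (i₁, l₁) ≠ 0)
    (hW : ∀ i l, p (i, l) = p (i, l₁) * W l) (j : Bool) :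
    Sum.inr j ∈ thr (bF Λ Μ e f) p ↔ ∀ l : Λ ⊕ Μ, l.isLeft = j → W l = 0 := by
  rw [mem_thr]
  constructor
  · intro h l hl
    have h1 := h (Sum.inr ((i₁, l), (i₁, l₁)))
    have h2 : bF Λ Μ e f (Sum.inr j) (Sum.inr ((i₁, l), (i₁, l₁))) =
        if l.isLeft = j then X (i₁, l) * X (i₁, l₁) ^ (e - 1) else 0 := rfl
    rw [h2, if_pos hl, map_mul, map_pow, aeval_X, aeval_X, hW i₁ l] at h1
    rcases mul_eq_zero.1 h1 with h3 | h3
    · exact (mul_eq_zero.1 h3).resolve_left hi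
    · exact absurd h3 (pow_ne_zero _ hi)
  · rintro h (z | ⟨⟨i, l⟩, z⟩)
    · have h2 : bF Λ Μ e f (Sum.inr j) (Sum.inl z) = 0 := rfl
      rw [h2, map_zero]
    · have h2 : bF Λ Μ e f (Sum.inr j) (Sum.inr ((i, l), z)) =
          if l.isLeft = j then X (i, l) * X z ^ (e - 1) else 0 := rfl
      rw [h2]
      split_ifs with h3
      · rw [map_mul, aeval_X, hW i l, h l h3, mul_zero, zero_mul]
      · rw [map_zero]

private theorem S1_card {L : Type u} [Field L] [Algebra K L] {e : ℕ} {f : β → κ → MvPolynomial ι K}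
    (hf : ∀ b j, (f b j).IsHomogeneous e) {p : ι × (Λ ⊕ Μ) → L} {l₁ : Λ ⊕ Μ} {W : Λ ⊕ Μ → L}
    (hW1 : W l₁ = 1) {i₁ : ι} (hi : p (i₁, l₁) ≠ 0) (hW : ∀ i l, p (i, l) = p (i, l₁) * W l) :
    (thr (bF Λ Μ e f) p).card ≤ (thr f fun i => p (i, l₁)).card + 1 ∧
      ((∃ l : Λ ⊕ Μ, l.isLeft = !l₁.isLeft ∧ W l ≠ 0) →
        (thr (bF Λ Μ e f) p).card ≤ (thr f fun i => p (i, l₁)).card) := by
  classical
  have key : ∀ b ∈ thr (bF Λ Μ e f) p, b ∈ insert (Sum.inr (!l₁.isLeft) : β ⊕ Bool)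
      ((thr f fun i => p (i, l₁)).map ⟨Sum.inl, Sum.inl_injective⟩) ∧
        ((∃ l : Λ ⊕ Μ, l.isLeft = !l₁.isLeft ∧ W l ≠ 0) →
          b ∈ (thr f fun i => p (i, l₁)).map (⟨Sum.inl, Sum.inl_injective⟩ : β ↪ β ⊕ Bool)) := by
    rintro (b | j) hb
    · have h1 : Sum.inl b ∈ (thr f fun i => p (i, l₁)).map
          (⟨Sum.inl, Sum.inl_injective⟩ : β ↪ β ⊕ Bool) :=
        Finset.mem_map.2 ⟨b, (S1_inl hf hW1 hW b).1 hb, rfl⟩
      exact ⟨Finset.mem_insert_of_mem h1, fun _ => h1⟩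
    · have h1 := (S1_inr hi hW j).1 hb
      have h2 : j = !l₁.isLeft := by
        by_contra h
        have h3 : l₁.isLeft = j := by
          revert h
          cases j <;> cases l₁.isLeft <;> simp
        have h4 := h1 l₁ h3
        rw [hW1] at h4
        exact one_ne_zero h4
      subst h2
      refine ⟨Finset.mem_insert_self _ _, ?_⟩
      rintro ⟨l, hl, hl'⟩
      exact absurd (h1 l hl) hl'
  constructor
  · have h1 := Finset.card_le_card (fun b hb => (key b hb).1 :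
      thr (bF Λ Μ e f) p ⊆ insert (Sum.inr (!l₁.isLeft) : β ⊕ Bool)
        ((thr f fun i => p (i, l₁)).map ⟨Sum.inl, Sum.inl_injective⟩))
    have h2 := Finset.card_insert_le (Sum.inr (!l₁.isLeft) : β ⊕ Bool)
      ((thr f fun i => p (i, l₁)).map ⟨Sum.inl, Sum.inl_injective⟩)
    rw [Finset.card_map] at h2
    exact h1.trans h2
  · intro h
    have h1 := Finset.card_le_card (fun b hb => (key b hb).2 h :
      thr (bF Λ Μ e f) p ⊆ (thr f fun i => p (i, l₁)).map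
        (⟨Sum.inl, Sum.inl_injective⟩ : β ↪ β ⊕ Bool))
    rwa [Finset.card_map] at h1

private theorem S1_bound {n e d₁ d₂ : ℕ} {f : β → κ → MvPolynomial ι K} (hJ : Smooth J n) (hf : Snc J e f)
    (hφ : ∀ l, (φ l).IsHomogeneous d₁) (hψ : ∀ l, (ψ l).IsHomogeneous d₂) (hφ' : Car J φ) (hψ' : Car J ψ)
    (L : Type u) [Field L] [Algebra K L] (p : ι × (Λ ⊕ Μ) → L) (hp : IsPt (bI J φ ψ) p) :
    ∃ s : β ⊕ Bool → Ix ι κ (Λ ⊕ Μ),
      (∀ b ∈ thr (bF Λ Μ e f) p, LG (bI J φ ψ) (bF Λ Μ e f b) p (s b)) ∧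
      Module.finrank L (Nsp (bI J φ ψ) p (fun b => bF Λ Μ e f b (s b)) (thr (bF Λ Μ e f) p)) +
        (thr (bF Λ Μ e f) p).card ≤ (n + 1) + 1 := by
  classical
  obtain ⟨⟨i₁, l₁⟩, hi⟩ : ∃ z, p z ≠ 0 := by
    by_contra h
    push Not at h
    exact hp.1 (funext h)
  have hl : ∃ i, p (i, l₁) ≠ 0 := ⟨i₁, hi⟩
  obtain ⟨hxp, W, r, hW1, hW, hr, hLG, hWr, hkey⟩ :=
    S1_data (κ := κ) hf.pos hJ hφ hψ hφ' hψ' hp hi
  obtain ⟨s₀, hs₀, hind⟩ := hf.thr_LG hxp
  let s : β ⊕ Bool → Ix ι κ (Λ ⊕ Μ) := Sum.elim (fun b => Sum.inl (s₀ b, l₁))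
    (fun j => Sum.inr ((i₁, r j), (i₁, l₁)))
  refine ⟨s, ?_, ?_⟩
  · rintro (b | j) hb
    · exact LG_eqp (R := MvPolynomial Bool (MvPolynomial ι K ⧸ J)) (x := fun i => C (gen J i))
        (w := bw φ ψ (fun i => C (gen J i)) (X false) (X true)) hJ.homog pgen_zero hl (hf.homog b)
        (hs₀ b ((S1_inl hf.homog hW1 hW b).1 hb))
    · exact hLG j
  · have hb0 := snc_bound hJ hxp (g := fun b => f b (s₀ b)) hind (Finset.Subset.refl _)
    obtain ⟨hc1, hc2⟩ := S1_card hf.homog hW1 hi hW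
    set N := Nsp (bI J φ ψ) p (fun b => bF Λ Μ e f b (s b)) (thr (bF Λ Μ e f) p) with hN
    set N₀ := Nsp J (fun i => p (i, l₁)) (fun b => f b (s₀ b)) (thr f fun i => p (i, l₁)) with hN₀
    let π : (ι × (Λ ⊕ Μ) → L) →ₗ[L] (ι → L) := LinearMap.funLeft L L fun i => (i, l₁)
    have hπ : ∀ y ∈ N, π y ∈ N₀ := by
      intro y hy
      rw [hN, mem_Nsp] at hy
      rw [hN₀, mem_Nsp]
      refine ⟨(gJ_tan (R := MvPolynomial Bool (MvPolynomial ι K ⧸ J)) (x := fun i => C (gen J i))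
        (w := bw φ ψ (fun i => C (gen J i)) (X false) (X true)) hJ.homog pgen_zero hl hW1 hW hy.1).1,
        fun b hb => ?_⟩
      have h1 := hy.2 (Sum.inl b) ((S1_inl hf.homog hW1 hW b).2 hb)
      have h2 : bF Λ Μ e f (Sum.inl b) (s (Sum.inl b)) = sub (f b (s₀ b)) l₁ := rfl
      rw [h2, dif_sub'] at h1
      exact h1
    have hinj : ∀ y ∈ N, π y = 0 → y (i₁, r !l₁.isLeft) = 0 → y = 0 := by
      intro y hy h0 h1
      rw [hN, mem_Nsp] at hy
      exact hkey y hy.1 h0 h1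
    by_cases hW2 : W (r !l₁.isLeft) = 0
    · -- the point lies on the divisor
      have hz : ∀ y ∈ N, y (i₁, r !l₁.isLeft) = 0 := by
        intro y hy
        rw [hN, mem_Nsp] at hy
        have h1 := hy.2 (Sum.inr (!l₁.isLeft)) ((S1_inr hi hW (!l₁.isLeft)).2 (hWr _ hW2))
        have h2 : bF Λ Μ e f (Sum.inr (!l₁.isLeft)) (s (Sum.inr (!l₁.isLeft))) =
            if (r !l₁.isLeft).isLeft = !l₁.isLeft then X (i₁, r !l₁.isLeft) * X (i₁, l₁) ^ (e - 1)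
              else 0 := rfl
        rw [h2, if_pos (hr _), dif_mul, dif_X, map_pow, aeval_X, aeval_X, hW i₁ (r !l₁.isLeft), hW2,
          mul_zero, zero_mul, zero_add] at h1
        exact (mul_eq_zero.1 h1).resolve_left (pow_ne_zero _ hi)
      let T : N →ₗ[L] N₀ := (π.comp N.subtype).codRestrict N₀ fun y => hπ y.1 y.2
      have hT : Function.Injective T := by
        rw [injective_iff_map_eq_zero]
        intro y hy
        have h1 : π y.1 = 0 := congrArg Subtype.val hy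
        exact Subtype.ext (hinj y.1 y.2 h1 (hz y.1 y.2))
      have h1 := LinearMap.finrank_le_finrank_of_injective hT
      omega
    · let T : N →ₗ[L] N₀ × L := ((π.comp N.subtype).codRestrict N₀ fun y => hπ y.1 y.2).prod
        ((LinearMap.proj (i₁, r !l₁.isLeft)).comp N.subtype)
      have hT : Function.Injective T := by
        rw [injective_iff_map_eq_zero]
        intro y hy
        have h1 : π y.1 = 0 := congrArg Subtype.val (congrArg Prod.fst hy)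
        have h2 : y.1 (i₁, r !l₁.isLeft) = 0 := congrArg Prod.snd hy
        exact Subtype.ext (hinj y.1 y.2 h1 h2)
      have h1 := LinearMap.finrank_le_finrank_of_injective hT
      rw [Module.finrank_prod, Module.finrank_self] at h1
      have h2 := hc2 ⟨r !l₁.isLeft, hr _, hW2⟩
      omega

/-- The divisors on the bundle meet transversally. -/
theorem bI_snc [CharZero K] {n e d₁ d₂ : ℕ} {f : β → κ → MvPolynomial ι K} (hJ : Smooth J n) (hf : Snc J e f)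
    (hφ : ∀ l, (φ l).IsHomogeneous d₁) (hψ : ∀ l, (ψ l).IsHomogeneous d₂) (hφ' : Car J φ) (hψ' : Car J ψ)
    (h₁ : ∃ l, φ l ∉ J) (h₂ : ∃ l, ψ l ∉ J) :
    Smooth (bI J φ ψ) (n + 1) ∧ Snc (bI J φ ψ) e (bF Λ Μ e f) := by
  refine snc_of_bound (bI_prime hJ.prime φ ψ) (bI_homog J φ ψ) hf.pos ?_ ?_ ?_
  · intro b z
    rcases b with b | b
    · exact eqp_hom (hf.homog b) z
    · exact eqs_hom (K := K) (Λ := Λ ⊕ Μ) hf.pos (fun l => l.isLeft = b) z
  · intro L _ _ p hp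
    exact bI_lower hJ hφ hψ h₁ h₂ hp
  · intro L _ _ p hp
    exact S1_bound hJ hf hφ hψ hφ' hψ' L p hp

/-- A part of the divisors. -/
theorem snc_comp {β' : Type} {e : ℕ} {f : β → κ → MvPolynomial ι K} (hf : Snc J e f) (σ : β' → β)
    (hσ : Function.Injective σ) : Snc J e fun b => f (σ b) := by
  refine ⟨hf.pos, fun b j => hf.homog (σ b) j, ?_⟩
  intro L _ _ p hp
  obtain ⟨s, hs, hi⟩ := hf.trans L p hp
  refine ⟨fun b => s (σ b), fun b hb => hs (σ b) hb, ?_⟩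
  exact hi.comp (fun b : {b // ∀ j, aeval p (f (σ b) j) = 0} =>
    (⟨σ b.1, b.2⟩ : {b // ∀ j, aeval p (f b j) = 0}))
    fun a b hab => Subtype.ext (hσ (Subtype.mk.inj hab))

/-- No divisors. -/
theorem snc_empty (J : Ideal (MvPolynomial ι K)) {e : ℕ} (he : 0 < e) (f : Empty → κ → MvPolynomial ι K) :
    Snc J e f := by
  refine ⟨he, fun b => b.elim, ?_⟩
  intro L hL hA p _
  refine ⟨fun b => b.elim, fun b => b.elim, ?_⟩
  have : IsEmpty {b : Empty // ∀ j, aeval p (f b j) = 0} := ⟨fun b => b.1.elim⟩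
  exact linearIndependent_empty_type

end

end Pool.Agent.Lib.MP_17a322_nt.BI
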