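import Pool.Agent.Lib.MP_17a322_nt.BI.P1

/-!
The product with the projective line: definitions.
-/

set_option linter.unusedSectionVars false

universe u

namespace Pool.Agent.Lib.MP_17a322_nt.BI

open MvPolynomial Height NumberField
open Pool.Agent.Lib.MP_17a322_nt.EQ

section

variable {K : Type u} [Field K] {ι κ : Type}

/-- The labels of the coordinates of the projective line. -/
abbrev U2 : Type := Unit ⊕ Unit

/-- The labels of the coordinates of the first variety. -/
abbrev I1 (ι : Type) : Type := ι × U2

/-- The form one. -/
noncomputable def o1 : Unit → MvPolynomial ι K := fun _ => 1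

/-- The product with the line. -/
noncomputable def J1 (J : Ideal (MvPolynomial ι K)) : Ideal (MvPolynomial (I1 ι) K) := bI J o1 o1

end

section

variable {K L : Type u} [Field K] [Field L] [Algebra K L] {ι κ : Type} [Fintype ι]

/-- The coordinates of the point of the line. -/
def uu {L : Type u} (a b : L) : U2 → L := Sum.elim (fun _ => a) fun _ => b

/-- The point of the first variety. -/
def y1 {L : Type u} [Field L] {ι : Type} (p : ι → L) (a b : L) : I1 ι → L := sg p (uu a b)

theorem bw_o1 (p : ι → L) (a b : L) : bw (K := K) o1 o1 p a b = uu a b := by
  funext l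
  rcases l with l | l
  · change a * aeval p (1 : MvPolynomial ι K) = a
    rw [map_one, mul_one]
  · change b * aeval p (1 : MvPolynomial ι K) = b
    rw [map_one, mul_one]

end

end Pool.Agent.Lib.MP_17a322_nt.BI
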