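import Pool.Agent.Lib.MP_17a322_nt.BI.T0
import Pool.Agent.Lib.MP_17a322_nt.BI.P4
import Pool.Agent.Lib.MP_17a322_nt.BI.P7

/-!
The product with the projective line is smooth.
-/

set_option linter.unusedSectionVars false

universe u

namespace Pool.Agent.Lib.MP_17a322_nt.BI

open MvPolynomial
open Pool.Agent.Lib.MP_17a322_nt.EQ

section

variable {K : Type u} [Field K] {ι : Type} [Fintype ι] {J : Ideal (MvPolynomial ι K)}

theorem sub_hom {ι Λ : Type} {F : MvPolynomial ι K} {d : ℕ} (hF : F.IsHomogeneous d) (l : Λ) :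
    (sub F l).IsHomogeneous d := by
  have h := hF.aeval (fun i => (X (i, l) : MvPolynomial (ι × Λ) K)) (fun i => isHomogeneous_X K (i, l))
  rwa [one_mul] at h

theorem o1_hom (l : Unit) : (o1 l : MvPolynomial ι K).IsHomogeneous 0 := isHomogeneous_one ι K

theorem one_notMem (hJ : J.IsPrime) : (1 : MvPolynomial ι K) ∉ J := fun h => hJ.ne_top ((Ideal.eq_top_iff_one J).2 h)

/-- The coordinate `X_i` in the `l`-th column. -/
theorem X_notMem {ι Λ Μ : Type} [Fintype ι] [Fintype Λ] [Fintype Μ] {J : Ideal (MvPolynomial ι K)}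
    {φ : Λ → MvPolynomial ι K} {ψ : Μ → MvPolynomial ι K} (hJ : J.IsPrime) {i : ι}
    (hi : (X i : MvPolynomial ι K) ∉ J) {l : Λ ⊕ Μ} (hl : Sum.elim φ ψ l ∉ J) :
    (X (i, l) : MvPolynomial (ι × (Λ ⊕ Μ)) K) ∉ bI J φ ψ := by
  have h := sub_notMem (φ := φ) (ψ := ψ) hJ (isHomogeneous_X K i) hi hl
  rwa [sub, aeval_X] at h

theorem J1_X (hJ : J.IsPrime) {i : ι} (hi : (X i : MvPolynomial ι K) ∉ J) (k : U2) :
    (X (i, k) : MvPolynomial (I1 ι) K) ∉ J1 J := by
  refine X_notMem hJ hi ?_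
  rcases k with k | k
  · exact one_notMem hJ
  · exact one_notMem hJ

theorem J1_smooth [CharZero K] {n : ℕ} (hJ : Smooth J n) : Smooth (J1 J) (n + 1) :=
  bI_smooth hJ o1_hom o1_hom (car_one J 1) (car_one J 1) ⟨(), one_notMem hJ.prime⟩ ⟨(), one_notMem hJ.prime⟩

end

end Pool.Agent.Lib.MP_17a322_nt.BI
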