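import Pool.Agent.Lib.MP_17a322_nt.BI.Defs
import Pool.Agent.Lib.MP_17a322_nt.BI.S1
import Pool.Agent.Lib.MP_17a322_nt.BI.T2
import Pool.Agent.Lib.MP_17a322_nt.BI.T1

/-!
The tower of two bundles of projective lines: definitions, and the heights of its points.
-/

set_option linter.unusedSectionVars false

universe u

namespace Pool.Agent.Lib.MP_17a322_nt.BI

open MvPolynomial Height NumberField
open Pool.Agent.Lib.MP_17a322_nt.EQ

section

variable {K : Type u} [Field K] {ι κ : Type}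

/-- The labels of the coordinates of the variety. -/
abbrev IV (ι κ : Type) : Type := I1 ι × (κ ⊕ ι × U2)

/-- The forms `q_s ^ r`. -/
noncomputable def φv (q : κ → MvPolynomial ι K) (r : ℕ) : κ → MvPolynomial (I1 ι) K :=
  fun s => sub (q s ^ r) (Sum.inl ())

/-- The forms `p_i ^ k w_l ^ j`. -/
noncomputable def ψv (i₀ : ι) (k j : ℕ) : ι × U2 → MvPolynomial (I1 ι) K :=
  fun z => sub (X z.1 ^ k) (Sum.inl ()) * X (i₀, z.2) ^ j

/-- The variety `Y`. -/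
noncomputable def JV (J : Ideal (MvPolynomial ι K)) (i₀ : ι) (q : κ → MvPolynomial ι K) (r k j : ℕ) :
    Ideal (MvPolynomial (IV ι κ) K) := bI (J1 J) (φv q r) (ψv i₀ k j)

/-- The labels of the equations of the two parts of the divisor. -/
abbrev IE (ι κ : Type) : Type := Ix (I1 ι) Unit (κ ⊕ ι × U2)

/-- The two parts of the divisor, `a₁ = 0` and `b₁ = 0`. -/
noncomputable def fv (x : Bool) : IE ι κ → MvPolynomial (IV ι κ) K := eqs 1 fun l => l.isLeft = x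

/-- The labels of the equations of the divisor. -/
abbrev IG (ι κ : Type) : Type := (I1 ι × κ) × (I1 ι × (ι × U2))

/-- The equations of the divisor `D`, the union of the disjoint divisors `a₁ = 0` and `b₁ = 0`. -/
noncomputable def gv : IG ι κ → MvPolynomial (IV ι κ) K :=
  fun z => X (z.1.1, Sum.inl z.1.2) * X (z.2.1, Sum.inr z.2.2)

theorem gv_hom (z : IG ι κ) : (gv z : MvPolynomial (IV ι κ) K).IsHomogeneous 2 :=
  (isHomogeneous_X K _).mul (isHomogeneous_X K _)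

end

section

variable {K L : Type u} [Field K] [Field L] [Algebra K L] {ι κ : Type} [Fintype ι]

/-- The second factor of the point of `Y`. -/
noncomputable def wv {K L : Type u} [Field K] [Field L] [Algebra K L] {ι κ : Type} (q : κ → MvPolynomial ι K)
    (i₀ : ι) (r k j : ℕ) (p : ι → L) (a b a₁ b₁ : L) : κ ⊕ ι × U2 → L :=
  bw (φv q r) (ψv i₀ k j) (y1 p a b) a₁ b₁

/-- The point of `Y`. -/
noncomputable def yv {K L : Type u} [Field K] [Field L] [Algebra K L] {ι κ : Type} (q : κ → MvPolynomial ι K)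
    (i₀ : ι) (r k j : ℕ) (p : ι → L) (a b a₁ b₁ : L) : IV ι κ → L :=
  sg (y1 p a b) (wv q i₀ r k j p a b a₁ b₁)

/-- The forms `φv` at the point of the first variety. -/
theorem eval_φv {q : κ → MvPolynomial ι K} {e : ℕ} (hq : ∀ s, (q s).IsHomogeneous e) (r : ℕ) (p : ι → L) (a b : L)
    (s : κ) : aeval (y1 p a b) (φv q r s) = (a ^ e) ^ r * aeval p (q s) ^ r := by
  have h : (fun i => y1 p a b (i, Sum.inl ())) = fun i => a * p i := by
    funext i
    exact mul_comm _ _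
  rw [φv, aeval_sub', h, map_pow, aeval_mul (hq s), mul_pow]

/-- The forms `ψv` at the point of the first variety. -/
theorem eval_ψv (i₀ : ι) (k j : ℕ) (p : ι → L) (a b : L) (z : ι × U2) :
    aeval (y1 p a b) (ψv (K := K) i₀ k j z) = (a ^ k * p i₀ ^ j) * (p z.1 ^ k * uu a b z.2 ^ j) := by
  rw [ψv, map_mul, aeval_sub', map_pow, map_pow, aeval_X, aeval_X]
  change (p z.1 * a) ^ k * (p i₀ * uu a b z.2) ^ j = _
  ring

end

section

variable {K L : Type u} [Field K] [Field L] [NumberField L] [Algebra K L] {ι κ : Type} [Fintype ι] [Fintype κ]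
  {q : κ → MvPolynomial ι K} {e : ℕ} {p : ι → L} {i₀ : ι} {a b a₁ b₁ : L}

theorem lh_φv (hq : ∀ s, (q s).IsHomogeneous e) (r : ℕ) (ha : a ≠ 0) :
    logHeight (fun s => aeval (y1 p a b) (φv q r s)) = r * logHeight fun s => aeval p (q s) := by
  have h : (fun s => aeval (y1 p a b) (φv q r s)) = fun s => (a ^ e) ^ r * ((fun s => aeval p (q s)) ^ r) s :=
    funext fun s => eval_φv hq r p a b s
  rw [h, lh_smul _ (pow_ne_zero _ (pow_ne_zero _ ha)), logHeight_pow]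

theorem lh_ψv (hp : p i₀ ≠ 0) (k j : ℕ) (ha : a ≠ 0) :
    logHeight (fun z => aeval (y1 p a b) (ψv (K := K) i₀ k j z)) = k * logHeight p + j * logHeight (uu a b) := by
  have h : (fun z => aeval (y1 p a b) (ψv (K := K) i₀ k j z)) = fun z : ι × U2 =>
      (a ^ k * p i₀ ^ j) * (fun z : ι × U2 => (p ^ k) z.1 * (uu a b ^ j) z.2) z :=
    funext fun z => eval_ψv i₀ k j p a b z
  have h1 : p ^ k ≠ 0 := Function.ne_iff.2 ⟨i₀, pow_ne_zero _ hp⟩
  have h2 : uu a b ^ j ≠ 0 := Function.ne_iff.2 ⟨Sum.inl (), pow_ne_zero _ ha⟩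
  rw [h, lh_smul _ (mul_ne_zero (pow_ne_zero _ ha) (pow_ne_zero _ hp)), logHeight_fun_mul_eq h1 h2, logHeight_pow,
    logHeight_pow]

theorem φv_ne (hq : ∀ s, (q s).IsHomogeneous e) (r : ℕ) (ha : a ≠ 0) (b : L) (hqp : ∃ s, aeval p (q s) ≠ 0) :
    ∃ s, aeval (y1 p a b) (φv q r s) ≠ 0 := by
  obtain ⟨s, hs⟩ := hqp
  refine ⟨s, ?_⟩
  rw [eval_φv hq]
  exact mul_ne_zero (pow_ne_zero _ (pow_ne_zero _ ha)) (pow_ne_zero _ hs)

theorem ψv_ne (hp : p i₀ ≠ 0) (k j : ℕ) (ha : a ≠ 0) (b : L) :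
    ∃ z, aeval (y1 p a b) (ψv (K := K) i₀ k j z) ≠ 0 := by
  refine ⟨(i₀, Sum.inl ()), ?_⟩
  rw [eval_ψv]
  exact mul_ne_zero (mul_ne_zero (pow_ne_zero _ ha) (pow_ne_zero _ hp)) (mul_ne_zero (pow_ne_zero _ hp)
    (pow_ne_zero _ ha))

theorem wv_ne (hq : ∀ s, (q s).IsHomogeneous e) (r k j : ℕ) (ha : a ≠ 0) (b : L) (ha₁ : a₁ ≠ 0) (b₁ : L)
    (hqp : ∃ s, aeval p (q s) ≠ 0) : wv q i₀ r k j p a b a₁ b₁ ≠ 0 :=
  bw_ne _ _ _ ha₁ (φv_ne hq r ha b hqp)

/-- The height of the point of `Y`. -/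
theorem lh_yv (hq : ∀ s, (q s).IsHomogeneous e) (hp : p i₀ ≠ 0) (r k j : ℕ) (ha : a ≠ 0) (b : L) (ha₁ : a₁ ≠ 0)
    (b₁ : L) (hqp : ∃ s, aeval p (q s) ≠ 0) :
    logHeight (yv q i₀ r k j p a b a₁ b₁) =
      logHeight p + logHeight (uu a b) + logHeight (wv q i₀ r k j p a b a₁ b₁) := by
  have hp0 : p ≠ 0 := fun h => hp (congrFun h i₀)
  rw [yv, lh_sg (y1_ne hp0 ha b) (wv_ne hq r k j ha b ha₁ b₁ hqp), lh_y1 hp0 ha b]

/-- The height with respect to the divisor. -/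
theorem hB_yv (hq : ∀ s, (q s).IsHomogeneous e) (hp : p i₀ ≠ 0) (r k j : ℕ) (ha : a ≠ 0) (b : L) (ha₁ : a₁ ≠ 0)
    (hb₁ : b₁ ≠ 0) (hqp : ∃ s, aeval p (q s) ≠ 0) :
    hB 2 (gv (K := K)) (yv q i₀ r k j p a b a₁ b₁) =
      (logHeight (wv q i₀ r k j p a b a₁ b₁) - r * logHeight fun s => aeval p (q s)) +
      (logHeight (wv q i₀ r k j p a b a₁ b₁) - (k * logHeight p + j * logHeight (uu a b))) := by
  have hp0 : p ≠ 0 := fun h => hp (congrFun h i₀)
  have hy1 := y1_ne hp0 ha b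
  have hA1 : (fun s => wv q i₀ r k j p a b a₁ b₁ (Sum.inl s)) ≠ 0 := by
    obtain ⟨s, hs⟩ := φv_ne hq r ha b hqp
    exact Function.ne_iff.2 ⟨s, mul_ne_zero ha₁ hs⟩
  have hB1 : (fun z => wv q i₀ r k j p a b a₁ b₁ (Sum.inr z)) ≠ 0 := by
    obtain ⟨z, hz⟩ := ψv_ne (K := K) hp k j ha b
    exact Function.ne_iff.2 ⟨z, mul_ne_zero hb₁ hz⟩
  have hA2 : logHeight (fun s => wv q i₀ r k j p a b a₁ b₁ (Sum.inl s)) =
      r * logHeight fun s => aeval p (q s) := by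
    rw [← lh_φv (b := b) hq r ha]
    exact lh_bw_inl _ _ _ ha₁
  have hB2 : logHeight (fun z => wv q i₀ r k j p a b a₁ b₁ (Sum.inr z)) =
      k * logHeight p + j * logHeight (uu a b) := by
    rw [← lh_ψv (K := K) (b := b) hp k j ha]
    exact lh_bw_inr _ _ _ hb₁
  have hg : (fun z => aeval (yv q i₀ r k j p a b a₁ b₁) (gv (K := K) z)) = fun z : IG ι κ =>
      sg (y1 p a b) (fun s => wv q i₀ r k j p a b a₁ b₁ (Sum.inl s)) z.1 *
        sg (y1 p a b) (fun z => wv q i₀ r k j p a b a₁ b₁ (Sum.inr z)) z.2 := by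
    funext z
    rw [gv, map_mul, aeval_X, aeval_X]
    rfl
  rw [hB, hg, logHeight_fun_mul_eq (sg_ne hy1 hA1) (sg_ne hy1 hB1), lh_sg hy1 hA1, lh_sg hy1 hB1, hA2, hB2, yv,
    lh_sg hy1 (wv_ne hq r k j ha b ha₁ b₁ hqp)]
  push_cast
  ring

/-- The height of the second factor is at least the height of its parts. -/
theorem wv_ge₁ (hq : ∀ s, (q s).IsHomogeneous e) (r k j : ℕ) (ha : a ≠ 0) (b : L) (ha₁ : a₁ ≠ 0) (b₁ : L) :
    r * logHeight (fun s => aeval p (q s)) ≤ logHeight (wv q i₀ r k j p a b a₁ b₁) := by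
  rw [← lh_φv (b := b) hq r ha]
  exact lh_bw_ge₁ _ _ _ ha₁

theorem wv_ge₂ (hp : p i₀ ≠ 0) (r k j : ℕ) (ha : a ≠ 0) (b : L) (a₁ : L) (hb₁ : b₁ ≠ 0) :
    k * logHeight p + j * logHeight (uu a b) ≤ logHeight (wv q i₀ r k j p a b a₁ b₁) := by
  rw [← lh_ψv (K := K) (b := b) hp k j ha]
  exact lh_bw_ge₂ _ _ _ hb₁

end

end Pool.Agent.Lib.MP_17a322_nt.BI
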