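import Pool.Agent.Lib.MP_17a322_nt.BI.V4
import Pool.Agent.Lib.MP_17a322_nt.BI.R1

/-!
The variety `Y` is smooth and its divisors meet transversally; it is rational if `X` is rational.
-/

set_option linter.unusedSectionVars false

universe u

namespace Pool.Agent.Lib.MP_17a322_nt.BI

open MvPolynomial
open Pool.Agent.Lib.MP_17a322_nt.EQ
open Pool.Agent.Lib.MP_17a322_nt.RAT (IsRat)

section

variable {K : Type u} [Field K] {ι κ : Type} [Fintype ι] [Fintype κ] {J : Ideal (MvPolynomial ι K)}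

/-- Powers. -/
theorem car_pow {g : κ → MvPolynomial ι K} (hg : Car J g) (r : ℕ) : Car J fun s => g s ^ r := by
  intro L _ _ p hp
  obtain ⟨s, u, hu, h⟩ := hg L p hp
  refine ⟨s, u ^ r, ?_, fun t => ?_⟩
  · rw [map_pow]
    exact pow_ne_zero _ hu
  · obtain ⟨a, ha, b, hb, hab⟩ := Submodule.mem_sup.1 (h t)
    obtain ⟨c, rfl⟩ := Ideal.mem_span_singleton'.1 hb
    have h1 : u ^ r * g t ^ r = ((a + c * g s) ^ r - (c * g s) ^ r) + c ^ r * g s ^ r := by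
      rw [← mul_pow, ← hab]
      ring
    rw [h1]
    refine Ideal.add_mem _ (Ideal.mem_sup_left ?_)
      (Ideal.mem_sup_right (Ideal.mul_mem_left _ _ (Ideal.mem_span_singleton_self _)))
    refine Ideal.mem_of_dvd _ (sub_dvd_pow_sub_pow (a + c * g s) (c * g s) r) ?_
    rwa [add_sub_cancel_right]

theorem φv_car (hJ : ∀ F ∈ J, ∀ i, homogeneousComponent i F ∈ J) {q : κ → MvPolynomial ι K} {e : ℕ}
    (hq : ∀ s, (q s).IsHomogeneous e) (hqc : Car J q) (r : ℕ) : Car (J1 J) (φv q r) :=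
  car_sub (φ := o1) (ψ := o1) hJ (fun s => (hq s).pow r) (car_pow hqc r) (Sum.inl ())

theorem ψv_car (hJ : ∀ F ∈ J, ∀ i, homogeneousComponent i F ∈ J) (i₀ : ι) (k j : ℕ) :
    Car (J1 J) (ψv i₀ k j) :=
  car_mul (g := fun i : ι => sub (X i ^ k) (Sum.inl () : U2)) (g' := fun l : U2 => X (i₀, l) ^ j)
    (car_sub (φ := o1) (ψ := o1) hJ (fun i => (isHomogeneous_X K i).pow k) (car_coord J k) (Sum.inl ()))
    (car_col J o1 o1 i₀ j)

theorem φv_notMem (hJ : J.IsPrime) {q : κ → MvPolynomial ι K} {e : ℕ} (hq : ∀ s, (q s).IsHomogeneous e) (r : ℕ)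
    {s : κ} (hs : q s ∉ J) : φv q r s ∉ J1 J :=
  sub_notMem hJ ((hq s).pow r) (fun h => hs (hJ.mem_of_pow_mem r h)) (by exact one_notMem hJ)

theorem ψv_notMem (hJ : J.IsPrime) {i₀ : ι} (hi : (X i₀ : MvPolynomial ι K) ∉ J) (k j : ℕ) :
    ψv i₀ k j (i₀, Sum.inl ()) ∉ J1 J := fun h => by
  have hp := bI_prime hJ (o1 (ι := ι) (K := K)) o1
  rcases hp.mem_or_mem h with h | h
  · exact sub_notMem hJ ((isHomogeneous_X K i₀).pow k) (fun h => hi (hJ.mem_of_pow_mem k h))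
      (by exact one_notMem hJ) h
  · exact J1_X hJ hi (Sum.inl ()) (hp.mem_of_pow_mem j h)

theorem JV_prime (hJ : J.IsPrime) (i₀ : ι) (q : κ → MvPolynomial ι K) (r k j : ℕ) : (JV J i₀ q r k j).IsPrime :=
  bI_prime (bI_prime hJ o1 o1) _ _

theorem JV_homog (J : Ideal (MvPolynomial ι K)) (i₀ : ι) (q : κ → MvPolynomial ι K) (r k j : ℕ) :
    ∀ F ∈ JV J i₀ q r k j, ∀ i, homogeneousComponent i F ∈ JV J i₀ q r k j := bI_homog (J1 J) _ _

private theorem v1_inr (x : Bool) (z : I1 ι) (l : κ ⊕ ι × U2) (t : IV ι κ) :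
    (fv x (Sum.inr ((z, l), t)) : MvPolynomial (IV ι κ) K) = if l.isLeft = x then X (z, l) else 0 := by
  change (if l.isLeft = x then X (z, l) * X t ^ (1 - 1) else 0) = _
  rw [Nat.sub_self, pow_zero, mul_one]

/-- One part of the divisor. -/
private theorem v1_part {I : Ideal (MvPolynomial (IV ι κ) K)} {L : Type u} [Field L] [Algebra K L] {p : IV ι κ → L}
    (x : Bool) {s : IE ι κ} (h : ∃ u : MvPolynomial (IV ι κ) K, aeval p u ≠ 0 ∧
      ∀ j, u * fv x j ∈ I ⊔ Ideal.span {fv x s})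
    (hd : (dif p (fv x s : MvPolynomial (IV ι κ) K)).domRestrict (Tan I p) ≠ 0) :
    ∃ (z : I1 ι) (l : κ ⊕ ι × U2), l.isLeft = x ∧
      (∃ u : MvPolynomial (IV ι κ) K, aeval p u ≠ 0 ∧ ∀ (z₁ : I1 ι) (l₁ : κ ⊕ ι × U2), l₁.isLeft = x →
        u * X (z₁, l₁) ∈ I ⊔ Ideal.span {X (z, l)}) ∧
      (dif p (X (z, l) : MvPolynomial (IV ι κ) K)).domRestrict (Tan I p) ≠ 0 := by
  have h0 : fv x s ≠ (0 : MvPolynomial (IV ι κ) K) := fun h0 => hd (by
    ext y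
    rw [h0]
    change dif p 0 y.1 = 0
    rw [dif_zero])
  rcases s with s | ⟨⟨z, l⟩, t⟩
  · exact absurd rfl h0
  · rw [v1_inr] at h0
    by_cases hl : l.isLeft = x
    · have h1 : (fv x (Sum.inr ((z, l), t)) : MvPolynomial (IV ι κ) K) = X (z, l) := by rw [v1_inr, if_pos hl]
      rw [h1] at h hd
      obtain ⟨u, hu, h⟩ := h
      refine ⟨z, l, hl, ⟨u, hu, fun z₁ l₁ hl₁ => ?_⟩, hd⟩
      have h2 := h (Sum.inr ((z₁, l₁), t))
      rwa [v1_inr, if_pos hl₁] at h2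
    · exact absurd (if_neg hl) h0

/-- `Y` is smooth and its divisors meet transversally. -/
private theorem JV_snc2 [CharZero K] {n : ℕ} (hJ : Smooth J n) {i₀ : ι} (hi : (X i₀ : MvPolynomial ι K) ∉ J)
    {q : κ → MvPolynomial ι K} {e : ℕ} (hq : ∀ s, (q s).IsHomogeneous e) (hqc : Car J q) (hs : ∃ s, q s ∉ J)
    (r k j : ℕ) : Smooth (JV J i₀ q r k j) (n + 2) ∧ Snc (JV J i₀ q r k j) 1 (fv (ι := ι) (κ := κ)) := by
  obtain ⟨s, hs⟩ := hs
  obtain ⟨h1, h2⟩ := bI_snc (J1_smooth hJ)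
    (snc_empty (J1 J) one_pos (fun x : Empty => fun _ : Unit => (x.elim : MvPolynomial (I1 ι) K))) (φv_hom hq r)
    (ψv_hom i₀ k j) (φv_car hJ.homog hq hqc r) (ψv_car hJ.homog i₀ k j) ⟨s, φv_notMem hJ.prime hq r hs⟩
    ⟨(i₀, Sum.inl ()), ψv_notMem hJ.prime hi k j⟩
  exact ⟨h1, snc_comp h2 Sum.inr Sum.inr_injective⟩

/-- The divisor is smooth. -/
theorem JV_snc [CharZero K] {n : ℕ} (hJ : Smooth J n) {i₀ : ι} (hi : (X i₀ : MvPolynomial ι K) ∉ J)
    {q : κ → MvPolynomial ι K} {e : ℕ} (hq : ∀ s, (q s).IsHomogeneous e) (hqc : Car J q) (hs : ∃ s, q s ∉ J)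
    (r k j : ℕ) : Smooth (JV J i₀ q r k j) (n + 2) ∧
      Snc (JV J i₀ q r k j) 2 (fun _ : Unit => gv (ι := ι) (κ := κ)) := by
  obtain ⟨h1, h2⟩ := JV_snc2 hJ hi hq hqc hs r k j
  refine ⟨h1, ⟨two_pos, fun _ z => gv_hom z, fun L _ _ p hp => ?_⟩⟩
  obtain ⟨s, hs, hind⟩ := h2.trans L p hp
  by_cases hv : ∀ z : IG ι κ, aeval p (gv (K := K) z) = 0
  swap
  · push Not at hv
    obtain ⟨z, hz⟩ := hv
    refine ⟨fun _ => z, fun _ h => absurd (h z) hz, ?_⟩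
    have : IsEmpty {b : Unit // ∀ j : IG ι κ, aeval p (gv (K := K) j) = 0} := ⟨fun b => hz (b.2 z)⟩
    exact linearIndependent_empty_type
  -- one part of the divisor contains `p`
  have key : ∀ x : Bool, (∀ z (l : κ ⊕ ι × U2), l.isLeft = x → p (z, l) = 0) →
      ∃ (z : I1 ι) (l : κ ⊕ ι × U2), l.isLeft = x ∧
        (∃ u : MvPolynomial (IV ι κ) K, aeval p u ≠ 0 ∧ ∀ (z₁ : I1 ι) (l₁ : κ ⊕ ι × U2), l₁.isLeft = x →
          u * X (z₁, l₁) ∈ JV J i₀ q r k j ⊔ Ideal.span {X (z, l)}) ∧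
        (dif p (X (z, l) : MvPolynomial (IV ι κ) K)).domRestrict (Tan (JV J i₀ q r k j) p) ≠ 0 := by
    intro x hx
    have hx' : ∀ j, aeval p (fv (K := K) x j) = 0 := by
      rintro (j | ⟨⟨z, l⟩, t⟩)
      · exact map_zero _
      · rw [v1_inr]
        split_ifs with hl
        · rw [aeval_X]
          exact hx z l hl
        · exact map_zero _
    exact v1_part x (hs x hx') (hind.ne_zero (⟨x, hx'⟩ : {b : Bool // ∀ j, aeval p (fv (K := K) b j) = 0}))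
  -- the divisor at `p`
  have fin : ∀ t : IG ι κ, (∃ u : MvPolynomial (IV ι κ) K, aeval p u ≠ 0 ∧ ∀ i,
      u * gv i ∈ JV J i₀ q r k j ⊔ Ideal.span {gv t}) →
      (dif p (gv t : MvPolynomial (IV ι κ) K)).domRestrict (Tan (JV J i₀ q r k j) p) ≠ 0 →
      ∃ s : Unit → IG ι κ, (∀ b : Unit, (∀ i : IG ι κ, aeval p (gv (K := K) i) = 0) →
        ∃ u : MvPolynomial (IV ι κ) K, aeval p u ≠ 0 ∧ ∀ i, u * gv i ∈ JV J i₀ q r k j ⊔ Ideal.span {gv (s b)}) ∧
        LinearIndependent L fun b : {b : Unit // ∀ i : IG ι κ, aeval p (gv (K := K) i) = 0} =>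
          (dif p (gv (s b) : MvPolynomial (IV ι κ) K)).domRestrict (Tan (JV J i₀ q r k j) p) := by
    intro t hu hd
    refine ⟨fun _ => t, fun _ _ => hu, ?_⟩
    have : Subsingleton {b : Unit // ∀ i : IG ι κ, aeval p (gv (K := K) i) = 0} :=
      ⟨fun a b => Subtype.ext rfl⟩
    exact (linearIndependent_subsingleton_index_iff _).2 fun _ => hd
  have hval : ∀ (z : I1 ι) (c : κ) (z' : I1 ι) (t : ι × U2), p (z, Sum.inl c) * p (z', Sum.inr t) = 0 :=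
    fun z c z' t => by
      have h := hv ((z, c), (z', t))
      rwa [gv, map_mul, aeval_X, aeval_X] at h
  obtain ⟨⟨z₀, l₀⟩, h₀⟩ := Function.ne_iff.1 hp.1
  change p (z₀, l₀) ≠ 0 at h₀
  rcases l₀ with c₀ | t₀
  · -- the part `b₁ = 0`
    obtain ⟨z, l, hl, ⟨u, hu, hmem⟩, hd⟩ := key false (by
      rintro z (l | l) hl
      · exact absurd hl (by simp)
      · exact (mul_eq_zero.1 (hval z₀ c₀ z l)).resolve_left h₀)
    rcases l with l | l
    · exact absurd hl (by simp)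
    have hpz : p (z, Sum.inr l) = 0 := (mul_eq_zero.1 (hval z₀ c₀ z l)).resolve_left h₀
    refine fin ((z₀, c₀), (z, l)) ⟨u * X (z₀, Sum.inl c₀), ?_, ?_⟩ ?_
    · rw [map_mul, aeval_X]
      exact mul_ne_zero hu h₀
    · rintro ⟨⟨z₁, c₁⟩, ⟨z₂, t₂⟩⟩
      obtain ⟨a, ha, b, hb, hab⟩ := Submodule.mem_sup.1 (hmem z₂ (Sum.inr t₂) rfl)
      obtain ⟨c, rfl⟩ := Ideal.mem_span_singleton'.1 hb
      have e : u * X (z₀, Sum.inl c₀) * gv ((z₁, c₁), (z₂, t₂)) =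
          a * (X (z₀, Sum.inl c₀) * X (z₁, Sum.inl c₁)) +
            (c * X (z₁, Sum.inl c₁)) * gv ((z₀, c₀), (z, l)) := by
        change u * X (z₀, Sum.inl c₀) * (X (z₁, Sum.inl c₁) * X (z₂, Sum.inr t₂)) =
          a * (X (z₀, Sum.inl c₀) * X (z₁, Sum.inl c₁)) +
            (c * X (z₁, Sum.inl c₁)) * (X (z₀, Sum.inl c₀) * X (z, Sum.inr l))
        linear_combination (-(X (z₀, Sum.inl c₀) * X (z₁, Sum.inl c₁)) : MvPolynomial (IV ι κ) K) * hab
      rw [e]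
      exact Ideal.add_mem _ (Ideal.mem_sup_left (Ideal.mul_mem_right _ _ ha))
        (Ideal.mem_sup_right (Ideal.mul_mem_left _ _ (Ideal.mem_span_singleton_self _)))
    · intro h
      apply hd
      ext y
      have h1 := congrArg (fun f => f y) h
      change dif p (X (z₀, Sum.inl c₀) * X (z, Sum.inr l)) y.1 = 0 at h1
      change dif p (X (z, Sum.inr l)) y.1 = 0
      rw [dif_mul, aeval_X, aeval_X, hpz] at h1
      simpa [h₀] using h1
  · -- the part `a₁ = 0`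
    obtain ⟨z, l, hl, ⟨u, hu, hmem⟩, hd⟩ := key true (by
      rintro z (l | l) hl
      · exact (mul_eq_zero.1 (hval z l z₀ t₀)).resolve_right h₀
      · exact absurd hl (by simp))
    rcases l with l | l
    swap
    · exact absurd hl (by simp)
    have hpz : p (z, Sum.inl l) = 0 := (mul_eq_zero.1 (hval z l z₀ t₀)).resolve_right h₀
    refine fin ((z, l), (z₀, t₀)) ⟨u * X (z₀, Sum.inr t₀), ?_, ?_⟩ ?_
    · rw [map_mul, aeval_X]
      exact mul_ne_zero hu h₀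
    · rintro ⟨⟨z₁, c₁⟩, ⟨z₂, t₂⟩⟩
      obtain ⟨a, ha, b, hb, hab⟩ := Submodule.mem_sup.1 (hmem z₁ (Sum.inl c₁) rfl)
      obtain ⟨c, rfl⟩ := Ideal.mem_span_singleton'.1 hb
      have e : u * X (z₀, Sum.inr t₀) * gv ((z₁, c₁), (z₂, t₂)) =
          a * (X (z₀, Sum.inr t₀) * X (z₂, Sum.inr t₂)) +
            (c * X (z₂, Sum.inr t₂)) * gv ((z, l), (z₀, t₀)) := by
        change u * X (z₀, Sum.inr t₀) * (X (z₁, Sum.inl c₁) * X (z₂, Sum.inr t₂)) =
          a * (X (z₀, Sum.inr t₀) * X (z₂, Sum.inr t₂)) +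
            (c * X (z₂, Sum.inr t₂)) * (X (z, Sum.inl l) * X (z₀, Sum.inr t₀))
        linear_combination (-(X (z₀, Sum.inr t₀) * X (z₂, Sum.inr t₂)) : MvPolynomial (IV ι κ) K) * hab
      rw [e]
      exact Ideal.add_mem _ (Ideal.mem_sup_left (Ideal.mul_mem_right _ _ ha))
        (Ideal.mem_sup_right (Ideal.mul_mem_left _ _ (Ideal.mem_span_singleton_self _)))
    · intro h
      apply hd
      ext y
      have h1 := congrArg (fun f => f y) h
      change dif p (X (z, Sum.inl l) * X (z₀, Sum.inr t₀)) y.1 = 0 at h1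
      change dif p (X (z, Sum.inl l)) y.1 = 0
      rw [dif_mul, aeval_X, aeval_X, hpz] at h1
      simpa [h₀] using h1

/-- `Y` is rational if `X` is rational. -/
theorem JV_rat (hJ : J.IsPrime) (hr : IsRat J) {i₀ : ι} (hi : (X i₀ : MvPolynomial ι K) ∉ J)
    {q : κ → MvPolynomial ι K} {e : ℕ} (hq : ∀ s, (q s).IsHomogeneous e) (hs : ∃ s, q s ∉ J) (r k j : ℕ) :
    IsRat (JV J i₀ q r k j) := by
  obtain ⟨s, hs⟩ := hs
  exact bI_rat (φv_hom hq r) (ψv_hom i₀ k j) ⟨s, φv_notMem hJ hq r hs⟩ ⟨(i₀, Sum.inl ()), ψv_notMem hJ hi k j⟩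
    (bI_rat o1_hom o1_hom ⟨(), one_notMem hJ⟩ ⟨(), one_notMem hJ⟩ hr)

end

end Pool.Agent.Lib.MP_17a322_nt.BI
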