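import Pool.Agent.Lib.MP_17a322_nt.BI.T0
import Pool.Agent.Lib.MP_17a322_nt.BL.H2
import Pool.Agent.Lib.MP_17a322_nt.VJ.F2

/-!
The choice of the numbers.
-/

universe u

namespace Pool.Agent.Lib.MP_17a322_nt.BI

open Height NumberField

section

variable {K : Type u} [Field K] [NumberField K]

private theorem v3_nat (n : ℕ) : house ((n : K)) = n := by
  have h := house_intCast (K := K) (n : ℤ)
  simpa using h

private theorem v3_mul {a b : K} {s t : ℝ} (hs : 0 ≤ s) (ha : house a ≤ s) (hb : house b ≤ t) :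
    house (a * b) ≤ s * t :=
  (house_mul_le a b).trans (mul_le_mul ha hb (house_nonneg b) hs)

private theorem v3_pow {a : K} {s : ℝ} (n : ℕ) (ha : house a ≤ s) : house (a ^ n) ≤ s ^ n :=
  (house_pow_le a n).trans (pow_le_pow_left₀ (house_nonneg a) ha n)

omit [NumberField K] in
theorem v3_uu_int (a b : ℕ) (x : U2) : IsIntegral ℤ (uu (L := K) (a : K) (b : K) x) := by
  rcases x with x | x
  · exact isIntegral_natCast a
  · exact isIntegral_natCast b

theorem v3_uu_house (a b : ℕ) {N : ℝ} (ha : (a : ℝ) ≤ N) (hb : (b : ℝ) ≤ N) (x : U2) :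
    house (uu (L := K) (a : K) (b : K) x) ≤ N := by
  rcases x with x | x
  · exact (v3_nat (K := K) a).le.trans ha
  · exact (v3_nat (K := K) b).le.trans hb

private theorem v3_int (v : FinitePlace K) {x : K} (hx : IsIntegral ℤ x) : v x ≤ 1 := by
  obtain ⟨y, rfl⟩ : ∃ y : 𝓞 K, (y : K) = x := ⟨⟨x, hx⟩, rfl⟩
  rw [← FinitePlace.norm_embedding_eq v]
  exact FinitePlace.norm_le_one K v.maximalIdeal y

/-- The height of the point `[x : x y + 1]` of the line. -/
theorem v3_cop (x y : ℕ) (hx : 1 ≤ x) : Module.finrank ℚ K * Real.log ((x * y + 1 : ℕ) : ℝ) ≤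
    logHeight (uu (L := K) (x : K) ((x * y + 1 : ℕ) : K)) := by
  have h1 := BL.lh_ge (K := K) (uu (L := K) 1 ((x * y + 1 : ℕ) : K)) (Sum.inl ()) (Sum.inr ()) (x * y + 1)
    (by omega) rfl rfl
  refine h1.trans (BL.lh_dom (uu (L := K) (x : K) ((x * y + 1 : ℕ) : K)) (uu (L := K) 1 ((x * y + 1 : ℕ) : K)) 1
    one_ne_zero ?_ (fun v j => ?_) (fun v j => ?_))
  · exact Function.ne_iff.2 ⟨Sum.inl (), one_ne_zero⟩
  · rcases j with j | j
    · refine ⟨Sum.inl (), ?_⟩
      change v (1 * 1) ≤ v (x : K)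
      rw [mul_one, map_one, InfinitePlace.map_natCast]
      exact_mod_cast hx
    · exact ⟨Sum.inr (), by rw [one_mul]; exact le_rfl⟩
  · rcases j with j | j
    · by_contra hcon
      push Not at hcon
      have h2 : v (x : K) < v (1 * 1) := hcon (Sum.inl ())
      have h3 : v ((x * y + 1 : ℕ) : K) < v (1 * 1) := hcon (Sum.inr ())
      rw [mul_one, map_one] at h2 h3
      have h4 : v ((x : K) * (-(y : K))) < 1 := by
        rw [map_mul]
        have h5 := v3_int v (isIntegral_natCast (R := ℤ) (B := K) y).neg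
        exact (mul_le_of_le_one_right (apply_nonneg v _) h5).trans_lt h2
      have h6 : v (((x * y + 1 : ℕ) : K) + (x : K) * (-(y : K))) ≤
          max (v ((x * y + 1 : ℕ) : K)) (v ((x : K) * (-(y : K)))) := FinitePlace.add_le v _ _
      have h7 : ((x * y + 1 : ℕ) : K) + (x : K) * (-(y : K)) = 1 := by
        push_cast
        ring
      rw [h7, map_one] at h6
      exact absurd h6 (not_le.2 (max_lt h3 h4))
    · exact ⟨Sum.inr (), by rw [one_mul]; exact le_rfl⟩

end

/-- The choice of the numbers. -/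
theorem nums2 (K : Type u) [Field K] [NumberField K] (r k j : ℕ) (hj : 1 ≤ j) :
    ∃ C : ℝ, ∀ (ι κ : Type) [Fintype ι] [Fintype κ] (p : ι → K) (Q : κ → K), p ≠ 0 → Q ≠ 0 →
      0 ≤ r * logHeight Q - k * logHeight p →
      ∃ (V : ℕ) (A₁ A₂ : K),
        Real.exp ((r * logHeight Q - k * logHeight p) / (2 * (j * Module.finrank ℚ K))) ≤ V ∧ 1 ≤ V ∧
        A₁ ≠ 0 ∧ A₂ ≠ 0 ∧ ∀ i i' : ℕ, i ≤ V → i' ≤ V →
        logHeight (Sum.elim (fun s => A₁ * Q s ^ r)
          fun z : ι × U2 => A₂ * (p z.1 ^ k *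
            uu (L := K) ((V + i : ℕ) : K) (((V + i) * (V + i') + 1 : ℕ) : K) z.2 ^ j)) ≤ r * logHeight Q + C ∧
        r * logHeight Q - k * logHeight p ≤
          j * logHeight (uu (L := K) ((V + i : ℕ) : K) (((V + i) * (V + i') + 1 : ℕ) : K)) := by
  obtain ⟨C0, hC0, hsc⟩ := VJ.exists_scale K
  set d : ℕ := Module.finrank ℚ K with hd
  have hd0 : 0 < d := Module.finrank_pos
  have hdR : (0 : ℝ) < d := by exact_mod_cast hd0
  have hjR : (0 : ℝ) < j := by exact_mod_cast hj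
  set A : ℝ := C0 ^ r * C0 ^ k * 17 ^ j with hA
  have hA1 : 1 ≤ A := one_le_mul_of_one_le_of_one_le (one_le_mul_of_one_le_of_one_le (one_le_pow₀ hC0)
    (one_le_pow₀ hC0)) (one_le_pow₀ (by norm_num))
  refine ⟨d * Real.log A, fun ι κ _ _ p Q hp hQ hB => ?_⟩
  obtain ⟨l, hl0, hl⟩ := hsc ι p hp
  obtain ⟨μ, hμ0, hμ⟩ := hsc κ Q hQ
  set P : ℝ := logHeight p with hP
  set H : ℝ := logHeight Q with hH
  have hP0 : 0 ≤ P := logHeight_nonneg _
  have hH0 : 0 ≤ H := logHeight_nonneg _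
  set G : ℝ := r * H - k * P with hG
  have hG0 : 0 ≤ G := hB
  have hjd : (0 : ℝ) < 2 * (j * d) := by positivity
  set E : ℝ := Real.exp (G / (2 * (j * d))) with hE
  have hE1 : 1 ≤ E := Real.one_le_exp (by positivity)
  have hE2 : (E ^ 2) ^ j = Real.exp (G / d) := by
    rw [← pow_mul, hE, ← Real.exp_nat_mul]
    congr 1
    push_cast
    field_simp
  have hE3 : j * (d * Real.log (E ^ 2)) = G := by
    rw [Real.log_pow, hE, Real.log_exp]
    push_cast
    field_simp
  set V : ℕ := ⌈E⌉₊ with hV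
  have hV1 : E ≤ V := Nat.le_ceil _
  have hV2 : (V : ℝ) < E + 1 := Nat.ceil_lt_add_one (by linarith)
  have hV0 : 1 ≤ V := by
    have : (1 : ℝ) ≤ V := hE1.trans hV1
    exact_mod_cast this
  refine ⟨V, μ ^ r, l ^ k, hV1, hV0, pow_ne_zero _ hμ0, pow_ne_zero _ hl0, fun i i' hi hi' => ?_⟩
  have hiR : (i : ℝ) ≤ V := by exact_mod_cast hi
  have hiR' : (i' : ℝ) ≤ V := by exact_mod_cast hi'
  have hi0 : (0 : ℝ) ≤ i := Nat.cast_nonneg _
  have hi0' : (0 : ℝ) ≤ i' := Nat.cast_nonneg _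
  have hVi : ((V + i : ℕ) : ℝ) ≤ 4 * E := by
    push_cast
    linarith
  have hVi' : ((V + i' : ℕ) : ℝ) ≤ 4 * E := by
    push_cast
    linarith
  have hEE : E ≤ E ^ 2 := by nlinarith
  have hx1 : ((V + i : ℕ) : ℝ) ≤ 17 * E ^ 2 := by nlinarith
  have hx2 : (((V + i) * (V + i') + 1 : ℕ) : ℝ) ≤ 17 * E ^ 2 := by
    push_cast at hVi hVi' ⊢
    have h1 : (V + i : ℝ) * (V + i') ≤ (4 * E) * (4 * E) :=
      mul_le_mul hVi hVi' (by positivity) (by linarith)
    nlinarith
  have hx3 : E ^ 2 ≤ (((V + i) * (V + i') + 1 : ℕ) : ℝ) := by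
    push_cast
    have h1 : E * E ≤ (V + i : ℝ) * (V + i') := mul_le_mul (by linarith) (by linarith) (by linarith) (by linarith)
    nlinarith
  set W : κ ⊕ ι × U2 → K := Sum.elim (fun s => μ ^ r * Q s ^ r)
    fun z : ι × U2 => l ^ k * (p z.1 ^ k *
      uu (L := K) ((V + i : ℕ) : K) (((V + i) * (V + i') + 1 : ℕ) : K) z.2 ^ j) with hW
  have hT : logHeight W ≤ d * Real.log A + r * H := by
    have e1 : 1 ≤ Real.exp (r * H / d) := Real.one_le_exp (by positivity)
    have h1 := BL.lh_le (K := K) W (fun t => ?_) (A * Real.exp (r * H / d))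
      (one_le_mul_of_one_le_of_one_le hA1 e1) (fun t => ?_)
    · rw [Real.log_mul (by linarith) (by linarith), Real.log_exp, ← hd, mul_add, mul_div_cancel₀ _ hdR.ne'] at h1
      exact h1
    · rcases t with t | t
      · change IsIntegral ℤ (μ ^ r * Q t ^ r)
        rw [← mul_pow]
        exact (hμ t).1.pow r
      · change IsIntegral ℤ (l ^ k * (p t.1 ^ k * _))
        rw [← mul_assoc, ← mul_pow]
        exact ((hl t.1).1.pow k).mul ((v3_uu_int _ _ t.2).pow j)
    · rcases t with t | t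
      · change house (μ ^ r * Q t ^ r) ≤ _
        rw [← mul_pow]
        refine (v3_pow r (hμ t).2).trans ?_
        rw [mul_pow, ← Real.exp_nat_mul]
        have e2 : (r : ℝ) * (H / d) = r * H / d := by ring
        rw [e2, hA, mul_assoc (C0 ^ r), mul_assoc (C0 ^ r)]
        refine mul_le_mul_of_nonneg_left ?_ (by positivity)
        exact le_mul_of_one_le_left (Real.exp_pos _).le
          (one_le_mul_of_one_le_of_one_le (one_le_pow₀ hC0) (one_le_pow₀ (by norm_num)))
      · change house (l ^ k * (p t.1 ^ k * _)) ≤ _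
        rw [← mul_assoc, ← mul_pow]
        refine (v3_mul (by positivity) (v3_pow k (hl t.1).2) (v3_pow j (v3_uu_house _ _ hx1 hx2 t.2))).trans ?_
        rw [mul_pow, mul_pow, hE2, ← Real.exp_nat_mul]
        have e2 : Real.exp (k * (P / d)) * Real.exp (G / d) = Real.exp (r * H / d) := by
          rw [← Real.exp_add]
          congr 1
          rw [hG]
          ring
        have e3 : C0 ^ k * Real.exp (k * (P / d)) * (17 ^ j * Real.exp (G / d)) =
            C0 ^ k * 17 ^ j * Real.exp (r * H / d) := by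
          rw [← e2]
          ring
        rw [e3, hA, mul_assoc (C0 ^ r), mul_assoc (C0 ^ r)]
        exact le_mul_of_one_le_left (by positivity) (one_le_pow₀ hC0)
  have hlow : G ≤ j * logHeight (uu (L := K) ((V + i : ℕ) : K) (((V + i) * (V + i') + 1 : ℕ) : K)) := by
    have h1 := v3_cop (K := K) (V + i) (V + i') (by omega)
    rw [← hE3]
    refine mul_le_mul_of_nonneg_left (le_trans ?_ h1) hjR.le
    exact mul_le_mul_of_nonneg_left (Real.log_le_log (by positivity) hx3) hdR.le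
  exact ⟨by linarith, hlow⟩

/-- The choice of the numbers: the constant `C` does not depend on `R`. -/
theorem nums (K : Type u) [Field K] [NumberField K] (r k j : ℕ) (hj : 1 ≤ j) :
    ∃ C : ℝ, ∀ R : ℕ, ∃ B : ℝ, ∀ (ι κ : Type) [Fintype ι] [Fintype κ] (p : ι → K) (Q : κ → K), p ≠ 0 → Q ≠ 0 →
      B ≤ r * logHeight Q - k * logHeight p →
      ∃ (V : ℕ) (A₁ A₂ : K), 1 ≤ V ∧ A₁ ≠ 0 ∧ A₂ ≠ 0 ∧ ∀ i i' : ℕ, i ≤ R → i' ≤ R →
        logHeight (Sum.elim (fun s => A₁ * Q s ^ r)
          fun z : ι × U2 => A₂ * (p z.1 ^ k *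
            uu (L := K) ((V + i : ℕ) : K) (((V + i) * (V + i') + 1 : ℕ) : K) z.2 ^ j)) ≤ r * logHeight Q + C ∧
        logHeight (Sum.elim (fun s => A₁ * Q s ^ r)
          fun z : ι × U2 => A₂ * (p z.1 ^ k *
            uu (L := K) ((V + i : ℕ) : K) (((V + i) * (V + i') + 1 : ℕ) : K) z.2 ^ j)) ≤
          k * logHeight p + j * logHeight (uu (L := K) ((V + i : ℕ) : K) (((V + i) * (V + i') + 1 : ℕ) : K)) + C := by
  obtain ⟨C, hC⟩ := nums2 K r k j hj
  have hd0 : (0 : ℝ) < Module.finrank ℚ K := Nat.cast_pos.2 Module.finrank_pos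
  have hj0 : (0 : ℝ) < j := by exact_mod_cast hj
  have hjd : (0 : ℝ) < 2 * (j * Module.finrank ℚ K) := by positivity
  refine ⟨C, fun R => ⟨max 0 (2 * (j * Module.finrank ℚ K) * Real.log R), fun ι κ _ _ p Q hp hQ hB => ?_⟩⟩
  obtain ⟨V, A₁, A₂, hV, hV1, hA₁, hA₂, h⟩ := hC ι κ p Q hp hQ ((le_max_left _ _).trans hB)
  have hRV : R ≤ V := by
    rcases Nat.eq_zero_or_pos R with h0 | h0
    · rw [h0]
      exact Nat.zero_le _
    · have hR0 : (0 : ℝ) < R := by exact_mod_cast h0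
      have h1 : (R : ℝ) ≤ V := by
        refine le_trans ?_ hV
        rw [← Real.log_le_iff_le_exp hR0, le_div_iff₀ hjd, mul_comm]
        exact (le_max_right _ _).trans hB
      exact_mod_cast h1
  refine ⟨V, A₁, A₂, hV1, hA₁, hA₂, fun i i' hi hi' => ?_⟩
  obtain ⟨h1, h2⟩ := h i i' (hi.trans hRV) (hi'.trans hRV)
  exact ⟨h1, by linarith⟩

end Pool.Agent.Lib.MP_17a322_nt.BI
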