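import Pool.Agent.Lib.MP_17a322_nt.BI.Y6
import Pool.Agent.Lib.MP_17a322_nt.BI.V1

/-!
Many points of the product with the line over a point of a variety, with a given height on the line.
-/

set_option linter.unusedSectionVars false

universe u

namespace Pool.Agent.Lib.MP_17a322_nt.BI

open MvPolynomial Height NumberField
open Pool.Agent.Lib.MP_17a322_nt.EQ

/-- The heights of the points `(x, x y + 1)` with `x`, `y` in `[V, 2 V]`. -/
theorem w1_num (K : Type u) [Field K] [NumberField K] {t : ℝ} (ht : 0 ≤ t) :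
    ∃ V : ℕ, Real.exp (t / (2 * Module.finrank ℚ K)) ≤ V ∧ 1 ≤ V ∧ ∀ i i' : ℕ, i ≤ V → i' ≤ V →
      t ≤ logHeight (uu (L := K) ((V + i : ℕ) : K) (((V + i) * (V + i') + 1 : ℕ) : K)) ∧
      logHeight (uu (L := K) ((V + i : ℕ) : K) (((V + i) * (V + i') + 1 : ℕ) : K)) ≤
        t + Module.finrank ℚ K * Real.log 17 := by
  set d : ℕ := Module.finrank ℚ K with hd
  have hd0 : 0 < d := Module.finrank_pos
  have hdR : (0 : ℝ) < d := by exact_mod_cast hd0
  set E : ℝ := Real.exp (t / (2 * d)) with hE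
  have hE1 : 1 ≤ E := Real.one_le_exp (by positivity)
  have hE3 : d * Real.log (E ^ 2) = t := by
    rw [Real.log_pow, hE, Real.log_exp]
    push_cast
    field_simp
  set V : ℕ := ⌈E⌉₊ with hV
  have hV1 : E ≤ V := Nat.le_ceil _
  have hV2 : (V : ℝ) < E + 1 := Nat.ceil_lt_add_one (by linarith)
  have hV0 : 1 ≤ V := by
    have : (1 : ℝ) ≤ V := hE1.trans hV1
    exact_mod_cast this
  refine ⟨V, hV1, hV0, fun i i' hi hi' => ?_⟩
  have hiR : (i : ℝ) ≤ V := by exact_mod_cast hi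
  have hiR' : (i' : ℝ) ≤ V := by exact_mod_cast hi'
  have hi0 : (0 : ℝ) ≤ i := Nat.cast_nonneg _
  have hi0' : (0 : ℝ) ≤ i' := Nat.cast_nonneg _
  have hVi : ((V + i : ℕ) : ℝ) ≤ 4 * E := by
    push_cast
    linarith
  have hVi' : ((V + i' : ℕ) : ℝ) ≤ 4 * E := by
    push_cast
    linarith
  have hEE : E ≤ E ^ 2 := by nlinarith
  have hx1 : ((V + i : ℕ) : ℝ) ≤ 17 * E ^ 2 := by nlinarith
  have hx2 : (((V + i) * (V + i') + 1 : ℕ) : ℝ) ≤ 17 * E ^ 2 := by
    push_cast at hVi hVi' ⊢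
    have h1 : (V + i : ℝ) * (V + i') ≤ (4 * E) * (4 * E) :=
      mul_le_mul hVi hVi' (by positivity) (by linarith)
    nlinarith
  have hx3 : E ^ 2 ≤ (((V + i) * (V + i') + 1 : ℕ) : ℝ) := by
    push_cast
    have h1 : E * E ≤ (V + i : ℝ) * (V + i') := mul_le_mul (by linarith) (by linarith) (by linarith) (by linarith)
    nlinarith
  have h1 := v3_cop (K := K) (V + i) (V + i') (by omega)
  constructor
  · rw [← hE3]
    exact (mul_le_mul_of_nonneg_left (Real.log_le_log (by positivity) hx3) hdR.le).trans h1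
  · have h2 := BL.lh_le (K := K) (uu (L := K) ((V + i : ℕ) : K) (((V + i) * (V + i') + 1 : ℕ) : K))
      (fun z => v3_uu_int _ _ z) (17 * E ^ 2) (by nlinarith) (fun z => v3_uu_house _ _ hx1 hx2 z)
    rw [Real.log_mul (by norm_num) (by positivity), ← hd, mul_add (d : ℝ), hE3] at h2
    linarith

section

variable {K : Type u} [Field K] [CharZero K] {ι : Type} [Fintype ι] {J : Ideal (MvPolynomial ι K)}

/-- The points `(x, x y + 1)` of the line over a point of `X` outside a closed subset. -/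
theorem avoid_line (hprime : J.IsPrime) {i₀ : ι} {F : MvPolynomial (I1 ι) K} {d : ℕ} (hF : F.IsHomogeneous d)
    (hFJ : F ∉ J1 J) :
    ∃ (G : MvPolynomial ι K) (R : ℕ), G ∉ J ∧ (∃ d', G.IsHomogeneous d') ∧
      ∀ (L : Type u) [Field L] [CharZero L] [Algebra K L] (p : ι → L), aeval p G ≠ 0 → p i₀ ≠ 0 →
      ∀ V V' : ℕ, ∃ i i' : ℕ, i ≤ R ∧ i' ≤ R ∧
        aeval (y1 p ((V + i : ℕ) : L) (((V + i) * (V' + i') + 1 : ℕ) : L)) F ≠ 0 := by
  have h1 : sub F (Sum.inl ()) ∉ JV J i₀ (fun _ : Unit => (1 : MvPolynomial ι K)) 0 0 1 := by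
    refine sub_notMem (bI_prime hprime o1 o1) hF hFJ ?_
    exact φv_notMem (q := fun _ : Unit => (1 : MvPolynomial ι K)) (s := ()) hprime (fun _ => isHomogeneous_one ι K) 0
      (one_notMem hprime)
  obtain ⟨G, R, hG, hd', h⟩ := avoid2 (J := J) (q := fun _ : Unit => (1 : MvPolynomial ι K))
    (fun _ => isHomogeneous_one ι K) 0 0 le_rfl (sub_hom hF _) h1
  refine ⟨G, R, hG, hd', fun L _ _ _ p hGp hpi V V' => ?_⟩
  obtain ⟨i, i', hi, hi', hF'⟩ := h L p hGp hpi V V' 1 1 one_ne_zero one_ne_zero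
  refine ⟨i, i', hi, hi', fun h0 => hF' ?_⟩
  rw [aeval_sub']
  have h2 : (fun z : I1 ι => sg (y1 p ((V + i : ℕ) : L) (((V + i) * (V' + i') + 1 : ℕ) : L))
      (we 0 1 p (fun s : Unit => aeval p (1 : MvPolynomial ι K) ^ 0) ((V + i : ℕ) : L)
        (((V + i) * (V' + i') + 1 : ℕ) : L) 1 1) (z, Sum.inl ())) =
      fun z => y1 p ((V + i : ℕ) : L) (((V + i) * (V' + i') + 1 : ℕ) : L) z := by
    funext z
    change y1 p _ _ z * (1 * aeval p (1 : MvPolynomial ι K) ^ 0) = _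
    rw [pow_zero, mul_one, mul_one]
  rw [h2]
  exact h0

/-- Many points of `X × ℙ¹` over a point of `X`, with the height on the line about `t`. -/
theorem line_pts {L : Type u} [Field L] [NumberField L] [Algebra K L] (hprime : J.IsPrime) {i₀ : ι}
    {F : MvPolynomial (I1 ι) K} {d : ℕ} (hF : F.IsHomogeneous d) (hFJ : F ∉ J1 J) :
    ∃ (G : MvPolynomial ι K) (B δ : ℝ), G ∉ J ∧ (∃ d', G.IsHomogeneous d') ∧ 0 < δ ∧ ∀ p : ι → L, IsPt J p →
      aeval p G ≠ 0 → p i₀ ≠ 0 → ∀ t : ℝ, B ≤ t →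
      ∃ S : Finset (I1 ι → L),
        (∀ y ∈ S, IsPt (J1 J) y ∧ aeval y F ≠ 0 ∧ ∃ a b : L, a ≠ 0 ∧ b ≠ 0 ∧ y = y1 p a b ∧
          t ≤ logHeight (uu a b) ∧ logHeight (uu a b) ≤ t + Module.finrank ℚ L * Real.log 17) ∧
        (∀ y ∈ S, ∀ z ∈ S, (∃ c : L, z = c • y) → y = z) ∧
        δ * Real.exp (t / Module.finrank ℚ L) ≤ S.card := by
  classical
  obtain ⟨G, R, hG, hd', h⟩ := avoid_line (i₀ := i₀) hprime hF hFJ
  have hm : (0 : ℝ) < Module.finrank ℚ L := Nat.cast_pos.2 Module.finrank_pos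
  have hR0 : (0 : ℝ) < R + 1 := by positivity
  refine ⟨G, max 0 (2 * Module.finrank ℚ L * Real.log (2 * (R + 1))), 1 / (4 * (R + 1) ^ 2), hG, hd',
    by positivity, fun p hp hGp hpi t hBt => ?_⟩
  obtain ⟨V, hV, hV1, hn⟩ := w1_num L ((le_max_left _ _).trans hBt)
  have hav := fun s s' : ℕ => h L p hGp hpi (V + s * (R + 1)) (V + s' * (R + 1))
  choose f f' hf hf' hF' using hav
  -- the numbers
  obtain ⟨X, hX⟩ : ∃ X : ℕ × ℕ → ℕ, X = fun z => V + z.1 * (R + 1) + f z.1 z.2 := ⟨_, rfl⟩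
  obtain ⟨Y, hY⟩ : ∃ Y : ℕ × ℕ → ℕ, Y = fun z => V + z.2 * (R + 1) + f' z.1 z.2 := ⟨_, rfl⟩
  obtain ⟨P, hP⟩ : ∃ P : ℕ × ℕ → I1 ι → L,
    P = fun z => y1 p ((X z : ℕ) : L) ((X z * Y z + 1 : ℕ) : L) := ⟨_, rfl⟩
  have hX1 : ∀ z, 1 ≤ X z := fun z => by
    rw [hX]
    change 1 ≤ V + z.1 * (R + 1) + f z.1 z.2
    omega
  have hinj : ∀ (z z' : ℕ × ℕ) (c : L), P z' = c • P z → z = z' := fun z z' c hc => by
    rw [hP] at hc
    have hc' : sg (y1 p ((X z' : ℕ) : L) ((X z' * Y z' + 1 : ℕ) : L)) (we 0 0 p (fun _ : Unit => (1 : L))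
        ((X z' : ℕ) : L) ((X z' * Y z' + 1 : ℕ) : L) 1 1) =
        c • sg (y1 p ((X z : ℕ) : L) ((X z * Y z + 1 : ℕ) : L)) (we 0 0 p (fun _ : Unit => (1 : L))
        ((X z : ℕ) : L) ((X z * Y z + 1 : ℕ) : L) 1 1) := by
      funext t
      have h2 := congrFun hc t.1
      change y1 p _ _ t.1 = c * y1 p _ _ t.1 at h2
      obtain ⟨t, u | u⟩ := t
      · change y1 p _ _ t * (1 * 1) = c * (y1 p _ _ t * (1 * 1))
        rw [h2]
        ring
      · change y1 p _ _ t * (1 * (p u.1 ^ 0 * _ ^ 0)) = c * (y1 p _ _ t * (1 * (p u.1 ^ 0 * _ ^ 0)))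
        rw [h2, pow_zero, pow_zero, pow_zero]
        ring
    obtain ⟨h1, h2⟩ := y6_inj (k := 0) (j := 0) (Q := fun _ : Unit => (1 : L)) (s := ()) (A₁ := 1) (A₂ := 1) hpi
      one_ne_zero one_ne_zero (hX1 z) (hX1 z') hc'
    rw [hX] at h1
    rw [hY] at h2
    exact Prod.ext (y6_block (hf _ _) (hf _ _) h1) (y6_block (hf' _ _) (hf' _ _) h2)
  set M : ℕ := V / (R + 1) with hM
  have hMV : M * (R + 1) ≤ V := Nat.div_mul_le_self V (R + 1)
  refine ⟨(Finset.range M ×ˢ Finset.range M).image P, fun y hy => ?_, fun y hy z hz hyz => ?_, ?_⟩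
  · obtain ⟨z, hz, rfl⟩ := Finset.mem_image.1 hy
    rw [Finset.mem_product, Finset.mem_range, Finset.mem_range] at hz
    have hb1 : z.1 * (R + 1) + f z.1 z.2 ≤ V := by
      have h1 : (z.1 + 1) * (R + 1) ≤ M * (R + 1) := Nat.mul_le_mul_right _ hz.1
      have h2 := hf z.1 z.2
      nlinarith
    have hb2 : z.2 * (R + 1) + f' z.1 z.2 ≤ V := by
      have h1 : (z.2 + 1) * (R + 1) ≤ M * (R + 1) := Nat.mul_le_mul_right _ hz.2
      have h2 := hf' z.1 z.2
      nlinarith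
    obtain ⟨n1, n2⟩ := hn _ _ hb1 hb2
    have hXz : V + (z.1 * (R + 1) + f z.1 z.2) = X z := by
      rw [hX]
      exact (add_assoc _ _ _).symm
    have hYz : V + (z.2 * (R + 1) + f' z.1 z.2) = Y z := by
      rw [hY]
      exact (add_assoc _ _ _).symm
    rw [hXz, hYz] at n1 n2
    have hFz := hF' z.1 z.2
    have hXz' : V + z.1 * (R + 1) + f z.1 z.2 = X z := by rw [hX]
    have hYz' : V + z.2 * (R + 1) + f' z.1 z.2 = Y z := by rw [hY]
    rw [hXz', hYz'] at hFz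
    have ha0 : ((X z : ℕ) : L) ≠ 0 := Nat.cast_ne_zero.2 (Nat.one_le_iff_ne_zero.1 (hX1 z))
    have hb0 : ((X z * Y z + 1 : ℕ) : L) ≠ 0 := Nat.cast_ne_zero.2 (Nat.succ_ne_zero _)
    have hPz : P z = y1 p ((X z : ℕ) : L) ((X z * Y z + 1 : ℕ) : L) := by rw [hP]
    refine ⟨?_, ?_, _, _, ha0, hb0, hPz, n1, n2⟩
    · rw [hPz]
      refine ⟨y1_ne hp.1 ha0 _, ?_⟩
      have h := bI_pt (φ := o1) (ψ := o1) hp.2 ((X z : ℕ) : L) ((X z * Y z + 1 : ℕ) : L)
      rw [bw_o1] at h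
      exact h
    · rw [hPz]
      exact hFz
  · obtain ⟨z₁, -, rfl⟩ := Finset.mem_image.1 hy
    obtain ⟨z₂, -, rfl⟩ := Finset.mem_image.1 hz
    obtain ⟨c, hc⟩ := hyz
    rw [hinj z₁ z₂ c hc]
  · rw [Finset.card_image_of_injective _ fun z z' hzz => hinj z z' 1 (by rw [one_smul, hzz]), Finset.card_product,
      Finset.card_range]
    set E : ℝ := Real.exp (t / (2 * Module.finrank ℚ L)) with hE
    have h1 : Real.exp (t / Module.finrank ℚ L) = E ^ 2 := by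
      rw [hE, ← Real.exp_nat_mul]
      congr 1
      push_cast
      field_simp
    have h2 : 2 * ((R : ℝ) + 1) ≤ V := by
      refine le_trans ?_ hV
      rw [← Real.log_le_iff_le_exp (by positivity), le_div_iff₀ (by positivity), mul_comm]
      exact (le_max_right _ _).trans hBt
    have h3 : (V : ℝ) < (M + 1) * (R + 1) := by
      have h4 : V < (M + 1) * (R + 1) := by
        rw [mul_comm]
        exact Nat.lt_mul_div_succ V (Nat.succ_pos R)
      exact_mod_cast h4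
    have h4 : (V : ℝ) ≤ 2 * (R + 1) * M := by nlinarith
    have h5 : E ≤ 2 * (R + 1) * M := hV.trans h4
    have h6 : 0 < E := Real.exp_pos _
    rw [h1, div_mul_eq_mul_div, one_mul, div_le_iff₀ (by positivity)]
    push_cast
    nlinarith [mul_le_mul h5 h5 h6.le (h6.le.trans h5)]

end

end Pool.Agent.Lib.MP_17a322_nt.BI
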