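import Pool.Agent.Lib.MP_17a322_nt.BI.Y3
import Pool.Agent.Lib.MP_17a322_nt.BI.P6

/-!
Bundles of projective lines: an upper bound for the canonical height.
-/

set_option linter.unusedSectionVars false

universe u

namespace Pool.Agent.Lib.MP_17a322_nt.BI

open MvPolynomial Height NumberField
open Pool.Agent.Lib.MP_17a322_nt.EQ

section

variable {K : Type u} [Field K]

/-- A determinant with a first row which is zero except for the first entry, up to multiples of one row. -/
private theorem Y4_det {n : ℕ} (M : Matrix (Fin (n + 2)) (Fin (n + 2)) K) (x y : K) (α : Fin n → K)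
    (N : Matrix (Fin (n + 1)) (Fin (n + 1)) K) (h00 : M 0 0 = x) (h0 : ∀ j : Fin (n + 1), M 0 j.succ = 0)
    (h1 : ∀ j : Fin (n + 1), M 1 j.succ = y * N 0 j)
    (h2 : ∀ (k : Fin n) (j : Fin (n + 1)), M k.succ.succ j.succ = y * N k.succ j + α k * N 0 j) :
    M.det = x * (y ^ (n + 1) * N.det) := by
  set T : Matrix (Fin (n + 1)) (Fin (n + 1)) K :=
    Matrix.of fun a b => if a = b then y else if b = 0 then (Fin.cons (α := fun _ => K) 0 α a : K) else 0 with hT
  have hdet : T.det = y ^ (n + 1) := by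
    rw [Matrix.det_of_isLowerTriangular T ?_]
    · simp [hT]
    · intro a b hab
      have hab' : a < b := hab
      simp only [hT, Matrix.of_apply]
      rw [if_neg hab'.ne, if_neg]
      intro h
      rw [h] at hab'
      exact absurd hab' (Fin.not_lt_zero a)
  have hsub : M.submatrix Fin.succ Fin.succ = T * N := by
    ext a j
    rw [Matrix.submatrix_apply, Matrix.mul_apply]
    refine Fin.cases ?_ (fun k => ?_) a
    · rw [Finset.sum_eq_single 0]
      · simp only [hT, Matrix.of_apply, if_true]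
        exact h1 j
      · intro b _ hb
        simp only [hT, Matrix.of_apply]
        rw [if_neg hb.symm, if_neg hb, zero_mul]
      · intro h
        exact absurd (Finset.mem_univ _) h
    · rw [h2 k j, Fin.sum_univ_succ, Finset.sum_eq_single k]
      · simp only [hT, Matrix.of_apply, if_true, Fin.cons_succ]
        rw [if_neg (Fin.succ_ne_zero k)]
        ring
      · intro b _ hb
        simp only [hT, Matrix.of_apply]
        rw [if_neg (fun h => hb (Fin.succ_injective _ h).symm), if_neg (Fin.succ_ne_zero b), zero_mul]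
      · intro h
        exact absurd (Finset.mem_univ _) h
  rw [Matrix.det_succ_row_zero, Fin.sum_univ_succ, Finset.sum_eq_zero]
  · simp only [Fin.val_zero, pow_zero, one_mul, h00, Fin.succAbove_zero, add_zero]
    rw [hsub, Matrix.det_mul, hdet]
  · intro j _
    rw [h0 j, mul_zero, zero_mul]

/-- A basis of a subspace. -/
private theorem Y4_b {W : Type u} [AddCommGroup W] [Module K W] [FiniteDimensional K W] (U : Submodule K W) {n : ℕ}
    (h : Module.finrank K U = n) : ∃ v : Fin n → W, (∀ k, v k ∈ U) ∧ LinearIndependent K v := by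
  have b := Module.finBasisOfFinrankEq K U h
  exact ⟨fun k => b k, fun k => (b k).2, b.linearIndependent.map' U.subtype U.ker_subtype⟩

/-- A basis of a space with a given first vector. -/
private theorem Y4_basis {ι : Type} [Fintype ι] (V : Submodule K (ι → K)) {n : ℕ}
    (hV : Module.finrank K V = n + 1) {p : ι → K} (hpV : p ∈ V) (hp : p ≠ 0) :
    ∃ v : Fin n → ι → K, (∀ k, v k ∈ V) ∧ LinearIndependent K (Fin.cons p v : Fin (n + 1) → ι → K) := by
  obtain ⟨i₀, hi₀⟩ := Function.ne_iff.1 hp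
  have hi₁ : p i₀ ≠ 0 := hi₀
  let φ0 : V →ₗ[K] K := (LinearMap.proj i₀).domRestrict V
  have hφ0 : LinearMap.range φ0 = ⊤ := by
    rw [LinearMap.range_eq_top]
    intro c
    refine ⟨(c / p i₀) • ⟨p, hpV⟩, ?_⟩
    have h1 : φ0 ((c / p i₀) • ⟨p, hpV⟩) = c / p i₀ * p i₀ := rfl
    rw [h1]
    exact div_mul_cancel₀ c hi₁
  have hker : Module.finrank K (LinearMap.ker φ0) = n := by
    have h := LinearMap.finrank_range_add_finrank_ker φ0
    rw [hφ0, finrank_top, Module.finrank_self, hV] at h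
    omega
  obtain ⟨b, hb1, hb2⟩ := Y4_b (LinearMap.ker φ0) hker
  refine ⟨fun k => (b k : ι → K), fun k => (b k).2, ?_⟩
  rw [linearIndependent_finCons]
  refine ⟨hb2.map' V.subtype V.ker_subtype, fun h => hi₁ ?_⟩
  have h2 : Submodule.span K (Set.range fun k => (b k : ι → K)) ≤
      LinearMap.ker (LinearMap.proj i₀ : (ι → K) →ₗ[K] K) := by
    rw [Submodule.span_le]
    rintro _ ⟨k, rfl⟩
    exact hb1 k
  exact h2 h

/-- The supremum of the absolute values of the entries of a nonzero vector is positive. -/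
private theorem Y4_pos {I : Type*} [Finite I] (v : AbsoluteValue K ℝ) {x : I → K} (hx : x ≠ 0) :
    0 < ⨆ i, v (x i) := by
  obtain ⟨i, hi⟩ := Function.ne_iff.1 hx
  exact (v.pos hi).trans_le (Finite.le_ciSup_of_le i le_rfl)

end

section

variable {K : Type u} [Field K] [NumberField K] {ι Λ Μ : Type} [Fintype ι] [Fintype Λ] [Fintype Μ]
  {J : Ideal (MvPolynomial ι K)}

/-- An upper bound for the canonical height on the bundle; the constant does not depend on the point or its field. -/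
theorem hK_le {φ : Λ → MvPolynomial ι K} {ψ : Μ → MvPolynomial ι K} {d₁ d₂ n : ℕ}
    (hJh : ∀ F ∈ J, ∀ i, homogeneousComponent i F ∈ J)
    (hφ : ∀ l, (φ l).IsHomogeneous d₁) (hψ : ∀ l, (ψ l).IsHomogeneous d₂) (hcφ : Car J φ) (hcψ : Car J ψ) :
    ∃ C : ℝ, ∀ (L : Type u) [Field L] [NumberField L] [Algebra K L] (p : ι → L) (a b : L), IsPt J p →
      Module.finrank L (Tan J p) = n + 1 → Module.finrank L (Tan (bI J φ ψ) (sg p (bw φ ψ p a b))) = n + 2 →
      a ≠ 0 → b ≠ 0 → (∃ l, aeval p (φ l) ≠ 0) → (∃ l, aeval p (ψ l) ≠ 0) →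
      hK (bI J φ ψ) (sg p (bw φ ψ p a b)) ≤
        hK J p + logHeight (fun l => aeval p (φ l)) + logHeight (fun l => aeval p (ψ l)) -
          2 * logHeight (bw φ ψ p a b) + C * Module.finrank ℚ L := by
  obtain ⟨κ, hκ⟩ := place_le (n := n) hJh hφ hψ hcφ hcψ
  obtain ⟨C, -, hC⟩ := κ.gs_log_le
  refine ⟨C, fun L _ _ _ p a b hp hfr hfr' ha hb h₁ h₂ => ?_⟩
  have hκp := fun (v : AbsoluteValue L ℝ) (V : Fin n → ι → L) (hV : ∀ k, V k ∈ Tan J p) =>
    hκ L v p a b V hp hV h₁ h₂
  set A : Λ → L := fun l => aeval p (φ l) with hA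
  set B : Μ → L := fun l => aeval p (ψ l) with hB
  set w : Λ ⊕ Μ → L := bw φ ψ p a b with hw
  have hwl : ∀ l, w (Sum.inl l) = a * A l := fun l => by
    simp only [hw, bw, Sum.elim_inl, hA]
  have hwr : ∀ l, w (Sum.inr l) = b * B l := fun l => by
    simp only [hw, bw, Sum.elim_inr, hB]
  obtain ⟨l₁, hl₁⟩ := h₁
  obtain ⟨l₂, hl₂⟩ := h₂
  have hA0 : A ≠ 0 := Function.ne_iff.2 ⟨l₁, hl₁⟩
  have hB0 : B ≠ 0 := Function.ne_iff.2 ⟨l₂, hl₂⟩
  have hw0 : w ≠ 0 := Function.ne_iff.2 ⟨Sum.inl l₁, by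
    rw [hwl]
    exact mul_ne_zero ha hl₁⟩
  obtain ⟨i₀, hi₀⟩ := Function.ne_iff.1 hp.1
  -- the basis of the tangent space of `J`
  obtain ⟨V, hV1, hV2⟩ := Y4_basis (Tan J p) hfr (self_mem_Tan hJh hp) hp.1
  set z : Fin (n + 1) → ι → L := Fin.cons p V with hz
  have hz0 : ∀ k, z k ∈ Tan J p := by
    intro k
    refine Fin.cases ?_ (fun k => ?_) k
    · exact self_mem_Tan hJh hp
    · exact hV1 k
  set P : (Fin (n + 1) → ι) → L := fun s => (Matrix.of fun a b => z a (s b)).det with hP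
  have hP0 : P ≠ 0 := minors_ne hV2
  have hPl : hPl (Tan J p) = logHeight P := hPl_eq (Tan J p) hfr z hz0 hV2
  -- the basis of the tangent space of the bundle
  set y : Fin (n + 2) → ι × (Λ ⊕ Μ) → L :=
    Fin.cons (tE₁ φ p a) (Fin.cons (tE₂ ψ p b) fun k => tR φ ψ p a b (V k)) with hy
  have hyT : ∀ k, y k ∈ Tan (bI J φ ψ) (sg p w) := by
    intro k
    refine Fin.cases ?_ (fun k => Fin.cases ?_ (fun k => ?_) k) k
    · have h := bI_tan (φ := φ) (ψ := ψ) hp.2 (Submodule.zero_mem (Tan J p)) a b a 0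
      have h' : (fun z : ι × (Λ ⊕ Μ) => (0 : ι → L) z.1 * bw φ ψ p a b z.2 +
          p z.1 * Sum.elim (fun l => a * aeval p (φ l) + a * dif p (φ l) 0)
            (fun l => 0 * aeval p (ψ l) + b * dif p (ψ l) 0) z.2) = tE₁ φ p a := by
        funext x
        obtain ⟨i, l | l⟩ := x
        · simp [tE₁]
        · simp [tE₁]
      rw [h'] at h
      exact h
    · have h := bI_tan (φ := φ) (ψ := ψ) hp.2 (Submodule.zero_mem (Tan J p)) a b 0 b
      have h' : (fun z : ι × (Λ ⊕ Μ) => (0 : ι → L) z.1 * bw φ ψ p a b z.2 +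
          p z.1 * Sum.elim (fun l => 0 * aeval p (φ l) + a * dif p (φ l) 0)
            (fun l => b * aeval p (ψ l) + b * dif p (ψ l) 0) z.2) = tE₂ ψ p b := by
        funext x
        obtain ⟨i, l | l⟩ := x
        · simp [tE₂]
        · simp [tE₂]
      rw [h'] at h
      exact h
    · have h := bI_tan (φ := φ) (ψ := ψ) hp.2 (hV1 k) a b 0 0
      have h' : (fun z : ι × (Λ ⊕ Μ) => V k z.1 * bw φ ψ p a b z.2 +
          p z.1 * Sum.elim (fun l => 0 * aeval p (φ l) + a * dif p (φ l) (V k))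
            (fun l => 0 * aeval p (ψ l) + b * dif p (ψ l) (V k)) z.2) = tR φ ψ p a b (V k) := by
        funext x
        obtain ⟨i, l | l⟩ := x
        · simp [tR]
        · simp [tR]
      rw [h'] at h
      exact h
  have hm₂ : ∀ (i : ι) (s : Fin (n + 1) → ι) (l : Λ) (l' : Μ),
      (Matrix.of fun a b => y a ((Fin.cons (i, Sum.inl l) fun j => (s j, Sum.inr l')
        : Fin (n + 2) → ι × (Λ ⊕ Μ)) b)).det = p i * (a * A l) * ((b * B l') ^ (n + 1) * P s) := by
    intro i s l l'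
    refine Y4_det _ _ (b * B l') (fun k => b * dif p (ψ l') (V k)) _ ?_ ?_ ?_ ?_
    · simp [hy, tE₁, hA]
    · intro j
      simp [hy, tE₁]
    · intro j
      have : (1 : Fin (n + 2)) = Fin.succ 0 := rfl
      rw [this]
      simp only [Matrix.of_apply, hy, Fin.cons_succ, Fin.cons_zero, tE₂, hz, Sum.elim_inr, hB]
      ring
    · intro k j
      simp only [Matrix.of_apply, hy, Fin.cons_succ, tR, hz, Fin.cons_zero, Sum.elim_inr, bw, hB]
      ring
  obtain ⟨s₀, hs₀⟩ := Function.ne_iff.1 hP0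
  have hyi : LinearIndependent L y := by
    refine G1_indep (s := (Fin.cons (i₀, Sum.inl l₁) fun j => (s₀ j, Sum.inr l₂) : Fin (n + 2) → ι × (Λ ⊕ Μ))) ?_
    rw [hm₂]
    exact mul_ne_zero (mul_ne_zero hi₀ (mul_ne_zero ha hl₁))
      (mul_ne_zero (pow_ne_zero _ (mul_ne_zero hb hl₂)) hs₀)
  have hPl' := hPl_eq (Tan (bI J φ ψ) (sg p w)) hfr' y hyT hyi
  set Q : (Fin (n + 2) → ι × (Λ ⊕ Μ)) → L := fun s => (Matrix.of fun a b => y a (s b)).det with hQ
  have hQ0 : Q ≠ 0 := minors_ne hyi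
  -- the height of the minors
  have hF := (VA.SC.FS_log κ L : VJ.FS fun v : AbsoluteValue L ℝ => Real.log (κ.k v))
  have hle : logHeight Q ≤ C * Module.finrank ℚ L +
      ((logHeight p + logHeight P) + ((logHeight A + logHeight B) + n * logHeight w)) := by
    have e1 : VJ.gs (fun v : AbsoluteValue L ℝ => Real.log (⨆ i, v (Q i))) = logHeight Q := VJ.gs_log_iSup hQ0
    have e2 : VJ.gs (fun v : AbsoluteValue L ℝ => Real.log (κ.k v) + ((Real.log (v a) + Real.log (v b)) +
        ((Real.log (⨆ i, v (p i)) + Real.log (⨆ i, v (P i))) +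
          ((Real.log (⨆ i, v (A i)) + Real.log (⨆ i, v (B i))) + n * Real.log (⨆ i, v (w i)))))) =
        VJ.gs (fun v : AbsoluteValue L ℝ => Real.log (κ.k v)) + ((0 + 0) +
        ((logHeight p + logHeight P) + ((logHeight A + logHeight B) + n * logHeight w))) := by
      have fa := VJ.FS_log_abv (L := L) ha
      have fb := VJ.FS_log_abv (L := L) hb
      have fp := VJ.FS_log_iSup (L := L) hp.1
      have fP := VJ.FS_log_iSup (L := L) hP0
      have fA := VJ.FS_log_iSup (L := L) hA0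
      have fB := VJ.FS_log_iSup (L := L) hB0
      have fw := VJ.FS_const_mul (n : ℝ) (VJ.FS_log_iSup (L := L) hw0)
      rw [VJ.gs_add hF (VJ.FS_add (VJ.FS_add fa fb) (VJ.FS_add (VJ.FS_add fp fP) (VJ.FS_add (VJ.FS_add fA fB) fw))),
        VJ.gs_add (VJ.FS_add fa fb) (VJ.FS_add (VJ.FS_add fp fP) (VJ.FS_add (VJ.FS_add fA fB) fw)),
        VJ.gs_add fa fb, VJ.gs_add (VJ.FS_add fp fP) (VJ.FS_add (VJ.FS_add fA fB) fw), VJ.gs_add fp fP,
        VJ.gs_add (VJ.FS_add fA fB) fw, VJ.gs_add fA fB, VJ.gs_const_mul, VJ.gs_log_abv ha, VJ.gs_log_abv hb,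
        VJ.gs_log_iSup hp.1, VJ.gs_log_iSup hP0, VJ.gs_log_iSup hA0, VJ.gs_log_iSup hB0, VJ.gs_log_iSup hw0]
    have e3 : VJ.gs (fun v : AbsoluteValue L ℝ => Real.log (⨆ i, v (Q i))) ≤
        VJ.gs (fun v : AbsoluteValue L ℝ => Real.log (κ.k v) + ((Real.log (v a) + Real.log (v b)) +
        ((Real.log (⨆ i, v (p i)) + Real.log (⨆ i, v (P i))) +
          ((Real.log (⨆ i, v (A i)) + Real.log (⨆ i, v (B i))) + n * Real.log (⨆ i, v (w i)))))) := by
      refine VJ.gs_le (VJ.FS_log_iSup hQ0) (VJ.FS_add hF (VJ.FS_add (VJ.FS_add (VJ.FS_log_abv ha)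
        (VJ.FS_log_abv hb)) (VJ.FS_add (VJ.FS_add (VJ.FS_log_iSup hp.1) (VJ.FS_log_iSup hP0)) (VJ.FS_add
        (VJ.FS_add (VJ.FS_log_iSup hA0) (VJ.FS_log_iSup hB0))
        (VJ.FS_const_mul (n : ℝ) (VJ.FS_log_iSup hw0)))))) fun v _ => ?_
      have pp := Y4_pos v hp.1
      have pP := Y4_pos v hP0
      have pA := Y4_pos v hA0
      have pB := Y4_pos v hB0
      have pw := Y4_pos v hw0
      have pa := v.pos ha
      have pb := v.pos hb
      have pk := κ.pos v
      have hne : Nonempty (Fin (n + 2) → ι × (Λ ⊕ Μ)) := ⟨fun _ => (i₀, Sum.inl l₁)⟩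
      have h5 : (⨆ i, v (Q i)) ≤ κ.k v * ((v a * v b) * (((⨆ i, v (p i)) * (⨆ i, v (P i))) *
          ((⨆ i, v (A i)) * (⨆ i, v (B i)) * (⨆ i, v (w i)) ^ n))) :=
        ciSup_le fun x => hκp v V hV1 x
      refine (Real.log_le_log (Y4_pos v hQ0) h5).trans (le_of_eq ?_)
      rw [Real.log_mul pk.ne' (by positivity), Real.log_mul (by positivity) (by positivity),
        Real.log_mul pa.ne' pb.ne', Real.log_mul (by positivity) (by positivity), Real.log_mul pp.ne' pP.ne',
        Real.log_mul (by positivity) (by positivity), Real.log_mul pA.ne' pB.ne', Real.log_pow]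
    rw [e1, e2] at e3
    have e4 := hC L
    linarith
  -- the end
  have hsg : logHeight (sg p w) = logHeight p + logHeight w := logHeight_fun_mul_eq hp.1 hw0
  simp only [hK, hfr, hfr', hsg]
  rw [hPl, hPl']
  push_cast
  nlinarith [hle]

end

end Pool.Agent.Lib.MP_17a322_nt.BI
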