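import Pool.Agent.Lib.MP_17a322_nt.BI.LDefs
import Pool.Agent.Lib.MP_17a322_nt.BI.N2
import Pool.Agent.Lib.MP_17a322_nt.BI.W1
import Pool.Agent.Lib.MP_17a322_nt.BI.I1
import Pool.Agent.Lib.MP_17a322_nt.BI.Y4
import Pool.Agent.Lib.MP_17a322_nt.BI.Fin

/-!
The cases of Q1 for a variety `X` and the points of `X × ℙ¹` at which the two sides of the inequality differ by a
bounded number.
-/

set_option linter.unusedSectionVars false

universe u v

namespace Pool.Agent.Lib.MP_17a322_nt.BI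

open MvPolynomial Height NumberField
open Pool.Agent.Lib.MP_17a322_nt.EQ
open Pool.Agent.Lib.MP_17a322_nt.RAT (IsRat)

/-- The height of the points of `X × ℙ¹` with respect to the canonical class. -/
theorem hK_y1 {K : Type u} [Field K] [NumberField K] {ι : Type} [Fintype ι] {J : Ideal (MvPolynomial ι K)} (n : ℕ)
    (hJh : ∀ F ∈ J, ∀ i, homogeneousComponent i F ∈ J) : ∃ C : ℝ, ∀ (L : Type u) [Field L] [NumberField L]
      [Algebra K L] (p : ι → L) (a b : L), IsPt J p →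
      Module.finrank L (Tan J p) = n + 1 → a ≠ 0 → b ≠ 0 →
      hK J p - 2 * logHeight (uu a b) ≤ hK (J1 J) (y1 p a b) ∧
      hK (J1 J) (y1 p a b) ≤ hK J p - 2 * logHeight (uu a b) + C * Module.finrank ℚ L := by
  obtain ⟨C₁, hC₁⟩ := hK_le (n := n) hJh o1_hom o1_hom (car_one J 1) (car_one J 1)
  refine ⟨C₁, fun L _ _ _ p a b hp hfr ha hb => ?_⟩
  have g1 : ∃ l : Unit, aeval p (o1 l : MvPolynomial ι K) ≠ 0 := ⟨(), by
    change aeval p (1 : MvPolynomial ι K) ≠ 0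
    rw [map_one]
    exact one_ne_zero⟩
  have d1 : Module.finrank L (Tan (bI J o1 o1) (sg p (bw (K := K) o1 o1 p a b))) = n + 2 := by
    rw [bI_dim hJh o1_hom o1_hom hp ha g1 g1, hfr]
  have h1 := hK_ge' hJh hp hfr d1 ha hb g1 g1
  have h2 := hC₁ L p a b hp hfr d1 ha hb g1 g1
  have h3 : logHeight (fun l : Unit => aeval p ((fun _ : Unit => (1 : MvPolynomial ι K)) l)) = 0 :=
    logHeight_eq_zero_of_subsingleton _
  constructor
  · change hK J p + logHeight (fun l : Unit => aeval p ((fun _ : Unit => (1 : MvPolynomial ι K)) l)) +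
      logHeight (fun l : Unit => aeval p ((fun _ : Unit => (1 : MvPolynomial ι K)) l)) -
      2 * logHeight (bw (K := K) o1 o1 p a b) ≤ hK (bI J o1 o1) (sg p (bw (K := K) o1 o1 p a b)) at h1
    rw [h3, bw_o1] at h1
    change _ ≤ hK (J1 J) (y1 p a b) at h1
    linarith
  · change hK (bI J o1 o1) (sg p (bw (K := K) o1 o1 p a b)) ≤ hK J p +
      logHeight (fun l : Unit => aeval p ((fun _ : Unit => (1 : MvPolynomial ι K)) l)) +
      logHeight (fun l : Unit => aeval p ((fun _ : Unit => (1 : MvPolynomial ι K)) l)) -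
      2 * logHeight (bw (K := K) o1 o1 p a b) + C₁ * Module.finrank ℚ L at h2
    rw [h3, bw_o1] at h2
    change hK (J1 J) (y1 p a b) ≤ _ at h2
    linarith

section

variable {K : Type u} [Field K] [NumberField K] {ι κ β : Type} [Fintype ι] [Fintype κ] [Fintype β]
  {J : Ideal (MvPolynomial ι K)} {e : ℕ} {f : β → κ → MvPolynomial ι K}
  {L : Type u} [Field L] [NumberField L] [Algebra K L]

/-- The left side of the inequality of Q1 at the points of `X × ℙ¹`. -/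
theorem lhs_y1 (n : ℕ) (hJh : ∀ F ∈ J, ∀ i, homogeneousComponent i F ∈ J) (hf : ∀ b j, (f b j).IsHomogeneous e) :
    ∃ C : ℝ, ∀ (S : Finset (FinitePlace L)) (p : ι → L) (a b : L), IsPt J p → Module.finrank L (Tan J p) = n + 1 →
      (∀ b, ∃ j, aeval p (f b j) ≠ 0) → a ≠ 0 → b ≠ 0 →
      lhs J e f S p - 2 * logHeight (uu a b) ≤ lhs (J1 J) e (fun b => inv1 (f b)) S (y1 p a b) ∧
      lhs (J1 J) e (fun b => inv1 (f b)) S (y1 p a b) ≤ lhs J e f S p - 2 * logHeight (uu a b) + C := by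
  obtain ⟨C₁, hC₁⟩ := hK_y1 n hJh
  refine ⟨C₁ * Module.finrank ℚ L, fun S p a b hp hfr hoff ha hb => ?_⟩
  obtain ⟨h1, h2⟩ := hC₁ L p a b hp hfr ha hb
  have h3 : ∑ b', prox S e (fun j => MvPolynomial.map (algebraMap K L) (inv1 (f b') j)) (y1 p a b) =
      ∑ b', prox S e (fun j => MvPolynomial.map (algebraMap K L) (f b' j)) p :=
    Finset.sum_congr rfl fun b' _ => prox_inv1 S (hf b') hp.1 (hoff b') ha b
  rw [lhs, lhs, h3]
  constructor <;> linarith

/-- A form which vanishes on `D` but not on `X`. -/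
theorem exists_off (hprime : J.IsPrime) (hf : ∀ b j, (f b j).IsHomogeneous e) (hfJ : ∀ b, ∃ j, f b j ∉ J) :
    ∃ (F : MvPolynomial ι K) (d : ℕ), F ∉ J ∧ F.IsHomogeneous d ∧
      ∀ p : ι → L, aeval p F ≠ 0 → ∀ b, ∃ j, aeval p (f b j) ≠ 0 := by
  choose j hj using hfJ
  refine ⟨∏ b, f b (j b), _, fun hm => ?_, IsHomogeneous.prod _ _ (fun _ => e) fun b _ => hf b (j b), fun p hG b =>
    ⟨j b, fun h0 => hG ?_⟩⟩
  · obtain ⟨b, -, hb⟩ := (Ideal.IsPrime.prod_mem_iff (hp := hprime)).1 hm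
    exact hj b hb
  · rw [map_prod]
    exact Finset.prod_eq_zero (Finset.mem_univ b) h0

/-- From the level sets of `X × ℙ¹` to Vojta's inequality for `X`. -/
theorem case_of_level (hprime : J.IsPrime) (hJh : ∀ F ∈ J, ∀ i, homogeneousComponent i F ∈ J) {i₀ : ι}
    (hi : (X i₀ : MvPolynomial ι K) ∉ J) {n d₀ : ℕ} {D : MvPolynomial ι K} (hD : D.IsHomogeneous d₀) (hDJ : D ∉ J)
    (hT : ∀ p : ι → L, IsPt J p → aeval p D ≠ 0 → Module.finrank L (Tan J p) = n + 1)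
    (hf : ∀ b j, (f b j).IsHomogeneous e) (hfJ : ∀ b, ∃ j, f b j ∉ J) (S : Finset (FinitePlace L)) {ε : ℝ}
    (hε : 0 ≤ ε) :
    ∃ C₀ : ℝ, ∀ C, C₀ ≤ C → Level (J1 J) e (fun b => inv1 (f b)) L S ε C → Case J e f L S ε := by
  obtain ⟨C₁, hC₁⟩ := lhs_y1 (L := L) n hJh hf
  obtain ⟨F₀, d₁, hF₀, hF₀h, hF₀off⟩ := exists_off (L := L) hprime hf hfJ
  obtain ⟨c, hc⟩ : ∃ c, c = Module.finrank ℚ L * Real.log 17 := ⟨_, rfl⟩
  have hc0 : 0 ≤ c := by
    rw [hc]
    exact mul_nonneg (Nat.cast_nonneg _) (Real.log_nonneg (by norm_num))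
  have hε2 : 0 < 2 + ε := by linarith
  refine ⟨(2 + ε) * c + |C₁|, fun C hC ⟨F, hFJ, ⟨d, hF⟩, hFC⟩ => ?_⟩
  obtain ⟨G, B, δ, hG, ⟨d', hd'⟩, hδ, hsp⟩ := line_pts (L := L) (i₀ := i₀) hprime hF hFJ
  refine ⟨G * (X i₀ * D) * F₀, (2 + ε) * B, fun h1 => ?_, ⟨d' + (1 + d₀) + d₁, (hd'.mul
    ((isHomogeneous_X K i₀).mul hD)).mul hF₀h⟩, fun p hp hGp => ?_⟩
  · rcases hprime.mem_or_mem h1 with h1 | h1
    · rcases hprime.mem_or_mem h1 with h1 | h1
      · exact hG h1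
      · exact (hprime.mem_or_mem h1).elim hi hDJ
    · exact hF₀ h1
  rw [map_mul, map_mul, map_mul, aeval_X] at hGp
  have hoff := hF₀off p (right_ne_zero_of_mul hGp)
  have hGp' := left_ne_zero_of_mul hGp
  have hGp1 := left_ne_zero_of_mul hGp'
  have hpi := left_ne_zero_of_mul (right_ne_zero_of_mul hGp')
  have hfr := hT p hp (right_ne_zero_of_mul (right_ne_zero_of_mul hGp'))
  refine ⟨hoff, ?_⟩
  by_contra hcon
  push Not at hcon
  have ht : B ≤ (lhs J e f S p - ε * logHeight p) / (2 + ε) := by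
    rw [le_div_iff₀ hε2]
    linarith
  obtain ⟨T, hS, -, hcard⟩ := hsp p hp hGp1 hpi _ ht
  have hS0 : T.Nonempty := by
    rw [← Finset.card_pos]
    have h1 : (0 : ℝ) < T.card := (mul_pos hδ (Real.exp_pos _)).trans_le hcard
    exact_mod_cast h1
  obtain ⟨y, hy⟩ := hS0
  obtain ⟨hy1, hy2, a, b, ha, hb, rfl, hu1, hu2⟩ := hS y hy
  refine hy2 (hFC _ hy1 (fun b' => (off_inv1 (hf b') ha b).2 (hoff b')) (le_trans ?_ hC))
  obtain ⟨k1, k2⟩ := hC₁ S p a b hp hfr hoff ha hb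
  have k3 := lh_y1 hp.1 ha b
  rw [← hc] at hu2
  rw [div_le_iff₀ hε2] at hu1
  have hu3 : logHeight (uu a b) * (2 + ε) ≤ lhs J e f S p - ε * logHeight p + (2 + ε) * c := by
    have h1 := mul_le_mul_of_nonneg_right hu2 hε2.le
    rw [add_mul, div_mul_cancel₀ _ hε2.ne'] at h1
    linarith
  have k4 := le_abs_self C₁
  have k5 := abs_nonneg C₁
  have k6 : 0 ≤ (2 + ε) * c := mul_nonneg hε2.le hc0
  rw [k3, abs_le]
  constructor <;> linarith

/-- From Vojta's inequality for `X` to the level sets of `X × ℙ¹`. -/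
theorem level_of_case (hprime : J.IsPrime) (hJh : ∀ F ∈ J, ∀ i, homogeneousComponent i F ∈ J) {i₀ : ι}
    (hi : (X i₀ : MvPolynomial ι K) ∉ J) {n d₀ : ℕ} {D : MvPolynomial ι K} (hD : D.IsHomogeneous d₀) (hDJ : D ∉ J)
    (hT : ∀ p : ι → L, IsPt J p → aeval p D ≠ 0 → Module.finrank L (Tan J p) = n + 1)
    (hf : ∀ b j, (f b j).IsHomogeneous e) {S : Finset (FinitePlace L)} {ε : ℝ} (hε : 0 ≤ ε)
    (h : Case J e f L S ε) (C : ℝ) : Level (J1 J) e (fun b => inv1 (f b)) L S ε C := by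
  obtain ⟨GX, CX, hGX, ⟨dX, hdX⟩, hv⟩ := h
  obtain ⟨C₁, hC₁⟩ := lhs_y1 (L := L) n hJh hf
  have hε2 : 0 < 2 + ε := by linarith
  obtain ⟨W, hW⟩ : ∃ W, W = (CX + C₁ + C) / (2 + ε) := ⟨_, rfl⟩
  have hfin : {t : L | logHeight₁ t ≤ W}.Finite := Northcott.finite_le (h := logHeight₁ (K := L)) _
  obtain ⟨P, hP, hPT⟩ := I1_poly (K := K) hfin
  have hG0h : (GX * (X i₀ * D)).IsHomogeneous (dX + (1 + d₀)) := hdX.mul ((isHomogeneous_X K i₀).mul hD)
  have hG0 : GX * (X i₀ * D) ∉ J := fun h =>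
    (hprime.mem_or_mem h).elim hGX fun h => (hprime.mem_or_mem h).elim hi hDJ
  obtain ⟨G₁, hG₁, ⟨d₁, hd₁⟩, h₁⟩ := pts hprime hJh o1_hom o1_hom ⟨(), one_notMem hprime⟩
    ⟨(), one_notMem hprime⟩ hG0h hG0 ⟨i₀, hi⟩
  have hp1 : (J1 J).IsPrime := bI_prime hprime o1 o1
  refine ⟨G₁ * I1_F i₀ P, fun h => (hp1.mem_or_mem h).elim hG₁ (I1_notMem hprime hi hP),
    ⟨_, hd₁.mul (I1_hom i₀ P)⟩, fun y hy _ hyC => ?_⟩
  by_contra hy'
  rw [map_mul] at hy'
  obtain ⟨p, a, b, hp, hG0', ha, hb, -, -, e₁⟩ := h₁ L y hy (left_ne_zero_of_mul hy')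
  rw [bw_o1] at e₁
  rw [map_mul, map_mul, aeval_X] at hG0'
  have hpi : p i₀ ≠ 0 := left_ne_zero_of_mul (right_ne_zero_of_mul hG0')
  have hfr := hT p hp (right_ne_zero_of_mul (right_ne_zero_of_mul hG0'))
  obtain ⟨hoff, hv'⟩ := hv p hp (left_ne_zero_of_mul hG0')
  obtain ⟨-, k2⟩ := hC₁ S p a b hp hfr hoff ha hb
  have k3 := lh_y1 hp.1 ha b
  have e₂ : y = y1 p a b := e₁
  rw [e₂, k3] at hyC
  have hyC' := (abs_le.1 hyC).1
  have hWu : logHeight (uu a b) ≤ W := by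
    rw [hW, le_div_iff₀ hε2]
    linarith
  apply right_ne_zero_of_mul hy'
  rw [e₂, I1_val i₀ P p b hpi ha, hPT (b / a) ((lh_quot a b).trans hWu), mul_zero]

end

/-- **The level form.** For every projective variety `X` over `K` and every family of closed subschemes `D_b ≠ X` there
are a projective variety `X'` over `K` and closed subschemes `D'_b` such that for all number fields `L` which contain
`K`, all finite sets of places and all `ε ≥ 0` the case `(X, D, S, ε)` of Q1 over `L` holds if and only if for all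
sufficiently large `C` the points `p` of `X'` over `L` outside `D'` at which the two sides of the inequality for `X'`,
`D'` differ by at most `C` are not Zariski dense. -/
theorem level_inst {K : Type u} [Field K] [NumberField K] {ι κ β : Type} [Fintype ι] [Fintype κ] [Fintype β]
    {J : Ideal (MvPolynomial ι K)} {e : ℕ} {f : β → κ → MvPolynomial ι K}
    (hprime : J.IsPrime) (hJh : ∀ F ∈ J, ∀ i, homogeneousComponent i F ∈ J) (hf : ∀ b j, (f b j).IsHomogeneous e)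
    (hfJ : ∀ b, ∃ j, f b j ∉ J) :
    ∃ (ι' κ' : Type) (_ : Fintype ι') (_ : Fintype κ') (J' : Ideal (MvPolynomial ι' K))
      (f' : β → κ' → MvPolynomial ι' K), J'.IsPrime ∧ (∀ F ∈ J', ∀ i, homogeneousComponent i F ∈ J') ∧
      (∀ b j, (f' b j).IsHomogeneous e) ∧ (∀ b, ∃ j, f' b j ∉ J') ∧ (IsRat J → IsRat J') ∧
      (∀ n, Smooth J n → Smooth J' (n + 1)) ∧ (∀ n, Smooth J n → Snc J e f → Snc J' e f') ∧
      ∀ (L : Type u) [Field L] [NumberField L] [Algebra K L] (S : Finset (FinitePlace L)) (ε : ℝ), 0 ≤ ε →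
        ∃ C₀ : ℝ, ∀ C, C₀ ≤ C → (Case J e f L S ε ↔ Level J' e f' L S ε C) := by
  by_cases hX : ∀ i : ι, (X i : MvPolynomial ι K) ∈ J
  · have hno : ∀ {L : Type u} [Field L] [Algebra K L] (p : ι → L), ¬ IsPt J p := fun p hp => by
      apply hp.1
      funext i
      have h1 := hp.2 _ (hX i)
      rwa [aeval_X] at h1
    have h1 : (1 : MvPolynomial ι K) ∉ J := one_notMem hprime
    exact ⟨ι, κ, inferInstance, inferInstance, J, f, hprime, hJh, hf, hfJ, fun h => h, fun n hJ => ⟨hJ.prime, hJ.homog,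
      fun L _ _ p hp => absurd hp (hno p)⟩, fun _ _ h => h, fun L _ _ _ S ε _ => ⟨0, fun C _ => ⟨fun _ =>
      ⟨1, h1, ⟨0, isHomogeneous_one ι K⟩, fun p hp => absurd hp (hno p)⟩, fun _ =>
      ⟨1, 0, h1, ⟨0, isHomogeneous_one ι K⟩, fun p hp => absurd hp (hno p)⟩⟩⟩⟩
  push Not at hX
  obtain ⟨i₀, hi⟩ := hX
  obtain ⟨n, e', d, q, D, hq, hs, hDJ, hD, hT, hqL, hsm⟩ := gaussB hprime hJh hi
  refine ⟨_, _, inferInstance, inferInstance, J1 J, fun b => inv1 (f b), bI_prime hprime o1 o1, bI_homog J o1 o1,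
    fun b j => inv1_hom (hf b) j, fun b => ?_, fun h =>
    bI_rat o1_hom o1_hom ⟨(), one_notMem hprime⟩ ⟨(), one_notMem hprime⟩ h, fun n hJ => J1_smooth hJ,
    fun n hJ h => J1_snc hJ h, fun L _ _ _ S ε hε => ?_⟩
  · obtain ⟨j, hj⟩ := hfJ b
    exact inv1_notMem hprime (hf b) hj
  obtain ⟨C₀, hC₀⟩ := case_of_level hprime hJh hi hD hDJ (fun p hp hDp => (hT L p hp hDp).1) hf hfJ S hε
  exact ⟨C₀, fun C hC => ⟨fun h => level_of_case hprime hJh hi hD hDJ (fun p hp hDp => (hT L p hp hDp).1) hf hε h C,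
    hC₀ C hC⟩⟩

end Pool.Agent.Lib.MP_17a322_nt.BI
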