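import Pool.Agent.Lib.MP_17a322_nt.BI.P0
import Pool.Agent.Lib.MP_17a322_nt.EQ.G0
import Pool.Agent.Lib.MP_17a322_nt.VA.A2

/-!
Locally principal families of forms: bounds at one absolute value.
-/

set_option linter.unusedSectionVars false

universe u

namespace Pool.Agent.Lib.MP_17a322_nt.BI

open MvPolynomial
open Pool.Agent.Lib.MP_17a322_nt.EQ
open Pool.Agent.Lib.MP_17a322_nt.VJ (cst)
open Pool.Agent.Lib.MP_17a322_nt.VA (SC)

section

variable {K : Type u} [Field K] {ι Λ : Type} [Fintype ι] [Fintype Λ] {J : Ideal (MvPolynomial ι K)}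

/-- The constant `cst v 2` is at most a size constant. -/
theorem Y1_two (K : Type u) [Field K] : ∃ κ : SC K, ∀ (L : Type u) [Field L] [Algebra K L]
    (v : AbsoluteValue L ℝ), cst v 2 ≤ κ.k v := by
  refine ⟨⟨∅, 1⟩, fun L _ _ v => ?_⟩
  have h1 : (1 : ℝ) ≤ cst v 2 := Pool.Agent.Lib.MP_17a322_nt.VJ.one_le_cst v (by norm_num)
  change cst v 2 ≤ (cst v (1 + 1) * ∏ a ∈ (∅ : Finset K), max 1 (v (algebraMap K L a))) ^ (1 + 1)
  rw [Finset.prod_empty, mul_one, pow_succ, pow_one]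
  exact le_mul_of_one_le_right (zero_le_one.trans h1) h1

/-- The absolute value of a difference. -/
theorem Y1_sub {L : Type u} [Field L] (v : AbsoluteValue L ℝ) (a b : L) {B : ℝ} (ha : v a ≤ B)
    (hb : v b ≤ B) : v (a - b) ≤ cst v 2 * B := by
  classical
  have h1 := (Pool.Agent.Lib.MP_17a322_nt.VJ.SN_self v).sum_le (Finset.univ : Finset (Fin 2))
    (fun i => if i = 0 then a else -b) ((v.nonneg a).trans ha) fun i _ => ?_
  · rw [Finset.card_univ, Fintype.card_fin, Fin.sum_univ_two, if_pos rfl,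
      if_neg (by decide), ← sub_eq_add_neg] at h1
    exact h1
  · split_ifs
    · exact ha
    · rw [v.map_neg]
      exact hb

/-- A locally principal family `φ` at a point `x` with `|x| ≤ 1` and `x i₀ = 1`: the values are bounded multiples of
one of them, and the differentials on the tangent space are the same multiples of its differential, up to bounded
multiples of its value. -/
theorem chart {φ : Λ → MvPolynomial ι K} (hc : Car J φ) (i₀ : ι) : ∃ κ : SC K, ∀ (L : Type u) [Field L] [Algebra K L]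
    (v : AbsoluteValue L ℝ) (x : ι → L), (∀ F ∈ J, aeval x F = 0) → (∀ i, v (x i) ≤ 1) → x i₀ = 1 →
    ∃ (l₀ : Λ) (r : Λ → L) (δ : Λ → ι → L), (∀ l, aeval x (φ l) = r l * aeval x (φ l₀)) ∧ (∀ l, v (r l) ≤ κ.k v) ∧
      (∀ l j, v (δ l j) ≤ κ.k v) ∧ ∀ l, ∀ t ∈ Tan J x,
        dif x (φ l) t = r l * dif x (φ l₀) t + aeval x (φ l₀) * ∑ j, δ l j * t j := by
  classical
  obtain ⟨S', hS'S, hS'⟩ : ∃ S' : Finset (MvPolynomial ι K),
      ((S' : Set (MvPolynomial ι K)) ⊆ {u | ∃ s, ∀ j, u * φ j ∈ J ⊔ Ideal.span {φ s}}) ∧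
      Ideal.span {u | ∃ s, ∀ j, u * φ j ∈ J ⊔ Ideal.span {φ s}} =
        Ideal.span (S' : Set (MvPolynomial ι K)) :=
    (Submodule.fg_span_iff_fg_span_finset_subset (R := MvPolynomial ι K) _).1
      (IsNoetherian.noetherian _)
  choose s hs using fun u : S' => hS'S u.2
  have hw : ∀ (u : S') (l : Λ), ∃ w h : MvPolynomial ι K, h ∈ J ∧
      (u : MvPolynomial ι K) * φ l = h + w * φ (s u) := by
    intro u l
    obtain ⟨h, hh, y, hy, he⟩ := Submodule.mem_sup.1 (hs u l)
    obtain ⟨w, hw⟩ := Ideal.mem_span_singleton'.1 hy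
    exact ⟨w, h, hh, by rw [← he, hw]⟩
  choose w h hhJ hwe using hw
  obtain ⟨κ₀, h₀⟩ := Y1_two K
  obtain ⟨κ₁, h₁⟩ := VA.lower_bound.{u, u} (J : Set (MvPolynomial ι K))
    (fun u : S' => (u : MvPolynomial ι K)) (X i₀) (by
      intro L _ _ x hx hu
      by_contra hne
      rw [aeval_X] at hne
      have hp : IsPt J x := by
        refine ⟨fun h0 => hne ?_, fun F hF => hx F hF⟩
        rw [h0]
        rfl
      obtain ⟨s₁, u₁, hu₁, hu₁'⟩ := hc L x hp
      have h2 : u₁ ∈ Ideal.span (S' : Set (MvPolynomial ι K)) := by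
        rw [← hS']
        exact Ideal.subset_span ⟨s₁, hu₁'⟩
      exact hu₁ (VA.aeval_span (fun e he => hu ⟨e, he⟩) h2))
  obtain ⟨κ₂, h₂⟩ := VA.upper_bound.{u, u} (K := K) (σ := ι)
    (ι := (S' × Λ) ⊕ ((S' × Λ × ι) ⊕ (S' × ι)))
    (Sum.elim (fun z => w z.1 z.2) (Sum.elim (fun z => pderiv z.2.2 (w z.1 z.2.1))
      fun z => pderiv z.2 (z.1 : MvPolynomial ι K)))
  refine ⟨(κ₁.mul κ₂).mul (κ₁.mul (κ₀.mul ((κ₁.mul κ₂).mul κ₂))), fun L _ _ v x hx hx1 hxi => ?_⟩
  obtain ⟨u, hu⟩ := h₁ L v x (fun e he => hx e he) hx1 (by rw [aeval_X]; exact hxi)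
  have hu0 : aeval x (u : MvPolynomial ι K) ≠ 0 := by
    intro h0
    rw [h0, map_zero, mul_zero] at hu
    exact absurd hu (not_le.2 zero_lt_one)
  have hinv : v (aeval x (u : MvPolynomial ι K))⁻¹ ≤ κ₁.k v := by
    rw [map_inv₀]
    have h3 : 0 < v (aeval x (u : MvPolynomial ι K)) := v.pos hu0
    rw [inv_le_iff_one_le_mul₀ h3]
    exact hu
  have hw1 : ∀ l, v (aeval x (w u l)) ≤ κ₂.k v := fun l => h₂ L v x hx1 (Sum.inl (u, l))
  have hw2 : ∀ l j, v (aeval x (pderiv j (w u l))) ≤ κ₂.k v := fun l j =>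
    h₂ L v x hx1 (Sum.inr (Sum.inl (u, l, j)))
  have hw3 : ∀ j, v (aeval x (pderiv j (u : MvPolynomial ι K))) ≤ κ₂.k v := fun j =>
    h₂ L v x hx1 (Sum.inr (Sum.inr (u, j)))
  set a : L := aeval x (u : MvPolynomial ι K) with ha
  set r : Λ → L := fun l => aeval x (w u l) * a⁻¹ with hr
  set δ : Λ → ι → L := fun l j => (aeval x (pderiv j (w u l)) -
    r l * aeval x (pderiv j (u : MvPolynomial ι K))) * a⁻¹ with hδ
  have hval : ∀ l, aeval x (φ l) = r l * aeval x (φ (s u)) := by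
    intro l
    have h3 := congrArg (aeval x) (hwe u l)
    rw [map_mul, map_add, map_mul, hx _ (hhJ u l), zero_add] at h3
    rw [hr]
    change aeval x (φ l) = aeval x (w u l) * a⁻¹ * aeval x (φ (s u))
    rw [mul_right_comm, ← h3, ← ha, mul_comm a, mul_assoc, mul_inv_cancel₀ hu0, mul_one]
  have hrb : ∀ l, v (r l) ≤ (κ₁.mul κ₂).k v := by
    intro l
    rw [hr]
    change v (aeval x (w u l) * a⁻¹) ≤ _
    rw [map_mul, mul_comm]
    exact (mul_le_mul hinv (hw1 l) (v.nonneg _) (κ₁.pos v).le).trans (κ₁.mul_le κ₂ v)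
  refine ⟨s u, r, δ, hval, fun l => (hrb l).trans (SC.le_mul_left _ _ v), fun l j => ?_, ?_⟩
  · refine le_trans ?_ (SC.le_mul_right _ _ v)
    rw [hδ]
    change v ((aeval x (pderiv j (w u l)) -
      r l * aeval x (pderiv j (u : MvPolynomial ι K))) * a⁻¹) ≤ _
    rw [map_mul, mul_comm]
    refine le_trans (mul_le_mul hinv ?_ (v.nonneg _) (κ₁.pos v).le) (κ₁.mul_le _ v)
    have h4 : v (aeval x (pderiv j (w u l)) - r l * aeval x (pderiv j (u : MvPolynomial ι K))) ≤
        cst v 2 * ((κ₁.mul κ₂).mul κ₂).k v := by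
      refine Y1_sub v _ _ ((hw2 l j).trans (SC.le_mul_right _ _ v)) ?_
      rw [map_mul]
      exact (mul_le_mul (hrb l) (hw3 j) (v.nonneg _) ((κ₁.mul κ₂).pos v).le).trans
        ((κ₁.mul κ₂).mul_le κ₂ v)
    exact h4.trans ((mul_le_mul_of_nonneg_right (h₀ L v) (SC.pos _ v).le).trans (κ₀.mul_le _ v))
  · intro l t ht
    have h5 := mem_Tan.1 ht
    have h6 : dif x ((u : MvPolynomial ι K) * φ l) t = dif x (h u l + w u l * φ (s u)) t := by
      rw [hwe u l]
    rw [dif_mul, dif_add, dif_mul, h5 _ (hhJ u l), zero_add, hval l] at h6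
    have h7 : ∑ j, δ l j * t j = (dif x (w u l) t - r l * dif x (u : MvPolynomial ι K) t) * a⁻¹ := by
      rw [dif_apply, dif_apply, Finset.mul_sum, ← Finset.sum_sub_distrib, Finset.sum_mul]
      refine Finset.sum_congr rfl fun j _ => ?_
      rw [hδ]
      ring
    rw [h7]
    have h8 : a * dif x (φ l) t = a * (r l * dif x (φ (s u)) t + aeval x (φ (s u)) *
        ((dif x (w u l) t - r l * dif x (u : MvPolynomial ι K) t) * a⁻¹)) := by
      have h9 : a * (r l * dif x (φ (s u)) t) = aeval x (w u l) * dif x (φ (s u)) t := by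
        rw [hr]
        change a * (aeval x (w u l) * a⁻¹ * dif x (φ (s u)) t) = _
        field_simp
      have h10 : a * (aeval x (φ (s u)) *
          ((dif x (w u l) t - r l * dif x (u : MvPolynomial ι K) t) * a⁻¹)) =
          aeval x (φ (s u)) * (dif x (w u l) t - r l * dif x (u : MvPolynomial ι K) t) := by
        field_simp
      rw [mul_add, h9, h10]
      linear_combination h6
    exact mul_left_cancel₀ hu0 h8

end

end Pool.Agent.Lib.MP_17a322_nt.BI
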