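import Pool.Agent.Lib.MP_17a322_nt.VJ.A3

/-!
A bound for determinants.
-/

set_option linter.unusedSectionVars false

namespace Pool.Agent.Lib.MP_17a322_nt.BI

open Pool.Agent.Lib.MP_17a322_nt.VJ

/-- The determinant of sums of columns. -/
theorem Y2_multi {L : Type*} [Field L] {ι : Type*} [Fintype ι] {n : ℕ} (c : Fin n → ι → L)
    (V : Fin n → ι → L) :
    (Matrix.of fun k b => ∑ j, c b j * V k j : Matrix (Fin n) (Fin n) L).det =
      ∑ s : Fin n → ι, (∏ b, c b (s b)) * (Matrix.of fun k b => V k (s b)).det := by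
  classical
  rw [← Matrix.det_transpose]
  have h1 : (Matrix.of fun k b => ∑ j, c b j * V k j : Matrix (Fin n) (Fin n) L).transpose =
      fun b => ∑ j, c b j • (fun k => V k j) := by
    funext b k
    rw [Finset.sum_apply]
    rfl
  rw [h1]
  have h2 := (Matrix.detRowAlternating (n := Fin n) (R := L)).toMultilinearMap.map_sum
    (fun b (j : ι) => c b j • (fun k => V k j : Fin n → L))
  refine h2.trans (Finset.sum_congr rfl fun s _ => ?_)
  have h3 := (Matrix.detRowAlternating (n := Fin n) (R := L)).toMultilinearMap.map_smul_univ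
    (fun b => c b (s b)) (fun b => (fun k => V k (s b) : Fin n → L))
  refine h3.trans ?_
  rw [smul_eq_mul]
  congr 1
  rw [← Matrix.det_transpose]
  rfl

/-- The bounded rows. -/
theorem Y2_B {L : Type*} [Field L] (v : AbsoluteValue L ℝ) {I ι : Type*} [Fintype ι] {n : ℕ}
    (f : I → L) (g : I → ι → L) (V : Fin n → ι → L) {w t m : ℝ}
    (h0w : 0 ≤ w) (h0t : 0 ≤ t) (h0m : 0 ≤ m)
    (hf : ∀ x, v (f x) ≤ w) (hg : ∀ x j, v (g x j) ≤ t)
    (hm : ∀ s : Fin n → ι, v (Matrix.of fun k b => V k (s b)).det ≤ m) (z : Fin n → I) :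
    v (Matrix.of fun k b => f (z b) * ∑ j, g (z b) j * V k j : Matrix (Fin n) (Fin n) L).det ≤
      cst v (Fintype.card ι ^ n) * (w ^ n * (t ^ n * m)) := by
  classical
  have h1 : (Matrix.of fun k b => f (z b) * ∑ j, g (z b) j * V k j : Matrix (Fin n) (Fin n) L).det =
      (∏ b, f (z b)) * (Matrix.of fun k b => ∑ j, g (z b) j * V k j : Matrix (Fin n) (Fin n) L).det :=
    Matrix.det_mul_row (fun b => f (z b)) _
  have h2 : v (∏ b, f (z b)) ≤ w ^ n := by
    rw [map_prod]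
    refine (Finset.prod_le_prod (fun b _ => v.nonneg _) fun b _ => hf (z b)).trans (le_of_eq ?_)
    rw [Finset.prod_const, Finset.card_univ, Fintype.card_fin]
  have h3 : v (Matrix.of fun k b => ∑ j, g (z b) j * V k j : Matrix (Fin n) (Fin n) L).det ≤
      cst v (Fintype.card ι ^ n) * (t ^ n * m) := by
    rw [Y2_multi (fun b j => g (z b) j) V]
    have h4 := (SN_self v).sum_le (Finset.univ : Finset (Fin n → ι))
      (fun s => (∏ b, g (z b) (s b)) * (Matrix.of fun k b => V k (s b)).det)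
      (mul_nonneg (pow_nonneg h0t n) h0m) fun s _ => ?_
    · rw [Finset.card_univ, Fintype.card_fun, Fintype.card_fin] at h4
      exact h4
    · rw [map_mul, map_prod]
      refine mul_le_mul ?_ (hm s) (v.nonneg _) (pow_nonneg h0t n)
      refine (Finset.prod_le_prod (fun b _ => v.nonneg _) fun b _ => hg (z b) (s b)).trans
        (le_of_eq ?_)
      rw [Finset.prod_const, Finset.card_univ, Fintype.card_fin]
  rw [h1, map_mul]
  refine (mul_le_mul h2 h3 (v.nonneg _) (pow_nonneg h0w n)).trans (le_of_eq ?_)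
  ring

/-- Expansion with respect to the first row. -/
theorem Y2_row {L : Type*} [Field L] (v : AbsoluteValue L ℝ) {I : Type*} {n : ℕ} (E : I → L)
    (R : Fin n → I → L) {e B : ℝ} (h0e : 0 ≤ e) (h0B : 0 ≤ B) (hE : ∀ x, v (E x) ≤ e)
    (hR : ∀ z : Fin n → I, v (Matrix.of fun k b => R k (z b)).det ≤ B) (x : Fin (n + 1) → I) :
    v (Matrix.of fun a b => (Fin.cons E R : Fin (n + 1) → I → L) a (x b)).det ≤
      cst v (n + 1) * (e * B) := by
  classical
  rw [Matrix.det_succ_row_zero]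
  have h4 := (SN_self v).sum_le (Finset.univ : Finset (Fin (n + 1)))
    (fun j => (-1 : L) ^ (j : ℕ) *
      (Matrix.of fun a b => (Fin.cons E R : Fin (n + 1) → I → L) a (x b)) 0 j *
      ((Matrix.of fun a b => (Fin.cons E R : Fin (n + 1) → I → L) a (x b)).submatrix Fin.succ
        j.succAbove).det) (mul_nonneg h0e h0B) fun j _ => ?_
  · rw [Finset.card_univ, Fintype.card_fin] at h4
    exact h4
  · rw [map_mul, map_mul, map_pow, v.map_neg, map_one, one_pow, one_mul]
    refine mul_le_mul ?_ ?_ (v.nonneg _) h0e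
    · exact hE (x j)
    · exact hR fun b => x (j.succAbove b)

/-- A bound for the minors of a matrix with the rows `E₁`, `E₂` and `R k`, if `R k` is, up to multiples of `E₁` and
`E₂`, a row of bounded combinations of the entries of `V k`. -/
theorem det_bound {L : Type*} [Field L] (v : AbsoluteValue L ℝ) {I ι : Type*} [Fintype ι] {n : ℕ} (E₁ E₂ : I → L)
    (R : Fin n → I → L) (α β : Fin n → L) (f : I → L) (g : I → ι → L) (V : Fin n → ι → L)
    (hR : ∀ k x, R k x = α k * E₁ x + β k * E₂ x + f x * ∑ j, g x j * V k j) {e₁ e₂ w t m : ℝ} (h0₁ : 0 ≤ e₁)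
    (h0₂ : 0 ≤ e₂) (h0w : 0 ≤ w) (h0t : 0 ≤ t) (h0m : 0 ≤ m) (h₁ : ∀ x, v (E₁ x) ≤ e₁) (h₂ : ∀ x, v (E₂ x) ≤ e₂)
    (hf : ∀ x, v (f x) ≤ w) (hg : ∀ x j, v (g x j) ≤ t)
    (hm : ∀ s : Fin n → ι, v (Matrix.of fun k b => V k (s b)).det ≤ m) (x : Fin (n + 2) → I) :
    v (Matrix.of fun a b => (Fin.cons E₁ (Fin.cons E₂ R) : Fin (n + 2) → I → L) a (x b)).det ≤
      cst v ((n + 2) * ((n + 1) * Fintype.card ι ^ n)) * (e₁ * e₂ * w ^ n * t ^ n * m) := by
  classical
  set R₁ : Fin n → I → L := fun k x => β k * E₂ x + f x * ∑ j, g x j * V k j with hR₁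
  set R₂ : Fin n → I → L := fun k x => f x * ∑ j, g x j * V k j with hR₂
  have hd1 : (Matrix.of fun a b => (Fin.cons E₁ (Fin.cons E₂ R) : Fin (n + 2) → I → L) a (x b)).det =
      (Matrix.of fun a b => (Fin.cons E₁ (Fin.cons E₂ R₁) : Fin (n + 2) → I → L) a (x b)).det := by
    refine Matrix.det_eq_of_forall_row_eq_smul_add_const
      (Fin.cons 0 (Fin.cons 0 α) : Fin (n + 2) → L) 0 (Fin.cons_zero _ _) ?_
    intro a b
    refine Fin.cases ?_ (fun a => Fin.cases ?_ (fun k => ?_) a) a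
    · simp only [Matrix.of_apply, Fin.cons_zero, zero_mul, add_zero]
    · simp only [Matrix.of_apply, Fin.cons_succ, Fin.cons_zero, zero_mul, add_zero]
    · simp only [Matrix.of_apply, Fin.cons_succ, Fin.cons_zero]
      rw [hR]
      ring
  have hd2 : (Matrix.of fun a b => (Fin.cons E₁ (Fin.cons E₂ R₁) : Fin (n + 2) → I → L) a (x b)).det =
      (Matrix.of fun a b => (Fin.cons E₁ (Fin.cons E₂ R₂) : Fin (n + 2) → I → L) a (x b)).det := by
    refine Matrix.det_eq_of_forall_row_eq_smul_add_const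
      (Fin.cons 0 (Fin.cons 0 β) : Fin (n + 2) → L) 1 ?_ ?_
    · change (Fin.cons 0 (Fin.cons 0 β) : Fin (n + 2) → L) (Fin.succ 0) = 0
      rw [Fin.cons_succ, Fin.cons_zero]
    intro a b
    have h1 : (Matrix.of fun a b => (Fin.cons E₁ (Fin.cons E₂ R₂) : Fin (n + 2) → I → L) a (x b)) 1 b =
        E₂ (x b) := rfl
    rw [h1]
    refine Fin.cases ?_ (fun a => Fin.cases ?_ (fun k => ?_) a) a
    · simp only [Matrix.of_apply, Fin.cons_zero, zero_mul, add_zero]
    · simp only [Matrix.of_apply, Fin.cons_succ, Fin.cons_zero, zero_mul, add_zero]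
    · simp only [Matrix.of_apply, Fin.cons_succ]
      rw [hR₁, hR₂]
      ring
  rw [hd1, hd2]
  have hB : ∀ z : Fin n → I, v (Matrix.of fun k b => R₂ k (z b)).det ≤
      cst v (Fintype.card ι ^ n) * (w ^ n * (t ^ n * m)) :=
    fun z => Y2_B v f g V h0w h0t h0m hf hg hm z
  have hB0 : 0 ≤ cst v (Fintype.card ι ^ n) * (w ^ n * (t ^ n * m)) :=
    mul_nonneg (cst_nonneg v _) (mul_nonneg (pow_nonneg h0w n) (mul_nonneg (pow_nonneg h0t n) h0m))
  have hA : ∀ y : Fin (n + 1) → I,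
      v (Matrix.of fun a b => (Fin.cons E₂ R₂ : Fin (n + 1) → I → L) a (y b)).det ≤
        cst v (n + 1) * (e₂ * (cst v (Fintype.card ι ^ n) * (w ^ n * (t ^ n * m)))) :=
    fun y => Y2_row v E₂ R₂ h0₂ hB0 h₂ hB y
  have hA0 : 0 ≤ cst v (n + 1) * (e₂ * (cst v (Fintype.card ι ^ n) * (w ^ n * (t ^ n * m)))) :=
    mul_nonneg (cst_nonneg v _) (mul_nonneg h0₂ hB0)
  refine (Y2_row v E₁ (Fin.cons E₂ R₂) h0₁ hA0 h₁ hA x).trans (le_of_eq ?_)
  rw [cst_mul, cst_mul]
  ring

/-- The minors of the vectors `V k - (V k i₀ / p i₀) p`. -/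
theorem minor_bound {L : Type*} [Field L] (v : AbsoluteValue L ℝ) {ι : Type*} [Finite ι] {n : ℕ} (p : ι → L)
    (V : Fin n → ι → L) {i₀ : ι} (hi : p i₀ ≠ 0) (s : Fin n → ι) :
    v (p i₀) * v (Matrix.of fun k b => V k (s b) - V k i₀ / p i₀ * p (s b)).det ≤
      ⨆ s' : Fin (n + 1) → ι, v (Matrix.of fun a b => (Fin.cons p V : Fin (n + 1) → ι → L) a (s' b)).det := by
  classical
  have hbd : BddAbove (Set.range fun s' : Fin (n + 1) → ι =>
      v (Matrix.of fun a b => (Fin.cons p V : Fin (n + 1) → ι → L) a (s' b)).det) :=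
    (Set.finite_range _).bddAbove
  refine le_trans (le_of_eq ?_) (le_ciSup hbd (Fin.cons i₀ s))
  have h1 : (Matrix.of fun a b => (Fin.cons p V : Fin (n + 1) → ι → L) a
      ((Fin.cons i₀ s : Fin (n + 1) → ι) b)).det =
      (Matrix.of fun a b => (Fin.cons p (fun k i => V k i - V k i₀ / p i₀ * p i) :
        Fin (n + 1) → ι → L) a ((Fin.cons i₀ s : Fin (n + 1) → ι) b)).det := by
    refine Matrix.det_eq_of_forall_row_eq_smul_add_const
      (Fin.cons 0 (fun k => V k i₀ / p i₀) : Fin (n + 1) → L) 0 (Fin.cons_zero _ _) ?_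
    intro a b
    refine Fin.cases ?_ (fun k => ?_) a
    · simp only [Matrix.of_apply, Fin.cons_zero, zero_mul, add_zero]
    · simp only [Matrix.of_apply, Fin.cons_succ, Fin.cons_zero]
      ring
  rw [h1, Matrix.det_succ_column_zero, Fin.sum_univ_succ]
  have h2 : ∑ i : Fin n, (-1 : L) ^ ((Fin.succ i : Fin (n + 1)) : ℕ) *
      (Matrix.of fun a b => (Fin.cons p (fun k i => V k i - V k i₀ / p i₀ * p i) :
        Fin (n + 1) → ι → L) a ((Fin.cons i₀ s : Fin (n + 1) → ι) b)) (Fin.succ i) 0 *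
      ((Matrix.of fun a b => (Fin.cons p (fun k i => V k i - V k i₀ / p i₀ * p i) :
        Fin (n + 1) → ι → L) a ((Fin.cons i₀ s : Fin (n + 1) → ι) b)).submatrix
          (Fin.succ i).succAbove Fin.succ).det = 0 := by
    refine Finset.sum_eq_zero fun k _ => ?_
    have h3 : (Matrix.of fun a b => (Fin.cons p (fun k i => V k i - V k i₀ / p i₀ * p i) :
        Fin (n + 1) → ι → L) a ((Fin.cons i₀ s : Fin (n + 1) → ι) b)) (Fin.succ k) 0 = 0 := by
      simp only [Matrix.of_apply, Fin.cons_succ, Fin.cons_zero]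
      rw [div_mul_cancel₀ _ hi, sub_self]
    rw [h3, mul_zero, zero_mul]
  rw [h2, add_zero, map_mul, map_mul]
  have h4 : v ((-1 : L) ^ ((0 : Fin (n + 1)) : ℕ)) = 1 := by
    rw [Fin.val_zero, pow_zero, map_one]
  rw [h4, one_mul]
  rfl

end Pool.Agent.Lib.MP_17a322_nt.BI
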