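import Pool.Agent.Lib.MP_17a322_nt.BI.Y1
import Pool.Agent.Lib.MP_17a322_nt.BI.Y2
import Pool.Agent.Lib.MP_17a322_nt.BI.P3

/-!
The minors of the tangent space of the bundle of projective lines: an upper bound at one absolute value.
-/

set_option linter.unusedSectionVars false

universe u

namespace Pool.Agent.Lib.MP_17a322_nt.BI

open MvPolynomial
open Pool.Agent.Lib.MP_17a322_nt.EQ
open Pool.Agent.Lib.MP_17a322_nt.VJ (cst)
open Pool.Agent.Lib.MP_17a322_nt.VA (SC)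

section

variable {K : Type u} [Field K] {ι Λ Μ : Type} [Fintype ι] [Fintype Λ] [Fintype Μ] {J : Ideal (MvPolynomial ι K)}

/-- The first tangent vector of the bundle. -/
noncomputable def tE₁ {L : Type u} [Field L] [Algebra K L] (φ : Λ → MvPolynomial ι K) (p : ι → L) (a : L) :
    ι × (Λ ⊕ Μ) → L := fun x => p x.1 * Sum.elim (fun l => a * aeval p (φ l)) (fun _ => 0) x.2

/-- The second tangent vector of the bundle. -/
noncomputable def tE₂ {L : Type u} [Field L] [Algebra K L] (ψ : Μ → MvPolynomial ι K) (p : ι → L) (b : L) :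
    ι × (Λ ⊕ Μ) → L := fun x => p x.1 * Sum.elim (fun _ => 0) (fun l => b * aeval p (ψ l)) x.2

/-- The tangent vector of the bundle over the tangent vector `t`. -/
noncomputable def tR {L : Type u} [Field L] [Algebra K L] (φ : Λ → MvPolynomial ι K) (ψ : Μ → MvPolynomial ι K)
    (p : ι → L) (a b : L) (t : ι → L) : ι × (Λ ⊕ Μ) → L := fun x => t x.1 * bw φ ψ p a b x.2 +
    p x.1 * Sum.elim (fun l => a * dif p (φ l) t) (fun l => b * dif p (ψ l) t) x.2

/-- The sum of two elements of absolute value at most `C`. -/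
theorem Y3_add {L : Type*} [Field L] (v : AbsoluteValue L ℝ) {x y : L} {C : ℝ} (h0 : 0 ≤ C) (hx : v x ≤ C)
    (hy : v y ≤ C) : v (x + y) ≤ cst v 2 * C := by
  have h := (VJ.SN_self v).sum_le (Finset.univ : Finset (Fin 2)) ![x, y] h0 (by
    intro i _
    fin_cases i
    · exact hx
    · exact hy)
  rw [Fin.sum_univ_two, Finset.card_univ, Fintype.card_fin] at h
  exact h

/-- `chart` at the points `p` with `|p|` the absolute value of the coordinate `i₀`, for all `i₀`. -/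
theorem Y3_chart {φ : Λ → MvPolynomial ι K} {d : ℕ} (hJh : ∀ F ∈ J, ∀ i, homogeneousComponent i F ∈ J)
    (hφ : ∀ l, (φ l).IsHomogeneous d) (hc : Car J φ) : ∃ κ : SC K, ∀ (L : Type u) [Field L] [Algebra K L]
      (v : AbsoluteValue L ℝ) (p : ι → L) (i₀ : ι), IsPt J p → p i₀ ≠ 0 → (∀ i, v (p i) ≤ v (p i₀)) →
      ∃ (l₀ : Λ) (r : Λ → L) (δ : Λ → ι → L), (∀ l, aeval p (φ l) = r l * aeval p (φ l₀)) ∧
        (∀ l, v (r l) ≤ κ.k v) ∧ (∀ l j, v (δ l j) ≤ κ.k v) ∧ ∀ l, ∀ t ∈ Tan J p,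
        dif p (φ l) t = r l * dif p (φ l₀) t + aeval p (φ l₀) * ((p i₀)⁻¹ * ∑ j, δ l j * t j) := by
  classical
  choose κ hκ using fun i₀ : ι => chart hc i₀
  obtain ⟨m, S, k, hm, h1⟩ := VA.Adm.family.{u, u} (fun (i : ι) (L : Type u) _ _ v => (κ i).k v)
    fun i => (κ i).adm
  refine ⟨VA.scOf m S k, fun L _ _ v p i₀ hp hi hmax => ?_⟩
  have hk : (κ i₀).k v ≤ (VA.scOf m S k).k v := (h1 i₀ L v).trans (VA.le_scOf hm S k v)
  have hc' : (p i₀)⁻¹ ≠ 0 := inv_ne_zero hi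
  have hvP : 0 < v (p i₀) := v.pos hi
  obtain ⟨l₀, r, δ, e1, e2, e3, e4⟩ := hκ i₀ L v (fun i => (p i₀)⁻¹ * p i)
    (IsPt_mul hJh hc' hp).2 (fun i => by
      rw [map_mul, map_inv₀, inv_mul_le_iff₀ hvP, mul_one]
      exact hmax i) (inv_mul_cancel₀ hi)
  rw [Tan_mul hJh hc'] at e4
  have hae : ∀ l, aeval p (φ l) = p i₀ ^ d * aeval (fun i => (p i₀)⁻¹ * p i) (φ l) := by
    intro l
    rw [aeval_mul (hφ l), ← mul_assoc, ← mul_pow, mul_inv_cancel₀ hi, one_pow, one_mul]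
  have hdi : ∀ l t, dif p (φ l) t = p i₀ ^ d * ((p i₀)⁻¹ * dif (fun i => (p i₀)⁻¹ * p i) (φ l) t) := by
    intro l t
    rw [dif_mul_left (hφ l), ← mul_assoc, ← mul_pow, mul_inv_cancel₀ hi, one_pow, one_mul]
  refine ⟨l₀, r, δ, fun l => ?_, fun l => (e2 l).trans hk, fun l j => (e3 l j).trans hk, fun l t ht => ?_⟩
  · rw [hae, hae, e1]
    ring
  · rw [hdi, hdi, hae, e4 l t ht]
    ring

/-- The upper bound for the minors of the tangent space at one absolute value. -/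
theorem place_le {φ : Λ → MvPolynomial ι K} {ψ : Μ → MvPolynomial ι K} {d₁ d₂ n : ℕ}
    (hJh : ∀ F ∈ J, ∀ i, homogeneousComponent i F ∈ J)
    (hφ : ∀ l, (φ l).IsHomogeneous d₁) (hψ : ∀ l, (ψ l).IsHomogeneous d₂) (hcφ : Car J φ) (hcψ : Car J ψ) :
    ∃ κ : SC K, ∀ (L : Type u) [Field L] [Algebra K L] (v : AbsoluteValue L ℝ) (p : ι → L) (a b : L)
      (V : Fin n → ι → L), IsPt J p → (∀ k, V k ∈ Tan J p) → (∃ l, aeval p (φ l) ≠ 0) → (∃ l, aeval p (ψ l) ≠ 0) →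
      ∀ x : Fin (n + 2) → ι × (Λ ⊕ Μ),
      v (Matrix.of fun c d => (Fin.cons (tE₁ φ p a) (Fin.cons (tE₂ ψ p b) fun k => tR φ ψ p a b (V k)) :
        Fin (n + 2) → ι × (Λ ⊕ Μ) → L) c (x d)).det ≤
      κ.k v * ((v a * v b) * ((⨆ i, v (p i)) *
        (⨆ s : Fin (n + 1) → ι, v (Matrix.of fun c d => (Fin.cons p V : Fin (n + 1) → ι → L) c (s d)).det) *
        ((⨆ l, v (aeval p (φ l))) * (⨆ l, v (aeval p (ψ l))) * (⨆ l, v (bw φ ψ p a b l)) ^ n))) := by
  classical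
  obtain ⟨κ₁, hκ₁⟩ := Y3_chart hJh hφ hcφ
  obtain ⟨κ₂, hκ₂⟩ := Y3_chart hJh hψ hcψ
  set κ' := κ₁.mul κ₂ with hκ'
  have hadm : VA.Adm.{u, u} K fun L _ _ v =>
      cst v ((n + 2) * ((n + 1) * Fintype.card ι ^ n)) * (cst v 2 * κ'.k v) ^ n :=
    (VA.Adm_cst _).mul (((VA.Adm_cst 2).mul κ'.adm fun L _ _ v => (κ'.pos v).le).pow
      (fun L _ _ v => mul_nonneg (VJ.cst_nonneg v _) (κ'.pos v).le) n)
      fun L _ _ v => pow_nonneg (mul_nonneg (VJ.cst_nonneg v _) (κ'.pos v).le) n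
  obtain ⟨κ, hκ⟩ := hadm.exists_SC
  refine ⟨κ, fun L _ _ v p a b V hp hV h1 h2 x => ?_⟩
  obtain ⟨j₀, hj₀⟩ := Function.ne_iff.1 hp.1
  have hne : Nonempty ι := ⟨j₀⟩
  obtain ⟨i₀, -, hi₀⟩ := Finset.exists_max_image Finset.univ (fun i => v (p i)) ⟨j₀, Finset.mem_univ _⟩
  have hmax : ∀ i, v (p i) ≤ v (p i₀) := fun i => hi₀ i (Finset.mem_univ i)
  have hvP : 0 < v (p i₀) := (v.pos hj₀).trans_le (hmax j₀)
  have hP : p i₀ ≠ 0 := v.pos_iff.1 hvP
  have hsup : (⨆ i, v (p i)) = v (p i₀) :=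
    le_antisymm (ciSup_le hmax) (le_ciSup (f := fun i => v (p i)) (Set.finite_range _).bddAbove i₀)
  obtain ⟨l₀, r, δ, e1, e2, e3, e4⟩ := hκ₁ L v p i₀ hp hP hmax
  obtain ⟨m₀, r', δ', f1, f2, f3, f4⟩ := hκ₂ L v p i₀ hp hP hmax
  have hφ0 : aeval p (φ l₀) ≠ 0 := by
    obtain ⟨l, hl⟩ := h1
    intro h
    rw [e1, h, mul_zero] at hl
    exact hl rfl
  have hψ0 : aeval p (ψ m₀) ≠ 0 := by
    obtain ⟨l, hl⟩ := h2
    intro h
    rw [f1, h, mul_zero] at hl
    exact hl rfl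
  have hk1 : κ₁.k v ≤ κ'.k v := κ₁.le_mul_left κ₂ v
  have hk2 : κ₂.k v ≤ κ'.k v := κ₁.le_mul_right κ₂ v
  set W : Fin n → ι → L := fun k i => V k i - V k i₀ / p i₀ * p i with hW
  have hWt : ∀ k, W k ∈ Tan J p := fun k =>
    Submodule.sub_mem _ (hV k) (Submodule.smul_mem _ (V k i₀ / p i₀) (self_mem_Tan hJh hp))
  have hVW : ∀ k, V k = W k + (V k i₀ / p i₀) • p := by
    intro k
    funext i
    rw [Pi.add_apply, Pi.smul_apply, smul_eq_mul, hW]
    ring
  have hdφ : ∀ k l, dif p (φ l) (V k) = dif p (φ l) (W k) + V k i₀ / p i₀ * (d₁ * aeval p (φ l)) := by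
    intro k l
    conv_lhs => rw [hVW k]
    rw [map_add, map_smul, smul_eq_mul, dif_self (hφ l)]
  have hdψ : ∀ k l, dif p (ψ l) (V k) = dif p (ψ l) (W k) + V k i₀ / p i₀ * (d₂ * aeval p (ψ l)) := by
    intro k l
    conv_lhs => rw [hVW k]
    rw [map_add, map_smul, smul_eq_mul, dif_self (hψ l)]
  -- the decomposition
  have hsumg : ∀ (k : Fin n) (i : ι) (ρ : L) (ε : ι → L),
      ∑ j, ((if j = i then ρ else 0) + p i * (p i₀)⁻¹ * ε j) * W k j =
        ρ * W k i + p i * ((p i₀)⁻¹ * ∑ j, ε j * W k j) := by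
    intro k i ρ ε
    simp only [add_mul, Finset.sum_add_distrib, ite_mul, zero_mul]
    rw [Finset.sum_ite_eq' Finset.univ i, if_pos (Finset.mem_univ i), Finset.mul_sum, Finset.mul_sum]
    congr 1
    refine Finset.sum_congr rfl fun j _ => ?_
    ring
  have hbd := det_bound v (tE₁ (Μ := Μ) φ p a) (tE₂ (Λ := Λ) ψ p b) (fun k => tR φ ψ p a b (V k))
    (fun k => V k i₀ / p i₀ * (1 + d₁) + dif p (φ l₀) (W k) / aeval p (φ l₀))
    (fun k => V k i₀ / p i₀ * (1 + d₂) + dif p (ψ m₀) (W k) / aeval p (ψ m₀))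
    (fun x => Sum.elim (fun _ => a * aeval p (φ l₀)) (fun _ => b * aeval p (ψ m₀)) x.2)
    (fun x j => Sum.elim (fun l => (if j = x.1 then r l else 0) + p x.1 * (p i₀)⁻¹ * δ l j)
      (fun l => (if j = x.1 then r' l else 0) + p x.1 * (p i₀)⁻¹ * δ' l j) x.2)
    W (by
      rintro k ⟨i, l | l⟩
      · simp only [tR, tE₁, tE₂, bw, Sum.elim_inl]
        rw [hsumg k i (r l) (δ l), hdφ, e4 l _ (hWt k), e1 l]
        have h3 : V k i = W k i + V k i₀ / p i₀ * p i := by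
          rw [hW]
          ring
        rw [h3]
        field_simp
        ring
      · simp only [tR, tE₁, tE₂, bw, Sum.elim_inr]
        rw [hsumg k i (r' l) (δ' l), hdψ, f4 l _ (hWt k), f1 l]
        have h3 : V k i = W k i + V k i₀ / p i₀ * p i := by
          rw [hW]
          ring
        rw [h3]
        field_simp
        ring)
    (e₁ := v (p i₀) * (v a * ⨆ l, v (aeval p (φ l)))) (e₂ := v (p i₀) * (v b * ⨆ l, v (aeval p (ψ l))))
    (w := ⨆ l, v (bw φ ψ p a b l)) (t := cst v 2 * κ'.k v)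
    (m := (v (p i₀))⁻¹ * ⨆ s : Fin (n + 1) → ι,
      v (Matrix.of fun c d => (Fin.cons p V : Fin (n + 1) → ι → L) c (s d)).det)
    ?_ ?_ ?_ ?_ ?_ ?_ ?_ ?_ ?_ ?_ x
  · refine hbd.trans ?_
    refine le_trans (le_of_eq ?_) (mul_le_mul_of_nonneg_right (hκ L v) ?_)
    · rw [hsup]
      field_simp
    · refine mul_nonneg (mul_nonneg (v.nonneg _) (v.nonneg _)) (mul_nonneg (mul_nonneg ?_ ?_)
        (mul_nonneg (mul_nonneg ?_ ?_) (pow_nonneg ?_ _)))
      all_goals exact Real.iSup_nonneg fun _ => v.nonneg _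
  · exact mul_nonneg hvP.le (mul_nonneg (v.nonneg _) (Real.iSup_nonneg fun _ => v.nonneg _))
  · exact mul_nonneg hvP.le (mul_nonneg (v.nonneg _) (Real.iSup_nonneg fun _ => v.nonneg _))
  · exact Real.iSup_nonneg fun _ => v.nonneg _
  · exact mul_nonneg (VJ.cst_nonneg v _) (κ'.pos v).le
  · exact mul_nonneg (inv_nonneg.2 hvP.le) (Real.iSup_nonneg fun _ => v.nonneg _)
  · rintro ⟨i, l | l⟩
    · simp only [tE₁, Sum.elim_inl, map_mul]
      exact mul_le_mul (hmax i) (mul_le_mul_of_nonneg_left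
        (le_ciSup (f := fun l => v (aeval p (φ l))) (Set.finite_range _).bddAbove l) (v.nonneg _))
        (mul_nonneg (v.nonneg _) (v.nonneg _)) hvP.le
    · simp only [tE₁, Sum.elim_inr, mul_zero, map_zero]
      exact mul_nonneg hvP.le (mul_nonneg (v.nonneg _) (Real.iSup_nonneg fun _ => v.nonneg _))
  · rintro ⟨i, l | l⟩
    · simp only [tE₂, Sum.elim_inl, mul_zero, map_zero]
      exact mul_nonneg hvP.le (mul_nonneg (v.nonneg _) (Real.iSup_nonneg fun _ => v.nonneg _))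
    · simp only [tE₂, Sum.elim_inr, map_mul]
      exact mul_le_mul (hmax i) (mul_le_mul_of_nonneg_left
        (le_ciSup (f := fun l => v (aeval p (ψ l))) (Set.finite_range _).bddAbove l) (v.nonneg _))
        (mul_nonneg (v.nonneg _) (v.nonneg _)) hvP.le
  · rintro ⟨i, l | l⟩
    · exact le_ciSup (f := fun l => v (bw φ ψ p a b l)) (Set.finite_range _).bddAbove (Sum.inl l₀)
    · exact le_ciSup (f := fun l => v (bw φ ψ p a b l)) (Set.finite_range _).bddAbove (Sum.inr m₀)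
  · have hx1 : ∀ i, v (p i * (p i₀)⁻¹) ≤ 1 := by
      intro i
      rw [map_mul, map_inv₀, ← div_eq_mul_inv, div_le_one hvP]
      exact hmax i
    rintro ⟨i, l | l⟩ j
    · refine Y3_add v (κ'.pos v).le ?_ ?_
      · split_ifs
        · exact (e2 l).trans hk1
        · rw [map_zero]
          exact (κ'.pos v).le
      · rw [map_mul]
        exact (mul_le_of_le_one_left (v.nonneg _) (hx1 i)).trans ((e3 l j).trans hk1)
    · refine Y3_add v (κ'.pos v).le ?_ ?_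
      · split_ifs
        · exact (f2 l).trans hk2
        · rw [map_zero]
          exact (κ'.pos v).le
      · rw [map_mul]
        exact (mul_le_of_le_one_left (v.nonneg _) (hx1 i)).trans ((f3 l j).trans hk2)
  · intro s
    rw [le_inv_mul_iff₀ hvP]
    exact minor_bound v p V hP s

end

end Pool.Agent.Lib.MP_17a322_nt.BI
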